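import Mathlib

/-! Discrete optimal control: Euler trajectories, costates, stationarity. -/

set_option autoImplicit false

open Set Filter Topology
open scoped ContDiff RealInnerProductSpace

noncomputable section

namespace Pool.Agent.H782.Am

variable {V U : Type} [NormedAddCommGroup V] [NormedSpace ℝ V]
  [NormedAddCommGroup U] [InnerProductSpace ℝ U]

/-- One Euler step. -/
def stp (G : V → U →L[ℝ] V) (h : ℝ) (u : U) (x : V) : V := x + h • G x u

/-- Euler trajectory. -/
def tr (G : V → U →L[ℝ] V) (h : ℝ) (u : ℕ → U) (x0 : V) : ℕ → V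
  | 0 => x0
  | i + 1 => stp G h (u i) (tr G h u x0 i)

/-- Run `k` Euler steps starting with control index `j`. -/
def run (G : V → U →L[ℝ] V) (h : ℝ) (u : ℕ → U) : ℕ → ℕ → V → V
  | _, 0, x => x
  | j, k + 1, x => run G h u (j + 1) k (stp G h (u j) x)

variable {G : V → U →L[ℝ] V} {h : ℝ} {x0 : V}

lemma run_tr (u : ℕ → U) (k : ℕ) : ∀ i, run G h u i k (tr G h u x0 i) = tr G h u x0 (i + k) := by
  induction k with
  | zero => intro i; rfl
  | succ k ih =>
    intro i
    have := ih (i + 1)
    rw [show i + (k + 1) = i + 1 + k by ring, ← this]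
    rfl

lemma run_congr {u u' : ℕ → U} (k : ℕ) : ∀ j, (∀ i, j ≤ i → u i = u' i) →
    run G h u j k = run G h u' j k := by
  induction k with
  | zero => intro j _; rfl
  | succ k ih =>
    intro j hj
    funext x
    show run G h u (j + 1) k (stp G h (u j) x) = run G h u' (j + 1) k (stp G h (u' j) x)
    rw [ih (j + 1) (fun i hi => hj i (by omega)), hj j le_rfl]

lemma tr_congr {u u' : ℕ → U} : ∀ i, (∀ j, j < i → u j = u' j) →
    tr G h u x0 i = tr G h u' x0 i := by
  intro i
  induction i with
  | zero => intro _; rfl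
  | succ i ih =>
    intro hi
    show stp G h (u i) (tr G h u x0 i) = stp G h (u' i) (tr G h u' x0 i)
    rw [ih (fun j hj => hi j (by omega)), hi i (by omega)]

lemma contDiff_stp (hG : ContDiff ℝ 1 G) (u : U) : ContDiff ℝ 1 (stp G h u) := by
  unfold stp
  exact contDiff_id.add (contDiff_const.smul (hG.clm_apply contDiff_const))

lemma contDiff_run (hG : ContDiff ℝ 1 G) (u : ℕ → U) (k : ℕ) :
    ∀ j, ContDiff ℝ 1 (run G h u j k) := by
  induction k with
  | zero => intro j; exact contDiff_id
  | succ k ih => intro j; exact (ih (j + 1)).comp (contDiff_stp hG (u j))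

lemma hasFDerivAt_stp (hG : ContDiff ℝ 1 G) (u : U) (x : V) :
    HasFDerivAt (stp G h u) (ContinuousLinearMap.id ℝ V + h • (fderiv ℝ G x).flip u) x := by
  unfold stp
  have h1 : HasFDerivAt (fun x => G x u) ((fderiv ℝ G x).flip u) x := by
    have h2 : HasFDerivAt G (fderiv ℝ G x) x := (hG.differentiable (by simp) x).hasFDerivAt
    have h3 := h2.clm_apply (hasFDerivAt_const u x)
    convert h3 using 1
    ext v
    simp
  exact (hasFDerivAt_id x).add (h1.const_smul h)

/-- The costate. -/
def lam (G : V → U →L[ℝ] V) (h : ℝ) (q : V → ℝ) (u : ℕ → U) (x0 : V) (m j : ℕ) : V →L[ℝ] ℝ :=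
  fderiv ℝ (fun x => q (run G h u j (m - j) x)) (tr G h u x0 j)

variable {q : V → ℝ}

lemma lam_last (u : ℕ → U) (m : ℕ) : lam G h q u x0 m m = fderiv ℝ q (tr G h u x0 m) := by
  unfold lam
  rw [Nat.sub_self]
  rfl

lemma lam_step (hG : ContDiff ℝ 1 G) (hq : ContDiff ℝ 1 q) (u : ℕ → U) {m j : ℕ} (hj : j < m) :
    lam G h q u x0 m j = (lam G h q u x0 m (j + 1)).comp
      (ContinuousLinearMap.id ℝ V + h • (fderiv ℝ G (tr G h u x0 j)).flip (u j)) := by
  unfold lam
  have h1 : m - j = (m - (j + 1)) + 1 := by omega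
  rw [h1]
  have h2 : (fun x => q (run G h u j (m - (j + 1) + 1) x))
      = (fun x => q (run G h u (j + 1) (m - (j + 1)) x)) ∘ (stp G h (u j)) := rfl
  rw [h2]
  have h3 : DifferentiableAt ℝ (fun x => q (run G h u (j + 1) (m - (j + 1)) x))
      (stp G h (u j) (tr G h u x0 j)) :=
    ((hq.comp (contDiff_run hG u (m - (j + 1)) (j + 1))).differentiable (by simp)).differentiableAt
  rw [fderiv_comp _ h3 (hasFDerivAt_stp hG (u j) _).differentiableAt,
    (hasFDerivAt_stp hG (u j) _).fderiv]
  rfl

/-- Extension of a finite control sequence by zero. -/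
def ext (m : ℕ) (u : Fin m → U) (i : ℕ) : U := if hi : i < m then u ⟨i, hi⟩ else 0

/-- The discrete cost. -/
def cost (G : V → U →L[ℝ] V) (h : ℝ) (q : V → ℝ) (x0 : V) (m : ℕ) (u : Fin m → U) : ℝ :=
  h / 2 * ∑ i, ‖u i‖ ^ 2 + q (tr G h (ext m u) x0 m)

lemma continuous_tr (hG : Continuous G) (m : ℕ) (i : ℕ) :
    Continuous (fun u : Fin m → U => tr G h (ext m u) x0 i) := by
  induction i with
  | zero => exact continuous_const
  | succ i ih =>
    show Continuous (fun u : Fin m → U => tr G h (ext m u) x0 i + h • G (tr G h (ext m u) x0 i) (ext m u i))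
    have h1 : Continuous (fun u : Fin m → U => ext m u i) := by
      unfold ext
      split_ifs with hi
      · exact continuous_apply _
      · exact continuous_const
    exact ih.add (((hG.comp ih).clm_apply h1).const_smul h)

lemma exists_min [FiniteDimensional ℝ U] (hG : Continuous G) (hq : Continuous q)
    (hq0 : ∀ x, 0 ≤ q x) (hh : 0 < h) (m : ℕ) :
    ∃ u : Fin m → U, ∀ v, cost G h q x0 m u ≤ cost G h q x0 m v := by
  have hc : Continuous (cost G h q x0 m) := by
    unfold cost
    refine Continuous.add ?_ (hq.comp (continuous_tr hG m m))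
    exact continuous_const.mul (continuous_finsetSum _ fun i _ => ((continuous_apply i).norm.pow 2))
  have hlim : Tendsto (cost G h q x0 m) (cocompact (Fin m → U)) atTop := by
    have h1 : Tendsto (fun u : Fin m → U => h / 2 * ‖u‖ ^ 2) (cocompact _) atTop := by
      refine Tendsto.const_mul_atTop (by positivity) ?_
      exact (tendsto_pow_atTop (by norm_num)).comp tendsto_norm_cocompact_atTop
    refine tendsto_atTop_mono (fun u => ?_) h1
    unfold cost
    have h2 : ‖u‖ ^ 2 ≤ ∑ i, ‖u i‖ ^ 2 := by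
      have h0 : ‖u‖ ≤ Real.sqrt (∑ i, ‖u i‖ ^ 2) := by
        refine (pi_norm_le_iff_of_nonneg (Real.sqrt_nonneg _)).2 fun i => ?_
        refine Real.le_sqrt_of_sq_le ?_
        exact Finset.single_le_sum (f := fun i => ‖u i‖ ^ 2) (fun _ _ => by positivity)
          (Finset.mem_univ i)
      calc ‖u‖ ^ 2 ≤ (Real.sqrt (∑ i, ‖u i‖ ^ 2)) ^ 2 := by gcongr
        _ = _ := Real.sq_sqrt (Finset.sum_nonneg fun _ _ => by positivity)
    have h3 := hq0 (tr G h (ext m u) x0 m)
    nlinarith
  exact hc.exists_forall_le hlim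

lemma stationary (hG : ContDiff ℝ 1 G) (hq : ContDiff ℝ 1 q) (hh : 0 < h) {m : ℕ}
    {u : Fin m → U} (hu : ∀ v, cost G h q x0 m u ≤ cost G h q x0 m v) {i : ℕ} (hi : i < m)
    (a : U) :
    ⟪ext m u i, a⟫ = -(lam G h q (ext m u) x0 m (i + 1)) (G (tr G h (ext m u) x0 i) a) := by
  set e : Fin m → U := Pi.single ⟨i, hi⟩ a with he
  set f : ℝ → ℝ := fun s => cost G h q x0 m (u + s • e) with hf
  have hmin : IsLocalMin f 0 := by
    refine Filter.Eventually.of_forall fun s => ?_
    simp only [hf, zero_smul, add_zero]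
    exact hu _
  -- trajectory at time `i` unchanged
  have hext : ∀ (s : ℝ) (j : ℕ), ext m (u + s • e) j = if j = i then ext m u j + s • a else ext m u j := by
    intro s j
    unfold ext
    by_cases hj : j < m
    · simp only [hj, dif_pos]
      by_cases hji : j = i
      · subst hji
        simp [he]
      · simp only [hji, if_false]
        have : (⟨j, hj⟩ : Fin m) ≠ ⟨i, hi⟩ := by
          intro h; apply hji; simpa using congrArg Fin.val h
        simp [he, Pi.single_eq_of_ne this]
    · have hji : j ≠ i := by omega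
      simp [hj, hji]
  have h1 : ∀ s : ℝ, q (tr G h (ext m (u + s • e)) x0 m)
      = (fun x => q (run G h (ext m u) (i + 1) (m - (i + 1)) x))
        (tr G h (ext m u) x0 (i + 1) + s • (h • G (tr G h (ext m u) x0 i) a)) := by
    intro s
    have h2 : tr G h (ext m (u + s • e)) x0 m
        = run G h (ext m (u + s • e)) (i + 1) (m - (i + 1)) (tr G h (ext m (u + s • e)) x0 (i + 1)) := by
      rw [run_tr]; congr 1; omega
    rw [h2]
    have h3 : run G h (ext m (u + s • e)) (i + 1) (m - (i + 1))
        = run G h (ext m u) (i + 1) (m - (i + 1)) := by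
      apply run_congr
      intro j hj
      rw [hext, if_neg (by omega)]
    have h4 : tr G h (ext m (u + s • e)) x0 (i + 1)
        = tr G h (ext m u) x0 (i + 1) + s • (h • G (tr G h (ext m u) x0 i) a) := by
      have h5 : tr G h (ext m (u + s • e)) x0 i = tr G h (ext m u) x0 i := by
        apply tr_congr
        intro j hj
        rw [hext, if_neg (by omega)]
      show stp G h (ext m (u + s • e) i) (tr G h (ext m (u + s • e)) x0 i)
        = stp G h (ext m u i) (tr G h (ext m u) x0 i) + _
      rw [h5, hext, if_pos rfl]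
      unfold stp
      rw [map_add, map_smul, smul_add, add_assoc, smul_comm]
    rw [h3, h4]
  have hd1 : HasDerivAt (fun s : ℝ => h / 2 * ∑ j, ‖(u + s • e) j‖ ^ 2) (h * ⟪ext m u i, a⟫) 0 := by
    have h2 : ∀ j : Fin m, HasDerivAt (fun s : ℝ => ‖(u + s • e) j‖ ^ 2) (2 * ⟪u j, e j⟫) 0 := by
      intro j
      have h3 : HasDerivAt (fun s : ℝ => (u + s • e) j) (e j) 0 := by
        have h4 : HasDerivAt (fun s : ℝ => u j + s • e j) ((1 : ℝ) • e j) 0 :=
          ((hasDerivAt_id (0 : ℝ)).smul_const (e j)).const_add (u j)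
        rw [one_smul] at h4
        exact h4
      have h5 := h3.norm_sq
      simpa using h5
    have h6 := (HasDerivAt.fun_sum (u := Finset.univ) (fun j _ => h2 j)).const_mul (h / 2)
    have h7 : ∑ j : Fin m, 2 * ⟪u j, e j⟫ = 2 * ⟪ext m u i, a⟫ := by
      rw [Finset.sum_eq_single (⟨i, hi⟩ : Fin m)]
      · simp [he, ext, hi]
      · intro j _ hj
        simp [he, Pi.single_eq_of_ne hj]
      · intro hj; exact absurd (Finset.mem_univ _) hj
    rw [h7] at h6
    have h8 : h * ⟪ext m u i, a⟫ = h / 2 * (2 * ⟪ext m u i, a⟫) := by ring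
    rw [h8]
    exact h6
  have hd2 : HasDerivAt (fun s : ℝ => q (tr G h (ext m (u + s • e)) x0 m))
      ((lam G h q (ext m u) x0 m (i + 1)) (h • G (tr G h (ext m u) x0 i) a)) 0 := by
    simp only [h1]
    have h2 : DifferentiableAt ℝ (fun x => q (run G h (ext m u) (i + 1) (m - (i + 1)) x))
        (tr G h (ext m u) x0 (i + 1) + (0 : ℝ) • (h • G (tr G h (ext m u) x0 i) a)) :=
      ((hq.comp (contDiff_run hG _ _ _)).differentiable (by simp)).differentiableAt
    have h3 : HasDerivAt (fun s : ℝ => tr G h (ext m u) x0 (i + 1) + s • (h • G (tr G h (ext m u) x0 i) a))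
        (h • G (tr G h (ext m u) x0 i) a) 0 := by
      have := ((hasDerivAt_id (0 : ℝ)).smul_const (h • G (tr G h (ext m u) x0 i) a)).const_add
        (tr G h (ext m u) x0 (i + 1))
      simpa using this
    have h4 := h2.hasFDerivAt.comp_hasDerivAt (0 : ℝ) h3
    have h5 : lam G h q (ext m u) x0 m (i + 1)
        = fderiv ℝ (fun x => q (run G h (ext m u) (i + 1) (m - (i + 1)) x))
        (tr G h (ext m u) x0 (i + 1) + (0 : ℝ) • (h • G (tr G h (ext m u) x0 i) a)) := by
      unfold lam
      rw [zero_smul, add_zero]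
    rw [h5]
    exact h4
  have hd : HasDerivAt f (h * ⟪ext m u i, a⟫
      + (lam G h q (ext m u) x0 m (i + 1)) (h • G (tr G h (ext m u) x0 i) a)) 0 := hd1.add hd2
  have h0 := hmin.hasDerivAt_eq_zero hd
  rw [map_smul, smul_eq_mul, ← mul_add] at h0
  have := (mul_eq_zero.1 h0).resolve_left hh.ne'
  linarith

end Pool.Agent.H782.Am
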