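import Mathlib

/-! Convergence of Euler type schemes. -/

set_option autoImplicit false

open Set Filter Topology
open scoped ContDiff NNReal

noncomputable section

namespace Pool.Agent.H782.Am

variable {W : Type*} [NormedAddCommGroup W] [NormedSpace ℝ W]

lemma euler_step {H : W → W} {K : ℝ≥0} {B : ℝ} (hL : LipschitzWith K H) (hB : ∀ w, ‖H w‖ ≤ B)
    {X : ℝ → W} (hX : ∀ t, HasDerivAt X (H (X t)) t) (t h : ℝ) (hh : 0 ≤ h) :
    ‖X (t + h) - X t - h • H (X t)‖ ≤ K * B * h ^ 2 := by
  have hlip : ∀ s, 0 ≤ s → ‖X (t + s) - X t‖ ≤ B * s := by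
    intro s hs
    have h1 := (convex_univ (𝕜 := ℝ) (E := ℝ)).norm_image_sub_le_of_norm_hasDerivWithin_le (f := X)
      (f' := fun t => H (X t)) (C := B) (fun x _ => (hX x).hasDerivWithinAt) (fun x _ => hB _)
      (mem_univ t) (mem_univ (t + s))
    simpa [abs_of_nonneg hs] using h1
  have hB0 : 0 ≤ B := (norm_nonneg _).trans (hB 0)
  set f : ℝ → W := fun s => X (t + s) - s • H (X t) with hf
  have hfd : ∀ s ∈ Icc 0 h, HasDerivWithinAt f (H (X (t + s)) - H (X t)) (Icc 0 h) s := by
    intro s _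
    have h1 : HasDerivAt (fun s => X (t + s)) (H (X (t + s))) s := by
      have := (hX (t + s)).scomp s ((hasDerivAt_id s).const_add t)
      rw [one_smul] at this
      exact this
    have h2 : HasDerivAt (fun s : ℝ => s • H (X t)) (H (X t)) s := by
      simpa using (hasDerivAt_id s).smul_const (H (X t))
    exact (h1.sub h2).hasDerivWithinAt
  have hbd : ∀ s ∈ Ico 0 h, ‖H (X (t + s)) - H (X t)‖ ≤ K * B * h := by
    intro s hs
    have h1 := hL.norm_sub_le (X (t + s)) (X t)
    have h2 := hlip s hs.1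
    calc ‖H (X (t + s)) - H (X t)‖ ≤ K * ‖X (t + s) - X t‖ := h1
      _ ≤ K * (B * s) := by gcongr
      _ ≤ K * (B * h) := by gcongr; exact hs.2.le
      _ = K * B * h := by ring
  have h3 := norm_image_sub_le_of_norm_deriv_le_segment' (f := f) hfd hbd h ⟨hh, le_rfl⟩
  have h4 : f h - f 0 = X (t + h) - X t - h • H (X t) := by
    simp only [hf, add_zero, zero_smul, sub_zero]
    abel
  rw [h4] at h3
  calc _ ≤ K * B * h * (h - 0) := h3
    _ = K * B * h ^ 2 := by ring

lemma euler_conv {H : W → W} {K : ℝ≥0} {B C : ℝ} (hL : LipschitzWith K H) (hB : ∀ w, ‖H w‖ ≤ B)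
    {X : ℝ → W} (hX : ∀ t, HasDerivAt X (H (X t)) t) {Y : ℕ → W} {h : ℝ} (hh : 0 ≤ h) (hC : 0 ≤ C)
    {m : ℕ} (hm : h * m ≤ 1)
    (hY : ∀ i, i < m → ‖Y (i + 1) - Y i - h • H (Y i)‖ ≤ C * h ^ 2) :
    ∀ i, i ≤ m → ‖Y i - X (h * i)‖ ≤ (‖Y 0 - X 0‖ + (C + K * B) * h) * Real.exp K := by
  have hB0 : 0 ≤ B := (norm_nonneg _).trans (hB 0)
  have key : ∀ i, i ≤ m → ‖Y i - X (h * i)‖
      ≤ (‖Y 0 - X 0‖ + (C + K * B) * h * (h * i)) * (1 + K * h) ^ i := by
    intro i
    induction i with
    | zero => intro _; simp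
    | succ i ih =>
      intro hi
      have h1 := ih (by omega)
      have h2 := hY i (by omega)
      have h3 := euler_step hL hB hX (h * i) h hh
      have h4 := hL.norm_sub_le (Y i) (X (h * i))
      have h5 : Y (i + 1) - X (h * (i + 1 : ℕ))
          = (Y (i + 1) - Y i - h • H (Y i)) - (X (h * i + h) - X (h * i) - h • H (X (h * i)))
            + (Y i - X (h * i)) + h • (H (Y i) - H (X (h * i))) := by
        have : h * ((i + 1 : ℕ) : ℝ) = h * i + h := by push_cast; ring
        rw [this, smul_sub]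
        abel
      have h6 : ‖Y (i + 1) - X (h * (i + 1 : ℕ))‖
          ≤ C * h ^ 2 + K * B * h ^ 2 + ‖Y i - X (h * i)‖ + h * (K * ‖Y i - X (h * i)‖) := by
        rw [h5]
        refine (norm_add_le _ _).trans (add_le_add ((norm_add_le _ _).trans (add_le_add
          ((norm_sub_le _ _).trans (add_le_add h2 h3)) le_rfl)) ?_)
        rw [norm_smul, Real.norm_of_nonneg hh]
        gcongr
      have h7 : (1 : ℝ) ≤ (1 + K * h) ^ (i + 1) := one_le_pow₀ (by
        have : (0 : ℝ) ≤ K * h := by positivity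
        linarith)
      calc _ ≤ C * h ^ 2 + K * B * h ^ 2 + ‖Y i - X (h * i)‖ + h * (K * ‖Y i - X (h * i)‖) := h6
        _ = (C + K * B) * h ^ 2 + (1 + K * h) * ‖Y i - X (h * i)‖ := by ring
        _ ≤ (C + K * B) * h ^ 2 * (1 + K * h) ^ (i + 1) + (1 + K * h) *
            ((‖Y 0 - X 0‖ + (C + K * B) * h * (h * i)) * (1 + K * h) ^ i) := by
            refine add_le_add ?_ ?_
            · refine le_mul_of_one_le_right ?_ h7
              positivity
            · gcongr
        _ = _ := by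
            push_cast
            ring
  intro i hi
  have h1 := key i hi
  have h2 : h * (i : ℝ) ≤ 1 := by
    refine le_trans ?_ hm
    gcongr
  have h3 : (1 + K * h : ℝ) ^ i ≤ Real.exp K := by
    have h4 : (1 + K * h : ℝ) ≤ Real.exp (K * h) := by
      have := Real.add_one_le_exp (K * h : ℝ)
      linarith
    calc (1 + K * h : ℝ) ^ i ≤ (Real.exp (K * h)) ^ i := by
          gcongr
      _ = Real.exp (K * (h * i)) := by rw [← Real.exp_nat_mul]; congr 1; ring
      _ ≤ Real.exp K := by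
          apply Real.exp_le_exp.2
          calc (K : ℝ) * (h * i) ≤ K * 1 := by gcongr
            _ = K := mul_one _
  refine h1.trans ?_
  have h5 : (C + K * B) * h * (h * i) ≤ (C + K * B) * h := by
    have : 0 ≤ (C + K * B) * h := by positivity
    nlinarith
  gcongr

end Pool.Agent.H782.Am
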