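import Mathlib
import Pool.Agent.H782.Am.Disc
import Pool.Agent.H782.Am.Euler

/-! Bounds for discrete minimisers. -/

set_option autoImplicit false
set_option linter.unusedSectionVars false
set_option linter.deprecated false

open Set Filter Topology
open scoped ContDiff RealInnerProductSpace NNReal

noncomputable section

namespace Pool.Agent.H782.Am

variable {V U : Type} [NormedAddCommGroup V] [NormedSpace ℝ V]
  [NormedAddCommGroup U] [InnerProductSpace ℝ U] [FiniteDimensional ℝ U]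

variable (U) in
/-- Riesz map. -/
def sharp : (U →L[ℝ] ℝ) →L[ℝ] U :=
  ∑ i, (ContinuousLinearMap.apply ℝ ℝ (stdOrthonormalBasis ℝ U i)).smulRight
    (stdOrthonormalBasis ℝ U i)

lemma inner_sharp (φ : U →L[ℝ] ℝ) (a : U) : ⟪sharp U φ, a⟫ = φ a := by
  unfold sharp
  rw [ContinuousLinearMap.sum_apply, sum_inner]
  simp only [ContinuousLinearMap.smulRight_apply, ContinuousLinearMap.apply_apply,
    real_inner_smul_left]
  conv_rhs => rw [← (stdOrthonormalBasis ℝ U).sum_repr a, map_sum]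
  refine Finset.sum_congr rfl fun i _ => ?_
  rw [map_smul, smul_eq_mul, mul_comm, OrthonormalBasis.repr_apply_apply]

lemma norm_sharp_le (φ : U →L[ℝ] ℝ) : ‖sharp U φ‖ ≤ ‖φ‖ := by
  have h1 : ‖sharp U φ‖ * ‖sharp U φ‖ ≤ ‖φ‖ * ‖sharp U φ‖ := by
    rw [← real_inner_self_eq_norm_mul_norm, inner_sharp]
    exact (le_abs_self _).trans (φ.le_opNorm _)
  rcases eq_or_lt_of_le (norm_nonneg (sharp U φ)) with h0 | h0
  · rw [← h0]; exact norm_nonneg _
  · exact le_of_mul_le_mul_right h1 h0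

/-- The optimal control as function of state and costate. -/
def uh (G : V → U →L[ℝ] V) (w : V × (V →L[ℝ] ℝ)) : U := -(sharp U (w.2.comp (G w.1)))

lemma inner_uh (G : V → U →L[ℝ] V) (w : V × (V →L[ℝ] ℝ)) (a : U) :
    ⟪uh G w, a⟫ = -(w.2 (G w.1 a)) := by
  unfold uh
  rw [inner_neg_left, inner_sharp]
  rfl

/-- The Hamiltonian vector field. -/
def Hm (G : V → U →L[ℝ] V) (w : V × (V →L[ℝ] ℝ)) : V × (V →L[ℝ] ℝ) :=
  (G w.1 (uh G w), -(w.2.comp ((fderiv ℝ G w.1).flip (uh G w))))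

lemma contDiff_uh {G : V → U →L[ℝ] V} (hG : ContDiff ℝ ∞ G) : ContDiff ℝ ∞ (uh G) := by
  unfold uh
  exact ((sharp U).contDiff.comp (contDiff_snd.clm_comp (hG.comp contDiff_fst))).neg

lemma contDiff_Hm {G : V → U →L[ℝ] V} (hG : ContDiff ℝ ∞ G) : ContDiff ℝ ∞ (Hm G) := by
  unfold Hm
  have h1 : ContDiff ℝ ∞ (fderiv ℝ G) := hG.fderiv_right (by simp)
  have h2 : ContDiff ℝ ∞ (fun w : V × (V →L[ℝ] ℝ) => (fderiv ℝ G w.1).flip) :=
    (ContinuousLinearMap.flipₗᵢ ℝ V U V).contDiff.comp (h1.comp contDiff_fst)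
  refine ContDiff.prodMk ((hG.comp contDiff_fst).clm_apply (contDiff_uh hG)) ?_
  exact (contDiff_snd.clm_comp (h2.clm_apply (contDiff_uh hG))).neg

lemma norm_uh_sub_le {G : V → U →L[ℝ] V} {K : ℝ} (hK : ∀ x, ‖G x‖ ≤ K) (x : V)
    (l l' : V →L[ℝ] ℝ) : ‖uh G (x, l) - uh G (x, l')‖ ≤ K * ‖l - l'‖ := by
  have h1 : uh G (x, l) - uh G (x, l') = -(sharp U ((l - l').comp (G x))) := by
    unfold uh
    simp only [ContinuousLinearMap.sub_comp, map_sub]
    abel
  rw [h1, norm_neg]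
  calc _ ≤ ‖(l - l').comp (G x)‖ := norm_sharp_le _
    _ ≤ ‖l - l'‖ * ‖G x‖ := ContinuousLinearMap.opNorm_comp_le _ _
    _ ≤ ‖l - l'‖ * K := by gcongr; exact hK x
    _ = _ := mul_comm _ _

variable {G : V → U →L[ℝ] V} {q : V → ℝ} {x0 : V}

lemma sum_norm_le {m : ℕ} (hm : 0 < m) {u : Fin m → U} (hq0 : ∀ x, 0 ≤ q x) {E1 : ℝ}
    (hE : cost G (1 / m) q x0 m u ≤ E1) :
    (1 / m : ℝ) * ∑ i ∈ Finset.range m, ‖ext m u i‖ ≤ 1 / 2 + E1 := by
  have h1 : ∑ i ∈ Finset.range m, ‖ext m u i‖ = ∑ i : Fin m, ‖u i‖ := by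
    rw [Finset.sum_range]
    refine Finset.sum_congr rfl fun i _ => ?_
    unfold ext
    rw [dif_pos i.2]
  rw [h1]
  have h2 : ∑ i : Fin m, ‖u i‖ ≤ ∑ i : Fin m, (1 / 2 + 1 / 2 * ‖u i‖ ^ 2) := by
    refine Finset.sum_le_sum fun i _ => ?_
    nlinarith [sq_nonneg (‖u i‖ - 1)]
  have h3 : ∑ i : Fin m, (1 / 2 + 1 / 2 * ‖u i‖ ^ 2) = m / 2 + 1 / 2 * ∑ i, ‖u i‖ ^ 2 := by
    rw [Finset.sum_add_distrib, ← Finset.mul_sum]
    simp
    ring
  have hm' : (0 : ℝ) < m := by exact_mod_cast hm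
  unfold cost at hE
  have h4 := hq0 (tr G (1 / m) (ext m u) x0 m)
  calc (1 / m : ℝ) * ∑ i : Fin m, ‖u i‖ ≤ (1 / m : ℝ) * (m / 2 + 1 / 2 * ∑ i, ‖u i‖ ^ 2) := by
        rw [← h3]; gcongr
    _ = 1 / 2 + (1 / m) / 2 * ∑ i, ‖u i‖ ^ 2 := by field_simp
    _ ≤ 1 / 2 + E1 := by linarith

lemma tr_bound {m : ℕ} {u : ℕ → U} {h K B : ℝ} (hh : 0 ≤ h) (hK : ∀ x, ‖G x‖ ≤ K)
    (hB : h * ∑ i ∈ Finset.range m, ‖u i‖ ≤ B) :
    ∀ i, i ≤ m → ‖tr G h u x0 i - x0‖ ≤ K * B := by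
  have hK0 : 0 ≤ K := (norm_nonneg _).trans (hK 0)
  have h1 : ∀ i, ‖tr G h u x0 i - x0‖ ≤ K * (h * ∑ j ∈ Finset.range i, ‖u j‖) := by
    intro i
    induction i with
    | zero => simp [tr]
    | succ i ih =>
      have h2 : tr G h u x0 (i + 1) - x0 = (tr G h u x0 i - x0) + h • G (tr G h u x0 i) (u i) := by
        show stp G h (u i) (tr G h u x0 i) - x0 = _
        unfold stp
        abel
      rw [h2, Finset.sum_range_succ]
      refine (norm_add_le _ _).trans ?_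
      have h3 : ‖h • G (tr G h u x0 i) (u i)‖ ≤ h * (K * ‖u i‖) := by
        rw [norm_smul, Real.norm_of_nonneg hh]
        gcongr
        exact (G _).le_of_opNorm_le (hK _) _
      linarith
  intro i hi
  refine (h1 i).trans ?_
  gcongr
  refine le_trans ?_ hB
  gcongr

lemma lam_bound (hG : ContDiff ℝ 1 G) (hq : ContDiff ℝ 1 q) {m : ℕ} {u : ℕ → U} {h K B Cq : ℝ}
    (hh : 0 ≤ h) (hK' : ∀ x, ‖fderiv ℝ G x‖ ≤ K)
    (hB : h * ∑ i ∈ Finset.range m, ‖u i‖ ≤ B)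
    (hCq : ‖fderiv ℝ q (tr G h u x0 m)‖ ≤ Cq) :
    ∀ i, i ≤ m → ‖lam G h q u x0 m i‖ ≤ Cq * Real.exp (K * B) := by
  have hK0 : 0 ≤ K := (ContinuousLinearMap.opNorm_nonneg _).trans (hK' 0)
  have hCq0 : 0 ≤ Cq := (norm_nonneg _).trans hCq
  set s : ℕ → ℝ := fun j => h * ∑ i ∈ Finset.range j, ‖u i‖ with hs
  have key : ∀ k, k ≤ m → ‖lam G h q u x0 m (m - k)‖ * Real.exp (K * s (m - k))
      ≤ Cq * Real.exp (K * s m) := by
    intro k
    induction k with
    | zero =>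
      intro _
      rw [Nat.sub_zero, lam_last]
      gcongr
    | succ k ih =>
      intro hk
      have h1 := ih (by omega)
      set j := m - (k + 1) with hj
      have hjm : j < m := by omega
      have hj1 : m - k = j + 1 := by omega
      rw [hj1] at h1
      have h2 : ‖lam G h q u x0 m j‖ ≤ ‖lam G h q u x0 m (j + 1)‖ * (1 + h * (K * ‖u j‖)) := by
        rw [lam_step hG hq u hjm]
        refine (ContinuousLinearMap.opNorm_comp_le _ _).trans ?_
        gcongr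
        refine (norm_add_le _ _).trans (add_le_add ContinuousLinearMap.norm_id_le ?_)
        rw [norm_smul, Real.norm_of_nonneg hh]
        gcongr
        refine ((fderiv ℝ G _).flip.le_opNorm _).trans ?_
        rw [ContinuousLinearMap.opNorm_flip]
        gcongr
        exact hK' _
      have h3 : s (j + 1) = s j + h * ‖u j‖ := by
        simp only [hs, Finset.sum_range_succ]; ring
      have h4 : 1 + h * (K * ‖u j‖) ≤ Real.exp (h * (K * ‖u j‖)) := by
        have := Real.add_one_le_exp (h * (K * ‖u j‖)); linarith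
      calc ‖lam G h q u x0 m j‖ * Real.exp (K * s j)
          ≤ ‖lam G h q u x0 m (j + 1)‖ * Real.exp (h * (K * ‖u j‖)) * Real.exp (K * s j) := by
            gcongr
            exact h2.trans (by gcongr)
        _ = ‖lam G h q u x0 m (j + 1)‖ * Real.exp (K * s (j + 1)) := by
            rw [mul_assoc, ← Real.exp_add, h3]; congr 2; ring
        _ ≤ _ := h1
  intro i hi
  have h1 := key (m - i) (by omega)
  rw [show m - (m - i) = i by omega] at h1
  have hs0 : 0 ≤ s i := by simp only [hs]; positivity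
  have h2 : (1 : ℝ) ≤ Real.exp (K * s i) := Real.one_le_exp (by positivity)
  calc ‖lam G h q u x0 m i‖ ≤ ‖lam G h q u x0 m i‖ * Real.exp (K * s i) :=
        le_mul_of_one_le_right (norm_nonneg _) h2
    _ ≤ _ := h1
    _ ≤ _ := by gcongr

end Pool.Agent.H782.Am
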