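import Mathlib
import Pool.Graph.R_seed8.W795.Ode
import Pool.Graph.R_pool_sql_team_seeded_843ab51a.V11199.PL.LocalFlow

/-! Tools on ordinary differential equations. -/

set_option autoImplicit false

open Set Filter Topology
open scoped ContDiff

namespace Pool.Agent.H782.Am

section

variable {V : Type*} [NormedAddCommGroup V] [NormedSpace ℝ V]

/-- Uniqueness: a solution that stays in an open set where the field is smooth agrees with every
curve that solves the equation as long as it is in the open set. -/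
theorem uniq_open {F : V → V} {O : Set V} (hO : IsOpen O)
    (hF : ∀ x ∈ O, ContDiffAt ℝ 1 F x) {a b : ℝ → V} {T : ℝ}
    (ha : ∀ t ∈ Icc 0 T, a t ∈ O) (ha' : ∀ t ∈ Icc 0 T, HasDerivAt a (F (a t)) t)
    (hbc : ContinuousOn b (Icc 0 T))
    (hb : ∀ t ∈ Icc 0 T, b t ∈ O → HasDerivAt b (F (b t)) t) (h0 : a 0 = b 0) :
    ∀ t ∈ Icc 0 T, a t = b t := by
  rcases lt_or_ge T 0 with hT | hT
  · intro t ht; exact absurd (ht.1.trans ht.2) (not_le.2 hT)
  have hac : ContinuousOn a (Icc 0 T) := fun t ht => (ha' t ht).continuousAt.continuousWithinAt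
  have hcl : IsClosed ({t | a t = b t} ∩ Icc 0 T) := by
    have h1 := (hac.sub hbc).preimage_isClosed_of_isClosed isClosed_Icc
      (isClosed_singleton (x := (0 : V)))
    convert h1 using 1
    ext t
    simp only [mem_inter_iff, mem_setOf_eq, mem_preimage, mem_singleton_iff, Pi.sub_apply,
      sub_eq_zero]
    tauto
  have key : Icc 0 T ⊆ {t | a t = b t} := by
    refine hcl.Icc_subset_of_forall_mem_nhdsWithin h0 ?_
    rintro x ⟨hx, hx0, hxT⟩
    have hx : a x = b x := hx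
    have hxI : x ∈ Icc 0 T := ⟨hx0, hxT.le⟩
    obtain ⟨K, s, hs, hL⟩ := (hF _ (ha x hxI)).exists_lipschitzOnWith
    have h1 : s ∩ O ∈ 𝓝 (a x) := inter_mem hs (hO.mem_nhds (ha x hxI))
    have e1 : ∀ᶠ t in 𝓝[Icc 0 T] x, a t ∈ s ∩ O := (hac x hxI) h1
    have e2 : ∀ᶠ t in 𝓝[Icc 0 T] x, b t ∈ s ∩ O := (hbc x hxI) (hx ▸ h1)
    have e3 : ∀ᶠ t in 𝓝[≥] x, (a t ∈ s ∩ O ∧ b t ∈ s ∩ O) ∧ t ∈ Icc 0 T := by
      have hmem : Icc 0 T ∈ 𝓝[≥] x := by
        have : Icc x T ∈ 𝓝[≥] x := Icc_mem_nhdsGE hxT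
        exact mem_of_superset this (Icc_subset_Icc_left hx0)
      have hle : 𝓝[≥] x ≤ 𝓝[Icc 0 T] x := by
        rw [nhdsWithin]
        refine le_inf (nhdsWithin_le_nhds) ?_
        exact Filter.le_principal_iff.2 hmem
      exact ((e1.filter_mono hle).and (e2.filter_mono hle)).and hmem
    obtain ⟨u, hu, hsub⟩ := mem_nhdsGE_iff_exists_Icc_subset.1 e3
    have hux : x < u := hu
    have hEq := ODE_solution_unique_of_mem_Icc_right (v := fun _ => F) (s := fun _ => s ∩ O)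
      (K := K) (f := a) (g := b) (a := x) (b := u) (fun t _ => hL.mono inter_subset_left)
      (fun t ht => (ha' t (hsub ht).2).continuousAt.continuousWithinAt)
      (fun t ht => (ha' t (hsub ⟨ht.1, ht.2.le⟩).2).hasDerivWithinAt)
      (fun t ht => (hsub ⟨ht.1, ht.2.le⟩).1.1)
      (fun t ht => (hb t (hsub ht).2 (hsub ht).1.2.2).continuousAt.continuousWithinAt)
      (fun t ht => (hb t (hsub ⟨ht.1, ht.2.le⟩).2 (hsub ⟨ht.1, ht.2.le⟩).1.2.2).hasDerivWithinAt)
      (fun t ht => (hsub ⟨ht.1, ht.2.le⟩).1.2) hx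
    have : Ioc x u ∈ 𝓝[>] x := Ioc_mem_nhdsGT hux
    exact mem_of_superset this fun t ht => hEq ⟨ht.1.le, ht.2⟩
  intro t ht
  exact key ht

/-- Linear differential inequality on an interval. -/
theorem lin_zero {D D' : ℝ → V} {K T : ℝ}
    (h : ∀ s ∈ Icc (0 : ℝ) T, HasDerivAt D (D' s) s)
    (hb : ∀ s ∈ Icc (0 : ℝ) T, ‖D' s‖ ≤ K * ‖D s‖) (h0 : D 0 = 0) :
    ∀ s ∈ Icc (0 : ℝ) T, D s = 0 := by
  refine eq_zero_of_abs_deriv_le_mul_abs_self_of_eq_zero_right
    (fun s hs => (h s hs).continuousAt.continuousWithinAt)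
    (fun s hs => (h s ⟨hs.1, hs.2.le⟩).hasDerivWithinAt) h0
    (fun s hs => hb s ⟨hs.1, hs.2.le⟩)

end

end Pool.Agent.H782.Am
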