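import Mathlib
import Pool.Agent.H782.Am.Al1
import Pool.Agent.H782.Am.Ode

/-! Discrete minimisers converge to solutions of the Hamiltonian equation. -/

set_option autoImplicit false
set_option linter.unusedSectionVars false
set_option linter.deprecated false

open Set Filter Topology
open scoped ContDiff RealInnerProductSpace NNReal

noncomputable section

namespace Pool.Agent.H782.Am

variable {V U : Type} [NormedAddCommGroup V] [NormedSpace ℝ V]
  [NormedAddCommGroup U] [InnerProductSpace ℝ U] [FiniteDimensional ℝ U]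

variable {G : V → U →L[ℝ] V} {q : V → ℝ} {x0 : V}

lemma ctrl_eq (hG : ContDiff ℝ 1 G) (hq : ContDiff ℝ 1 q) {h : ℝ} (hh : 0 < h) {m : ℕ}
    {u : Fin m → U} (hu : ∀ v, cost G h q x0 m u ≤ cost G h q x0 m v) {i : ℕ} (hi : i < m) :
    ext m u i = uh G (tr G h (ext m u) x0 i, lam G h q (ext m u) x0 m (i + 1)) := by
  refine ext_inner_right ℝ fun a => ?_
  rw [stationary hG hq hh hu hi a, inner_uh]

lemma ctrl_bound (hG : ContDiff ℝ 1 G) (hq : ContDiff ℝ 1 q) {h : ℝ} (hh : 0 < h) {m : ℕ}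
    {u : Fin m → U} (hu : ∀ v, cost G h q x0 m u ≤ cost G h q x0 m v) {K L : ℝ}
    (hK : ∀ x, ‖G x‖ ≤ K) (hL0 : 0 ≤ L) (hL : ∀ i, i ≤ m → ‖lam G h q (ext m u) x0 m i‖ ≤ L) (i : ℕ) :
    ‖ext m u i‖ ≤ K * L := by
  have hK0 : 0 ≤ K := (ContinuousLinearMap.opNorm_nonneg _).trans (hK 0)
  by_cases hi : i < m
  · rw [ctrl_eq hG hq hh hu hi]
    unfold uh
    rw [norm_neg]
    refine (norm_sharp_le _).trans ((ContinuousLinearMap.opNorm_comp_le _ _).trans ?_)
    rw [mul_comm]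
    exact mul_le_mul (hK _) (hL _ (by omega)) (norm_nonneg _) hK0
  · have : ext m u i = 0 := by unfold ext; rw [dif_neg hi]
    rw [this, norm_zero]
    positivity

lemma lam_diff (hG : ContDiff ℝ 1 G) (hq : ContDiff ℝ 1 q) {h : ℝ} (hh : 0 < h) {m : ℕ}
    {u : ℕ → U} {K L U1 : ℝ} (hK' : ∀ x, ‖fderiv ℝ G x‖ ≤ K) (hL0 : 0 ≤ L)
    (hL : ∀ i, i ≤ m → ‖lam G h q u x0 m i‖ ≤ L) (hU : ∀ i, ‖u i‖ ≤ U1) {i : ℕ}
    (hi : i < m) :
    ‖lam G h q u x0 m (i + 1) - lam G h q u x0 m i‖ ≤ h * (L * (K * U1)) := by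
  have hK0 : 0 ≤ K := (ContinuousLinearMap.opNorm_nonneg _).trans (hK' 0)
  have h1 : lam G h q u x0 m (i + 1) - lam G h q u x0 m i
      = -(h • (lam G h q u x0 m (i + 1)).comp ((fderiv ℝ G (tr G h u x0 i)).flip (u i))) := by
    rw [lam_step hG hq u hi, ContinuousLinearMap.comp_add, ContinuousLinearMap.comp_id,
      ContinuousLinearMap.comp_smul]
    abel
  rw [h1, norm_neg, norm_smul, Real.norm_of_nonneg hh.le]
  gcongr
  refine (ContinuousLinearMap.opNorm_comp_le _ _).trans ?_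
  gcongr
  · exact hL _ (by omega)
  · refine ((fderiv ℝ G _).flip.le_opNorm _).trans ?_
    rw [ContinuousLinearMap.opNorm_flip]
    exact mul_le_mul (hK' _) (hU _) (norm_nonneg _) hK0

lemma consist (hG : ContDiff ℝ 1 G) (hq : ContDiff ℝ 1 q) {h : ℝ} (hh : 0 < h) {m : ℕ}
    {u : Fin m → U} (hu : ∀ v, cost G h q x0 m u ≤ cost G h q x0 m v) {K L U1 : ℝ}
    (hK : ∀ x, ‖G x‖ ≤ K) (hK' : ∀ x, ‖fderiv ℝ G x‖ ≤ K) (hL0 : 0 ≤ L)
    (hL : ∀ i, i ≤ m → ‖lam G h q (ext m u) x0 m i‖ ≤ L) (hU : ∀ i, ‖ext m u i‖ ≤ U1) {i : ℕ}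
    (hi : i < m) :
    ‖((tr G h (ext m u) x0 (i + 1), lam G h q (ext m u) x0 m (i + 1)) : V × (V →L[ℝ] ℝ))
      - (tr G h (ext m u) x0 i, lam G h q (ext m u) x0 m i)
      - h • Hm G (tr G h (ext m u) x0 i, lam G h q (ext m u) x0 m i)‖
      ≤ ((K * K + K * U1 + L * (K * K)) * (L * (K * U1))) * h ^ 2 := by
  have hK0 : 0 ≤ K := (ContinuousLinearMap.opNorm_nonneg _).trans (hK 0)
  have hU0 : 0 ≤ U1 := (norm_nonneg _).trans (hU 0)
  set x := tr G h (ext m u) x0 i with hx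
  set l := lam G h q (ext m u) x0 m i with hl
  set l' := lam G h q (ext m u) x0 m (i + 1) with hl'
  set v := ext m u i with hv
  have hd : ‖l' - l‖ ≤ h * (L * (K * U1)) := lam_diff hG hq hh hK' hL0 hL hU hi
  have hv1 : v = uh G (x, l') := ctrl_eq hG hq hh hu hi
  have hv2 : ‖v - uh G (x, l)‖ ≤ K * ‖l' - l‖ := by
    rw [hv1]; exact norm_uh_sub_le hK x l' l
  have h1 : tr G h (ext m u) x0 (i + 1) = x + h • G x v := rfl
  have h2 : l = l' + h • l'.comp ((fderiv ℝ G x).flip v) := by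
    rw [hl, lam_step hG hq _ hi, ContinuousLinearMap.comp_add, ContinuousLinearMap.comp_id,
      ContinuousLinearMap.comp_smul]
  have e1 : tr G h (ext m u) x0 (i + 1) - x - h • (G x (uh G (x, l)))
      = h • G x (v - uh G (x, l)) := by
    rw [h1, map_sub, smul_sub]; abel
  have e2 : l' - l - h • (-(l.comp ((fderiv ℝ G x).flip (uh G (x, l)))))
      = -(h • (l' - l).comp ((fderiv ℝ G x).flip v))
        - h • (l.comp ((fderiv ℝ G x).flip (v - uh G (x, l)))) := by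
    have h3 : l' - l = -(h • l'.comp ((fderiv ℝ G x).flip v)) := by
      rw [sub_eq_iff_eq_add, h2]; abel
    nth_rewrite 1 [h3]
    rw [ContinuousLinearMap.sub_comp, map_sub, ContinuousLinearMap.comp_sub, smul_sub, smul_sub]
    rw [smul_neg]
    abel
  have n1 : ‖h • G x (v - uh G (x, l))‖ ≤ h * (K * (K * (h * (L * (K * U1))))) := by
    rw [norm_smul, Real.norm_of_nonneg hh.le]
    gcongr
    refine ((G x).le_of_opNorm_le (hK x) _).trans ?_
    gcongr
    exact hv2.trans (by gcongr)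
  have n2 : ‖-(h • (l' - l).comp ((fderiv ℝ G x).flip v))
        - h • (l.comp ((fderiv ℝ G x).flip (v - uh G (x, l))))‖
      ≤ h * ((h * (L * (K * U1))) * (K * U1)) + h * (L * (K * (K * (h * (L * (K * U1)))))) := by
    refine (norm_sub_le _ _).trans (add_le_add ?_ ?_)
    · rw [norm_neg, norm_smul, Real.norm_of_nonneg hh.le]
      gcongr
      refine (ContinuousLinearMap.opNorm_comp_le _ _).trans ?_
      gcongr
      refine ((fderiv ℝ G _).flip.le_opNorm _).trans ?_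
      rw [ContinuousLinearMap.opNorm_flip]
      exact mul_le_mul (hK' _) (hU _) (norm_nonneg _) hK0
    · rw [norm_smul, Real.norm_of_nonneg hh.le]
      gcongr
      refine (ContinuousLinearMap.opNorm_comp_le _ _).trans ?_
      gcongr
      · exact hL _ (by omega)
      · refine ((fderiv ℝ G _).flip.le_opNorm _).trans ?_
        rw [ContinuousLinearMap.opNorm_flip]
        refine mul_le_mul (hK' _) (hv2.trans (by gcongr)) (norm_nonneg _) hK0
  have e3 : ((tr G h (ext m u) x0 (i + 1), l') : V × (V →L[ℝ] ℝ)) - (x, l) - h • Hm G (x, l)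
      = (h • G x (v - uh G (x, l)), -(h • (l' - l).comp ((fderiv ℝ G x).flip v))
        - h • (l.comp ((fderiv ℝ G x).flip (v - uh G (x, l))))) := by
    rw [← e1, ← e2]
    rfl
  rw [e3]
  refine norm_prod_le_iff.2 ⟨n1.trans ?_, n2.trans ?_⟩
  · have : 0 ≤ (K * U1 + L * (K * K)) * (L * (K * U1)) * h ^ 2 := by positivity
    nlinarith
  · have : 0 ≤ (K * K) * (L * (K * U1)) * h ^ 2 := by positivity
    nlinarith

lemma hasDerivAt_inner_uh (hG : ContDiff ℝ 1 G) {w : ℝ → V × (V →L[ℝ] ℝ)} {t : ℝ}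
    (hw : HasDerivAt w (Hm G (w t)) t) (a : U) :
    HasDerivAt (fun s => ⟪uh G (w s), a⟫)
      ((w t).2 (fderiv ℝ G (w t).1 (G (w t).1 a) (uh G (w t))
        - fderiv ℝ G (w t).1 (G (w t).1 (uh G (w t))) a)) t := by
  have h1 : HasDerivAt (fun s => (w s).1) (G (w t).1 (uh G (w t))) t := hw.fst
  have h2 : HasDerivAt (fun s => (w s).2)
      (-((w t).2.comp ((fderiv ℝ G (w t).1).flip (uh G (w t))))) t := hw.snd
  have h3 : HasDerivAt (fun s => G (w s).1) (fderiv ℝ G (w t).1 (G (w t).1 (uh G (w t)))) t :=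
    ((hG.differentiable (by simp) (w t).1).hasFDerivAt).comp_hasDerivAt t h1
  have h4 : HasDerivAt (fun s => G (w s).1 a)
      (fderiv ℝ G (w t).1 (G (w t).1 (uh G (w t))) a) t := by
    have := h3.clm_apply (hasDerivAt_const t a)
    simpa using this
  have h5 := (h2.clm_apply h4).neg
  have h6 : (fun s => ⟪uh G (w s), a⟫) = fun s => -((w s).2 (G (w s).1 a)) := by
    funext s; rw [inner_uh]
  rw [h6]
  refine h5.congr_deriv ?_
  simp only [ContinuousLinearMap.neg_apply, ContinuousLinearMap.comp_apply,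
    ContinuousLinearMap.flip_apply, map_sub]
  ring

lemma norm_uh_const (hG : ContDiff ℝ ∞ G) {w : ℝ → V × (V →L[ℝ] ℝ)}
    (hw : ∀ t ∈ Icc (0 : ℝ) 1, HasDerivAt w (Hm G (w t)) t) :
    ∀ t ∈ Icc (0 : ℝ) 1, ‖uh G (w t)‖ = ‖uh G (w 0)‖ := by
  have hd : ∀ t ∈ Icc (0 : ℝ) 1, HasDerivAt (fun s => ‖uh G (w s)‖ ^ 2) 0 t := by
    intro t ht
    have h1 : HasDerivAt (fun s => uh G (w s)) (fderiv ℝ (uh G) (w t) (Hm G (w t))) t :=
      (((contDiff_uh hG).differentiable (by simp) (w t)).hasFDerivAt).comp_hasDerivAt t (hw t ht)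
    have h2 := h1.norm_sq
    have h3 : HasDerivAt (fun s => ⟪uh G (w s), uh G (w t)⟫)
        (⟪fderiv ℝ (uh G) (w t) (Hm G (w t)), uh G (w t)⟫) t := by
      have := h1.inner ℝ (hasDerivAt_const t (uh G (w t)))
      simpa using this
    have h4 := hasDerivAt_inner_uh (hG.of_le (by simp)) (hw t ht) (uh G (w t))
    have h5 := h3.unique h4
    rw [sub_self, map_zero] at h5
    rw [real_inner_comm] at h5
    rw [h5, mul_zero] at h2
    exact h2
  intro t ht
  have h1 := constant_of_has_deriv_right_zero (f := fun s => ‖uh G (w s)‖ ^ 2) (a := 0) (b := 1)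
    (fun s hs => (hd s hs).continuousAt.continuousWithinAt)
    (fun s hs => (hd s ⟨hs.1, hs.2.le⟩).hasDerivWithinAt) t ht
  have h2 : ‖uh G (w t)‖ ^ 2 = ‖uh G (w 0)‖ ^ 2 := h1
  exact (sq_eq_sq₀ (norm_nonneg _) (norm_nonneg _)).1 h2

end Pool.Agent.H782.Am
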