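import Mathlib
import Pool.Agent.H782.Am.Al2

/-! The limit theorem. -/

set_option autoImplicit false
set_option linter.unusedSectionVars false
set_option linter.deprecated false

open Set Filter Topology
open scoped ContDiff RealInnerProductSpace NNReal

noncomputable section

namespace Pool.Agent.H782.Am

variable {V U : Type} [NormedAddCommGroup V] [NormedSpace ℝ V] [FiniteDimensional ℝ V]
  [NormedAddCommGroup U] [InnerProductSpace ℝ U] [FiniteDimensional ℝ U]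

variable {G : V → U →L[ℝ] V} {q : V → ℝ}

lemma uh_lip {K R : ℝ} (hG : ContDiff ℝ 1 G) (hK : ∀ x, ‖G x‖ ≤ K) (hK' : ∀ x, ‖fderiv ℝ G x‖ ≤ K)
    (w w' : V × (V →L[ℝ] ℝ)) (hw' : ‖w'‖ ≤ R) :
    ‖uh G w - uh G w'‖ ≤ (K + R * K) * ‖w - w'‖ := by
  have hK0 : 0 ≤ K := (ContinuousLinearMap.opNorm_nonneg _).trans (hK 0)
  have hR0 : 0 ≤ R := (norm_nonneg _).trans hw'
  have h1 : ‖uh G (w.1, w.2) - uh G (w.1, w'.2)‖ ≤ K * ‖w.2 - w'.2‖ := norm_uh_sub_le hK _ _ _
  have h2 : uh G (w.1, w'.2) - uh G (w'.1, w'.2) = -(sharp U (w'.2.comp (G w.1 - G w'.1))) := by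
    unfold uh
    simp only [ContinuousLinearMap.comp_sub, map_sub]
    abel
  have h3 : ‖G w.1 - G w'.1‖ ≤ K * ‖w.1 - w'.1‖ := by
    have h4 := (convex_univ (𝕜 := ℝ) (E := V)).norm_image_sub_le_of_norm_fderiv_le (f := G) (C := K)
      (fun x _ => hG.differentiable (by simp) x) (fun x _ => hK' x) (mem_univ w'.1) (mem_univ w.1)
    exact h4
  have h4 : ‖w.1 - w'.1‖ ≤ ‖w - w'‖ := norm_fst_le (w - w')
  have h5 : ‖w.2 - w'.2‖ ≤ ‖w - w'‖ := norm_snd_le (w - w')
  have h6 : ‖w'.2‖ ≤ R := (norm_snd_le w').trans hw'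
  have h7 : ‖uh G (w.1, w'.2) - uh G (w'.1, w'.2)‖ ≤ R * (K * ‖w.1 - w'.1‖) := by
    rw [h2, norm_neg]
    refine (norm_sharp_le _).trans ((ContinuousLinearMap.opNorm_comp_le _ _).trans ?_)
    gcongr
  calc ‖uh G w - uh G w'‖ = ‖(uh G (w.1, w.2) - uh G (w.1, w'.2))
        + (uh G (w.1, w'.2) - uh G (w'.1, w'.2))‖ := by congr 1; abel
    _ ≤ K * ‖w.2 - w'.2‖ + R * (K * ‖w.1 - w'.1‖) := (norm_add_le _ _).trans (add_le_add h1 h7)
    _ ≤ K * ‖w - w'‖ + R * (K * ‖w - w'‖) := by gcongr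
    _ = _ := by ring

lemma exists_fderiv_bound (hG : ContDiff ℝ ∞ G) (hGc : HasCompactSupport G) :
    ∃ K, (∀ x, ‖fderiv ℝ G x‖ ≤ K) := by
  obtain ⟨K, hK⟩ := hG.lipschitzWith_of_hasCompactSupport hGc (by simp)
  exact ⟨K, fun x => norm_fderiv_le_of_lipschitz ℝ hK⟩

theorem al (hG : ContDiff ℝ ∞ G) (hGc : HasCompactSupport G) (hq : ContDiff ℝ 1 q)
    (hq0 : ∀ x, 0 ≤ q x) (x0 : V) (E0 : ℝ) (mk : ℕ → ℕ) (hmk : Tendsto mk atTop atTop)
    (hpos : ∀ k, 0 < mk k) (e : ℕ → ℝ) (he : Tendsto e atTop (𝓝 0))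
    (href : ∀ k, ∃ v : Fin (mk k) → U, cost G (1 / (mk k)) q x0 (mk k) v ≤ E0 + e k) :
    ∃ w : ℝ → V × (V →L[ℝ] ℝ), (w 0).1 = x0 ∧
      (∀ t ∈ Icc (0 : ℝ) 1, HasDerivAt w (Hm G (w t)) t) ∧
      (w 1).2 = fderiv ℝ q (w 1).1 ∧ ‖uh G (w 0)‖ ^ 2 / 2 + q (w 1).1 ≤ E0 := by
  have hG1 : ContDiff ℝ 1 G := hG.of_le (by simp)
  -- bounds
  obtain ⟨Ka, hKa⟩ := hGc.exists_bound_of_continuous hG.continuous
  obtain ⟨Kb, hKb⟩ := exists_fderiv_bound hG hGc
  set K := max Ka Kb with hKdef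
  have hK : ∀ x, ‖G x‖ ≤ K := fun x => (hKa x).trans (le_max_left _ _)
  have hK' : ∀ x, ‖fderiv ℝ G x‖ ≤ K := fun x => (hKb x).trans (le_max_right _ _)
  have hK0 : 0 ≤ K := (ContinuousLinearMap.opNorm_nonneg _).trans (hK 0)
  obtain ⟨e1, he1⟩ := he.bddAbove_range
  have he1' : ∀ k, e k ≤ e1 := fun k => he1 ⟨k, rfl⟩
  set E1 := E0 + e1 with hE1
  have hh : ∀ k, (0 : ℝ) < 1 / (mk k) := fun k => by
    have : (0 : ℝ) < mk k := by exact_mod_cast hpos k
    positivity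
  choose u hu using fun k => exists_min (G := G) (q := q) (x0 := x0) (h := 1 / (mk k)) hG.continuous hq.continuous hq0
    (hh k) (mk k)
  have hcost : ∀ k, cost G (1 / (mk k)) q x0 (mk k) (u k) ≤ E0 + e k := fun k => by
    obtain ⟨v, hv⟩ := href k
    exact (hu k v).trans hv
  have hcost1 : ∀ k, cost G (1 / (mk k)) q x0 (mk k) (u k) ≤ E1 := fun k => (hcost k).trans (by
    rw [hE1]; linarith [he1' k])
  set B1 := 1 / 2 + E1 with hB1
  have hsum : ∀ k, (1 / (mk k) : ℝ) * ∑ i ∈ Finset.range (mk k), ‖ext (mk k) (u k) i‖ ≤ B1 :=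
    fun k => sum_norm_le (hpos k) hq0 (hcost1 k)
  have hB10 : 0 ≤ B1 := le_trans (by have := hh 0; positivity) (hsum 0)
  have htr : ∀ k i, i ≤ mk k → ‖tr G (1 / (mk k)) (ext (mk k) (u k)) x0 i - x0‖ ≤ K * B1 :=
    fun k => tr_bound (hh k).le hK (hsum k)
  obtain ⟨Cq, hCq⟩ := (isCompact_closedBall x0 (K * B1)).exists_bound_of_continuousOn
    (hq.continuous_fderiv (by simp)).continuousOn
  have hCq0 : 0 ≤ Cq := (ContinuousLinearMap.opNorm_nonneg _).trans (hCq x0 (by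
    simp only [Metric.mem_closedBall, dist_self]; positivity))
  set L := Cq * Real.exp (K * B1) with hLdef
  have hL0 : 0 ≤ L := by positivity
  have hL : ∀ k i, i ≤ mk k → ‖lam G (1 / (mk k)) q (ext (mk k) (u k)) x0 (mk k) i‖ ≤ L := by
    intro k
    refine lam_bound hG1 hq (hh k).le hK' (hsum k) ?_
    apply hCq
    rw [Metric.mem_closedBall, dist_eq_norm]
    exact htr k _ le_rfl
  set U1 := K * L with hU1
  have hU : ∀ k i, ‖ext (mk k) (u k) i‖ ≤ U1 := fun k i =>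
    ctrl_bound hG1 hq (hh k) (hu k) hK hL0 (hL k) i
  have hU0 : 0 ≤ U1 := by positivity
  set C2 := (K * K + K * U1 + L * (K * K)) * (L * (K * U1)) with hC2
  have hC20 : 0 ≤ C2 := by positivity
  set Y : ℕ → ℕ → V × (V →L[ℝ] ℝ) := fun k i =>
    (tr G (1 / (mk k)) (ext (mk k) (u k)) x0 i, lam G (1 / (mk k)) q (ext (mk k) (u k)) x0 (mk k) i)
    with hY
  have hcons : ∀ k i, i < mk k → ‖Y k (i + 1) - Y k i - (1 / (mk k) : ℝ) • Hm G (Y k i)‖
      ≤ C2 * (1 / (mk k) : ℝ) ^ 2 := fun k i hi =>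
    consist hG1 hq (hh k) (hu k) hK hK' hL0 (hL k) (hU k) hi
  set R0 := ‖x0‖ + K * B1 + L with hR0
  have hR00 : 0 ≤ R0 := by positivity
  have hYb : ∀ k i, i ≤ mk k → ‖Y k i‖ ≤ R0 := by
    intro k i hi
    refine norm_prod_le_iff.2 ⟨?_, ?_⟩
    · have h1 := htr k i hi
      have h2 : ‖tr G (1 / (mk k)) (ext (mk k) (u k)) x0 i‖ ≤ ‖x0‖ + K * B1 := by
        calc _ = ‖x0 + (tr G (1 / (mk k)) (ext (mk k) (u k)) x0 i - x0)‖ := by congr 1; abel
          _ ≤ _ := (norm_add_le _ _).trans (by gcongr)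
      rw [hR0]; linarith
    · have h1 := hL k i hi
      have h2 : 0 ≤ ‖x0‖ + K * B1 := by positivity
      rw [hR0]; exact h1.trans (by linarith)
  -- truncated field
  set f : ContDiffBump (0 : V × (V →L[ℝ] ℝ)) := ⟨R0 + 1, R0 + 2, by positivity, by linarith⟩
    with hf
  set H : V × (V →L[ℝ] ℝ) → V × (V →L[ℝ] ℝ) := fun w => f w • Hm G w with hH
  have hHeq : ∀ w, ‖w‖ ≤ R0 + 1 → H w = Hm G w := by
    intro w hw
    have : f w = 1 := f.one_of_mem_closedBall (by simpa using hw)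
    simp only [hH, this, one_smul]
  have hHc : ContDiff ℝ ∞ H := f.contDiff.smul (contDiff_Hm hG)
  have hHs : HasCompactSupport H := f.hasCompactSupport.smul_right
  obtain ⟨F, hF1, hF0, hFd, -⟩ := Pool.Agent.V11199.PL.exists_flow hHc hHs
  obtain ⟨KL, hKL⟩ := hHc.lipschitzWith_of_hasCompactSupport hHs (by simp)
  obtain ⟨B, hB⟩ := hHs.exists_bound_of_continuous hHc.continuous
  have hB0 : 0 ≤ B := (norm_nonneg _).trans (hB 0)
  -- subsequence
  have hbdd : ∀ k, (Y k 0).2 ∈ Metric.closedBall (0 : V →L[ℝ] ℝ) R0 := by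
    intro k
    rw [mem_closedBall_zero_iff]
    exact (norm_snd_le (Y k 0)).trans (hYb k 0 (Nat.zero_le _))
  obtain ⟨l0, -, φ, hφ, hl0⟩ := tendsto_subseq_of_bounded Metric.isBounded_closedBall hbdd
  set X : ℝ → V × (V →L[ℝ] ℝ) := fun t => F t (x0, l0) with hX
  have hXd : ∀ t, HasDerivAt X (H (X t)) t := fun t => hFd t _
  have hX0 : X 0 = (x0, l0) := hF0 _
  set ε : ℕ → ℝ := fun k => (‖Y (φ k) 0 - X 0‖ + (C2 + KL * B) * (1 / (mk (φ k)))) * Real.exp KL
    with hε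
  have hconv : ∀ k i, i ≤ mk (φ k) → ‖Y (φ k) i - X ((1 / (mk (φ k))) * i)‖ ≤ ε k := by
    intro k
    refine euler_conv hKL hB hXd (hh _).le hC20 ?_ ?_
    · have : (0 : ℝ) < mk (φ k) := by exact_mod_cast hpos _
      rw [one_div, inv_mul_cancel₀ this.ne']
    · intro i hi
      rw [hHeq _ ((hYb (φ k) i hi.le).trans (by linarith))]
      exact hcons _ _ hi
  have hmφ : Tendsto (fun k => (1 / (mk (φ k)) : ℝ)) atTop (𝓝 0) := by
    have h1 : Tendsto (fun k => ((mk (φ k) : ℕ) : ℝ)) atTop atTop :=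
      tendsto_natCast_atTop_atTop.comp (hmk.comp hφ.tendsto_atTop)
    simp only [one_div]
    exact tendsto_inv_atTop_zero.comp h1
  have hε0 : Tendsto ε atTop (𝓝 0) := by
    have h1 : Tendsto (fun k => Y (φ k) 0 - X 0) atTop (𝓝 0) := by
      have h2 : Tendsto (fun k => Y (φ k) 0) atTop (𝓝 (x0, l0)) := by
        refine Filter.Tendsto.prodMk_nhds ?_ hl0
        exact tendsto_const_nhds
      rw [hX0]
      simpa using h2.sub_const (x0, l0)
    have h3 := ((h1.norm.add (hmφ.const_mul (C2 + KL * B))).mul_const (Real.exp KL))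
    simpa [hε] using h3
  -- Lipschitz in time
  have hXlip : ∀ s t, ‖X t - X s‖ ≤ B * |t - s| := by
    intro s t
    have h1 := (convex_univ (𝕜 := ℝ) (E := ℝ)).norm_image_sub_le_of_norm_hasDerivWithin_le (f := X)
      (f' := fun t => H (X t)) (C := B) (fun x _ => (hXd x).hasDerivWithinAt) (fun x _ => hB _)
      (mem_univ s) (mem_univ t)
    simpa using h1
  have hXb : ∀ t ∈ Icc (0 : ℝ) 1, ‖X t‖ ≤ R0 := by
    intro t ht
    have h1 : ∀ k, ‖X t‖ ≤ B * (1 / (mk (φ k))) + ε k + R0 := by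
      intro k
      set m := mk (φ k) with hm
      have hm0 : (0 : ℝ) < m := by exact_mod_cast hpos _
      set i := ⌊t * m⌋₊ with hi
      have h2 : (i : ℝ) ≤ t * m := Nat.floor_le (by have := ht.1; positivity)
      have h3 : t * m < i + 1 := Nat.lt_floor_add_one _
      have him : i ≤ m := by
        have : (i : ℝ) ≤ m := h2.trans (by have := ht.2; nlinarith)
        exact_mod_cast this
      have h4 : |t - (1 / m) * i| ≤ 1 / m := by
        rw [abs_le]
        constructor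
        · have : (1 / m : ℝ) * i ≤ t := by
            rw [one_div, inv_mul_le_iff₀ hm0]; linarith
          have h5 : (0 : ℝ) < 1 / m := by positivity
          linarith
        · have : t ≤ (1 / m : ℝ) * (i + 1) := by
            rw [one_div, le_inv_mul_iff₀ hm0]; linarith
          linarith
      have h5 := hXlip ((1 / m) * i) t
      have h6 := hconv k i him
      have h7 := hYb (φ k) i him
      calc ‖X t‖ = ‖(X t - X ((1 / m) * i)) - (Y (φ k) i - X ((1 / m) * i)) + Y (φ k) i‖ := by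
            congr 1; abel
        _ ≤ B * |t - (1 / m) * i| + ε k + R0 :=
            (norm_add_le _ _).trans (add_le_add ((norm_sub_le _ _).trans (add_le_add h5 h6)) h7)
        _ ≤ _ := by gcongr
    have h2 : Tendsto (fun k => B * (1 / (mk (φ k)) : ℝ) + ε k + R0) atTop (𝓝 R0) := by
      have := ((hmφ.const_mul B).add hε0).add_const R0
      simpa using this
    exact ge_of_tendsto' h2 h1
  have hXH : ∀ t ∈ Icc (0 : ℝ) 1, HasDerivAt X (Hm G (X t)) t := by
    intro t ht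
    have := hXd t
    rwa [hHeq _ ((hXb t ht).trans (by linarith))] at this
  -- endpoint
  have hYend : Tendsto (fun k => Y (φ k) (mk (φ k))) atTop (𝓝 (X 1)) := by
    rw [tendsto_iff_norm_sub_tendsto_zero]
    refine squeeze_zero (fun _ => norm_nonneg _) (fun k => ?_) hε0
    have h1 := hconv k _ le_rfl
    have : (0 : ℝ) < mk (φ k) := by exact_mod_cast hpos _
    rw [one_div, inv_mul_cancel₀ this.ne'] at h1
    exact h1
  have hend2 : (X 1).2 = fderiv ℝ q (X 1).1 := by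
    have h1 : Tendsto (fun k => (Y (φ k) (mk (φ k))).2) atTop (𝓝 (X 1).2) :=
      (continuous_snd.tendsto _).comp hYend
    have h2 : Tendsto (fun k => fderiv ℝ q (Y (φ k) (mk (φ k))).1) atTop
        (𝓝 (fderiv ℝ q (X 1).1)) :=
      (((hq.continuous_fderiv (by simp)).comp continuous_fst).tendsto _).comp hYend
    refine tendsto_nhds_unique h1 (h2.congr fun k => ?_)
    exact (lam_last _ _).symm
  refine ⟨X, by rw [hX0], hXH, hend2, ?_⟩
  -- energy
  set c0 := ‖uh G (X 0)‖ with hc0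
  have hc : ∀ t ∈ Icc (0 : ℝ) 1, ‖uh G (X t)‖ = c0 := norm_uh_const hG hXH
  set δ : ℕ → ℝ := fun k => K * ((1 / (mk (φ k))) * (L * (K * U1))) + (K + R0 * K) * ε k with hδ
  have hδ0 : Tendsto δ atTop (𝓝 0) := by
    have h1 := (((hmφ.mul_const (L * (K * U1))).const_mul K).add (hε0.const_mul (K + R0 * K)))
    simpa [hδ] using h1
  have hlow : ∀ k i, i < mk (φ k) → c0 - δ k ≤ ‖ext (mk (φ k)) (u (φ k)) i‖ := by
    intro k i hi
    set m := mk (φ k) with hm
    have hm0 : (0 : ℝ) < m := by exact_mod_cast hpos _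
    have ht : (1 / m : ℝ) * i ∈ Icc (0 : ℝ) 1 := by
      constructor
      · positivity
      · rw [one_div, inv_mul_le_iff₀ hm0, mul_one]; exact_mod_cast hi.le
    have h1 : ext m (u (φ k)) i = uh G (tr G (1 / m) (ext m (u (φ k))) x0 i,
        lam G (1 / m) q (ext m (u (φ k))) x0 m (i + 1)) := ctrl_eq hG1 hq (hh _) (hu (φ k)) hi
    have h2 := norm_uh_sub_le hK (tr G (1 / m) (ext m (u (φ k))) x0 i)
      (lam G (1 / m) q (ext m (u (φ k))) x0 m (i + 1)) (lam G (1 / m) q (ext m (u (φ k))) x0 m i)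
    have h3 := lam_diff hG1 hq (hh (φ k)) hK' hL0 (hL (φ k)) (hU (φ k)) hi
    have h4 := uh_lip hG1 hK hK' (Y (φ k) i) (X ((1 / m) * i)) (hXb _ ht)
    have h5 := hconv k i hi.le
    have h6 : ‖uh G (X ((1 / m) * i))‖ = c0 := hc _ ht
    have h7 : ‖ext m (u (φ k)) i - uh G (X ((1 / m) * i))‖ ≤ δ k := by
      rw [h1]
      calc _ = ‖(uh G (tr G (1 / m) (ext m (u (φ k))) x0 i,
                lam G (1 / m) q (ext m (u (φ k))) x0 m (i + 1))
              - uh G (tr G (1 / m) (ext m (u (φ k))) x0 i,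
                lam G (1 / m) q (ext m (u (φ k))) x0 m i))
              + (uh G (Y (φ k) i) - uh G (X ((1 / m) * i)))‖ := by
            congr 1
            simp only [hY]
            abel
        _ ≤ K * ((1 / m) * (L * (K * U1))) + (K + R0 * K) * ε k := by
            refine (norm_add_le _ _).trans (add_le_add (h2.trans ?_) (h4.trans ?_))
            · gcongr
            · gcongr
    have h8 := norm_sub_norm_le (uh G (X ((1 / m) * i))) (ext m (u (φ k)) i)
    rw [norm_sub_rev] at h8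
    rw [h6] at h8
    linarith
  have hfin : ∀ k, (max (c0 - δ k) 0) ^ 2 / 2 + q (Y (φ k) (mk (φ k))).1 ≤ E0 + e (φ k) := by
    intro k
    have h1 := hcost (φ k)
    unfold cost at h1
    set m := mk (φ k) with hm
    have hm0 : (0 : ℝ) < m := by exact_mod_cast hpos _
    have h2 : (m : ℝ) * (max (c0 - δ k) 0) ^ 2 ≤ ∑ i, ‖u (φ k) i‖ ^ 2 := by
      have h3 : ∑ _i : Fin m, (max (c0 - δ k) 0) ^ 2 = (m : ℝ) * (max (c0 - δ k) 0) ^ 2 := by
        simp
      rw [← h3]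
      refine Finset.sum_le_sum fun i _ => ?_
      have h4 := hlow k i i.2
      have h5 : ext m (u (φ k)) i = u (φ k) i := by
        unfold ext; rw [dif_pos i.2]
      rw [h5] at h4
      have h6 : max (c0 - δ k) 0 ≤ ‖u (φ k) i‖ := max_le h4 (norm_nonneg _)
      have h7 : 0 ≤ max (c0 - δ k) 0 := le_max_right _ _
      gcongr
    have h3 : (max (c0 - δ k) 0) ^ 2 / 2 ≤ (1 / m : ℝ) / 2 * ∑ i, ‖u (φ k) i‖ ^ 2 := by
      calc (max (c0 - δ k) 0) ^ 2 / 2 = (1 / m : ℝ) / 2 * (m * (max (c0 - δ k) 0) ^ 2) := by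
            field_simp
        _ ≤ _ := by gcongr
    have h4 : (Y (φ k) m).1 = tr G (1 / m) (ext m (u (φ k))) x0 m := rfl
    rw [h4]
    linarith
  have hl : Tendsto (fun k => (max (c0 - δ k) 0) ^ 2 / 2 + q (Y (φ k) (mk (φ k))).1) atTop
      (𝓝 ((max (c0 - 0) 0) ^ 2 / 2 + q (X 1).1)) := by
    refine Tendsto.add ?_ ?_
    · exact (((tendsto_const_nhds.sub hδ0).max tendsto_const_nhds).pow 2).div_const 2
    · exact ((hq.continuous.comp continuous_fst).tendsto _).comp hYend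
  have hr : Tendsto (fun k => E0 + e (φ k)) atTop (𝓝 (E0 + 0)) :=
    tendsto_const_nhds.add (he.comp hφ.tendsto_atTop)
  have := le_of_tendsto_of_tendsto' hl hr hfin
  rw [sub_zero, max_eq_left (norm_nonneg _), add_zero] at this
  exact this

end Pool.Agent.H782.Am
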