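import Mathlib
import Pool.Graph.R_seed8.W795.Ode

/-! Jacobi systems and the Gram matrix lemma. -/

set_option autoImplicit false
set_option linter.unusedSectionVars false
set_option linter.deprecated false

open Set Filter Topology
open scoped ContDiff RealInnerProductSpace NNReal

noncomputable section

namespace Pool.Agent.H782.Am

variable {X : Type} [NormedAddCommGroup X] [InnerProductSpace ℝ X] [FiniteDimensional ℝ X]

lemma tendsto_clm_apply {ι : Type} {l : Filter ι} {f : ι → X →L[ℝ] X} {g : ι → X}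
    {a : X →L[ℝ] X} {b : X} (hf : Tendsto f l (𝓝 a)) (hg : Tendsto g l (𝓝 b)) :
    Tendsto (fun n => f n (g n)) l (𝓝 (a b)) :=
  (isBoundedBilinearMap_apply.continuous.tendsto (a, b)).comp (hf.prodMk_nhds hg)

/-- `J' = K`, `K' = -R J`, `R` symmetric, `J(0) = 0`, `K(0) = 1`. -/
structure JacSys (J K R : ℝ → X →L[ℝ] X) : Prop where
  dJ : ∀ t, HasDerivAt J (K t) t
  dK : ∀ t, HasDerivAt K (-((R t).comp (J t))) t
  symm : ∀ t v w, ⟪R t v, w⟫ = ⟪v, R t w⟫
  cont : Continuous R
  J0 : J 0 = 0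
  K0 : K 0 = ContinuousLinearMap.id ℝ X

namespace JacSys

variable {J K R : ℝ → X →L[ℝ] X}

lemma dJv (h : JacSys J K R) (v : X) (t : ℝ) : HasDerivAt (fun s => J s v) (K t v) t := by
  have := (h.dJ t).clm_apply (hasDerivAt_const t v)
  simpa using this

lemma dKv (h : JacSys J K R) (v : X) (t : ℝ) :
    HasDerivAt (fun s => K s v) (-(R t (J t v))) t := by
  have := (h.dK t).clm_apply (hasDerivAt_const t v)
  simpa using this

lemma wron (h : JacSys J K R) (t : ℝ) (v w : X) : ⟪J t v, K t w⟫ = ⟪K t v, J t w⟫ := by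
  have hd : ∀ s, HasDerivAt (fun s => ⟪J s v, K s w⟫ - ⟪K s v, J s w⟫) 0 s := by
    intro s
    have h1 := ((h.dJv v s).inner ℝ (h.dKv w s)).sub ((h.dKv v s).inner ℝ (h.dJv w s))
    refine h1.congr_deriv ?_
    rw [inner_neg_right, inner_neg_left, h.symm s (J s v) (J s w)]
    ring
  have h2 := is_const_of_deriv_eq_zero (f := fun s => ⟪J s v, K s w⟫ - ⟪K s v, J s w⟫)
    (fun s => (hd s).differentiableAt) (fun s => (hd s).deriv) t 0
  simp only [h.J0, ContinuousLinearMap.zero_apply, inner_zero_left, inner_zero_right,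
    sub_zero] at h2
  linarith

lemma inj (h : JacSys J K R) (t : ℝ) (v : X) (h1 : J t v = 0) (h2 : K t v = 0) : v = 0 := by
  set B : ℝ → (X × X) →L[ℝ] (X × X) := fun s =>
    (ContinuousLinearMap.snd ℝ X X).prod
      (-((R (t + s)).comp (ContinuousLinearMap.fst ℝ X X))) with hB
  have hBc : Continuous B := by
    have h3 : Continuous fun s : ℝ => R (t + s) := h.cont.comp (continuous_const.add continuous_id)
    have h4 : Continuous fun s : ℝ => -((R (t + s)).comp (ContinuousLinearMap.fst ℝ X X)) :=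
      (h3.clm_comp continuous_const).neg
    have h5 : Continuous fun L : (X × X) →L[ℝ] X =>
        (ContinuousLinearMap.snd ℝ X X).prod L := by
      exact (ContinuousLinearMap.prodₗᵢ (𝕜 := ℝ) ℝ).continuous.comp
        (continuous_const.prodMk continuous_id)
    exact h5.comp h4
  set Y : ℝ → X × X := fun s => (J (t + s) v, K (t + s) v) with hY
  have hYd : ∀ s, HasDerivAt Y (B s (Y s)) s := by
    intro s
    have e1 : HasDerivAt (fun s : ℝ => t + s) 1 s := (hasDerivAt_id s).const_add t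
    have e2 : HasDerivAt (fun s => J (t + s) v) (K (t + s) v) s := by
      have := (h.dJv v (t + s)).scomp s e1
      rw [one_smul] at this
      exact this
    have e3 : HasDerivAt (fun s => K (t + s) v) (-(R (t + s) (J (t + s) v))) s := by
      have := (h.dKv v (t + s)).scomp s e1
      rw [one_smul] at this
      exact this
    exact e2.prodMk e3
  have hZ : ∀ s, HasDerivAt (fun _ : ℝ => (0 : X × X)) (B s 0) s := by
    intro s; rw [map_zero]; exact hasDerivAt_const s _
  have h3 := Pool.Agent.W795.linear_unique hBc hYd hZ (by simp [hY, h1, h2])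
  have h4 := congrFun h3 (-t)
  simp only [hY, add_neg_cancel, h.J0, h.K0] at h4
  exact congrArg Prod.snd h4

lemma iso (h : JacSys J K R) (t0 : ℝ) : ∀ᶠ t in 𝓝[≠] t0, ∀ v, J t v = 0 → v = 0 := by
  by_contra hcon
  rw [Filter.not_eventually] at hcon
  have h1 : ∃ᶠ t in 𝓝[≠] t0, ∃ v, ‖v‖ = 1 ∧ J t v = 0 := by
    refine hcon.mono fun t ht => ?_
    push Not at ht
    obtain ⟨v, hv, hv0⟩ := ht
    refine ⟨(‖v‖)⁻¹ • v, ?_, by rw [map_smul, hv, smul_zero]⟩
    rw [norm_smul, norm_inv, norm_norm, inv_mul_cancel₀ (norm_ne_zero_iff.2 hv0)]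
  obtain ⟨s, hs, hs'⟩ := exists_seq_forall_of_frequently h1
  choose v hv1 hv2 using hs'
  obtain ⟨w, hw, φ, hφ, hφw⟩ := (isCompact_sphere (0 : X) 1).tendsto_subseq (x := v)
    (fun n => by simp [hv1 n])
  have hw1 : ‖w‖ = 1 := by simpa using hw
  have hs1 : Tendsto (fun n => s (φ n)) atTop (𝓝[≠] t0) := hs.comp hφ.tendsto_atTop
  have hs2 : Tendsto (fun n => s (φ n)) atTop (𝓝 t0) := hs1.mono_right nhdsWithin_le_nhds
  have hJc : Continuous J := continuous_iff_continuousAt.2 fun t => (h.dJ t).continuousAt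
  have hKc : Continuous K := continuous_iff_continuousAt.2 fun t => (h.dK t).continuousAt
  have hJ0 : J t0 w = 0 := by
    have e1 : Tendsto (fun n => J (s (φ n)) (v (φ n))) atTop (𝓝 (J t0 w)) :=
      tendsto_clm_apply ((hJc.tendsto t0).comp hs2) hφw
    have e2 : (fun n => J (s (φ n)) (v (φ n))) = fun _ => 0 := by
      funext n; exact hv2 (φ n)
    rw [e2] at e1
    exact (tendsto_nhds_unique e1 tendsto_const_nhds)
  have hK0 : ⟪K t0 w, K t0 w⟫ = 0 := by
    have e1 : Tendsto (fun n => K (s (φ n)) (v (φ n))) atTop (𝓝 (K t0 w)) :=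
      tendsto_clm_apply ((hKc.tendsto t0).comp hs2) hφw
    have e2 : Tendsto (fun n => slope (fun r => J r w) t0 (s (φ n))) atTop (𝓝 (K t0 w)) :=
      (hasDerivAt_iff_tendsto_slope.1 (h.dJv w t0)).comp hs1
    have e3 := e1.inner (𝕜 := ℝ) e2
    have e4 : (fun n => ⟪K (s (φ n)) (v (φ n)), slope (fun r => J r w) t0 (s (φ n))⟫)
        = fun _ => 0 := by
      funext n
      rw [slope_def_module, hJ0, sub_zero, real_inner_smul_right, ← h.wron, hv2 (φ n),
        inner_zero_left, mul_zero]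
    rw [e4] at e3
    exact (tendsto_nhds_unique e3 tendsto_const_nhds)
  have hK1 : K t0 w = 0 := inner_self_eq_zero.1 hK0
  have := h.inj t0 w hJ0 hK1
  rw [this, norm_zero] at hw1
  exact zero_ne_one hw1

lemma span (h : JacSys J K R) (t : ℝ) (u : X) (h1 : ∀ v, ⟪u, J t v⟫ = 0)
    (h2 : ∀ v, ⟪u, K t v⟫ = 0) : u = 0 := by
  set N := LinearMap.ker (J t).toLinearMap with hN
  set Rg := LinearMap.range (J t).toLinearMap with hRg
  have hmap : ∀ x ∈ N, (K t).toLinearMap x ∈ Rgᗮ := by
    intro x hx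
    rw [Submodule.mem_orthogonal]
    rintro _ ⟨y, rfl⟩
    have hx' : J t x = 0 := hx
    show ⟪J t y, K t x⟫ = 0
    rw [real_inner_comm, ← h.wron, hx', inner_zero_left]
  have hfr : Module.finrank ℝ N = Module.finrank ℝ Rgᗮ := by
    have e1 := LinearMap.finrank_range_add_finrank_ker (J t).toLinearMap
    have e2 := Submodule.finrank_add_finrank_orthogonal Rg
    rw [← hN, ← hRg] at e1
    omega
  set f : N →ₗ[ℝ] Rgᗮ := (K t).toLinearMap.restrict hmap with hf
  have hfi : Function.Injective f := by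
    rw [← LinearMap.ker_eq_bot, LinearMap.ker_eq_bot']
    rintro ⟨x, hx⟩ hfx
    have hx' : J t x = 0 := hx
    have e1 : K t x = 0 := congrArg Subtype.val hfx
    have := h.inj t x hx' e1
    exact Subtype.ext this
  have hfs : Function.Surjective f := (LinearMap.injective_iff_surjective_of_finrank_eq_finrank hfr).1 hfi
  have hu : u ∈ Rgᗮ := by
    rw [Submodule.mem_orthogonal]
    rintro _ ⟨y, rfl⟩
    show ⟪J t y, u⟫ = 0
    rw [real_inner_comm]
    exact h1 y
  obtain ⟨⟨x, hx⟩, hfx⟩ := hfs ⟨u, hu⟩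
  have e1 : K t x = u := congrArg Subtype.val hfx
  have e2 := h2 x
  rw [e1] at e2
  exact inner_self_eq_zero.1 e2

lemma isUnit (t : ℝ) (h : ∀ v, J t v = 0 → v = 0) : IsUnit (J t) := by
  rw [ContinuousLinearMap.isUnit_iff_isUnit_toLinearMap, LinearMap.isUnit_iff_ker_eq_bot,
    LinearMap.ker_eq_bot']
  exact h

end JacSys

section cmp

variable {J K R J' K' R' : ℝ → X →L[ℝ] X}

/-- On an open interval of nondegeneracy, the transition operator is constant. -/
lemma cmp_aux (h : JacSys J K R) (h' : JacSys J' K' R')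
    (hG : ∀ t v w, ⟪J' t v, J' t w⟫ = ⟪J t v, J t w⟫) {I : Set ℝ} (hI : IsOpen I)
    (hIc : Convex ℝ I) (hinj : ∀ t ∈ I, ∀ v, J t v = 0 → v = 0) {t0 : ℝ} (ht0 : t0 ∈ closure I)
    (e1 : J' t0 = J t0) (e2 : K' t0 = K t0) : ∀ t ∈ I, J' t = J t ∧ K' t = K t := by
  have hJK : ∀ t v w, ⟪J' t v, K' t w⟫ = ⟪J t v, K t w⟫ := by
    intro t v w
    have a1 : HasDerivAt (fun s => ⟪J' s v, J' s w⟫) (⟪J' t v, K' t w⟫ + ⟪K' t v, J' t w⟫) t :=
      (h'.dJv v t).inner ℝ (h'.dJv w t)
    have a2 : HasDerivAt (fun s => ⟪J s v, J s w⟫) (⟪J t v, K t w⟫ + ⟪K t v, J t w⟫) t :=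
      (h.dJv v t).inner ℝ (h.dJv w t)
    have a3 : (fun s => ⟪J' s v, J' s w⟫) = fun s => ⟪J s v, J s w⟫ := by
      funext s; exact hG s v w
    rw [a3] at a1
    have a4 := a1.unique a2
    rw [← h.wron, ← h'.wron] at a4
    linarith
  set Q : ℝ → X →L[ℝ] X := fun t => J' t * Ring.inverse (J t) with hQ
  have hun : ∀ t ∈ I, IsUnit (J t) := fun t ht => JacSys.isUnit t (hinj t ht)
  have hQJ : ∀ t ∈ I, Q t * J t = J' t := by
    intro t ht
    simp only [hQ, mul_assoc, Ring.inverse_mul_cancel _ (hun t ht), mul_one]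
  have hQJv : ∀ t ∈ I, ∀ v, Q t (J t v) = J' t v := by
    intro t ht v
    have := congrArg (fun (L : X →L[ℝ] X) => L v) (hQJ t ht)
    exact this
  have hsur : ∀ t ∈ I, ∀ y, ∃ v, J t v = y := by
    intro t ht y
    refine ⟨Ring.inverse (J t) y, ?_⟩
    have := congrArg (fun (L : X →L[ℝ] X) => L y) (Ring.mul_inverse_cancel _ (hun t ht))
    exact this
  have hQiso : ∀ t ∈ I, ∀ x y, ⟪Q t x, Q t y⟫ = ⟪x, y⟫ := by
    intro t ht x y
    obtain ⟨v, rfl⟩ := hsur t ht x
    obtain ⟨w, rfl⟩ := hsur t ht y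
    rw [hQJv t ht, hQJv t ht, hG]
  have hQsur : ∀ t ∈ I, Function.Surjective (Q t) := by
    intro t ht
    have hi : Function.Injective (Q t).toLinearMap := by
      rw [← LinearMap.ker_eq_bot, LinearMap.ker_eq_bot']
      intro x hx
      have hx' : Q t x = 0 := hx
      have := hQiso t ht x x
      rw [hx', inner_zero_left] at this
      exact inner_self_eq_zero.1 this.symm
    exact LinearMap.injective_iff_surjective.1 hi
  have hQK : ∀ t ∈ I, ∀ v, Q t (K t v) = K' t v := by
    intro t ht v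
    refine ext_inner_left ℝ fun z => ?_
    obtain ⟨z', rfl⟩ := hQsur t ht z
    obtain ⟨w, rfl⟩ := hsur t ht z'
    rw [hQiso t ht, hQJv t ht, hJK]
  have hQd : ∀ t ∈ I, HasDerivAt Q 0 t := by
    intro t ht
    obtain ⟨u, hu⟩ := hun t ht
    have a1 : HasFDerivAt Ring.inverse _ (u : X →L[ℝ] X) := hasFDerivAt_ringInverse (𝕜 := ℝ) u
    rw [hu] at a1
    have a2 := a1.comp_hasDerivAt t (h.dJ t)
    have a3 := (h'.dJ t).mul a2
    have a4 : HasDerivAt Q _ t := a3
    refine a4.congr_deriv ?_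
    have hui : (↑u⁻¹ : X →L[ℝ] X) = Ring.inverse (J t) := by rw [← hu, Ring.inverse_unit]
    have hK : K' t = Q t * K t := by
      ext v; exact (hQK t ht v).symm
    have hJ' : J' t = Q t * J t := (hQJ t ht).symm
    simp only [Function.comp, ContinuousLinearMap.neg_apply, ContinuousLinearMap.mulLeftRight_apply, hui]
    rw [hK, hJ', mul_neg, mul_assoc, mul_assoc (Q t) (J t), ← mul_assoc (J t),
      ← mul_assoc (J t), Ring.mul_inverse_cancel _ (hun t ht), one_mul, add_neg_cancel]
  obtain ⟨t1, ht1⟩ : I.Nonempty := by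
    by_contra hcon
    rw [not_nonempty_iff_eq_empty] at hcon
    rw [hcon] at ht0
    simp at ht0
  have hQc : ∀ t ∈ I, Q t = Q t1 := by
    intro t ht
    exact hI.is_const_of_deriv_eq_zero hIc.isPreconnected
      (fun s hs => (hQd s hs).differentiableAt.differentiableWithinAt)
      (fun s hs => (hQd s hs).deriv) ht ht1
  have hJc : Continuous J := continuous_iff_continuousAt.2 fun t => (h.dJ t).continuousAt
  have hKc : Continuous K := continuous_iff_continuousAt.2 fun t => (h.dK t).continuousAt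
  have hJc' : Continuous J' := continuous_iff_continuousAt.2 fun t => (h'.dJ t).continuousAt
  have hKc' : Continuous K' := continuous_iff_continuousAt.2 fun t => (h'.dK t).continuousAt
  have b1 : ∀ v, Q t1 (J t0 v) = J' t0 v := by
    intro v
    have hcl : IsClosed {t | Q t1 (J t v) = J' t v} :=
      isClosed_eq ((Q t1).continuous.comp (hJc.clm_apply continuous_const))
        (hJc'.clm_apply continuous_const)
    have hsub : I ⊆ {t | Q t1 (J t v) = J' t v} := fun t ht => by
      show Q t1 (J t v) = J' t v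
      rw [← hQc t ht]; exact hQJv t ht v
    exact (closure_minimal hsub hcl) ht0
  have b2 : ∀ v, Q t1 (K t0 v) = K' t0 v := by
    intro v
    have hcl : IsClosed {t | Q t1 (K t v) = K' t v} :=
      isClosed_eq ((Q t1).continuous.comp (hKc.clm_apply continuous_const))
        (hKc'.clm_apply continuous_const)
    have hsub : I ⊆ {t | Q t1 (K t v) = K' t v} := fun t ht => by
      show Q t1 (K t v) = K' t v
      rw [← hQc t ht]; exact hQK t ht v
    exact (closure_minimal hsub hcl) ht0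
  have hQ1 : ∀ x, Q t1 x = x := by
    intro x
    have hadj : ∀ z, (ContinuousLinearMap.adjoint (Q t1 - ContinuousLinearMap.id ℝ X)) z = 0 := by
      intro z
      refine h.span t0 _ (fun v => ?_) (fun v => ?_)
      · rw [ContinuousLinearMap.adjoint_inner_left]
        simp [b1 v, e1]
      · rw [ContinuousLinearMap.adjoint_inner_left]
        simp [b2 v, e2]
    have h3 : (Q t1 - ContinuousLinearMap.id ℝ X) x = 0 := by
      refine ext_inner_left ℝ fun z => ?_
      rw [← ContinuousLinearMap.adjoint_inner_left, hadj, inner_zero_left, inner_zero_right]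
    simpa [sub_eq_zero] using h3
  intro t ht
  constructor
  · ext v
    rw [← hQJv t ht, hQc t ht, hQ1]
  · ext v
    rw [← hQK t ht, hQc t ht, hQ1]

theorem cmp (h : JacSys J K R) (h' : JacSys J' K' R')
    (hG : ∀ t v w, ⟪J' t v, J' t w⟫ = ⟪J t v, J t w⟫) : ∀ t, J' t = J t ∧ K' t = K t := by
  have hJc : Continuous J := continuous_iff_continuousAt.2 fun t => (h.dJ t).continuousAt
  have hKc : Continuous K := continuous_iff_continuousAt.2 fun t => (h.dK t).continuousAt
  have hJc' : Continuous J' := continuous_iff_continuousAt.2 fun t => (h'.dJ t).continuousAt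
  have hKc' : Continuous K' := continuous_iff_continuousAt.2 fun t => (h'.dK t).continuousAt
  have hcl : IsClosed {t | J' t = J t ∧ K' t = K t} :=
    (isClosed_eq hJc' hJc).inter (isClosed_eq hKc' hKc)
  have hop : IsOpen {t | J' t = J t ∧ K' t = K t} := by
    rw [isOpen_iff_mem_nhds]
    rintro t0 ⟨e1, e2⟩
    have h1 := h.iso t0
    rw [eventually_nhdsWithin_iff, Metric.eventually_nhds_iff] at h1
    obtain ⟨ε, hε, h2⟩ := h1
    have hr := cmp_aux h h' hG (I := Ioo t0 (t0 + ε)) isOpen_Ioo (convex_Ioo _ _)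
      (fun t ht => h2 (by rw [Real.dist_eq, abs_lt]; constructor <;> linarith [ht.1, ht.2])
        (by simpa using ht.1.ne')) (t0 := t0)
      (by rw [closure_Ioo (by linarith)]; exact ⟨le_rfl, by linarith⟩) e1 e2
    have hl := cmp_aux h h' hG (I := Ioo (t0 - ε) t0) isOpen_Ioo (convex_Ioo _ _)
      (fun t ht => h2 (by rw [Real.dist_eq, abs_lt]; constructor <;> linarith [ht.1, ht.2])
        (by simpa using ht.2.ne)) (t0 := t0)
      (by rw [closure_Ioo (by linarith)]; exact ⟨by linarith, le_rfl⟩) e1 e2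
    have hmem : Ioo (t0 - ε) (t0 + ε) ∈ 𝓝 t0 := Ioo_mem_nhds (by linarith) (by linarith)
    refine mem_of_superset hmem fun t ht => ?_
    rcases lt_trichotomy t t0 with h3 | h3 | h3
    · exact hl t ⟨ht.1, h3⟩
    · rw [h3]; exact ⟨e1, e2⟩
    · exact hr t ⟨h3, ht.2⟩
  have huniv := IsClopen.eq_univ ⟨hcl, hop⟩ ⟨0, by simp [h.J0, h'.J0], by rw [h.K0, h'.K0]⟩
  intro t
  have : t ∈ {t | J' t = J t ∧ K' t = K t} := huniv ▸ mem_univ t
  exact this

end cmp

end Pool.Agent.H782.Am
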