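import Mathlib

/-!
# Definitions

A Riemannian manifold is modelled as a smooth embedded submanifold `M` of a Euclidean space `E`
(a finite dimensional real inner product space), with the induced metric: the inner product of two
tangent vectors is their inner product in `E`.
-/

set_option autoImplicit false

open Set Filter Topology
open scoped ContDiff RealInnerProductSpace

noncomputable section

namespace Pool.Agent.H782.Am

variable {E E' : Type} [NormedAddCommGroup E] [InnerProductSpace ℝ E]
  [NormedAddCommGroup E'] [InnerProductSpace ℝ E']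

/-- `M` is a smooth embedded submanifold of `E` of dimension `n`: near each of its points it is
the zero set of a smooth submersion to `ℝ^k`, where `n + k` is the dimension of `E`. -/
def IsSubmanifold (n : ℕ) (M : Set E) : Prop :=
  ∀ z ∈ M, ∃ U : Set E, IsOpen U ∧ z ∈ U ∧ ∃ (k : ℕ) (f : E → EuclideanSpace ℝ (Fin k)),
    n + k = Module.finrank ℝ E ∧ ContDiffOn ℝ ∞ f U ∧
    (∀ x ∈ U, Function.Surjective (fderiv ℝ f x)) ∧ M ∩ U = U ∩ f ⁻¹' {0}

/-- The tangent space of `M` at `z`: the span of the velocities at `z` of smooth curves in `M`. -/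
def tangent (M : Set E) (z : E) : Submodule ℝ E :=
  Submodule.span ℝ {v | ∃ c : ℝ → E, ContDiff ℝ ∞ c ∧ (∀ s, c s ∈ M) ∧ c 0 = z ∧ deriv c 0 = v}

/-- A geodesic of `M` (with the induced metric), defined on the whole real line: a smooth curve
in `M` whose acceleration is orthogonal to `M`. -/
def IsGeodesic (M : Set E) (γ : ℝ → E) : Prop :=
  ContDiff ℝ ∞ γ ∧ (∀ t, γ t ∈ M) ∧ ∀ t, ∀ v ∈ tangent M (γ t), ⟪deriv (deriv γ) t, v⟫ = 0

/-- `M` is complete: every initial condition is the initial condition of a geodesic defined for
all times. -/
def GeodComplete (M : Set E) : Prop :=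
  ∀ z ∈ M, ∀ v ∈ tangent M z, ∃ γ, IsGeodesic M γ ∧ γ 0 = z ∧ deriv γ 0 = v

/-- `M` is a complete, simply connected Riemannian manifold of dimension `n` (simply connected
includes connected and nonempty). -/
structure CompleteSC (n : ℕ) (M : Set E) : Prop where
  submanifold : IsSubmanifold n M
  complete : GeodComplete M
  simplyConnected : SimplyConnectedSpace M

open Classical in
/-- The exponential map of `M` at `z`: `v` is sent to `γ 1`, where `γ` is the geodesic with
`γ 0 = z` and `γ' 0 = v`. -/
def expMap (M : Set E) (z : E) (v : tangent M z) : E :=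
  if h : ∃ γ, IsGeodesic M γ ∧ γ 0 = z ∧ deriv γ 0 = v then Classical.choose h 1 else z

/-- The differential of the exponential map of `M` at `z`, at the point `y` of the tangent space,
applied to the vector `v`. -/
def dExp (M : Set E) (z : E) (y v : tangent M z) : E := fderiv ℝ (expMap M z) y v

/-- The pullback `h` of the metric of `M` along the exponential map at `z`, a field of symmetric
bilinear forms on the tangent space at `z`: this is `h_y(v, w)`. -/
def expPullback (M : Set E) (z : E) (y v w : tangent M z) : ℝ :=
  ⟪dExp M z y v, dExp M z y w⟫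

/-- `I` is a linear isometry of the tangent space of `M` at `p` onto that of `N` at `q`. -/
def IsLinIso {M : Set E} {N : Set E'} {p : E} {q : E'} (I : tangent M p → tangent N q) : Prop :=
  IsLinearMap ℝ I ∧ (∀ v, ‖I v‖ = ‖v‖) ∧ Function.Surjective I

/-- A smooth map from `M` to `N` whose differential is isometric: near every point `x` of `M` it
is the restriction of a map `G` of the ambient spaces which is smooth at `x` and whose derivative
at `x` maps the tangent space of `M` at `x` to the tangent space of `N` at `F x`, preserving
norms. -/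
def IsoMap {M : Set E} {N : Set E'} (F : M → N) : Prop :=
  ∀ x : M, ∃ G : E → E', ContDiffAt ℝ ∞ G x ∧ (∀ᶠ y in 𝓝 (x : E), ∀ hy : y ∈ M, G y = F ⟨y, hy⟩) ∧
    ∀ v ∈ tangent M x, fderiv ℝ G x v ∈ tangent N (F x : E') ∧ ‖fderiv ℝ G x v‖ = ‖v‖

/-- A Riemannian isometry of `M` onto `N`: a smooth bijection with smooth inverse whose
differential is isometric. -/
def IsIsometry {M : Set E} {N : Set E'} (F : M ≃ N) : Prop := IsoMap F ∧ IsoMap F.symm

end Pool.Agent.H782.Am
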