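import Mathlib
import Pool.Agent.H782.Am.Defs

/-! Local theory of submanifolds: local parametrizations and tangent spaces. -/

set_option autoImplicit false
set_option linter.unusedSectionVars false
set_option linter.deprecated false

open Set Filter Topology
open scoped ContDiff RealInnerProductSpace

noncomputable section

namespace Pool.Agent.H782.Am

variable {E : Type} [NormedAddCommGroup E] [InnerProductSpace ℝ E] [FiniteDimensional ℝ E]

/-- Internal version of the submanifold condition. -/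
def SubMf (M : Set E) : Prop :=
  ∀ z ∈ M, ∃ U : Set E, IsOpen U ∧ z ∈ U ∧ ∃ (k : ℕ) (f : E → EuclideanSpace ℝ (Fin k)),
      ContDiffOn ℝ ∞ f U ∧ (∀ x ∈ U, Function.Surjective (fderiv ℝ f x)) ∧
      M ∩ U = U ∩ f ⁻¹' {0}

/-- Defining data at a point. -/
structure DefAt {k : ℕ} (M : Set E) (U : Set E) (f : E → EuclideanSpace ℝ (Fin k)) : Prop where
  op : IsOpen U
  cd : ContDiffOn ℝ ∞ f U
  sur : ∀ x ∈ U, Function.Surjective (fderiv ℝ f x)
  eq : M ∩ U = U ∩ f ⁻¹' {0}

variable {M U : Set E} {k : ℕ} {f : E → EuclideanSpace ℝ (Fin k)}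

lemma DefAt.mem_iff (h : DefAt M U f) {x : E} (hx : x ∈ U) : x ∈ M ↔ f x = 0 := by
  have := Set.ext_iff.1 h.eq x
  simp only [mem_inter_iff, mem_preimage, mem_singleton_iff, hx, and_true, true_and] at this
  exact this

lemma DefAt.contDiffAt (h : DefAt M U f) {x : E} (hx : x ∈ U) : ContDiffAt ℝ ∞ f x :=
  h.cd.contDiffAt (h.op.mem_nhds hx)

lemma DefAt.differentiableAt (h : DefAt M U f) {x : E} (hx : x ∈ U) : DifferentiableAt ℝ f x :=
  (h.contDiffAt hx).differentiableAt (by simp)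

/-- Velocities of maps into `M` lie in the kernel. -/
lemma DefAt.map_deriv {Y : Type*} [NormedAddCommGroup Y] [NormedSpace ℝ Y] (h : DefAt M U f)
    {g : Y → E} {g' : Y →L[ℝ] E} {y : Y} (hg : HasFDerivAt g g' y) (hgy : g y ∈ U)
    (hgM : ∀ᶠ y' in 𝓝 y, g y' ∈ M) (v : Y) : fderiv ℝ f (g y) (g' v) = 0 := by
  have h1 : HasFDerivAt (f ∘ g) ((fderiv ℝ f (g y)).comp g') y :=
    ((h.differentiableAt hgy).hasFDerivAt).comp y hg
  have h2 : f ∘ g =ᶠ[𝓝 y] fun _ => 0 := by
    have h3 : ∀ᶠ y' in 𝓝 y, g y' ∈ U := hg.continuousAt.preimage_mem_nhds (h.op.mem_nhds hgy)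
    filter_upwards [hgM, h3] with y' h4 h5
    exact (h.mem_iff h5).1 h4
  have h3 : HasFDerivAt (f ∘ g) (0 : Y →L[ℝ] EuclideanSpace ℝ (Fin k)) y :=
    (hasFDerivAt_const _ _).congr_of_eventuallyEq h2
  have h4 := h1.unique h3
  have := congrArg (fun L : Y →L[ℝ] EuclideanSpace ℝ (Fin k) => L v) h4
  exact this

/-- Local parametrization by the kernel. -/
lemma DefAt.param (h : DefAt M U f) {z : E} (hz : z ∈ M) (hzU : z ∈ U) :
    ∃ φ : LinearMap.ker (fderiv ℝ f z).toLinearMap → E, φ 0 = z ∧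
      HasFDerivAt φ (LinearMap.ker (fderiv ℝ f z).toLinearMap).subtypeL 0 ∧
      (∀ᶠ u in 𝓝 0, φ u ∈ M) ∧ (∀ᶠ u in 𝓝 0, ContDiffAt ℝ ∞ φ u) ∧
      (∀ᶠ x in 𝓝 z, x ∈ M →
        φ ((LinearMap.ker (fderiv ℝ f z).toLinearMap).orthogonalProjectionOnto (x - z)) = x) := by
  set T := LinearMap.ker (fderiv ℝ f z).toLinearMap with hT
  set pr := T.orthogonalProjectionOnto with hpr
  have hprT : ∀ t : T, pr (t : E) = t := fun t => T.orthogonalProjectionOnto_mem_subspace_eq_self t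
  set L : E →L[ℝ] EuclideanSpace ℝ (Fin k) × T := (fderiv ℝ f z).prod pr with hL
  have hLker : ∀ v, L v = 0 → v = 0 := by
    intro v hv
    have h1 : fderiv ℝ f z v = 0 := congrArg Prod.fst hv
    have h2 : pr v = 0 := congrArg Prod.snd hv
    have h3 : v ∈ T := h1
    have h4 := hprT ⟨v, h3⟩
    rw [h2] at h4
    exact (congrArg Subtype.val h4).symm
  have hLsur : Function.Surjective L := by
    rintro ⟨a, t⟩
    obtain ⟨v0, hv0⟩ := h.sur z hzU a
    refine ⟨v0 - (pr v0 : E) + (t : E), ?_⟩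
    have e1 : fderiv ℝ f z (pr v0 : E) = 0 := (pr v0).2
    have e2 : fderiv ℝ f z (t : E) = 0 := t.2
    refine Prod.ext ?_ ?_
    · show fderiv ℝ f z _ = a
      rw [map_add, map_sub, e1, e2, hv0, sub_zero, add_zero]
    · show pr _ = t
      rw [map_add, map_sub, hprT, hprT, sub_self, zero_add]
  set Le : E ≃L[ℝ] EuclideanSpace ℝ (Fin k) × T := ContinuousLinearEquiv.ofBijective L
    (LinearMap.ker_eq_bot'.2 hLker) (LinearMap.range_eq_top.2 hLsur) with hLe
  have hLe' : (Le : E →L[ℝ] EuclideanSpace ℝ (Fin k) × T) = L := by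
    ext v <;> rfl
  set g : E → EuclideanSpace ℝ (Fin k) × T := fun x => (f x, pr (x - z)) with hg
  have hgc : ∀ x ∈ U, ContDiffAt ℝ ∞ g x := fun x hx =>
    (h.contDiffAt hx).prodMk ((pr.contDiff.comp (contDiff_id.sub contDiff_const)).contDiffAt)
  have hgd : ∀ x ∈ U, HasFDerivAt g ((fderiv ℝ f x).prod pr) x := by
    intro x hx
    refine (h.differentiableAt hx).hasFDerivAt.prodMk ?_
    have := (pr.hasFDerivAt (x := x - z)).comp x ((hasFDerivAt_id x).sub_const z)
    exact this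
  have hgd' : HasFDerivAt g (Le : E →L[ℝ] EuclideanSpace ℝ (Fin k) × T) z := by
    rw [hLe']; exact hgd z hzU
  set e := (hgc z hzU).toOpenPartialHomeomorph g hgd' (by simp) with he
  have hecoe : (e : E → EuclideanSpace ℝ (Fin k) × T) = g := rfl
  have hzs : z ∈ e.source := (hgc z hzU).mem_toOpenPartialHomeomorph_source hgd' (by simp)
  have hgz : g z = 0 := by
    refine Prod.ext ?_ ?_
    · exact (h.mem_iff hzU).1 hz
    · show pr (z - z) = 0
      rw [sub_self, map_zero]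
  have h0t : (0 : EuclideanSpace ℝ (Fin k) × T) ∈ e.target := by
    have := e.map_source hzs
    rwa [hecoe, hgz] at this
  have hs0 : e.symm 0 = z := by
    have := e.left_inv hzs
    rwa [hecoe, hgz] at this
  set ι : T → EuclideanSpace ℝ (Fin k) × T := fun u => (0, u) with hι
  have hιc : Continuous ι := continuous_const.prodMk continuous_id
  have hι0 : ι 0 = 0 := rfl
  have hsc : ContinuousAt e.symm 0 := e.symm.continuousAt h0t
  have hsU : ∀ᶠ a in 𝓝 (0 : EuclideanSpace ℝ (Fin k) × T), e.symm a ∈ U := by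
    have : U ∈ 𝓝 (e.symm 0) := by rw [hs0]; exact h.op.mem_nhds hzU
    exact hsc.preimage_mem_nhds this
  have hst : ∀ᶠ a in 𝓝 (0 : EuclideanSpace ℝ (Fin k) × T), a ∈ e.target :=
    e.open_target.mem_nhds h0t
  have hιt : Tendsto ι (𝓝 0) (𝓝 0) := by
    have := hιc.tendsto 0
    rwa [hι0] at this
  -- smoothness of the inverse near the origin
  have hinv : ∀ᶠ x in 𝓝 z, ∃ L' : E ≃L[ℝ] EuclideanSpace ℝ (Fin k) × T,
      ((fderiv ℝ f x).prod pr) = (L' : E →L[ℝ] EuclideanSpace ℝ (Fin k) × T) := by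
    have h1 : ContinuousAt (fun x => (fderiv ℝ f x).prod pr) z := by
      have h2 : ContinuousAt (fun x => fderiv ℝ f x) z :=
        ((h.contDiffAt hzU).fderiv_right (m := 0) (by simp)).continuousAt
      exact ((ContinuousLinearMap.prodₗᵢ (𝕜 := ℝ) ℝ).continuous.continuousAt).comp
        (h2.prodMk continuousAt_const)
    have h2 := ContinuousLinearEquiv.nhds Le
    rw [hLe'] at h2
    have h3 := h1.preimage_mem_nhds h2
    filter_upwards [h3] with x hx
    obtain ⟨L', hL'⟩ := hx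
    exact ⟨L', hL'.symm⟩
  have hscd : ∀ᶠ a in 𝓝 (0 : EuclideanSpace ℝ (Fin k) × T), ContDiffAt ℝ ∞ e.symm a := by
    have h1 : ∀ᶠ a in 𝓝 (0 : EuclideanSpace ℝ (Fin k) × T),
        ∃ L' : E ≃L[ℝ] EuclideanSpace ℝ (Fin k) × T,
      ((fderiv ℝ f (e.symm a)).prod pr) = (L' : E →L[ℝ] EuclideanSpace ℝ (Fin k) × T) := by
      have : Tendsto e.symm (𝓝 0) (𝓝 z) := by
        have := hsc.tendsto
        rwa [hs0] at this
      exact this.eventually hinv
    filter_upwards [h1, hst, hsU] with a ⟨L', hL'⟩ h3 h4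
    refine e.contDiffAt_symm h3 (f₀' := L') ?_ ?_
    · rw [← hL', hecoe]; exact hgd _ h4
    · rw [hecoe]; exact hgc _ h4
  refine ⟨fun u => e.symm (ι u), ?_, ?_, ?_, ?_, ?_⟩
  · show e.symm (ι 0) = z
    rw [hι0, hs0]
  · have h1 : HasFDerivAt e.symm (Le.symm : EuclideanSpace ℝ (Fin k) × T →L[ℝ] E) 0 := by
      refine e.hasFDerivAt_symm h0t ?_
      rw [hs0]
      exact hgd'
    have h2 : HasFDerivAt ι (ContinuousLinearMap.inr ℝ (EuclideanSpace ℝ (Fin k)) T) 0 :=
      (ContinuousLinearMap.inr ℝ (EuclideanSpace ℝ (Fin k)) T).hasFDerivAt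
    rw [← hι0] at h1
    have h3 := h1.comp (0 : T) h2
    have h4 : (Le.symm : EuclideanSpace ℝ (Fin k) × T →L[ℝ] E).comp
        (ContinuousLinearMap.inr ℝ (EuclideanSpace ℝ (Fin k)) T) = T.subtypeL := by
      ext t
      show Le.symm (0, t) = (t : E)
      rw [ContinuousLinearEquiv.symm_apply_eq]
      refine Prod.ext ?_ ?_
      · exact t.2.symm
      · exact (hprT t).symm
    rw [h4] at h3
    exact h3
  · have h1 := hιt.eventually (hsU.and hst)
    filter_upwards [h1] with u hu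
    rw [h.mem_iff hu.1]
    have := e.right_inv hu.2
    exact congrArg Prod.fst this
  · have h1 := hιt.eventually hscd
    filter_upwards [h1] with u hu
    have hu' : ContDiffAt ℝ ∞ e.symm (ι u) := hu
    exact hu'.comp u (contDiff_const.prodMk contDiff_id).contDiffAt
  · filter_upwards [e.open_source.mem_nhds hzs, h.op.mem_nhds hzU] with x hx hxU hxM
    have h1 : ι (pr (x - z)) = e x := by
      refine Prod.ext ?_ rfl
      exact ((h.mem_iff hxU).1 hxM).symm
    show e.symm (ι (pr (x - z))) = x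
    rw [h1, e.left_inv hx]

/-- A tangent vector is the velocity of a smooth curve in `M`. -/
lemma DefAt.exists_curve (h : DefAt M U f) {z : E} (hz : z ∈ M) (hzU : z ∈ U) {t : E}
    (ht : fderiv ℝ f z t = 0) :
    ∃ c : ℝ → E, ContDiff ℝ ∞ c ∧ (∀ s, c s ∈ M) ∧ c 0 = z ∧ HasDerivAt c t 0 := by
  obtain ⟨φ, h0, h1, h2, h3, -⟩ := h.param hz hzU
  obtain ⟨r, hr, hball⟩ := Metric.eventually_nhds_iff.1 (h2.and h3)
  set v : LinearMap.ker (fderiv ℝ f z).toLinearMap := ⟨t, ht⟩ with hv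
  set δ : ℝ := r / (2 * (‖v‖ + 1)) with hδ
  have hvn : 0 < ‖v‖ + 1 := by positivity
  have hδ0 : 0 < δ := by positivity
  set a : ℝ → LinearMap.ker (fderiv ℝ f z).toLinearMap :=
    fun s => (δ * Real.sin (s / δ)) • v with ha
  have hac : ContDiff ℝ ∞ a :=
    (contDiff_const.mul (Real.contDiff_sin.comp (contDiff_id.div_const δ))).smul contDiff_const
  have hab : ∀ s, dist (a s) 0 < r := by
    intro s
    rw [dist_zero_right, norm_smul, Real.norm_eq_abs, abs_mul, abs_of_pos hδ0]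
    have h4 : |Real.sin (s / δ)| ≤ 1 := Real.abs_sin_le_one _
    calc δ * |Real.sin (s / δ)| * ‖v‖ ≤ δ * 1 * (‖v‖ + 1) := by gcongr; linarith
      _ = r / 2 := by rw [hδ]; field_simp
      _ < r := by linarith
  refine ⟨fun s => φ (a s), ?_, ?_, ?_, ?_⟩
  · rw [contDiff_iff_contDiffAt]
    intro s
    exact ((hball (hab s)).2).comp s hac.contDiffAt
  · intro s
    exact (hball (hab s)).1
  · show φ (a 0) = z
    simp [ha, h0]
  · have ha0 : a 0 = 0 := by simp [ha]
    have hd : HasDerivAt a v 0 := by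
      have h4 : HasDerivAt (fun s : ℝ => δ * Real.sin (s / δ)) 1 0 := by
        have h5 : HasDerivAt (fun s : ℝ => s / δ) (1 / δ) 0 := (hasDerivAt_id (0 : ℝ)).div_const δ
        have h6 := (h5.sin).const_mul δ
        refine h6.congr_deriv ?_
        rw [zero_div, Real.cos_zero, one_mul, mul_one_div, div_self hδ0.ne']
      have := h4.smul_const v
      rwa [one_smul] at this
    rw [← ha0] at h1
    have := h1.comp_hasDerivAt (0 : ℝ) hd
    exact this

lemma DefAt.tangent_eq (h : DefAt M U f) {z : E} (hz : z ∈ M) (hzU : z ∈ U) :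
    tangent M z = LinearMap.ker (fderiv ℝ f z).toLinearMap := by
  apply le_antisymm
  · refine Submodule.span_le.2 ?_
    rintro v ⟨c, hc, hcM, hc0, rfl⟩
    have h1 : HasDerivAt c (deriv c 0) 0 := (hc.differentiable (by simp) 0).hasDerivAt
    have h2 := h.map_deriv h1.hasFDerivAt (by rw [hc0]; exact hzU)
      (Filter.Eventually.of_forall hcM) 1
    rw [hc0] at h2
    show fderiv ℝ f z (deriv c 0) = 0
    simpa using h2
  · intro t ht
    obtain ⟨c, hc, hcM, hc0, hcd⟩ := h.exists_curve hz hzU ht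
    exact Submodule.subset_span ⟨c, hc, hcM, hc0, hcd.deriv⟩

lemma SubMf.exists_def (hM : SubMf M) {z : E} (hz : z ∈ M) :
    ∃ (U : Set E) (k : ℕ) (f : E → EuclideanSpace ℝ (Fin k)), DefAt M U f ∧ z ∈ U := by
  obtain ⟨U, h1, h2, k, f, h3, h4, h5⟩ := hM z hz
  exact ⟨U, k, f, ⟨h1, h3, h4, h5⟩, h2⟩

lemma SubMf.exists_curve (hM : SubMf M) {z : E} (hz : z ∈ M) {t : E} (ht : t ∈ tangent M z) :
    ∃ c : ℝ → E, ContDiff ℝ ∞ c ∧ (∀ s, c s ∈ M) ∧ c 0 = z ∧ HasDerivAt c t 0 := by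
  obtain ⟨U, k, f, h, hzU⟩ := hM.exists_def hz
  rw [h.tangent_eq hz hzU] at ht
  exact h.exists_curve hz hzU ht

/-- The derivative of a map into `M` takes values in the tangent space. -/
lemma SubMf.map_deriv (hM : SubMf M) {Y : Type*} [NormedAddCommGroup Y] [NormedSpace ℝ Y]
    {g : Y → E} {g' : Y →L[ℝ] E} {y : Y} (hg : HasFDerivAt g g' y)
    (hgM : ∀ᶠ y' in 𝓝 y, g y' ∈ M) (v : Y) : g' v ∈ tangent M (g y) := by
  have hgy : g y ∈ M := hgM.self_of_nhds
  obtain ⟨U, k, f, h, hzU⟩ := hM.exists_def hgy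
  rw [h.tangent_eq hgy hzU]
  exact h.map_deriv hg hzU hgM v

end Pool.Agent.H782.Am
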