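import Mathlib
import Pool.Agent.H782.Am.Sub1

/-! Smooth extensions of the tangential projection, second fundamental form. -/

set_option autoImplicit false
set_option linter.unusedSectionVars false
set_option linter.deprecated false

open Set Filter Topology
open scoped ContDiff RealInnerProductSpace Manifold

noncomputable section

namespace Pool.Agent.H782.Am

lemma two_le_inf : (2 : WithTop ℕ∞) ≤ ∞ := ENat.LEInfty.out

section adj

variable {E F : Type} [NormedAddCommGroup E] [InnerProductSpace ℝ E] [FiniteDimensional ℝ E]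
  [NormedAddCommGroup F] [InnerProductSpace ℝ F] [FiniteDimensional ℝ F]

/-- The adjoint as a continuous linear map. -/
def adjL (E F : Type) [NormedAddCommGroup E] [InnerProductSpace ℝ E] [FiniteDimensional ℝ E]
    [NormedAddCommGroup F] [InnerProductSpace ℝ F] [FiniteDimensional ℝ F] :
    (E →L[ℝ] F) →L[ℝ] (F →L[ℝ] E) :=
  LinearMap.mkContinuous
    { toFun := fun L => ContinuousLinearMap.adjoint L
      map_add' := fun a b => map_add _ a b
      map_smul' := fun c a => by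
        rw [map_smulₛₗ]
        simp } 1 (fun L => by
        rw [one_mul]
        exact (LinearIsometryEquiv.norm_map _ _).le)

lemma adjL_apply (L : E →L[ℝ] F) : adjL E F L = ContinuousLinearMap.adjoint L := rfl

lemma inner_adjL (L : E →L[ℝ] F) (x : F) (y : E) : ⟪adjL E F L x, y⟫ = ⟪x, L y⟫ :=
  ContinuousLinearMap.adjoint_inner_left _ _ _

lemma inner_adjL' (L : E →L[ℝ] F) (x : F) (y : E) : ⟪y, adjL E F L x⟫ = ⟪L y, x⟫ :=
  ContinuousLinearMap.adjoint_inner_right _ _ _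

lemma adjL_adjL (L : E →L[ℝ] F) : adjL F E (adjL E F L) = L :=
  ContinuousLinearMap.adjoint_adjoint _

end adj

variable {E : Type} [NormedAddCommGroup E] [InnerProductSpace ℝ E] [FiniteDimensional ℝ E]

/-- Orthogonal projection on the tangent space. -/
def PP (M : Set E) (x : E) : E →L[ℝ] E := (tangent M x).starProjection

section PPb

variable (M : Set E) (x : E)

lemma PP_mem (v : E) : PP M x v ∈ tangent M x := Submodule.starProjection_apply_mem _ _

lemma PP_of_mem {v : E} (h : v ∈ tangent M x) : PP M x v = v :=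
  Submodule.starProjection_eq_self_iff.2 h

lemma PP_idem (v : E) : PP M x (PP M x v) = PP M x v := PP_of_mem M x (PP_mem M x v)

lemma PP_symm (v w : E) : ⟪PP M x v, w⟫ = ⟪v, PP M x w⟫ :=
  Submodule.inner_starProjection_left_eq_right _ _ _

lemma mem_of_PP {v : E} (h : PP M x v = v) : v ∈ tangent M x :=
  Submodule.starProjection_eq_self_iff.1 h

end PPb

variable {M U : Set E} {k : ℕ} {f : E → EuclideanSpace ℝ (Fin k)}

lemma DefAt.exists_ext (h : DefAt M U f) : ∃ Q : E → E →L[ℝ] E,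
    (∀ x ∈ U, ContDiffAt ℝ ∞ Q x) ∧ ∀ x ∈ M, x ∈ U → Q x = PP M x := by
  set D : E → E →L[ℝ] EuclideanSpace ℝ (Fin k) := fun x => fderiv ℝ f x with hD
  set A : E → EuclideanSpace ℝ (Fin k) →L[ℝ] EuclideanSpace ℝ (Fin k) := fun x => (D x).comp (adjL E (EuclideanSpace ℝ (Fin k)) (D x)) with hA
  have hun : ∀ x ∈ U, IsUnit (A x) := by
    intro x hx
    rw [ContinuousLinearMap.isUnit_iff_isUnit_toLinearMap, LinearMap.isUnit_iff_ker_eq_bot,
      LinearMap.ker_eq_bot']
    intro a ha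
    have ha' : D x (adjL E (EuclideanSpace ℝ (Fin k)) (D x) a) = 0 := ha
    have h1 : adjL E (EuclideanSpace ℝ (Fin k)) (D x) a = 0 := by
      have : ⟪adjL E (EuclideanSpace ℝ (Fin k)) (D x) a, adjL E (EuclideanSpace ℝ (Fin k)) (D x) a⟫ = 0 := by
        rw [inner_adjL, ha', inner_zero_right]
      exact inner_self_eq_zero.1 this
    obtain ⟨v, hv⟩ := h.sur x hx a
    have h2 : ⟪a, a⟫ = 0 := by
      nth_rewrite 2 [← hv]
      rw [← inner_adjL, h1, inner_zero_left]
    exact inner_self_eq_zero.1 h2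
  refine ⟨fun x => ContinuousLinearMap.id ℝ E
    - (adjL E (EuclideanSpace ℝ (Fin k)) (D x)).comp ((Ring.inverse (A x)).comp (D x)), ?_, ?_⟩
  · intro x hx
    have h1 : ContDiffAt ℝ ∞ D x := (h.contDiffAt hx).fderiv_right (by simp)
    have h2 : ContDiffAt ℝ ∞ (fun x => adjL E (EuclideanSpace ℝ (Fin k)) (D x)) x := (adjL E (EuclideanSpace ℝ (Fin k))).contDiff.contDiffAt.comp x h1
    have h3 : ContDiffAt ℝ ∞ A x := h1.clm_comp h2
    have h4 : ContDiffAt ℝ ∞ (fun x => Ring.inverse (A x)) x := by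
      obtain ⟨u, hu⟩ := hun x hx
      have h5 := contDiffAt_ringInverse (n := ∞) ℝ u
      rw [hu] at h5
      exact h5.comp x h3
    exact contDiffAt_const.sub (h2.clm_comp (h4.clm_comp h1))
  · intro x hxM hx
    ext v
    have e1 : D x (adjL E (EuclideanSpace ℝ (Fin k)) (D x) (Ring.inverse (A x) (D x v))) = D x v := by
      have := congrArg (fun L : EuclideanSpace ℝ (Fin k) →L[ℝ] EuclideanSpace ℝ (Fin k) => L (D x v)) (Ring.mul_inverse_cancel _ (hun x hx))
      exact this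
    symm
    show PP M x v = v - adjL E (EuclideanSpace ℝ (Fin k)) (D x) (Ring.inverse (A x) (D x v))
    unfold PP
    apply Submodule.eq_starProjection_of_mem_orthogonal
    · rw [h.tangent_eq hxM hx]
      show D x _ = 0
      rw [map_sub, e1, sub_self]
    · rw [Submodule.mem_orthogonal]
      intro w hw
      rw [h.tangent_eq hxM hx] at hw
      have hw' : D x w = 0 := hw
      rw [sub_sub_cancel, inner_adjL', hw', inner_zero_left]

/-- Near a compact subset of `M`, the tangential projection has a globally defined smooth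
extension. -/
lemma SubMf.exists_ext (hM : SubMf M) {K : Set E} (hK : IsCompact K) (hKM : K ⊆ M) :
    ∃ (Q : E → E →L[ℝ] E) (W : Set E), ContDiff ℝ ∞ Q ∧ IsOpen W ∧ K ⊆ W ∧
      ∀ x ∈ M, x ∈ W → Q x = PP M x := by
  -- a closed neighbourhood
  have h1 : ∀ z ∈ K, ∃ r > 0, IsClosed (M ∩ Metric.closedBall z r) := by
    intro z hz
    obtain ⟨U, k, f, h, hzU⟩ := hM.exists_def (hKM hz)
    obtain ⟨r, hr, hrU⟩ := Metric.nhds_basis_closedBall.mem_iff.1 (h.op.mem_nhds hzU)
    refine ⟨r, hr, ?_⟩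
    have h2 : M ∩ Metric.closedBall z r = Metric.closedBall z r ∩ f ⁻¹' {0} := by
      ext x
      constructor
      · rintro ⟨hx1, hx2⟩
        exact ⟨hx2, (h.mem_iff (hrU hx2)).1 hx1⟩
      · rintro ⟨hx1, hx2⟩
        exact ⟨(h.mem_iff (hrU hx1)).2 hx2, hx1⟩
    rw [h2]
    exact (h.cd.continuousOn.mono hrU).preimage_isClosed_of_isClosed Metric.isClosed_closedBall
      isClosed_singleton
  choose! r hr hcl using h1
  obtain ⟨t, htK, ht⟩ := hK.elim_nhds_subcover (fun z => Metric.ball z (r z))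
    (fun z hz => Metric.ball_mem_nhds z (hr z hz))
  set C : Set E := ⋃ z ∈ t, (M ∩ Metric.closedBall z (r z)) with hC
  have hCc : IsClosed C := by
    refine t.finite_toSet.isClosed_biUnion fun z hz => ?_
    exact hcl z (htK z hz)
  have hCM : C ⊆ M := iUnion₂_subset fun z _ => inter_subset_left
  set tt : E → Set (E →L[ℝ] E) := fun x => {L | x ∈ C → L = PP M x} with htt
  have hconv : ∀ x, Convex ℝ (tt x) := by
    intro x
    by_cases hx : x ∈ C
    · have : tt x = {PP M x} := by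
        ext L; simp [htt, hx]
      rw [this]; exact convex_singleton _
    · have : tt x = univ := by
        ext L; simp [htt, hx]
      rw [this]; exact convex_univ
  have hloc : ∀ x : E, ∃ V ∈ 𝓝 x, ∃ g : E → E →L[ℝ] E,
      ContMDiffOn 𝓘(ℝ, E) 𝓘(ℝ, E →L[ℝ] E) ((⊤ : ℕ∞) : WithTop ℕ∞) g V ∧ ∀ y ∈ V, g y ∈ tt y := by
    intro x
    by_cases hx : x ∈ C
    · obtain ⟨U, k, f, h, hxU⟩ := hM.exists_def (hCM hx)
      obtain ⟨Q, hQ1, hQ2⟩ := h.exists_ext
      refine ⟨U, h.op.mem_nhds hxU, Q, ?_, ?_⟩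
      · rw [contMDiffOn_iff_contDiffOn]
        exact fun y hy => (hQ1 y hy).contDiffWithinAt
      · intro y hy hyC
        exact hQ2 y (hCM hyC) hy
    · refine ⟨Cᶜ, hCc.isOpen_compl.mem_nhds hx, fun _ => 0, ?_, ?_⟩
      · rw [contMDiffOn_iff_contDiffOn]
        exact contDiffOn_const
      · intro y hy hyC
        exact absurd hyC hy
  obtain ⟨Q, hQ⟩ := exists_contMDiffMap_forall_mem_convex_of_local 𝓘(ℝ, E) hconv hloc
  refine ⟨Q, ⋃ z ∈ t, Metric.ball z (r z), ?_, ?_, ht, ?_⟩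
  · exact Q.contMDiff.contDiff
  · exact isOpen_biUnion fun z _ => Metric.isOpen_ball
  · intro x hxM hxW
    apply hQ x
    rw [mem_iUnion₂] at hxW
    obtain ⟨z, hz, hxz⟩ := hxW
    rw [hC, mem_iUnion₂]
    exact ⟨z, hz, hxM, Metric.ball_subset_closedBall hxz⟩

/-- Extensions at a point. -/
def ExtAt (M : Set E) (x : E) (Q : E → E →L[ℝ] E) : Prop :=
  DifferentiableAt ℝ Q x ∧ ∀ᶠ y in 𝓝 x, y ∈ M → Q y = PP M y

lemma SubMf.exists_extAt (hM : SubMf M) {x : E} (hx : x ∈ M) :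
    ∃ Q : E → E →L[ℝ] E, ContDiff ℝ ∞ Q ∧ ExtAt M x Q := by
  obtain ⟨Q, W, h1, h2, h3, h4⟩ := hM.exists_ext (isCompact_singleton (x := x))
    (singleton_subset_iff.2 hx)
  refine ⟨Q, h1, h1.differentiable (by simp) x, ?_⟩
  filter_upwards [h2.mem_nhds (h3 rfl)] with y hy hyM using h4 y hyM hy

open Classical in
/-- The derivative of the tangential projection in tangential directions. -/
def SS (M : Set E) (x : E) : E →L[ℝ] (E →L[ℝ] E) :=
  if h : ∃ Q : E → E →L[ℝ] E, ExtAt M x Q then (fderiv ℝ (Classical.choose h) x).comp (PP M x)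
  else 0

lemma ExtAt.comp_hasFDerivAt {Q : E → E →L[ℝ] E} {Y : Type*} [NormedAddCommGroup Y]
    [NormedSpace ℝ Y] {g : Y → E} {g' : Y →L[ℝ] E} {y : Y} (hQ : ExtAt M (g y) Q)
    (hg : HasFDerivAt g g' y) (hgM : ∀ᶠ y' in 𝓝 y, g y' ∈ M) :
    HasFDerivAt (fun y' => PP M (g y')) ((fderiv ℝ Q (g y)).comp g') y := by
  have h1 : HasFDerivAt (Q ∘ g) ((fderiv ℝ Q (g y)).comp g') y := hQ.1.hasFDerivAt.comp y hg
  refine h1.congr_of_eventuallyEq ?_
  have h2 := hg.continuousAt.tendsto.eventually hQ.2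
  filter_upwards [h2, hgM] with y' h3 h4
  exact (h3 h4).symm

lemma SubMf.fderiv_ext_eq (hM : SubMf M) {x : E} (hx : x ∈ M) {Q Q' : E → E →L[ℝ] E}
    (hQ : ExtAt M x Q) (hQ' : ExtAt M x Q') {a : E} (ha : a ∈ tangent M x) :
    fderiv ℝ Q x a = fderiv ℝ Q' x a := by
  obtain ⟨c, hc, hcM, hc0, hcd⟩ := hM.exists_curve hx ha
  rw [← hc0] at hQ hQ'
  have h1 := hQ.comp_hasFDerivAt hcd.hasFDerivAt (Filter.Eventually.of_forall hcM)
  have h2 := hQ'.comp_hasFDerivAt hcd.hasFDerivAt (Filter.Eventually.of_forall hcM)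
  have h3 := h1.unique h2
  have h4 := congrArg (fun L : ℝ →L[ℝ] (E →L[ℝ] E) => L 1) h3
  rw [hc0] at h4
  simpa using h4

lemma SubMf.SS_eq (hM : SubMf M) {x : E} (hx : x ∈ M) {Q : E → E →L[ℝ] E}
    (hQ : ExtAt M x Q) {a : E} (ha : a ∈ tangent M x) : SS M x a = fderiv ℝ Q x a := by
  have h : ∃ Q : E → E →L[ℝ] E, ExtAt M x Q := ⟨Q, hQ⟩
  unfold SS
  rw [dif_pos h]
  show fderiv ℝ (Classical.choose h) x (PP M x a) = _
  rw [PP_of_mem M x ha]
  exact hM.fderiv_ext_eq hx (Classical.choose_spec h) hQ ha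

/-- Chain rule for the projection along maps into `M`. -/
lemma SubMf.hasFDerivAt_PP (hM : SubMf M) {Y : Type*} [NormedAddCommGroup Y]
    [NormedSpace ℝ Y] {g : Y → E} {g' : Y →L[ℝ] E} {y : Y}
    (hg : HasFDerivAt g g' y) (hgM : ∀ᶠ y' in 𝓝 y, g y' ∈ M) :
    HasFDerivAt (fun y' => PP M (g y')) ((SS M (g y)).comp g') y := by
  have hgy : g y ∈ M := hgM.self_of_nhds
  obtain ⟨Q, hQ1, hQ⟩ := hM.exists_extAt hgy
  have h1 := hQ.comp_hasFDerivAt hg hgM
  have h2 : (SS M (g y)).comp g' = (fderiv ℝ Q (g y)).comp g' := by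
    ext v : 1
    exact hM.SS_eq hgy hQ (hM.map_deriv hg hgM v)
  rw [h2]
  exact h1

lemma SubMf.hasDerivAt_PP (hM : SubMf M) {c : ℝ → E} {c' : E} {t : ℝ}
    (hc : HasDerivAt c c' t) (hcM : ∀ᶠ s in 𝓝 t, c s ∈ M) :
    HasDerivAt (fun s => PP M (c s)) (SS M (c t) c') t := by
  have h1 := (hM.hasFDerivAt_PP hc.hasFDerivAt hcM).hasDerivAt
  simpa using h1

lemma SubMf.contDiffAt_PP (hM : SubMf M) {Y : Type*} [NormedAddCommGroup Y]
    [NormedSpace ℝ Y] {g : Y → E} {y : Y} {n : WithTop ℕ∞} (hn : n ≤ ∞)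
    (hg : ContDiffAt ℝ n g y) (hgM : ∀ᶠ y' in 𝓝 y, g y' ∈ M) :
    ContDiffAt ℝ n (fun y' => PP M (g y')) y := by
  have hgy : g y ∈ M := hgM.self_of_nhds
  obtain ⟨Q, hQ1, hQ⟩ := hM.exists_extAt hgy
  have h1 : ContDiffAt ℝ n (Q ∘ g) y := ((hQ1.of_le hn).contDiffAt).comp y hg
  refine h1.congr_of_eventuallyEq ?_
  have h2 := hg.continuousAt.tendsto.eventually hQ.2
  filter_upwards [h2, hgM] with y' h3 h4
  exact (h3 h4).symm

/-- `S P + P S = S`. -/
lemma SubMf.SS_leibniz (hM : SubMf M) {x : E} (hx : x ∈ M) {a : E} (ha : a ∈ tangent M x) (v : E) :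
    SS M x a (PP M x v) + PP M x (SS M x a v) = SS M x a v := by
  obtain ⟨c, hc, hcM, hc0, hcd⟩ := hM.exists_curve hx ha
  have h1 := hM.hasDerivAt_PP hcd (Filter.Eventually.of_forall hcM)
  rw [hc0] at h1
  have h2 : HasDerivAt (fun s => PP M (c s) v) (SS M x a v) 0 := by
    have := h1.clm_apply (hasDerivAt_const (0 : ℝ) v)
    simpa using this
  have h3 := h1.clm_apply h2
  have h4 : (fun s => PP M (c s) (PP M (c s) v)) = fun s => PP M (c s) v := by
    funext s; exact PP_idem M _ v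
  have h5 : HasDerivAt (fun s => PP M (c s) (PP M (c s) v))
      (SS M x a (PP M (c 0) v) + PP M (c 0) (SS M x a v)) 0 := h3
  rw [h4, hc0] at h5
  exact h5.unique h2

lemma SubMf.PP_SS (hM : SubMf M) {x : E} (hx : x ∈ M) {a b : E} (ha : a ∈ tangent M x)
    (hb : b ∈ tangent M x) : PP M x (SS M x a b) = 0 := by
  have h1 := hM.SS_leibniz hx ha b
  rw [PP_of_mem M x hb] at h1
  simpa using h1

lemma SubMf.SS_adj (hM : SubMf M) {x : E} (hx : x ∈ M) {a : E} (ha : a ∈ tangent M x) (v w : E) :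
    ⟪SS M x a v, w⟫ = ⟪v, SS M x a w⟫ := by
  obtain ⟨c, hc, hcM, hc0, hcd⟩ := hM.exists_curve hx ha
  have h1 := hM.hasDerivAt_PP hcd (Filter.Eventually.of_forall hcM)
  rw [hc0] at h1
  have h2 : ∀ v, HasDerivAt (fun s => PP M (c s) v) (SS M x a v) 0 := by
    intro v
    have := h1.clm_apply (hasDerivAt_const (0 : ℝ) v)
    simpa using this
  have h3 := (h2 v).inner ℝ (hasDerivAt_const (0 : ℝ) w)
  have h4 := (hasDerivAt_const (0 : ℝ) v).inner ℝ (h2 w)
  have h5 : (fun s => ⟪PP M (c s) v, w⟫) = fun s => ⟪v, PP M (c s) w⟫ := by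
    funext s; exact PP_symm M _ v w
  rw [h5] at h3
  have h6 := h3.unique h4
  simpa using h6

/-- Symmetry of the second fundamental form. -/
lemma SubMf.SS_symm (hM : SubMf M) {z : E} (hz : z ∈ M) {a b : E} (ha : a ∈ tangent M z)
    (hb : b ∈ tangent M z) : SS M z a b = SS M z b a := by
  obtain ⟨U, k, f, h, hzU⟩ := hM.exists_def hz
  obtain ⟨φ, h0, h1, h2, h3, -⟩ := h.param hz hzU
  rw [h.tangent_eq hz hzU] at ha hb
  obtain ⟨Q, hQ1, hQ⟩ := hM.exists_extAt hz
  have hφ : ContDiffAt ℝ ∞ φ 0 := h3.self_of_nhds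
  have hsymm : IsSymmSndFDerivAt ℝ φ 0 := hφ.isSymmSndFDerivAt (by
    simp only [minSmoothness_of_isRCLikeNormedField]
    exact two_le_inf)
  have hφ' : ContDiffAt ℝ 1 (fderiv ℝ φ) 0 := hφ.fderiv_right (by norm_cast)
  have hφ'' : HasFDerivAt (fderiv ℝ φ) (fderiv ℝ (fderiv ℝ φ) 0) 0 :=
    (hφ'.differentiableAt (by simp)).hasFDerivAt
  have hP := hM.hasFDerivAt_PP h1 h2
  rw [h0] at hP
  have key : ∀ (u v : LinearMap.ker (fderiv ℝ f z).toLinearMap),
      SS M z (u : E) (v : E) = fderiv ℝ (fderiv ℝ φ) 0 u v - PP M z (fderiv ℝ (fderiv ℝ φ) 0 u v) := by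
    intro u v
    have e1 : HasFDerivAt (fun y => fderiv ℝ φ y v)
        ((fderiv ℝ (fderiv ℝ φ) 0).flip v) 0 := by
      have := hφ''.clm_apply (hasFDerivAt_const v (0 : LinearMap.ker (fderiv ℝ f z).toLinearMap))
      simpa using this
    have e2 := hP.clm_apply e1
    have e3 : (fun y => PP M (φ y) (fderiv ℝ φ y v)) =ᶠ[𝓝 0] fun y => fderiv ℝ φ y v := by
      filter_upwards [h2.eventually_nhds, h3] with y h4 h5
      refine PP_of_mem M _ ?_
      exact hM.map_deriv ((h5.differentiableAt (by simp)).hasFDerivAt) h4 v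
    have e4 := e2.unique (e1.congr_of_eventuallyEq e3)
    have e5 := congrArg (fun L : LinearMap.ker (fderiv ℝ f z).toLinearMap →L[ℝ] E => L u) e4
    simp only [h0, ContinuousLinearMap.add_apply, ContinuousLinearMap.comp_apply,
      ContinuousLinearMap.flip_apply, h1.fderiv, Submodule.subtypeL_apply] at e5
    rw [eq_sub_iff_add_eq, add_comm]
    exact e5
  have k1 := key ⟨a, ha⟩ ⟨b, hb⟩
  have k2 := key ⟨b, hb⟩ ⟨a, ha⟩
  have k3 := hsymm ⟨a, ha⟩ ⟨b, hb⟩
  simp only at k1 k2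
  rw [k1, k2, k3]

end Pool.Agent.H782.Am
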