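import Mathlib
import Pool.Agent.H782.Am.Sub2
import Pool.Agent.H782.Am.Ode

/-! Geodesics with parallel coframes. -/

set_option autoImplicit false
set_option linter.unusedSectionVars false
set_option linter.deprecated false

open Set Filter Topology
open scoped ContDiff RealInnerProductSpace

noncomputable section

namespace Pool.Agent.H782.Am

variable {E X : Type} [NormedAddCommGroup E] [InnerProductSpace ℝ E] [FiniteDimensional ℝ E]
  [NormedAddCommGroup X] [InnerProductSpace ℝ X] [FiniteDimensional ℝ X]

/-- `A` is an isometric coframe at `x`. -/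
structure IsCofr (M : Set E) (x : E) (A : E →L[ℝ] X) : Prop where
  left : ∀ v, adjL E X A (A v) = PP M x v
  right : ∀ y, A (adjL E X A y) = y

namespace IsCofr

variable {M : Set E} {x : E} {A : E →L[ℝ] X}

lemma adj_mem (h : IsCofr M x A) (y : X) : adjL E X A y ∈ tangent M x := by
  apply mem_of_PP
  rw [← h.left, h.right]

lemma PP_adj (h : IsCofr M x A) (y : X) : PP M x (adjL E X A y) = adjL E X A y :=
  PP_of_mem M x (h.adj_mem y)

lemma A_PP (h : IsCofr M x A) (v : E) : A (PP M x v) = A v := by
  rw [← h.left, h.right]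

lemma adj_A (h : IsCofr M x A) {v : E} (hv : v ∈ tangent M x) : adjL E X A (A v) = v := by
  rw [h.left, PP_of_mem M x hv]

lemma inner_A (h : IsCofr M x A) {v w : E} (hv : v ∈ tangent M x) :
    ⟪A v, A w⟫ = ⟪v, w⟫ := by
  rw [← inner_adjL, h.adj_A hv]

lemma norm_adj (h : IsCofr M x A) (y : X) : ‖adjL E X A y‖ = ‖y‖ := by
  have h1 : ⟪adjL E X A y, adjL E X A y⟫ = ⟪y, y⟫ := by rw [inner_adjL, h.right]
  rw [real_inner_self_eq_norm_sq, real_inner_self_eq_norm_sq] at h1
  exact (sq_eq_sq₀ (norm_nonneg _) (norm_nonneg _)).1 h1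

lemma inner_adj_adj (h : IsCofr M x A) (y y' : X) : ⟪adjL E X A y, adjL E X A y'⟫ = ⟪y, y'⟫ := by
  rw [inner_adjL, h.right]

end IsCofr

/-- A geodesic with a parallel coframe. -/
structure FrGeo (M : Set E) (ξ : X) (c : ℝ → E) (A : ℝ → E →L[ℝ] X) : Prop where
  mem : ∀ t, c t ∈ M
  fr : ∀ t, IsCofr M (c t) (A t)
  dc : ∀ t, HasDerivAt c (adjL E X (A t) ξ) t
  dA : ∀ t, HasDerivAt A ((A t).comp (SS M (c t) (adjL E X (A t) ξ))) t

variable {M : Set E}

/-- Linear uniqueness, used for operator valued functions. -/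
lemma lin_zero_all {W : Type} [NormedAddCommGroup W] [NormedSpace ℝ W]
    {B : ℝ → W →L[ℝ] W} (hB : Continuous B) {D : ℝ → W} (hD : ∀ t, HasDerivAt D (B t (D t)) t)
    (h0 : D 0 = 0) : ∀ t, D t = 0 := by
  have h1 := Pool.Agent.W795.linear_unique hB hD (Z := fun _ => 0)
    (fun t => by rw [map_zero]; exact hasDerivAt_const t _) h0
  intro t
  exact congrFun h1 t

lemma hasDerivAt_adjL {A : ℝ → E →L[ℝ] X} {A' : E →L[ℝ] X} {t : ℝ} (h : HasDerivAt A A' t) :
    HasDerivAt (fun s => adjL E X (A s)) (adjL E X A') t :=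
  ((adjL E X).hasFDerivAt.comp_hasDerivAt t h)

lemma adjL_comp {A : E →L[ℝ] X} {B : E →L[ℝ] E} (y : X) :
    adjL E X (A.comp B) y = adjL E E B (adjL E X A y) := by
  refine ext_inner_right ℝ fun v => ?_
  rw [inner_adjL, inner_adjL, inner_adjL]
  rfl

/-- Parallel coframe along a geodesic. -/
lemma exists_frGeo_of_geodesic (hM : SubMf M) {γ : ℝ → E} (hγ : IsGeodesic M γ)
    {A0 : E →L[ℝ] X} (hA0 : IsCofr M (γ 0) A0) {ξ : X} (hξ : deriv γ 0 = adjL E X A0 ξ) :
    ∃ A : ℝ → E →L[ℝ] X, FrGeo M ξ γ A ∧ A 0 = A0 := by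
  obtain ⟨hγ1, hγM, hγo⟩ := hγ
  have hγd : ∀ t, HasDerivAt γ (deriv γ t) t := fun t =>
    (hγ1.differentiable (by simp) t).hasDerivAt
  have hγ2 : ContDiff ℝ ∞ (deriv γ) := by
    have h1 : ContDiff ℝ (∞ + 1) γ := by simpa using hγ1
    exact (contDiff_succ_iff_deriv.1 h1).2.2
  have hγdd : ∀ t, HasDerivAt (deriv γ) (deriv (deriv γ) t) t := fun t =>
    (hγ2.differentiable (by simp) t).hasDerivAt
  have hγT : ∀ t, deriv γ t ∈ tangent M (γ t) := fun t => by
    have := hM.map_deriv (hγd t).hasFDerivAt (Filter.Eventually.of_forall hγM) 1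
    simpa using this
  -- the projection along the geodesic
  set P : ℝ → E →L[ℝ] E := fun t => PP M (γ t) with hP
  set B : ℝ → E →L[ℝ] E := fun t => SS M (γ t) (deriv γ t) with hB
  have hPd : ∀ t, HasDerivAt P (B t) t := fun t =>
    hM.hasDerivAt_PP (hγd t) (Filter.Eventually.of_forall hγM)
  have hPc : ContDiff ℝ ∞ P := by
    rw [contDiff_iff_contDiffAt]
    intro t
    exact hM.contDiffAt_PP le_rfl hγ1.contDiffAt (Filter.Eventually.of_forall hγM)
  have hBc : Continuous B := by
    have h1 : ContDiff ℝ (∞ + 1) P := by simpa using hPc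
    have h2 : B = deriv P := by funext t; exact (hPd t).deriv.symm
    rw [h2]
    exact (contDiff_succ_iff_deriv.1 h1).2.2.continuous
  have hBs : ∀ t, adjL E E (B t) = B t := by
    intro t
    ext v
    refine ext_inner_right ℝ fun w => ?_
    rw [inner_adjL]
    exact (hM.SS_adj (hγM t) (hγT t) v w).symm
  have hPcont : Continuous P := hPc.continuous
  have hleib : ∀ t, (B t).comp (P t) + (P t).comp (B t) = B t := by
    intro t; ext v; exact hM.SS_leibniz (hγM t) (hγT t) v
  have hPBP : ∀ t, (P t).comp ((B t).comp (P t)) = 0 := by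
    intro t; ext v
    exact hM.PP_SS (hγM t) (hγT t) (PP_mem M _ v)
  -- the linear equation
  obtain ⟨A, hA0', hA⟩ := Pool.Agent.W795.exists_linear
    (B := fun t => (ContinuousLinearMap.compL ℝ E E X).flip (B t))
    ((ContinuousLinearMap.compL ℝ E E X).flip.continuous.comp hBc) A0
  have hA' : ∀ t, HasDerivAt A ((A t).comp (B t)) t := hA
  have hadj : ∀ t, HasDerivAt (fun s => adjL E X (A s)) ((B t).comp (adjL E X (A t))) t := by
    intro t
    have h1 := hasDerivAt_adjL (hA' t)
    convert h1 using 1
    ext y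
    rw [adjL_comp, hBs]
    rfl
  -- A = A P
  have hAP : ∀ t, A t - (A t).comp (P t) = 0 := by
    refine lin_zero_all
      (B := fun t => -((ContinuousLinearMap.compL ℝ E E X).flip ((B t).comp (P t)))) ?_ ?_ ?_
    · exact (((ContinuousLinearMap.compL ℝ E E X).flip.continuous).comp
        (hBc.clm_comp hPcont)).neg
    · intro t
      have h1 := (hA' t).sub ((hA' t).clm_comp (hPd t))
      refine h1.congr_deriv ?_
      show (A t).comp (B t) - (((A t).comp (B t)).comp (P t) + (A t).comp (B t))
        = -((A t - (A t).comp (P t)).comp ((B t).comp (P t)))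
      have h2 : ((A t).comp (P t)).comp ((B t).comp (P t)) = 0 := by
        rw [ContinuousLinearMap.comp_assoc, hPBP, ContinuousLinearMap.comp_zero]
      rw [ContinuousLinearMap.sub_comp, h2, ContinuousLinearMap.comp_assoc]
      abel
    · rw [hA0']
      ext v
      simp only [ContinuousLinearMap.sub_apply, ContinuousLinearMap.comp_apply,
        ContinuousLinearMap.zero_apply, hP]
      rw [hA0.A_PP, sub_self]
  have hAPv : ∀ t v, A t (P t v) = A t v := by
    intro t v
    have := congrArg (fun L : E →L[ℝ] X => L v) (hAP t)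
    simp only [ContinuousLinearMap.sub_apply, ContinuousLinearMap.comp_apply,
      ContinuousLinearMap.zero_apply] at this
    exact (sub_eq_zero.1 this).symm
  have hPA : ∀ t y, P t (adjL E X (A t) y) = adjL E X (A t) y := by
    intro t y
    refine ext_inner_right ℝ fun v => ?_
    rw [inner_adjL, ← hAPv t v, ← inner_adjL]
    exact PP_symm M _ _ _
  -- A A† = 1
  have hAA : ∀ t, (A t).comp (adjL E X (A t)) = ContinuousLinearMap.id ℝ X := by
    have hd : ∀ t, HasDerivAt (fun t => (A t).comp (adjL E X (A t))) 0 t := by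
      intro t
      have h1 := (hA' t).clm_comp (hadj t)
      refine h1.congr_deriv ?_
      have h2 : ((A t).comp (B t)).comp (adjL E X (A t)) = 0 := by
        ext y
        show A t (B t (adjL E X (A t) y)) = 0
        rw [← hPA t y, ← hAPv t]
        have h3 := congrArg (fun L : E →L[ℝ] E => L (adjL E X (A t) y)) (hPBP t)
        have h4 : P t (B t (P t (adjL E X (A t) y))) = 0 := h3
        rw [h4, map_zero]
      have h3 : (A t).comp ((B t).comp (adjL E X (A t))) = 0 := by
        rw [← ContinuousLinearMap.comp_assoc, h2]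
      rw [h2, h3, add_zero]
    intro t
    have h1 := is_const_of_deriv_eq_zero (f := fun t => (A t).comp (adjL E X (A t)))
      (fun s => (hd s).differentiableAt) (fun s => (hd s).deriv) t 0
    have h2 : (A t).comp (adjL E X (A t)) = (A 0).comp (adjL E X (A 0)) := h1
    rw [h2, hA0']
    ext y
    exact hA0.right y
  -- A† A = P
  have hAtA : ∀ t, (adjL E X (A t)).comp (A t) - P t = 0 := by
    refine lin_zero_all (B := fun t => (ContinuousLinearMap.compL ℝ E E E) (B t)
      + (ContinuousLinearMap.compL ℝ E E E).flip (B t)) ?_ ?_ ?_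
    · exact ((ContinuousLinearMap.compL ℝ E E E).continuous.comp hBc).add
        ((ContinuousLinearMap.compL ℝ E E E).flip.continuous.comp hBc)
    · intro t
      have h1 := ((hadj t).clm_comp (hA' t)).sub (hPd t)
      refine h1.congr_deriv ?_
      show ((B t).comp (adjL E X (A t))).comp (A t) + (adjL E X (A t)).comp ((A t).comp (B t)) - B t
        = (B t).comp ((adjL E X (A t)).comp (A t) - P t)
          + ((adjL E X (A t)).comp (A t) - P t).comp (B t)
      nth_rewrite 3 [← hleib t]
      rw [ContinuousLinearMap.comp_sub, ContinuousLinearMap.sub_comp,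
        ContinuousLinearMap.comp_assoc, ContinuousLinearMap.comp_assoc]
      abel
    · rw [hA0']
      ext v
      simp only [ContinuousLinearMap.sub_apply, ContinuousLinearMap.comp_apply,
        ContinuousLinearMap.zero_apply, hP]
      rw [hA0.left, sub_self]
  have hfr : ∀ t, IsCofr M (γ t) (A t) := by
    intro t
    constructor
    · intro v
      have := congrArg (fun L : E →L[ℝ] E => L v) (hAtA t)
      simp only [ContinuousLinearMap.sub_apply, ContinuousLinearMap.comp_apply,
        ContinuousLinearMap.zero_apply] at this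
      exact sub_eq_zero.1 this
    · intro y
      have := congrArg (fun L : X →L[ℝ] X => L y) (hAA t)
      exact this
  -- velocity
  have hvel : ∀ t, deriv γ t - adjL E X (A t) ξ = 0 := by
    refine lin_zero_all (B := B) hBc ?_ ?_
    · intro t
      have h1 : HasDerivAt (fun s => adjL E X (A s) ξ) (B t (adjL E X (A t) ξ)) t := by
        have := (hadj t).clm_apply (hasDerivAt_const t ξ)
        simpa using this
      have h2 : deriv (deriv γ) t = B t (deriv γ t) := by
        have h3 : HasDerivAt (fun s => P s (deriv γ s)) (B t (deriv γ t) + P t (deriv (deriv γ) t)) t :=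
          (hPd t).clm_apply (hγdd t)
        have h4 : (fun s => P s (deriv γ s)) = deriv γ := by
          funext s; exact PP_of_mem M _ (hγT s)
        rw [h4] at h3
        have h5 := h3.unique (hγdd t)
        have h6 : P t (deriv (deriv γ) t) = 0 := by
          refine (Submodule.starProjection_apply_eq_zero_iff _).2 ?_
          rw [Submodule.mem_orthogonal]
          intro u hu
          rw [real_inner_comm]
          exact hγo t u hu
        rw [h6, add_zero] at h5
        exact h5.symm
      have h3 := (hγdd t).sub h1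
      refine h3.congr_deriv ?_
      rw [h2, map_sub]
    · rw [hA0', hξ, sub_self]
  have hvel' : ∀ t, deriv γ t = adjL E X (A t) ξ := fun t => sub_eq_zero.1 (hvel t)
  refine ⟨A, ⟨hγM, hfr, fun t => ?_, fun t => ?_⟩, hA0'⟩
  · rw [← hvel' t]; exact hγd t
  · rw [← hvel' t]; exact hA' t

end Pool.Agent.H782.Am
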