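import Mathlib
import Pool.Agent.H782.Am.Fr

/-! The exponential map with parallel coframe, as a smooth map. -/

set_option autoImplicit false
set_option linter.unusedSectionVars false
set_option linter.deprecated false

open Set Filter Topology
open scoped ContDiff RealInnerProductSpace

noncomputable section

namespace Pool.Agent.H782.Am

variable {E X : Type} [NormedAddCommGroup E] [InnerProductSpace ℝ E] [FiniteDimensional ℝ E]
  [NormedAddCommGroup X] [InnerProductSpace ℝ X] [FiniteDimensional ℝ X]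

variable {M : Set E}

/-- The geodesic coframe field with parameter, for an extension `Q` of the projection. -/
def frF (X : Type) [NormedAddCommGroup X] [InnerProductSpace ℝ X] [FiniteDimensional ℝ X]
    (Q : E → E →L[ℝ] E) (v : E × (E →L[ℝ] X) × X) : E × (E →L[ℝ] X) × X :=
  (adjL E X v.2.1 v.2.2, v.2.1.comp (fderiv ℝ Q v.1 (adjL E X v.2.1 v.2.2)), 0)

lemma contDiff_frF {Q : E → E →L[ℝ] E} (hQ : ContDiff ℝ ∞ Q) : ContDiff ℝ ∞ (frF X Q) := by
  unfold frF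
  have h1 : ContDiff ℝ ∞ (fun v : E × (E →L[ℝ] X) × X => adjL E X v.2.1 v.2.2) :=
    ((adjL E X).contDiff.comp (contDiff_fst.comp contDiff_snd)).clm_apply
      (contDiff_snd.comp contDiff_snd)
  have h2 : ContDiff ℝ ∞ (fderiv ℝ Q) := hQ.fderiv_right (by simp)
  refine h1.prodMk (ContDiff.prodMk ?_ contDiff_const)
  exact (contDiff_fst.comp contDiff_snd).clm_comp ((h2.comp contDiff_fst).clm_apply h1)

/-- Extension data on an open set. -/
structure ExtOn (M : Set E) (W : Set E) (Q : E → E →L[ℝ] E) : Prop where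
  sm : ContDiff ℝ ∞ Q
  op : IsOpen W
  eq : ∀ x ∈ M, x ∈ W → Q x = PP M x

lemma ExtOn.extAt {W : Set E} {Q : E → E →L[ℝ] E} (h : ExtOn M W Q) {x : E} (hx : x ∈ W) :
    ExtAt M x Q := by
  refine ⟨h.sm.differentiable (by simp) x, ?_⟩
  filter_upwards [h.op.mem_nhds hx] with y hy hyM using h.eq y hyM hy

lemma FrGeo.hasDerivAt (hM : SubMf M) {ξ : X} {c : ℝ → E} {A : ℝ → E →L[ℝ] X}
    (h : FrGeo M ξ c A) {W : Set E} {Q : E → E →L[ℝ] E} (hQ : ExtOn M W Q) {t : ℝ}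
    (ht : c t ∈ W) : HasDerivAt (fun s => (c s, A s, ξ)) (frF X Q (c t, A t, ξ)) t := by
  have h1 : SS M (c t) (adjL E X (A t) ξ) = fderiv ℝ Q (c t) (adjL E X (A t) ξ) :=
    hM.SS_eq (h.mem t) (hQ.extAt ht) ((h.fr t).adj_mem ξ)
  have h2 := h.dA t
  rw [h1] at h2
  exact (h.dc t).prodMk (h2.prodMk (hasDerivAt_const t ξ))

lemma FrGeo.continuous {ξ : X} {c : ℝ → E} {A : ℝ → E →L[ℝ] X}
    (h : FrGeo M ξ c A) : Continuous c ∧ Continuous A :=
  ⟨continuous_iff_continuousAt.2 fun t => (h.dc t).continuousAt,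
    continuous_iff_continuousAt.2 fun t => (h.dA t).continuousAt⟩

/-- Rescaling. -/
lemma FrGeo.scale {ξ : X} {c : ℝ → E} {A : ℝ → E →L[ℝ] X}
    (h : FrGeo M ξ c A) (r : ℝ) : FrGeo M (r • ξ) (fun t => c (r * t)) (fun t => A (r * t)) := by
  refine ⟨fun t => h.mem _, fun t => h.fr _, fun t => ?_, fun t => ?_⟩
  · have h1 := (h.dc (r * t)).scomp t ((hasDerivAt_id t).const_mul r)
    rw [mul_one] at h1
    rw [map_smul]
    exact h1
  · have h1 := (h.dA (r * t)).scomp t ((hasDerivAt_id t).const_mul r)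
    rw [mul_one] at h1
    refine h1.congr_deriv ?_
    rw [map_smul, map_smul, ContinuousLinearMap.comp_smul]

/-- Translation. -/
lemma FrGeo.shift {ξ : X} {c : ℝ → E} {A : ℝ → E →L[ℝ] X}
    (h : FrGeo M ξ c A) (r : ℝ) : FrGeo M ξ (fun t => c (r + t)) (fun t => A (r + t)) := by
  refine ⟨fun t => h.mem _, fun t => h.fr _, fun t => ?_, fun t => ?_⟩
  · have h1 := (h.dc (r + t)).scomp t ((hasDerivAt_id t).const_add r)
    rw [one_smul] at h1
    exact h1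
  · have h1 := (h.dA (r + t)).scomp t ((hasDerivAt_id t).const_add r)
    rw [one_smul] at h1
    exact h1

lemma FrGeo.uniq_pos (hM : SubMf M) {ξ : X} {c c' : ℝ → E} {A A' : ℝ → E →L[ℝ] X}
    (h : FrGeo M ξ c A) (h' : FrGeo M ξ c' A') (e1 : c 0 = c' 0) (e2 : A 0 = A' 0) :
    ∀ t, 0 ≤ t → c t = c' t ∧ A t = A' t := by
  intro T hT
  obtain ⟨Q, W, hQ1, hQ2, hQ3, hQ4⟩ := hM.exists_ext ((isCompact_Icc (a := (0 : ℝ)) (b := T)).image
    h.continuous.1) (by rintro _ ⟨t, -, rfl⟩; exact h.mem t)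
  have hQ : ExtOn M W Q := ⟨hQ1, hQ2, hQ4⟩
  have hO : IsOpen ((fun v : E × (E →L[ℝ] X) × X => v.1) ⁻¹' W) := hQ2.preimage continuous_fst
  have key := uniq_open (F := frF X Q) hO (fun x _ => ((contDiff_frF hQ1).of_le (by simp)).contDiffAt)
    (a := fun s => (c s, A s, ξ)) (b := fun s => (c' s, A' s, ξ)) (T := T)
    (fun t ht => hQ3 ⟨t, ht, rfl⟩)
    (fun t ht => h.hasDerivAt hM hQ (hQ3 ⟨t, ht, rfl⟩))
    ((h'.continuous.1.prodMk (h'.continuous.2.prodMk continuous_const)).continuousOn)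
    (fun t _ htO => h'.hasDerivAt hM hQ htO)
    (by simp only [e1, e2]) T ⟨hT, le_rfl⟩
  exact ⟨congrArg Prod.fst key, congrArg (fun v => v.2.1) key⟩

lemma FrGeo.uniq (hM : SubMf M) {ξ : X} {c c' : ℝ → E} {A A' : ℝ → E →L[ℝ] X}
    (h : FrGeo M ξ c A) (h' : FrGeo M ξ c' A') (e1 : c 0 = c' 0) (e2 : A 0 = A' 0) :
    ∀ t, c t = c' t ∧ A t = A' t := by
  intro t
  rcases le_total 0 t with ht | ht
  · exact h.uniq_pos hM h' e1 e2 t ht
  · have h1 := (h.scale (-1)).uniq_pos hM (h'.scale (-1)) (by simpa using e1) (by simpa using e2)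
      (-t) (by linarith)
    simpa using h1

lemma FrGeo.uniq_at (hM : SubMf M) {ξ : X} {c c' : ℝ → E} {A A' : ℝ → E →L[ℝ] X}
    (h : FrGeo M ξ c A) (h' : FrGeo M ξ c' A') (s : ℝ) (e1 : c s = c' s) (e2 : A s = A' s) :
    ∀ t, c t = c' t ∧ A t = A' t := by
  intro t
  have h1 := (h.shift s).uniq hM (h'.shift s) (by simpa using e1) (by simpa using e2) (t - s)
  simpa using h1

/-- The exponential map with parallel coframe. -/
structure RayMap (M : Set E) (z : E) (A0 : E →L[ℝ] X) (Φ : X → E) (A : X → E →L[ℝ] X) : Prop where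
  smΦ : ContDiff ℝ ∞ Φ
  smA : ContDiff ℝ ∞ A
  geo : ∀ ξ, FrGeo M ξ (fun t => Φ (t • ξ)) (fun t => A (t • ξ))
  Φ0 : Φ 0 = z
  A0 : A 0 = A0

theorem exists_rayMap (hM : SubMf M) (hC : GeodComplete M) {z : E} (hz : z ∈ M)
    {A0 : E →L[ℝ] X} (hA0 : IsCofr M z A0) :
    ∃ (Φ : X → E) (A : X → E →L[ℝ] X), RayMap M z A0 Φ A := by
  have h1 : ∀ ξ : X, ∃ (c : ℝ → E) (A : ℝ → E →L[ℝ] X), FrGeo M ξ c A ∧ c 0 = z ∧ A 0 = A0 := by
    intro ξ
    obtain ⟨γ, hγ, hγ0, hγ1⟩ := hC z hz _ (hA0.adj_mem ξ)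
    obtain ⟨A, hA, hA'⟩ := exists_frGeo_of_geodesic hM hγ (by rw [hγ0]; exact hA0) hγ1
    exact ⟨γ, A, hA, hγ0, hA'⟩
  choose C A hfr hC0 hA00 using h1
  have hscale : ∀ (r : ℝ) (ξ : X) (t : ℝ), C (r • ξ) t = C ξ (r * t) ∧ A (r • ξ) t = A ξ (r * t) := by
    intro r ξ t
    refine (hfr (r • ξ)).uniq hM ((hfr ξ).scale r) ?_ ?_ t
    · rw [hC0]; simp [hC0]
    · rw [hA00]; simp [hA00]
  set Φ : X → E := fun ξ => C ξ 1 with hΦ
  set 𝔸 : X → E →L[ℝ] X := fun ξ => A ξ 1 with h𝔸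
  have hΦs : ∀ ξ : X, (fun t : ℝ => Φ (t • ξ)) = C ξ := by
    intro ξ; funext t
    have := (hscale t ξ 1).1
    rw [mul_one] at this
    exact this
  have h𝔸s : ∀ ξ : X, (fun t : ℝ => 𝔸 (t • ξ)) = A ξ := by
    intro ξ; funext t
    have := (hscale t ξ 1).2
    rw [mul_one] at this
    exact this
  -- smoothness
  have hsm : ∀ ξ0 : X, ContDiffAt ℝ ∞ (fun ξ => (Φ ξ, 𝔸 ξ, ξ)) ξ0 := by
    intro ξ0
    have hc0 := (hfr ξ0).continuous
    obtain ⟨Q, W, hQ1, hQ2, hQ3, hQ4⟩ := hM.exists_ext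
      ((isCompact_Icc (a := (0 : ℝ)) (b := 1)).image hc0.1)
      (by rintro _ ⟨t, -, rfl⟩; exact (hfr ξ0).mem t)
    have hQ : ExtOn M W Q := ⟨hQ1, hQ2, hQ4⟩
    have hb0c : Continuous (fun t : ℝ => (C ξ0 t, A ξ0 t, ξ0)) :=
      hc0.1.prodMk (hc0.2.prodMk continuous_const)
    obtain ⟨R, hR⟩ := (isCompact_Icc (a := (0 : ℝ)) (b := 1)).exists_bound_of_continuousOn
      hb0c.continuousOn
    have hR0 : 0 ≤ R := (norm_nonneg _).trans (hR 0 ⟨le_rfl, zero_le_one⟩)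
    set f : ContDiffBump (0 : E × (E →L[ℝ] X) × X) := ⟨R + 1, R + 2, by positivity, by linarith⟩
      with hf
    set H : E × (E →L[ℝ] X) × X → E × (E →L[ℝ] X) × X := fun w => f w • frF X Q w with hH
    have hHeq : ∀ w, ‖w‖ < R + 1 → H w = frF X Q w := by
      intro w hw
      have : f w = 1 := f.one_of_mem_closedBall (by simpa using hw.le)
      simp only [hH, this, one_smul]
    have hHc : ContDiff ℝ ∞ H := f.contDiff.smul (contDiff_frF hQ1)
    have hHs : HasCompactSupport H := f.hasCompactSupport.smul_right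
    obtain ⟨φ, hφ1, hφ0, hφd, -⟩ := Pool.Agent.V11199.PL.exists_flow hHc hHs
    set O : Set (E × (E →L[ℝ] X) × X) := {w | w.1 ∈ W ∧ ‖w‖ < R + 1} with hO
    have hOo : IsOpen O :=
      (hQ2.preimage continuous_fst).inter (isOpen_lt continuous_norm continuous_const)
    have hH1 : ∀ x ∈ O, ContDiffAt ℝ 1 H x := fun x _ => (hHc.of_le (by simp)).contDiffAt
    have hφc : ∀ p : E × (E →L[ℝ] X) × X, Continuous (fun t => φ t p) := fun p =>
      continuous_iff_continuousAt.2 fun t => (hφd t p).continuousAt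
    have hfrd : ∀ ξ t, (C ξ t, A ξ t, ξ) ∈ O →
        HasDerivAt (fun s => (C ξ s, A ξ s, ξ)) (H (C ξ t, A ξ t, ξ)) t := by
      intro ξ t ht
      rw [hHeq _ ht.2]
      exact (hfr ξ).hasDerivAt hM hQ ht.1
    have hb0O : ∀ t ∈ Icc (0 : ℝ) 1, (C ξ0 t, A ξ0 t, ξ0) ∈ O := fun t ht =>
      ⟨hQ3 ⟨t, ht, rfl⟩, lt_of_le_of_lt (hR t ht) (by linarith)⟩
    have claim1 : ∀ t ∈ Icc (0 : ℝ) 1, (C ξ0 t, A ξ0 t, ξ0) = φ t (z, A0, ξ0) := by
      refine uniq_open hOo hH1 (a := fun t => (C ξ0 t, A ξ0 t, ξ0))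
        (b := fun t => φ t (z, A0, ξ0)) hb0O
        (fun t ht => hfrd ξ0 t (hb0O t ht)) (hφc _).continuousOn (fun t _ _ => hφd t _) ?_
      simp only [hφ0, hC0, hA00]
    have claim2 : ∀ᶠ ξ in 𝓝 ξ0, ∀ t ∈ Icc (0 : ℝ) 1, φ t (z, A0, ξ) ∈ O := by
      refine isCompact_Icc.eventually_forall_of_forall_eventually ?_
      intro t ht
      have h2 : Continuous (fun w : X × ℝ => φ w.2 (z, A0, w.1)) :=
        hφ1.continuous.comp (continuous_snd.prodMk
          (continuous_const.prodMk (continuous_const.prodMk continuous_fst)))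
      have h3 : (fun w : X × ℝ => φ w.2 (z, A0, w.1)) (ξ0, t) ∈ O := by
        show φ t (z, A0, ξ0) ∈ O
        rw [← claim1 t ht]
        exact hb0O t ht
      exact h2.continuousAt.preimage_mem_nhds (hOo.mem_nhds h3)
    have claim3 : ∀ᶠ ξ in 𝓝 ξ0, (Φ ξ, 𝔸 ξ, ξ) = φ 1 (z, A0, ξ) := by
      filter_upwards [claim2] with ξ hξ
      have h2 := uniq_open hOo hH1 (a := fun t => φ t (z, A0, ξ))
        (b := fun t => (C ξ t, A ξ t, ξ)) (T := 1) hξ (fun t _ => hφd t _)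
        (((hfr ξ).continuous.1.prodMk ((hfr ξ).continuous.2.prodMk continuous_const)).continuousOn)
        (fun t _ htO => hfrd ξ t htO) (by simp only [hφ0, hC0, hA00]) 1 ⟨zero_le_one, le_rfl⟩
      exact h2.symm
    have h4 : ContDiff ℝ ∞ (fun ξ : X => φ 1 (z, A0, ξ)) :=
      hφ1.comp (contDiff_const.prodMk (contDiff_const.prodMk (contDiff_const.prodMk contDiff_id)))
    exact h4.contDiffAt.congr_of_eventuallyEq claim3
  refine ⟨Φ, 𝔸, ?_, ?_, ?_, ?_, ?_⟩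
  · rw [contDiff_iff_contDiffAt]
    intro ξ
    exact contDiffAt_fst.comp ξ (hsm ξ)
  · rw [contDiff_iff_contDiffAt]
    intro ξ
    exact (contDiffAt_fst.comp _ contDiffAt_snd).comp ξ (hsm ξ)
  · intro ξ
    rw [hΦs, h𝔸s]
    exact hfr ξ
  · have := congrFun (hΦs 0) 0
    simp only [smul_zero] at this
    rw [this, hC0]
  · have := congrFun (h𝔸s 0) 0
    simp only [smul_zero] at this
    rw [this, hA00]

end Pool.Agent.H782.Am
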