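import Mathlib
import Pool.Agent.H782.Am.Ray

/-! Structure equations for maps into the coframe bundle. -/

set_option autoImplicit false
set_option linter.unusedSectionVars false
set_option linter.deprecated false

open Set Filter Topology
open scoped ContDiff RealInnerProductSpace

noncomputable section

namespace Pool.Agent.H782.Am

variable {E X Y : Type} [NormedAddCommGroup E] [InnerProductSpace ℝ E] [FiniteDimensional ℝ E]
  [NormedAddCommGroup X] [InnerProductSpace ℝ X] [FiniteDimensional ℝ X]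
  [NormedAddCommGroup Y] [NormedSpace ℝ Y]

variable {M : Set E}

lemma SS_PP (x : E) (a : E) : SS M x (PP M x a) = SS M x a := by
  unfold SS
  split_ifs with h
  · show fderiv ℝ _ x (PP M x (PP M x a)) = fderiv ℝ _ x (PP M x a)
    rw [PP_idem]
  · rfl

lemma SubMf.SS_eq_comp (hM : SubMf M) {x : E} (hx : x ∈ M) {Q : E → E →L[ℝ] E}
    (hQ : ExtAt M x Q) : SS M x = (fderiv ℝ Q x).comp (PP M x) := by
  ext a : 1
  rw [← SS_PP, hM.SS_eq hx hQ (PP_mem M x a)]
  rfl

lemma SubMf.contDiffAt_SS (hM : SubMf M) {g : Y → E} {y : Y} {n : WithTop ℕ∞} (hn : n ≤ ∞)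
    (hg : ContDiffAt ℝ n g y) (hgM : ∀ᶠ y' in 𝓝 y, g y' ∈ M) :
    ContDiffAt ℝ n (fun y' => SS M (g y')) y := by
  have hgy : g y ∈ M := hgM.self_of_nhds
  obtain ⟨Q, W, hQ1, hQ2, hQ3, hQ4⟩ := hM.exists_ext (isCompact_singleton (x := g y))
    (singleton_subset_iff.2 hgy)
  have hQ : ExtOn M W Q := ⟨hQ1, hQ2, hQ4⟩
  have h1 : ContDiff ℝ ∞ (fderiv ℝ Q) := hQ1.fderiv_right (by simp)
  have h2 : ContDiffAt ℝ n (fun y' => (fderiv ℝ Q (g y')).comp (PP M (g y'))) y :=
    (((h1.of_le hn).contDiffAt).comp y hg).clm_comp (hM.contDiffAt_PP hn hg hgM)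
  refine h2.congr_of_eventuallyEq ?_
  have h3 : ∀ᶠ y' in 𝓝 y, g y' ∈ W := hg.continuousAt.preimage_mem_nhds (hQ2.mem_nhds (hQ3 rfl))
  filter_upwards [h3, hgM] with y' h4 h5
  exact hM.SS_eq_comp h5 (hQ.extAt h4)

/-- A smooth map into the coframe bundle. -/
structure FrMap (M : Set E) (Φ : Y → E) (A : Y → E →L[ℝ] X) : Prop where
  smΦ : ContDiff ℝ ∞ Φ
  smA : ContDiff ℝ ∞ A
  mem : ∀ y, Φ y ∈ M
  fr : ∀ y, IsCofr M (Φ y) (A y)

/-- The tautological form. -/
def th (Φ : Y → E) (A : Y → E →L[ℝ] X) (y : Y) : Y →L[ℝ] X := (A y).comp (fderiv ℝ Φ y)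

/-- The connection form. -/
def om (A : Y → E →L[ℝ] X) (y w : Y) : X →L[ℝ] X := (fderiv ℝ A y w).comp (adjL E X (A y))

/-- The curvature form at a coframe. -/
def Om (M : Set E) (x : E) (A : E →L[ℝ] X) (a b : X) : X →L[ℝ] X :=
  (A.comp ((SS M x (adjL E X A a)).comp (SS M x (adjL E X A b))
    - (SS M x (adjL E X A b)).comp (SS M x (adjL E X A a)))).comp (adjL E X A)

namespace FrMap

variable {Φ : Y → E} {A : Y → E →L[ℝ] X}

lemma dΦ (h : FrMap M Φ A) (y : Y) : HasFDerivAt Φ (fderiv ℝ Φ y) y :=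
  (h.smΦ.differentiable (by simp) y).hasFDerivAt

lemma dA (h : FrMap M Φ A) (y : Y) : HasFDerivAt A (fderiv ℝ A y) y :=
  (h.smA.differentiable (by simp) y).hasFDerivAt

lemma tan (hM : SubMf M) (h : FrMap M Φ A) (y w : Y) : fderiv ℝ Φ y w ∈ tangent M (Φ y) :=
  hM.map_deriv (h.dΦ y) (Filter.Eventually.of_forall h.mem) w

lemma adj_th (hM : SubMf M) (h : FrMap M Φ A) (y w : Y) :
    adjL E X (A y) (th Φ A y w) = fderiv ℝ Φ y w := (h.fr y).adj_A (h.tan hM y w)

lemma om_skew (h : FrMap M Φ A) (y w : Y) (u v : X) : ⟪om A y w u, v⟫ = -⟪u, om A y w v⟫ := by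
  have h0 : HasFDerivAt (fun y => adjL E X (A y)) ((adjL E X).comp (fderiv ℝ A y)) y :=
    (adjL E X).hasFDerivAt.comp y (h.dA y)
  have h1 : ∀ u : X, HasFDerivAt (fun y => adjL E X (A y) u)
      (((adjL E X).comp (fderiv ℝ A y)).flip u) y := by
    intro u
    have := h0.clm_apply (hasFDerivAt_const u y)
    simpa using this
  have h2 := (h1 u).inner ℝ (h1 v)
  have h3 : (fun y => ⟪adjL E X (A y) u, adjL E X (A y) v⟫) = fun _ => ⟪u, v⟫ := by
    funext y; exact (h.fr y).inner_adj_adj u v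
  rw [h3] at h2
  have h4 := congrArg (fun L : Y →L[ℝ] ℝ => L w) (h2.unique (hasFDerivAt_const _ y))
  simp only [ContinuousLinearMap.comp_apply, ContinuousLinearMap.prod_apply,
    ContinuousLinearMap.flip_apply, fderivInnerCLM_apply, ContinuousLinearMap.zero_apply] at h4
  have e1 : ⟪adjL E X (A y) u, adjL E X (fderiv ℝ A y w) v⟫
      = ⟪fderiv ℝ A y w (adjL E X (A y) u), v⟫ := inner_adjL' _ _ _
  have e2 : ⟪adjL E X (fderiv ℝ A y w) u, adjL E X (A y) v⟫
      = ⟪u, fderiv ℝ A y w (adjL E X (A y) v)⟫ := inner_adjL _ _ _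
  unfold om
  simp only [ContinuousLinearMap.comp_apply]
  linarith

/-- First structure equation, raw form. -/
lemma dth (hM : SubMf M) (h : FrMap M Φ A) (y w1 w2 : Y) :
    HasFDerivAt (fun y => th Φ A y w2)
      ((A y).comp ((fderiv ℝ (fderiv ℝ Φ) y).flip w2) + (fderiv ℝ A y).flip (fderiv ℝ Φ y w2)) y ∧
    fderiv ℝ (fun y => th Φ A y w2) y w1
      = om A y w1 (th Φ A y w2) + A y (fderiv ℝ (fderiv ℝ Φ) y w1 w2) := by
  have h0 : ContDiff ℝ ∞ (fderiv ℝ Φ) := h.smΦ.fderiv_right (by simp)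
  have h1 : HasFDerivAt (fderiv ℝ Φ) (fderiv ℝ (fderiv ℝ Φ) y) y :=
    (h0.differentiable (by simp) y).hasFDerivAt
  have h2 : HasFDerivAt (fun y => fderiv ℝ Φ y w2) ((fderiv ℝ (fderiv ℝ Φ) y).flip w2) y := by
    have := h1.clm_apply (hasFDerivAt_const w2 y)
    simpa using this
  have h3 := (h.dA y).clm_apply h2
  refine ⟨h3, ?_⟩
  have h4 : fderiv ℝ (fun y => th Φ A y w2) y = _ := h3.fderiv
  rw [h4]
  simp only [ContinuousLinearMap.add_apply, ContinuousLinearMap.comp_apply,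
    ContinuousLinearMap.flip_apply]
  rw [add_comm]
  congr 1
  unfold om
  rw [ContinuousLinearMap.comp_apply, h.adj_th hM]

lemma symmΦ (h : FrMap M Φ A) (y w1 w2 : Y) :
    fderiv ℝ (fderiv ℝ Φ) y w1 w2 = fderiv ℝ (fderiv ℝ Φ) y w2 w1 := by
  have : IsSymmSndFDerivAt ℝ Φ y := h.smΦ.contDiffAt.isSymmSndFDerivAt (by
    simp only [minSmoothness_of_isRCLikeNormedField]
    exact two_le_inf)
  exact this w1 w2

lemma symmA (h : FrMap M Φ A) (y w1 w2 : Y) :
    fderiv ℝ (fderiv ℝ A) y w1 w2 = fderiv ℝ (fderiv ℝ A) y w2 w1 := by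
  have : IsSymmSndFDerivAt ℝ A y := h.smA.contDiffAt.isSymmSndFDerivAt (by
    simp only [minSmoothness_of_isRCLikeNormedField]
    exact two_le_inf)
  exact this w1 w2

/-- First structure equation. -/
lemma str1 (hM : SubMf M) (h : FrMap M Φ A) (y w1 w2 : Y) :
    fderiv ℝ (fun y => th Φ A y w2) y w1 - fderiv ℝ (fun y => th Φ A y w1) y w2
      = om A y w1 (th Φ A y w2) - om A y w2 (th Φ A y w1) := by
  rw [(h.dth hM y w1 w2).2, (h.dth hM y w2 w1).2, h.symmΦ y w1 w2]
  abel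

/-- Differentiating the coframe conditions. -/
lemma dA_PP (hM : SubMf M) (h : FrMap M Φ A) (y w : Y) (v : E) :
    fderiv ℝ A y w v = fderiv ℝ A y w (PP M (Φ y) v)
      + A y (SS M (Φ y) (fderiv ℝ Φ y w) v) := by
  have h1 := hM.hasFDerivAt_PP (h.dΦ y) (Filter.Eventually.of_forall h.mem)
  have h2 : HasFDerivAt (fun y => PP M (Φ y) v) (((SS M (Φ y)).comp (fderiv ℝ Φ y)).flip v) y := by
    have := h1.clm_apply (hasFDerivAt_const v y)
    simpa using this
  have h3 := (h.dA y).clm_apply h2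
  have h4 : (fun y => A y (PP M (Φ y) v)) = fun y => A y v := by
    funext y; exact (h.fr y).A_PP v
  rw [h4] at h3
  have h5 : HasFDerivAt (fun y => A y v) ((fderiv ℝ A y).flip v) y := by
    have := (h.dA y).clm_apply (hasFDerivAt_const v y)
    simpa using this
  have h6 := congrArg (fun L : Y →L[ℝ] X => L w) (h5.unique h3)
  simp only [ContinuousLinearMap.add_apply, ContinuousLinearMap.comp_apply,
    ContinuousLinearMap.flip_apply] at h6
  rw [h6, add_comm]

lemma dA_adj (hM : SubMf M) (h : FrMap M Φ A) (y w1 w2 : Y) :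
    (fderiv ℝ A y w2).comp (adjL E X (fderiv ℝ A y w1))
      = -((om A y w2).comp (om A y w1))
        + ((A y).comp ((SS M (Φ y) (fderiv ℝ Φ y w2)).comp
          (SS M (Φ y) (fderiv ℝ Φ y w1)))).comp (adjL E X (A y)) := by
  ext u
  refine ext_inner_right ℝ fun v => ?_
  have ht := fun w => h.tan hM y w
  set P := PP M (Φ y) with hP
  set B := adjL E X (fderiv ℝ A y w1) with hB
  -- split `B u`
  have e1 : P (B u) = -(adjL E X (A y) (om A y w1 u)) := by
    refine ext_inner_right ℝ fun z => ?_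
    rw [hP, PP_symm, hB, inner_adjL, inner_neg_left, inner_adjL, h.om_skew, neg_neg]
    unfold om
    rw [ContinuousLinearMap.comp_apply, (h.fr y).left]
  have e2 : B u - P (B u) = SS M (Φ y) (fderiv ℝ Φ y w1) (adjL E X (A y) u) := by
    refine ext_inner_right ℝ fun z => ?_
    rw [inner_sub_left, hP, PP_symm, hB, inner_adjL, inner_adjL]
    rw [h.dA_PP hM y w1 z, inner_add_right, hM.SS_adj (h.mem y) (ht w1), inner_adjL]
    ring
  have e3 : B u = P (B u) + SS M (Φ y) (fderiv ℝ Φ y w1) (adjL E X (A y) u) := by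
    rw [← e2]; abel
  have e4 : P (SS M (Φ y) (fderiv ℝ Φ y w1) (adjL E X (A y) u)) = 0 :=
    hM.PP_SS (h.mem y) (ht w1) ((h.fr y).adj_mem u)
  have e5 : fderiv ℝ A y w2 (B u)
      = -(om A y w2 (om A y w1 u))
        + A y (SS M (Φ y) (fderiv ℝ Φ y w2) (SS M (Φ y) (fderiv ℝ Φ y w1) (adjL E X (A y) u))) := by
    rw [e3, map_add, e1, map_neg]
    congr 1
    rw [h.dA_PP hM y w2, ← hP, e4, map_zero, zero_add]
  congr 1

/-- Second structure equation, raw form. -/
lemma dom (hM : SubMf M) (h : FrMap M Φ A) (y w1 w2 : Y) :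
    DifferentiableAt ℝ (fun y => om A y w2) y ∧
    fderiv ℝ (fun y => om A y w2) y w1
      = (fderiv ℝ (fderiv ℝ A) y w1 w2).comp (adjL E X (A y))
        + (-((om A y w2).comp (om A y w1))
        + ((A y).comp ((SS M (Φ y) (fderiv ℝ Φ y w2)).comp
          (SS M (Φ y) (fderiv ℝ Φ y w1)))).comp (adjL E X (A y))) := by
  have h0 : ContDiff ℝ ∞ (fderiv ℝ A) := h.smA.fderiv_right (by simp)
  have h1 : HasFDerivAt (fderiv ℝ A) (fderiv ℝ (fderiv ℝ A) y) y :=
    (h0.differentiable (by simp) y).hasFDerivAt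
  have h2 : HasFDerivAt (fun y => fderiv ℝ A y w2) ((fderiv ℝ (fderiv ℝ A) y).flip w2) y := by
    have := h1.clm_apply (hasFDerivAt_const w2 y)
    simpa using this
  have h3 : HasFDerivAt (fun y => adjL E X (A y)) ((adjL E X).comp (fderiv ℝ A y)) y :=
    (adjL E X).hasFDerivAt.comp y (h.dA y)
  have h4 := h2.clm_comp h3
  refine ⟨h4.differentiableAt, ?_⟩
  have h5 : fderiv ℝ (fun y => om A y w2) y w1
      = (fderiv ℝ (fderiv ℝ A) y w1 w2).comp (adjL E X (A y))
        + (fderiv ℝ A y w2).comp (adjL E X (fderiv ℝ A y w1)) := by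
    have h6 : fderiv ℝ (fun y => om A y w2) y = _ := h4.fderiv
    rw [h6]
    simp only [ContinuousLinearMap.add_apply, ContinuousLinearMap.comp_apply,
      ContinuousLinearMap.flip_apply, ContinuousLinearMap.compL_apply]
    rw [add_comm]
  rw [h5, h.dA_adj hM]

/-- Second structure equation. -/
lemma str2 (hM : SubMf M) (h : FrMap M Φ A) (y w1 w2 : Y) :
    fderiv ℝ (fun y => om A y w2) y w1 - fderiv ℝ (fun y => om A y w1) y w2
      = (om A y w1).comp (om A y w2) - (om A y w2).comp (om A y w1)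
        - Om M (Φ y) (A y) (th Φ A y w1) (th Φ A y w2) := by
  rw [(h.dom hM y w1 w2).2, (h.dom hM y w2 w1).2, h.symmA y w1 w2]
  unfold Om
  rw [h.adj_th hM, h.adj_th hM, ContinuousLinearMap.comp_sub, ContinuousLinearMap.sub_comp]
  abel

end FrMap

end Pool.Agent.H782.Am
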