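import Mathlib
import Pool.Agent.H782.Am.Str
import Pool.Agent.H782.Am.Jac

/-! Radial equations: Jacobi systems from ray maps. -/

set_option autoImplicit false
set_option linter.unusedSectionVars false
set_option linter.deprecated false

open Set Filter Topology
open scoped ContDiff RealInnerProductSpace

noncomputable section

namespace Pool.Agent.H782.Am

variable {E X : Type} [NormedAddCommGroup E] [InnerProductSpace ℝ E] [FiniteDimensional ℝ E]
  [NormedAddCommGroup X] [InnerProductSpace ℝ X] [FiniteDimensional ℝ X]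

variable {M : Set E}

lemma Om_antisymm (M : Set E) (x : E) (A : E →L[ℝ] X) (a b : X) :
    Om M x A a b = -Om M x A b a := by
  unfold Om
  rw [← ContinuousLinearMap.neg_comp, ← ContinuousLinearMap.comp_neg, neg_sub]

lemma Om_apply (M : Set E) (x : E) (A : E →L[ℝ] X) (a b u : X) :
    Om M x A a b u = A (SS M x (adjL E X A a) (SS M x (adjL E X A b) (adjL E X A u))
      - SS M x (adjL E X A b) (SS M x (adjL E X A a) (adjL E X A u))) := rfl

lemma Om_add_left (M : Set E) (x : E) (A : E →L[ℝ] X) (a a' b : X) :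
    Om M x A (a + a') b = Om M x A a b + Om M x A a' b := by
  ext u
  rw [ContinuousLinearMap.add_apply, Om_apply, Om_apply, Om_apply]
  simp only [map_add, ContinuousLinearMap.add_apply, map_sub]
  abel

lemma Om_smul_left (M : Set E) (x : E) (A : E →L[ℝ] X) (r : ℝ) (a b : X) :
    Om M x A (r • a) b = r • Om M x A a b := by
  ext u
  rw [ContinuousLinearMap.smul_apply, Om_apply, Om_apply]
  simp only [map_smul, ContinuousLinearMap.smul_apply, map_sub, smul_sub]

lemma Om_sub_left (M : Set E) (x : E) (A : E →L[ℝ] X) (a a' b : X) :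
    Om M x A (a - a') b = Om M x A a b - Om M x A a' b := by
  rw [sub_eq_add_neg, Om_add_left, ← neg_one_smul ℝ a', Om_smul_left, neg_one_smul, sub_eq_add_neg]

section FrMapSmooth

variable {Y : Type} [NormedAddCommGroup Y] [NormedSpace ℝ Y]
    {Φ : Y → E} {A : Y → E →L[ℝ] X}

lemma contDiff_th (h : FrMap M Φ A) : ContDiff ℝ ∞ (th Φ A) := by
  unfold th
  exact h.smA.clm_comp (h.smΦ.fderiv_right (by simp))

lemma contDiff_SS (hM : SubMf M) (h : FrMap M Φ A) : ContDiff ℝ ∞ (fun y => SS M (Φ y)) := by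
  rw [contDiff_iff_contDiffAt]
  intro y
  exact hM.contDiffAt_SS le_rfl h.smΦ.contDiffAt (Filter.Eventually.of_forall h.mem)

lemma contDiff_adj (h : FrMap M Φ A) : ContDiff ℝ ∞ (fun y => adjL E X (A y)) :=
  (adjL E X).contDiff.comp h.smA

lemma contDiff_om (h : FrMap M Φ A) (w : Y) : ContDiff ℝ ∞ (fun y => om A y w) := by
  unfold om
  have h1 : ContDiff ℝ ∞ (fderiv ℝ A) := h.smA.fderiv_right (by simp)
  exact (h1.clm_apply contDiff_const).clm_comp (contDiff_adj h)

lemma contDiff_Om (hM : SubMf M) (h : FrMap M Φ A) (a b : X) :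
    ContDiff ℝ ∞ (fun y => Om M (Φ y) (A y) a b) := by
  unfold Om
  have h1 := contDiff_SS hM h
  have h2 := contDiff_adj h
  have h3 : ∀ b : X, ContDiff ℝ ∞ (fun y => SS M (Φ y) (adjL E X (A y) b)) := fun b =>
    h1.clm_apply (h2.clm_apply contDiff_const)
  exact (h.smA.clm_comp (((h3 a).clm_comp (h3 b)).sub ((h3 b).clm_comp (h3 a)))).clm_comp h2

lemma om_add (A : Y → E →L[ℝ] X) (y w w' : Y) : om A y (w + w') = om A y w + om A y w' := by
  unfold om; rw [map_add, ContinuousLinearMap.add_comp]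

lemma om_smul (A : Y → E →L[ℝ] X) (y w : Y) (r : ℝ) : om A y (r • w) = r • om A y w := by
  unfold om; rw [map_smul, ContinuousLinearMap.smul_comp]

end FrMapSmooth

/-- Differentiating an identity `F y y = G y` where `F` is linear in the second argument. -/
lemma diag_deriv {V : Type} [NormedAddCommGroup V] [NormedSpace ℝ V] {F : X → X → V}
    (hadd : ∀ y a b, F y (a + b) = F y a + F y b) (hsmul : ∀ y (r : ℝ) a, F y (r • a) = r • F y a)
    (hF : ∀ a, Differentiable ℝ (fun y => F y a)) {G : X → V} (hG : ∀ y, F y y = G y)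
    {G' : X →L[ℝ] V} {y0 : X} (hG' : HasFDerivAt G G' y0) (w : X) :
    fderiv ℝ (fun y => F y y0) y0 w + F y0 w = G' w := by
  have hl : HasDerivAt (fun s : ℝ => y0 + s • w) w 0 := by
    have := ((hasDerivAt_id (0 : ℝ)).smul_const w).const_add y0
    simpa using this
  have e0 : y0 + (0 : ℝ) • w = y0 := by rw [zero_smul, add_zero]
  have h1 : HasDerivAt (fun s : ℝ => F (y0 + s • w) y0) (fderiv ℝ (fun y => F y y0) y0 w) 0 := by
    have h2 : HasFDerivAt (fun y => F y y0) (fderiv ℝ (fun y => F y y0) y0) (y0 + (0 : ℝ) • w) := by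
      rw [e0]; exact (hF y0 y0).hasFDerivAt
    exact h2.comp_hasDerivAt (0 : ℝ) hl
  have h2 : HasDerivAt (fun s : ℝ => F (y0 + s • w) w) (fderiv ℝ (fun y => F y w) y0 w) 0 := by
    have h2 : HasFDerivAt (fun y => F y w) (fderiv ℝ (fun y => F y w) y0) (y0 + (0 : ℝ) • w) := by
      rw [e0]; exact (hF w y0).hasFDerivAt
    exact h2.comp_hasDerivAt (0 : ℝ) hl
  have h3 := h1.add ((hasDerivAt_id (0 : ℝ)).smul h2)
  have h4 : HasDerivAt (fun s : ℝ => G (y0 + s • w)) (G' w) 0 := by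
    have h2 : HasFDerivAt G G' (y0 + (0 : ℝ) • w) := by rw [e0]; exact hG'
    exact h2.comp_hasDerivAt (0 : ℝ) hl
  have h5 : (fun s : ℝ => G (y0 + s • w))
      = (fun s : ℝ => F (y0 + s • w) y0) + ((id : ℝ → ℝ) • fun s : ℝ => F (y0 + s • w) w) := by
    funext s
    show G (y0 + s • w) = F (y0 + s • w) y0 + s • F (y0 + s • w) w
    rw [← hG, hadd, hsmul]
  rw [h5] at h4
  have h6 := h3.unique h4
  rw [← h6]
  simp

namespace RayMap

variable {z : E} {A0 : E →L[ℝ] X} {Φ : X → E} {A : X → E →L[ℝ] X}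

lemma frMap (h : RayMap M z A0 Φ A) : FrMap M Φ A where
  smΦ := h.smΦ
  smA := h.smA
  mem ξ := by have := (h.geo ξ).mem 1; simpa using this
  fr ξ := by have := (h.geo ξ).fr 1; simpa using this

lemma ray_deriv (t : ℝ) (ξ : X) : HasDerivAt (fun t : ℝ => t • ξ) ξ t := by
  simpa using (hasDerivAt_id t).smul_const ξ

lemma comp_ray {V : Type} [NormedAddCommGroup V] [NormedSpace ℝ V] {F : X → V}
    (hF : Differentiable ℝ F) (t : ℝ) (ξ : X) :
    HasDerivAt (fun s : ℝ => F (s • ξ)) (fderiv ℝ F (t • ξ) ξ) t := by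
  have := (hF (t • ξ)).hasFDerivAt.comp_hasDerivAt t (ray_deriv t ξ)
  exact this

lemma dΦ_rad (h : RayMap M z A0 Φ A) (t : ℝ) (ξ : X) :
    fderiv ℝ Φ (t • ξ) ξ = adjL E X (A (t • ξ)) ξ := by
  have h1 := (h.geo ξ).dc t
  have h3 := (h.frMap.dΦ (t • ξ)).comp_hasDerivAt t (ray_deriv t ξ)
  exact h3.unique h1

lemma dA_rad (h : RayMap M z A0 Φ A) (t : ℝ) (ξ : X) :
    fderiv ℝ A (t • ξ) ξ
      = (A (t • ξ)).comp (SS M (Φ (t • ξ)) (adjL E X (A (t • ξ)) ξ)) := by
  have h1 := (h.geo ξ).dA t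
  have h3 := (h.frMap.dA (t • ξ)).comp_hasDerivAt t (ray_deriv t ξ)
  exact h3.unique h1

lemma th_rad (h : RayMap M z A0 Φ A) (t : ℝ) (ξ : X) : th Φ A (t • ξ) ξ = ξ := by
  unfold th
  rw [ContinuousLinearMap.comp_apply, h.dΦ_rad, (h.frMap.fr _).right]

lemma om_rad (hM : SubMf M) (h : RayMap M z A0 Φ A) (t : ℝ) (ξ : X) : om A (t • ξ) ξ = 0 := by
  unfold om
  rw [h.dA_rad]
  ext u
  simp only [ContinuousLinearMap.comp_apply, ContinuousLinearMap.zero_apply]
  rw [← (h.frMap.fr _).A_PP, hM.PP_SS (h.frMap.mem _) ((h.frMap.fr _).adj_mem _)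
    ((h.frMap.fr _).adj_mem _), map_zero]

lemma th_self (h : RayMap M z A0 Φ A) (y : X) : th Φ A y y = y := by
  have := h.th_rad 1 y
  simpa using this

lemma om_self (hM : SubMf M) (h : RayMap M z A0 Φ A) (y : X) : om A y y = 0 := by
  have := h.om_rad hM 1 y
  simpa using this

/-- The Jacobi operator. -/
def J (Φ : X → E) (A : X → E →L[ℝ] X) (ξ : X) (t : ℝ) : X →L[ℝ] X := t • th Φ A (t • ξ)

/-- The connection operator along the ray. -/
def Wr (A : X → E →L[ℝ] X) (ξ : X) (t : ℝ) (w : X) : X →L[ℝ] X := t • om A (t • ξ) w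

lemma hasDerivAt_J (hM : SubMf M) (h : RayMap M z A0 Φ A) (ξ w : X) (t : ℝ) :
    HasDerivAt (fun s => J Φ A ξ s w) (w - Wr A ξ t w ξ) t := by
  have hd : ∀ a, Differentiable ℝ (fun y => th Φ A y a) := fun a =>
    ((contDiff_th h.frMap).clm_apply contDiff_const).differentiable (by simp)
  have h4 : HasDerivAt (fun s : ℝ => th Φ A (s • ξ) w)
      (fderiv ℝ (fun y => th Φ A y w) (t • ξ) ξ) t := comp_ray (hd w) t ξ
  have h5 := (hasDerivAt_id t).smul h4
  have h6 : (fun s => J Φ A ξ s w) = ((id : ℝ → ℝ) • fun s : ℝ => th Φ A (s • ξ) w) := by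
    funext s; rfl
  rw [h6]
  refine h5.congr_deriv ?_
  -- the structure equation
  have s1 := h.frMap.str1 hM (t • ξ) ξ w
  rw [h.om_rad hM, h.th_rad] at s1
  -- differentiate `th y y = y`
  have h7 := diag_deriv (F := fun y a => th Φ A y a) (fun y a b => map_add _ a b)
    (fun y r a => map_smul _ r a) hd (G := fun y => y) (fun y => h.th_self y)
    (hasFDerivAt_id (t • ξ)) w
  have h8 : fderiv ℝ (fun y => th Φ A y (t • ξ)) (t • ξ) w
      = t • fderiv ℝ (fun y => th Φ A y ξ) (t • ξ) w := by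
    have e1 : (fun y => th Φ A y (t • ξ)) = fun y => t • th Φ A y ξ := by
      funext y; rw [map_smul]
    rw [e1, fderiv_fun_const_smul (hd ξ (t • ξ))]
    rfl
  rw [h8] at h7
  have h7' : t • fderiv ℝ (fun y => th Φ A y ξ) (t • ξ) w + th Φ A (t • ξ) w = w := h7
  rw [sub_eq_iff_eq_add] at s1
  rw [s1]
  simp only [id, one_smul, ContinuousLinearMap.zero_apply, zero_sub]
  have h9 : t • fderiv ℝ (fun y => th Φ A y ξ) (t • ξ) w = w - th Φ A (t • ξ) w :=
    eq_sub_of_add_eq h7'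
  rw [smul_add, h9]
  show t • -(om A (t • ξ) w ξ) + (w - th Φ A (t • ξ) w) + th Φ A (t • ξ) w
    = w - t • (om A (t • ξ) w ξ)
  rw [smul_neg]
  abel

lemma hasDerivAt_Wr (hM : SubMf M) (h : RayMap M z A0 Φ A) (ξ w : X) (t : ℝ) :
    HasDerivAt (fun s => Wr A ξ s w) (Om M (Φ (t • ξ)) (A (t • ξ)) (J Φ A ξ t w) ξ) t := by
  have hd : ∀ a, Differentiable ℝ (fun y => om A y a) := fun a =>
    (contDiff_om h.frMap a).differentiable (by simp)
  have h4 : HasDerivAt (fun s : ℝ => om A (s • ξ) w)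
      (fderiv ℝ (fun y => om A y w) (t • ξ) ξ) t := comp_ray (hd w) t ξ
  have h5 := (hasDerivAt_id t).smul h4
  have h6 : (fun s => Wr A ξ s w) = ((id : ℝ → ℝ) • fun s : ℝ => om A (s • ξ) w) := by
    funext s; rfl
  rw [h6]
  refine h5.congr_deriv ?_
  have s1 := h.frMap.str2 hM (t • ξ) ξ w
  rw [h.om_rad hM, h.th_rad, ContinuousLinearMap.zero_comp, ContinuousLinearMap.comp_zero] at s1
  have h7 := diag_deriv (F := fun y a => om A y a) (fun y a b => om_add A y a b)
    (fun y r a => om_smul A y a r) hd (G := fun _ => 0) (fun y => h.om_self hM y)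
    (hasFDerivAt_const _ (t • ξ)) w
  have h8 : fderiv ℝ (fun y => om A y (t • ξ)) (t • ξ) w
      = t • fderiv ℝ (fun y => om A y ξ) (t • ξ) w := by
    have e1 : (fun y => om A y (t • ξ)) = fun y => t • om A y ξ := by
      funext y; rw [om_smul]
    rw [e1, fderiv_fun_const_smul (hd ξ (t • ξ))]
    rfl
  rw [h8] at h7
  have h7' : t • fderiv ℝ (fun y => om A y ξ) (t • ξ) w + om A (t • ξ) w = 0 := h7
  have h9 : t • fderiv ℝ (fun y => om A y ξ) (t • ξ) w = -om A (t • ξ) w :=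
    eq_neg_of_add_eq_zero_left h7'
  rw [sub_eq_iff_eq_add] at s1
  rw [s1]
  simp only [id, one_smul, sub_self, zero_sub]
  rw [smul_add, h9, Om_antisymm, neg_neg]
  have s4 : Om M (Φ (t • ξ)) (A (t • ξ)) (J Φ A ξ t w) ξ
      = t • Om M (Φ (t • ξ)) (A (t • ξ)) (th Φ A (t • ξ) w) ξ := by
    rw [← Om_smul_left]; rfl
  rw [s4]
  abel

/-- The curvature endomorphism along the ray. -/
def Rc (M : Set E) (Φ : X → E) (A : X → E →L[ℝ] X) (ξ : X) (t : ℝ) : X →L[ℝ] X :=
  ((A (t • ξ)).comp ((SS M (Φ (t • ξ))).flip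
      (SS M (Φ (t • ξ)) (adjL E X (A (t • ξ)) ξ) (adjL E X (A (t • ξ)) ξ))
    - (SS M (Φ (t • ξ)) (adjL E X (A (t • ξ)) ξ)).comp
      ((SS M (Φ (t • ξ))).flip (adjL E X (A (t • ξ)) ξ)))).comp (adjL E X (A (t • ξ)))

lemma Rc_apply (ξ : X) (t : ℝ) (v : X) :
    Rc M Φ A ξ t v = Om M (Φ (t • ξ)) (A (t • ξ)) v ξ ξ := rfl

/-- The derivative of the Jacobi operator. -/
def Kr (A : X → E →L[ℝ] X) (ξ : X) (t : ℝ) : X →L[ℝ] X :=
  ContinuousLinearMap.id ℝ X - t • ((fderiv ℝ A (t • ξ)).flip (adjL E X (A (t • ξ)) ξ))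

lemma Kr_apply (ξ : X) (t : ℝ) (w : X) : Kr A ξ t w = w - Wr A ξ t w ξ := rfl

lemma hasDerivAt_of_apply {F : ℝ → X →L[ℝ] X} {F' : X →L[ℝ] X} {t : ℝ}
    (hF : DifferentiableAt ℝ F t) (h : ∀ w, HasDerivAt (fun s => F s w) (F' w) t) :
    HasDerivAt F F' t := by
  have h1 : deriv F t = F' := by
    ext w
    have h2 : HasDerivAt (fun s => F s w) (deriv F t w) t := by
      have := hF.hasDerivAt.clm_apply (hasDerivAt_const t w)
      simpa using this
    exact h2.unique (h w)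
  rw [← h1]
  exact hF.hasDerivAt

lemma jacSys (hM : SubMf M) (h : RayMap M z A0 Φ A) (ξ : X) :
    JacSys (J Φ A ξ) (Kr A ξ) (Rc M Φ A ξ) where
  dJ t := by
    refine hasDerivAt_of_apply ?_ ?_
    · have h1 : ContDiff ℝ ∞ (fun s : ℝ => s • th Φ A (s • ξ)) :=
        contDiff_id.smul ((contDiff_th h.frMap).comp (contDiff_id.smul contDiff_const))
      exact h1.differentiable (by simp) t
    · intro w
      exact h.hasDerivAt_J hM ξ w t
  dK t := by
    refine hasDerivAt_of_apply ?_ ?_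
    · have h1 : ContDiff ℝ ∞ (Kr A ξ) := by
        rw [contDiff_clm_apply_iff]
        intro w
        have h2 : ContDiff ℝ ∞ (fun s : ℝ => om A (s • ξ) w ξ) :=
          ((contDiff_om h.frMap w).comp (contDiff_id.smul contDiff_const)).clm_apply contDiff_const
        exact contDiff_const.sub (contDiff_id.smul h2)
      exact h1.differentiable (by simp) t
    · intro w
      have h1 := (h.hasDerivAt_Wr hM ξ w t).clm_apply (hasDerivAt_const t ξ)
      rw [map_zero, add_zero] at h1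
      exact h1.const_sub w
  symm t v w := by
    have hx := h.frMap.mem (t • ξ)
    have hfr := h.frMap.fr (t • ξ)
    have hS : ∀ a b : X, SS M (Φ (t • ξ)) (adjL E X (A (t • ξ)) a) (adjL E X (A (t • ξ)) b)
        = SS M (Φ (t • ξ)) (adjL E X (A (t • ξ)) b) (adjL E X (A (t • ξ)) a) := fun a b =>
      hM.SS_symm hx (hfr.adj_mem a) (hfr.adj_mem b)
    have key : ∀ v w : X, ⟪Rc M Φ A ξ t v, w⟫
        = ⟪SS M (Φ (t • ξ)) (adjL E X (A (t • ξ)) ξ) (adjL E X (A (t • ξ)) ξ),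
            SS M (Φ (t • ξ)) (adjL E X (A (t • ξ)) v) (adjL E X (A (t • ξ)) w)⟫
          - ⟪SS M (Φ (t • ξ)) (adjL E X (A (t • ξ)) ξ) (adjL E X (A (t • ξ)) v),
            SS M (Φ (t • ξ)) (adjL E X (A (t • ξ)) ξ) (adjL E X (A (t • ξ)) w)⟫ := by
      intro v w
      have e1 := hM.SS_adj hx (hfr.adj_mem v)
        (SS M (Φ (t • ξ)) (adjL E X (A (t • ξ)) ξ) (adjL E X (A (t • ξ)) ξ))
        (adjL E X (A (t • ξ)) w)
      have e2 := hM.SS_adj hx (hfr.adj_mem ξ)
        (SS M (Φ (t • ξ)) (adjL E X (A (t • ξ)) v) (adjL E X (A (t • ξ)) ξ))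
        (adjL E X (A (t • ξ)) w)
      rw [Rc_apply, Om_apply, ← inner_adjL', inner_sub_left, e1, e2, hS v ξ]
    rw [key v w, real_inner_comm (Rc M Φ A ξ t w) v, key w v, hS w v, real_inner_comm
      (SS M (Φ (t • ξ)) (adjL E X (A (t • ξ)) ξ) (adjL E X (A (t • ξ)) w))
      (SS M (Φ (t • ξ)) (adjL E X (A (t • ξ)) ξ) (adjL E X (A (t • ξ)) v))]
  cont := by
    rw [continuous_clm_apply]
    intro v
    have h1 : ContDiff ℝ ∞ (fun s : ℝ => Om M (Φ (s • ξ)) (A (s • ξ)) v ξ) :=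
      (contDiff_Om hM h.frMap v ξ).comp (contDiff_id.smul contDiff_const)
    exact (h1.clm_apply contDiff_const).continuous
  J0 := by unfold J; rw [zero_smul]
  K0 := by
    unfold Kr
    rw [zero_smul, sub_zero]

end RayMap

end Pool.Agent.H782.Am
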