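import Mathlib
import Pool.Agent.H782.Am.Rad

/-! The horizontal control field on coframes, rotations and brackets. -/

set_option autoImplicit false
set_option linter.unusedSectionVars false
set_option linter.deprecated false

open Set Filter Topology
open scoped ContDiff RealInnerProductSpace

noncomputable section

namespace Pool.Agent.H782.Am

variable {E X : Type} [NormedAddCommGroup E] [InnerProductSpace ℝ E] [FiniteDimensional ℝ E]
  [NormedAddCommGroup X] [InnerProductSpace ℝ X] [FiniteDimensional ℝ X]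

variable {M : Set E}

/-- The horizontal control field for an extension `Q` of the tangential projection. -/
def gf (Q : E → E →L[ℝ] E) (p : E × (E →L[ℝ] X)) : X →L[ℝ] E × (E →L[ℝ] X) :=
  (adjL E X p.2).prod ((ContinuousLinearMap.compL ℝ E E X p.2).comp
    ((fderiv ℝ Q p.1).comp (adjL E X p.2)))

lemma gf_apply (Q : E → E →L[ℝ] E) (p : E × (E →L[ℝ] X)) (ξ : X) :
    gf Q p ξ = (adjL E X p.2 ξ, p.2.comp (fderiv ℝ Q p.1 (adjL E X p.2 ξ))) := rfl

lemma contDiff_gf {Q : E → E →L[ℝ] E} (hQ : ContDiff ℝ ∞ Q) :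
    ContDiff ℝ ∞ (gf (X := X) Q) := by
  rw [contDiff_clm_apply_iff]
  intro ξ
  have h1 : ContDiff ℝ ∞ (fun p : E × (E →L[ℝ] X) => adjL E X p.2 ξ) :=
    ((adjL E X).contDiff.comp contDiff_snd).clm_apply contDiff_const
  have h2 : ContDiff ℝ ∞ (fderiv ℝ Q) := hQ.fderiv_right (by simp)
  exact h1.prodMk (contDiff_snd.clm_comp ((h2.comp contDiff_fst).clm_apply h1))

/-- Infinitesimal rotation of coframes. -/
def rot (E : Type) [NormedAddCommGroup E] [InnerProductSpace ℝ E] [FiniteDimensional ℝ E]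
    (B : X →L[ℝ] X) : (E × (E →L[ℝ] X)) →L[ℝ] (E × (E →L[ℝ] X)) :=
  (0 : (E × (E →L[ℝ] X)) →L[ℝ] E).prod ((ContinuousLinearMap.compL ℝ E X X B).comp
    (ContinuousLinearMap.snd ℝ E (E →L[ℝ] X)))

lemma rot_apply (B : X →L[ℝ] X) (p : E × (E →L[ℝ] X)) : rot E B p = (0, B.comp p.2) := rfl

lemma norm_rot_le (B : X →L[ℝ] X) (p : E × (E →L[ℝ] X)) : ‖rot E B p‖ ≤ ‖B‖ * ‖p‖ := by
  rw [rot_apply]
  refine norm_prod_le_iff.2 ⟨?_, ?_⟩
  · rw [norm_zero]; positivity
  · refine (ContinuousLinearMap.opNorm_comp_le _ _).trans ?_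
    gcongr
    exact norm_snd_le p

/-- Skew-symmetric operators. -/
def Skew (B : X →L[ℝ] X) : Prop := ∀ u v, ⟪B u, v⟫ = -⟪u, B v⟫

lemma Skew.self {B : X →L[ℝ] X} (h : Skew B) (u : X) : ⟪u, B u⟫ = 0 := by
  have := h u u
  rw [real_inner_comm] at this
  linarith

/-- Equivariance of the control field. -/
lemma gf_rot {Q : E → E →L[ℝ] E} {B : X →L[ℝ] X} (hB : Skew B) (p : E × (E →L[ℝ] X)) (s : ℝ)
    (u : X) : gf Q (p + s • rot E B p) u
      = gf Q p (u - s • B u) + s • rot E B (gf Q p (u - s • B u)) := by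
  have e1 : adjL E X (p.2 + s • (B.comp p.2)) u = adjL E X p.2 (u - s • B u) := by
    refine ext_inner_right ℝ fun v => ?_
    rw [inner_adjL, inner_adjL, inner_sub_left, real_inner_smul_left, hB u (p.2 v)]
    simp only [ContinuousLinearMap.add_apply, ContinuousLinearMap.smul_apply,
      ContinuousLinearMap.comp_apply, inner_add_right, real_inner_smul_right]
    ring
  have e2 : p + s • rot E B p = (p.1, p.2 + s • (B.comp p.2)) := by
    rw [rot_apply]
    refine Prod.ext ?_ rfl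
    show p.1 + s • (0 : E) = p.1
    rw [smul_zero, add_zero]
  rw [e2, gf_apply, gf_apply, rot_apply]
  simp only [e1]
  refine Prod.ext ?_ ?_
  · show adjL E X p.2 (u - s • B u) = adjL E X p.2 (u - s • B u) + s • (0 : E)
    rw [smul_zero, add_zero]
  · show (p.2 + s • B.comp p.2).comp _ = p.2.comp _ + s • B.comp (p.2.comp _)
    rw [ContinuousLinearMap.add_comp, ContinuousLinearMap.smul_comp,
      ContinuousLinearMap.comp_assoc]

/-- Derivative of the control field. -/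
lemma fderiv_gf {Q : E → E →L[ℝ] E} (hQ : ContDiff ℝ ∞ Q) (p δ : E × (E →L[ℝ] X)) (b : X) :
    fderiv ℝ (fun p => gf Q p b) p δ = (adjL E X δ.2 b,
      δ.2.comp (fderiv ℝ Q p.1 (adjL E X p.2 b))
      + p.2.comp (fderiv ℝ (fderiv ℝ Q) p.1 δ.1 (adjL E X p.2 b)
        + fderiv ℝ Q p.1 (adjL E X δ.2 b))) := by
  have hQ' : ContDiff ℝ ∞ (fderiv ℝ Q) := hQ.fderiv_right (by simp)
  set L1 : (E × (E →L[ℝ] X)) →L[ℝ] E :=
    ((ContinuousLinearMap.apply ℝ E b).comp (adjL E X)).comp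
      (ContinuousLinearMap.snd ℝ E (E →L[ℝ] X)) with hL1
  have h1 : HasFDerivAt (fun p : E × (E →L[ℝ] X) => adjL E X p.2 b) L1 p := L1.hasFDerivAt
  have h2 : HasFDerivAt (fun p : E × (E →L[ℝ] X) => fderiv ℝ Q p.1)
      ((fderiv ℝ (fderiv ℝ Q) p.1).comp (ContinuousLinearMap.fst ℝ E (E →L[ℝ] X))) p :=
    (hQ'.differentiable (by simp) p.1).hasFDerivAt.comp p hasFDerivAt_fst
  have h3 := h2.clm_apply h1
  have h4 : HasFDerivAt (fun p : E × (E →L[ℝ] X) => p.2)
      (ContinuousLinearMap.snd ℝ E (E →L[ℝ] X)) p := hasFDerivAt_snd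
  have h5 := h4.clm_comp h3
  have h6 := h1.prodMk h5
  have h7 : fderiv ℝ (fun p => gf Q p b) p = _ := h6.fderiv
  rw [h7]
  refine Prod.ext rfl ?_
  simp only [ContinuousLinearMap.prod_apply, ContinuousLinearMap.add_apply,
    ContinuousLinearMap.comp_apply, ContinuousLinearMap.flip_apply,
    ContinuousLinearMap.compL_apply, ContinuousLinearMap.coe_fst', ContinuousLinearMap.coe_snd', hL1,
    ContinuousLinearMap.apply_apply]
  rw [add_comm]
  congr 2
  rw [add_comm]

/-- The curvature form is skew. -/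
lemma Om_skew (hM : SubMf M) {x : E} (hx : x ∈ M) {A : E →L[ℝ] X} (hA : IsCofr M x A) (a b : X) :
    Skew (Om M x A a b) := by
  intro u v
  have ha := hA.adj_mem a
  have hb := hA.adj_mem b
  rw [Om_apply, Om_apply, ← inner_adjL' A v _, ← inner_adjL A u _, inner_sub_left,
    inner_sub_right, hM.SS_adj hx ha (SS M x (adjL E X A b) (adjL E X A u)) (adjL E X A v),
    hM.SS_adj hx hb (adjL E X A u) (SS M x (adjL E X A a) (adjL E X A v)),
    hM.SS_adj hx hb (SS M x (adjL E X A a) (adjL E X A u)) (adjL E X A v),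
    hM.SS_adj hx ha (adjL E X A u) (SS M x (adjL E X A b) (adjL E X A v))]
  ring

/-- The bracket of two horizontal fields is the curvature rotation. -/
lemma bracket_gf (hM : SubMf M) {W : Set E} {Q : E → E →L[ℝ] E} (hQ : ExtOn M W Q)
    {p : E × (E →L[ℝ] X)} (hp : p.1 ∈ M) (hpW : p.1 ∈ W) (hA : IsCofr M p.1 p.2) (a b : X) :
    fderiv ℝ (fun p => gf Q p b) p (gf Q p a) - fderiv ℝ (fun p => gf Q p a) p (gf Q p b)
      = rot E (Om M p.1 p.2 a b) p := by
  have ha := hA.adj_mem a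
  have hb := hA.adj_mem b
  have hSa : fderiv ℝ Q p.1 (adjL E X p.2 a) = SS M p.1 (adjL E X p.2 a) :=
    (hM.SS_eq hp (hQ.extAt hpW) ha).symm
  have hSb : fderiv ℝ Q p.1 (adjL E X p.2 b) = SS M p.1 (adjL E X p.2 b) :=
    (hM.SS_eq hp (hQ.extAt hpW) hb).symm
  have hadj : ∀ c d : X, adjL E X (p.2.comp (SS M p.1 (adjL E X p.2 c))) d
      = SS M p.1 (adjL E X p.2 c) (adjL E X p.2 d) := by
    intro c d
    rw [adjL_comp]
    refine ext_inner_right ℝ fun v => ?_
    rw [inner_adjL]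
    exact (hM.SS_adj hp (hA.adj_mem c) _ _).symm
  have hsym : SS M p.1 (adjL E X p.2 a) (adjL E X p.2 b)
      = SS M p.1 (adjL E X p.2 b) (adjL E X p.2 a) := hM.SS_symm hp ha hb
  have hsymQ : fderiv ℝ (fderiv ℝ Q) p.1 (adjL E X p.2 a) (adjL E X p.2 b)
      = fderiv ℝ (fderiv ℝ Q) p.1 (adjL E X p.2 b) (adjL E X p.2 a) := by
    have : IsSymmSndFDerivAt ℝ Q p.1 := hQ.sm.contDiffAt.isSymmSndFDerivAt (by
      simp only [minSmoothness_of_isRCLikeNormedField]
      exact two_le_inf)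
    exact this _ _
  rw [fderiv_gf hQ.sm, fderiv_gf hQ.sm, rot_apply]
  simp only [gf_apply, hSa, hSb, hadj, hsymQ, hsym]
  refine Prod.ext ?_ ?_
  · show _ - _ = (0 : E)
    rw [sub_self]
  · show (p.2.comp (SS M p.1 (adjL E X p.2 a))).comp (SS M p.1 (adjL E X p.2 b)) + _
      - ((p.2.comp (SS M p.1 (adjL E X p.2 b))).comp (SS M p.1 (adjL E X p.2 a)) + _)
      = (Om M p.1 p.2 a b).comp p.2
    rw [add_sub_add_right_eq_sub]
    ext v
    simp only [ContinuousLinearMap.sub_apply, ContinuousLinearMap.comp_apply]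
    rw [Om_apply, hA.left, ← map_sub]
    -- the normal part does not contribute
    have hn : ∀ c d : X, p.2 (SS M p.1 (adjL E X p.2 c) (SS M p.1 (adjL E X p.2 d) (v - PP M p.1 v)))
        = 0 := by
      intro c d
      have e1 : PP M p.1 (v - PP M p.1 v) = 0 := by rw [map_sub, PP_idem, sub_self]
      have e2 := hM.SS_leibniz hp (hA.adj_mem d) (v - PP M p.1 v)
      rw [e1, map_zero, zero_add] at e2
      have e3 : SS M p.1 (adjL E X p.2 d) (v - PP M p.1 v) ∈ tangent M p.1 := mem_of_PP _ _ e2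
      rw [← hA.A_PP, hM.PP_SS hp (hA.adj_mem c) e3, map_zero]
    have h1 := hn a b
    have h2 := hn b a
    simp only [map_sub] at h1 h2
    rw [sub_eq_zero] at h1 h2
    rw [map_sub, map_sub, h1, h2]

/-- Along ray maps. -/
lemma FrGeo.hasDerivAt_gf (hM : SubMf M) {ξ : X} {c : ℝ → E} {A : ℝ → E →L[ℝ] X}
    (h : FrGeo M ξ c A) {W : Set E} {Q : E → E →L[ℝ] E} (hQ : ExtOn M W Q) {t : ℝ}
    (ht : c t ∈ W) : HasDerivAt (fun s => (c s, A s)) (gf Q (c t, A t) ξ) t := by
  have h1 : SS M (c t) (adjL E X (A t) ξ) = fderiv ℝ Q (c t) (adjL E X (A t) ξ) :=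
    hM.SS_eq (h.mem t) (hQ.extAt ht) ((h.fr t).adj_mem ξ)
  have h2 := h.dA t
  rw [h1] at h2
  exact (h.dc t).prodMk h2

end Pool.Agent.H782.Am
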