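import Mathlib
import Pool.Agent.H782.Am.Rad

/-! Pairs of ray maps. -/

set_option autoImplicit false
set_option linter.unusedSectionVars false
set_option linter.deprecated false

open Set Filter Topology
open scoped ContDiff RealInnerProductSpace

noncomputable section

namespace Pool.Agent.H782.Am

variable {E E' X : Type} [NormedAddCommGroup E] [InnerProductSpace ℝ E] [FiniteDimensional ℝ E]
  [NormedAddCommGroup E'] [InnerProductSpace ℝ E'] [FiniteDimensional ℝ E']
  [NormedAddCommGroup X] [InnerProductSpace ℝ X] [FiniteDimensional ℝ X]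

variable {M : Set E} {N : Set E'}

/-- Agreement of tautological, connection and curvature forms. -/
structure Match (M : Set E) (N : Set E') (Φ : X → E) (A : X → E →L[ℝ] X) (Φ' : X → E')
    (A' : X → E' →L[ℝ] X) : Prop where
  th : ∀ y, th Φ A y = th Φ' A' y
  om : ∀ y w, om A y w = om A' y w
  Om : ∀ y a b, Om M (Φ y) (A y) a b = Om N (Φ' y) (A' y) a b

section

variable {z : E} {A0 : E →L[ℝ] X} {Φ : X → E} {A : X → E →L[ℝ] X}
  {z' : E'} {A0' : E' →L[ℝ] X} {Φ' : X → E'} {A' : X → E' →L[ℝ] X}

lemma dense_inj (hM : SubMf M) (h : RayMap M z A0 Φ A) :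
    Dense {y : X | Function.Injective (th Φ A y)} := by
  intro ξ
  have h1 := (h.jacSys hM ξ).iso 1
  have h2 : ∀ᶠ t : ℝ in 𝓝[≠] 1, t • ξ ∈ {y : X | Function.Injective (th Φ A y)} := by
    filter_upwards [h1] with t ht
    have h3 : Function.Injective (th Φ A (t • ξ)).toLinearMap := by
      rw [← LinearMap.ker_eq_bot, LinearMap.ker_eq_bot']
      intro v hv
      refine ht v ?_
      have hv' : th Φ A (t • ξ) v = 0 := hv
      show t • th Φ A (t • ξ) v = 0
      rw [hv', smul_zero]
    exact h3
  have h3 : Tendsto (fun t : ℝ => t • ξ) (𝓝[≠] 1) (𝓝 ξ) := by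
    have : Continuous (fun t : ℝ => t • ξ) := continuous_id.smul continuous_const
    have h4 := this.tendsto 1
    rw [one_smul] at h4
    exact h4.mono_left nhdsWithin_le_nhds
  exact mem_closure_of_tendsto h3 h2

lemma match_of_gram (hM : SubMf M) (hN : SubMf N) (h : RayMap M z A0 Φ A)
    (h' : RayMap N z' A0' Φ' A')
    (hG : ∀ y v w, ⟪fderiv ℝ Φ y v, fderiv ℝ Φ y w⟫ = ⟪fderiv ℝ Φ' y v, fderiv ℝ Φ' y w⟫) :
    Match M N Φ A Φ' A' := by
  have hG' : ∀ y v w, ⟪th Φ' A' y v, th Φ' A' y w⟫ = ⟪th Φ A y v, th Φ A y w⟫ := by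
    intro y v w
    unfold th
    simp only [ContinuousLinearMap.comp_apply]
    rw [(h.frMap.fr y).inner_A (h.frMap.tan hM y v), (h'.frMap.fr y).inner_A (h'.frMap.tan hN y v),
      hG]
  have hth : ∀ y, th Φ A y = th Φ' A' y := by
    intro y
    have h1 := cmp (h.jacSys hM y) (h'.jacSys hN y) (fun t v w => by
      show ⟪t • th Φ' A' (t • y) v, t • th Φ' A' (t • y) w⟫ = ⟪t • th Φ A (t • y) v, t • th Φ A (t • y) w⟫
      rw [real_inner_smul_left, real_inner_smul_right, real_inner_smul_left, real_inner_smul_right,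
        hG']) 1
    have h2 := h1.1
    unfold RayMap.J at h2
    rw [one_smul, one_smul, one_smul] at h2
    exact h2.symm
  have hthf : th Φ A = th Φ' A' := funext hth
  have hcth : Continuous (th Φ A) := (contDiff_th h.frMap).continuous
  have hsur : ∀ y ∈ {y : X | Function.Injective (th Φ A y)}, ∀ a, ∃ w, th Φ A y w = a := by
    intro y hy
    have : Function.Injective (th Φ A y).toLinearMap := hy
    exact LinearMap.injective_iff_surjective.1 this
  have hd := dense_inj hM h
  have hom : ∀ y w, om A y w = om A' y w := by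
    intro y w
    have hcl : IsClosed {y | om A y w = om A' y w} :=
      isClosed_eq (contDiff_om h.frMap w).continuous (contDiff_om h'.frMap w).continuous
    have hsub : {y : X | Function.Injective (th Φ A y)} ⊆ {y | om A y w = om A' y w} := by
      intro y hy
      show om A y w = om A' y w
      have hΔ : ∀ w1 w2, om A y w1 (th Φ A y w2) - om A' y w1 (th Φ A y w2)
          = om A y w2 (th Φ A y w1) - om A' y w2 (th Φ A y w1) := by
        intro w1 w2
        have s1 := h.frMap.str1 hM y w1 w2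
        have s2 := h'.frMap.str1 hN y w1 w2
        rw [← hthf] at s2
        rw [s1] at s2
        rw [sub_eq_sub_iff_add_eq_add] at s2 ⊢
        rw [s2, add_comm]
      have hskew : ∀ w1 u v, ⟪om A y w1 u - om A' y w1 u, v⟫
          = -⟪om A y w1 v - om A' y w1 v, u⟫ := by
        intro w1 u v
        rw [inner_sub_left, inner_sub_left, h.frMap.om_skew, h'.frMap.om_skew,
          real_inner_comm u, real_inner_comm u]
        ring
      have hT : ∀ w1 w2 w3, ⟪om A y w1 (th Φ A y w2) - om A' y w1 (th Φ A y w2), th Φ A y w3⟫ = 0 := by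
        intro w1 w2 w3
        have a1 := hskew w1 (th Φ A y w2) (th Φ A y w3)
        have a2 := hskew w2 (th Φ A y w1) (th Φ A y w3)
        have a3 := hskew w3 (th Φ A y w1) (th Φ A y w2)
        have b12 := hΔ w1 w2
        have b13 := hΔ w1 w3
        have b23 := hΔ w2 w3
        rw [b13] at a1
        rw [b12] at a1
        rw [b23] at a2
        rw [b12]
        linarith
      ext a
      obtain ⟨w2, rfl⟩ := hsur y hy a
      refine ext_inner_right ℝ fun b => ?_
      obtain ⟨w3, rfl⟩ := hsur y hy b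
      have := hT w w2 w3
      rw [inner_sub_left] at this
      linarith
    exact (closure_minimal hsub hcl) (hd y)
  refine ⟨hth, hom, ?_⟩
  intro y a b
  have hcl : IsClosed {y | Om M (Φ y) (A y) a b = Om N (Φ' y) (A' y) a b} :=
    isClosed_eq (contDiff_Om hM h.frMap a b).continuous (contDiff_Om hN h'.frMap a b).continuous
  have hsub : {y : X | Function.Injective (th Φ A y)}
      ⊆ {y | Om M (Φ y) (A y) a b = Om N (Φ' y) (A' y) a b} := by
    intro y hy
    show Om M (Φ y) (A y) a b = Om N (Φ' y) (A' y) a b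
    obtain ⟨w1, rfl⟩ := hsur y hy a
    obtain ⟨w2, rfl⟩ := hsur y hy b
    have s1 := h.frMap.str2 hM y w1 w2
    have s2 := h'.frMap.str2 hN y w1 w2
    have e1 : (fun y => om A y w2) = fun y => om A' y w2 := funext fun y => hom y w2
    have e2 : (fun y => om A y w1) = fun y => om A' y w1 := funext fun y => hom y w1
    rw [← e1, ← e2, ← hom y w1, ← hom y w2, ← hthf, s1] at s2
    exact sub_right_injective s2
  exact (closure_minimal hsub hcl) (hd y)

/-- If the curvature forms agree then everything agrees. -/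
lemma match_of_Om (hM : SubMf M) (hN : SubMf N) (h : RayMap M z A0 Φ A)
    (h' : RayMap N z' A0' Φ' A')
    (hΩ : ∀ y a b, Om M (Φ y) (A y) a b = Om N (Φ' y) (A' y) a b) :
    Match M N Φ A Φ' A' := by
  have key : ∀ ξ w : X, RayMap.J Φ A ξ 1 w = RayMap.J Φ' A' ξ 1 w
      ∧ RayMap.Wr A ξ 1 w = RayMap.Wr A' ξ 1 w := by
    intro ξ w
    set B : ℝ → (X × (X →L[ℝ] X)) →L[ℝ] (X × (X →L[ℝ] X)) := fun t =>
      (-((ContinuousLinearMap.apply ℝ X ξ).comp (ContinuousLinearMap.snd ℝ X (X →L[ℝ] X)))).prod
        ((LinearMap.toContinuousLinearMap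
          { toFun := fun a => Om N (Φ' (t • ξ)) (A' (t • ξ)) a ξ
            map_add' := fun a b => Om_add_left _ _ _ a b ξ
            map_smul' := fun r a => Om_smul_left _ _ _ r a ξ }).comp
          (ContinuousLinearMap.fst ℝ X (X →L[ℝ] X))) with hB
    have hBc : Continuous B := by
      rw [continuous_clm_apply]
      rintro ⟨a, b⟩
      have h1 : ContDiff ℝ ∞ (fun s : ℝ => Om N (Φ' (s • ξ)) (A' (s • ξ)) a ξ) :=
        (contDiff_Om hN h'.frMap a ξ).comp (contDiff_id.smul contDiff_const)
      exact continuous_const.prodMk h1.continuous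
    have hD : ∀ t, HasDerivAt (fun t => ((RayMap.J Φ A ξ t w - RayMap.J Φ' A' ξ t w,
        RayMap.Wr A ξ t w - RayMap.Wr A' ξ t w) : X × (X →L[ℝ] X)))
        (B t (RayMap.J Φ A ξ t w - RayMap.J Φ' A' ξ t w,
        RayMap.Wr A ξ t w - RayMap.Wr A' ξ t w)) t := by
      intro t
      have e1 := (h.hasDerivAt_J hM ξ w t).sub (h'.hasDerivAt_J hN ξ w t)
      have e2 := (h.hasDerivAt_Wr hM ξ w t).sub (h'.hasDerivAt_Wr hN ξ w t)
      rw [hΩ, ← Om_sub_left] at e2
      have e3 := e1.prodMk e2
      refine e3.congr_deriv ?_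
      refine Prod.ext ?_ rfl
      show w - RayMap.Wr A ξ t w ξ - (w - RayMap.Wr A' ξ t w ξ)
        = -((RayMap.Wr A ξ t w - RayMap.Wr A' ξ t w) ξ)
      rw [ContinuousLinearMap.sub_apply]
      abel
    have h0 := lin_zero_all hBc hD (by
      refine Prod.ext ?_ ?_
      · show (0 : ℝ) • th Φ A ((0 : ℝ) • ξ) w - (0 : ℝ) • th Φ' A' ((0 : ℝ) • ξ) w = 0
        rw [zero_smul, zero_smul, sub_zero]
      · show (0 : ℝ) • om A ((0 : ℝ) • ξ) w - (0 : ℝ) • om A' ((0 : ℝ) • ξ) w = 0
        rw [zero_smul, zero_smul, sub_zero]) 1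
    exact ⟨sub_eq_zero.1 (congrArg Prod.fst h0), sub_eq_zero.1 (congrArg Prod.snd h0)⟩
  refine ⟨fun y => ?_, fun y w => ?_, hΩ⟩
  · ext w
    have := (key y w).1
    unfold RayMap.J at this
    simpa using this
  · have := (key y w).2
    unfold RayMap.Wr at this
    simpa using this

end

end Pool.Agent.H782.Am
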