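import Mathlib
import Pool.Agent.H782.Am.Fld
import Pool.Agent.H782.Am.Pair

/-! The control field on pairs of coframes: cut-off, equivariance, brackets. -/

set_option autoImplicit false
set_option linter.unusedSectionVars false
set_option linter.deprecated false

open Set Filter Topology
open scoped ContDiff RealInnerProductSpace

noncomputable section

namespace Pool.Agent.H782.Am

variable {E E' X : Type} [NormedAddCommGroup E] [InnerProductSpace ℝ E] [FiniteDimensional ℝ E]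
  [NormedAddCommGroup E'] [InnerProductSpace ℝ E'] [FiniteDimensional ℝ E']
  [NormedAddCommGroup X] [InnerProductSpace ℝ X] [FiniteDimensional ℝ X]

variable {M : Set E} {N : Set E'}

/-- Pairs of points with coframes. -/
abbrev VV (E E' X : Type) [NormedAddCommGroup E] [InnerProductSpace ℝ E]
    [NormedAddCommGroup E'] [InnerProductSpace ℝ E']
    [NormedAddCommGroup X] [InnerProductSpace ℝ X] : Type :=
  (E × (E →L[ℝ] X)) × (E' × (E' →L[ℝ] X))

/-- The control field on pairs. -/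
def GF (Q : E → E →L[ℝ] E) (Q' : E' → E' →L[ℝ] E') (w : VV E E' X) : X →L[ℝ] VV E E' X :=
  (gf Q w.1).prod (gf Q' w.2)

lemma GF_apply (Q : E → E →L[ℝ] E) (Q' : E' → E' →L[ℝ] E') (w : VV E E' X) (ξ : X) :
    GF Q Q' w ξ = (gf Q w.1 ξ, gf Q' w.2 ξ) := rfl

lemma contDiff_GF {Q : E → E →L[ℝ] E} (hQ : ContDiff ℝ ∞ Q) {Q' : E' → E' →L[ℝ] E'}
    (hQ' : ContDiff ℝ ∞ Q') : ContDiff ℝ ∞ (GF (X := X) Q Q') := by
  rw [contDiff_clm_apply_iff]
  intro ξ
  have h1 : ContDiff ℝ ∞ (fun w : VV E E' X => gf Q w.1 ξ) :=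
    ((contDiff_gf hQ).clm_apply contDiff_const).comp contDiff_fst
  have h2 : ContDiff ℝ ∞ (fun w : VV E E' X => gf Q' w.2 ξ) :=
    ((contDiff_gf hQ').clm_apply contDiff_const).comp contDiff_snd
  exact h1.prodMk h2

/-- Infinitesimal rotation of pairs. -/
def Rot (E E' : Type) [NormedAddCommGroup E] [InnerProductSpace ℝ E] [FiniteDimensional ℝ E]
    [NormedAddCommGroup E'] [InnerProductSpace ℝ E'] [FiniteDimensional ℝ E']
    (B : X →L[ℝ] X) : VV E E' X →L[ℝ] VV E E' X :=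
  (rot E B).prodMap (rot E' B)

lemma Rot_apply (B : X →L[ℝ] X) (w : VV E E' X) : Rot E E' B w = (rot E B w.1, rot E' B w.2) := rfl

/-- Equivariance of the control field on pairs. -/
lemma GF_rot {Q : E → E →L[ℝ] E} {Q' : E' → E' →L[ℝ] E'} {B : X →L[ℝ] X} (hB : Skew B)
    (w : VV E E' X) (s : ℝ) (u : X) : GF Q Q' (w + s • Rot E E' B w) u
      = GF Q Q' w (u - s • B u) + s • Rot E E' B (GF Q Q' w (u - s • B u)) := by
  have h1 := gf_rot (Q := Q) hB w.1 s u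
  have h2 := gf_rot (Q := Q') hB w.2 s u
  exact Prod.ext h1 h2

/-- The invariant proper function. -/
def rho (w : VV E E' X) : ℝ :=
  (‖w.1.1‖ ^ 2 + ∑ i, ‖w.1.2 (stdOrthonormalBasis ℝ E i)‖ ^ 2)
    + (‖w.2.1‖ ^ 2 + ∑ i, ‖w.2.2 (stdOrthonormalBasis ℝ E' i)‖ ^ 2)

lemma contDiff_rho : ContDiff ℝ ∞ (rho : VV E E' X → ℝ) := by
  unfold rho
  refine ContDiff.add (ContDiff.add ?_ ?_) (ContDiff.add ?_ ?_)
  · exact (contDiff_fst.comp contDiff_fst).norm_sq ℝ
  · refine ContDiff.sum fun i _ => ?_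
    exact ((contDiff_snd.comp contDiff_fst).clm_apply contDiff_const).norm_sq ℝ
  · exact (contDiff_fst.comp contDiff_snd).norm_sq ℝ
  · refine ContDiff.sum fun i _ => ?_
    exact ((contDiff_snd.comp contDiff_snd).clm_apply contDiff_const).norm_sq ℝ

lemma norm_le_sum_basis {F : Type} [NormedAddCommGroup F] [InnerProductSpace ℝ F]
    [FiniteDimensional ℝ F] (A : F →L[ℝ] X) :
    ‖A‖ ≤ ∑ i, ‖A (stdOrthonormalBasis ℝ F i)‖ := by
  refine A.opNorm_le_bound (Finset.sum_nonneg fun _ _ => norm_nonneg _) fun v => ?_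
  conv_lhs => rw [← (stdOrthonormalBasis ℝ F).sum_repr v, map_sum]
  refine (norm_sum_le _ _).trans ?_
  rw [Finset.sum_mul]
  refine Finset.sum_le_sum fun i _ => ?_
  rw [map_smul, norm_smul, mul_comm]
  gcongr
  rw [OrthonormalBasis.repr_apply_apply]
  refine (norm_inner_le_norm _ _).trans ?_
  rw [(stdOrthonormalBasis ℝ F).orthonormal.1 i, one_mul]

lemma rho_bdd {w : VV E E' X} {R : ℝ} (h : rho w ≤ R) :
    ‖w‖ ≤ (R + 1) * (1 + Module.finrank ℝ E + Module.finrank ℝ E') := by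
  have a1 : 0 ≤ ∑ i, ‖w.1.2 (stdOrthonormalBasis ℝ E i)‖ ^ 2 :=
    Finset.sum_nonneg fun _ _ => sq_nonneg _
  have a2 : 0 ≤ ∑ i, ‖w.2.2 (stdOrthonormalBasis ℝ E' i)‖ ^ 2 :=
    Finset.sum_nonneg fun _ _ => sq_nonneg _
  have a3 := sq_nonneg ‖w.1.1‖
  have a4 := sq_nonneg ‖w.2.1‖
  unfold rho at h
  have hR : 0 ≤ R := by linarith
  have e1 : ‖w.1.1‖ ≤ R + 1 := by nlinarith [sq_nonneg (‖w.1.1‖ - 1)]
  have e2 : ‖w.2.1‖ ≤ R + 1 := by nlinarith [sq_nonneg (‖w.2.1‖ - 1)]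
  have e3 : ‖w.1.2‖ ≤ Module.finrank ℝ E * (R + 1) := by
    refine (norm_le_sum_basis _).trans ?_
    have : ∀ i ∈ Finset.univ, ‖w.1.2 (stdOrthonormalBasis ℝ E i)‖ ≤ R + 1 := by
      intro i hi
      have h5 := Finset.single_le_sum (f := fun i => ‖w.1.2 (stdOrthonormalBasis ℝ E i)‖ ^ 2)
        (fun _ _ => sq_nonneg _) hi
      nlinarith [sq_nonneg (‖w.1.2 (stdOrthonormalBasis ℝ E i)‖ - 1)]
    refine (Finset.sum_le_card_nsmul _ _ _ this).trans ?_
    rw [Finset.card_univ, Fintype.card_fin, nsmul_eq_mul]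
  have e4 : ‖w.2.2‖ ≤ Module.finrank ℝ E' * (R + 1) := by
    refine (norm_le_sum_basis _).trans ?_
    have : ∀ i ∈ Finset.univ, ‖w.2.2 (stdOrthonormalBasis ℝ E' i)‖ ≤ R + 1 := by
      intro i hi
      have h5 := Finset.single_le_sum (f := fun i => ‖w.2.2 (stdOrthonormalBasis ℝ E' i)‖ ^ 2)
        (fun _ _ => sq_nonneg _) hi
      nlinarith [sq_nonneg (‖w.2.2 (stdOrthonormalBasis ℝ E' i)‖ - 1)]
    refine (Finset.sum_le_card_nsmul _ _ _ this).trans ?_
    rw [Finset.card_univ, Fintype.card_fin, nsmul_eq_mul]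
  have f1 : (0 : ℝ) ≤ Module.finrank ℝ E := by positivity
  have f2 : (0 : ℝ) ≤ Module.finrank ℝ E' := by positivity
  refine norm_prod_le_iff.2 ⟨norm_prod_le_iff.2 ⟨?_, ?_⟩, norm_prod_le_iff.2 ⟨?_, ?_⟩⟩ <;>
    nlinarith [mul_nonneg hR f1, mul_nonneg hR f2]

lemma hasDerivAt_sq_rot {B : X →L[ℝ] X} (hB : Skew B) (a : X) :
    HasDerivAt (fun s : ℝ => ‖a + s • B a‖ ^ 2) 0 0 := by
  have h1 : HasDerivAt (fun s : ℝ => a + s • B a) (B a) 0 := by
    have := ((hasDerivAt_id (0 : ℝ)).smul_const (B a)).const_add a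
    simpa using this
  have h2 := h1.norm_sq
  simp only [zero_smul, add_zero] at h2
  rw [hB.self, mul_zero] at h2
  exact h2

lemma hasDerivAt_rho_rot {B : X →L[ℝ] X} (hB : Skew B) (w : VV E E' X) :
    HasDerivAt (fun s : ℝ => rho (w + s • Rot E E' B w)) 0 0 := by
  have h1 : (fun s : ℝ => rho (w + s • Rot E E' B w)) = fun s : ℝ =>
      (‖w.1.1‖ ^ 2 + ∑ i, ‖w.1.2 (stdOrthonormalBasis ℝ E i)
        + s • B (w.1.2 (stdOrthonormalBasis ℝ E i))‖ ^ 2)
      + (‖w.2.1‖ ^ 2 + ∑ i, ‖w.2.2 (stdOrthonormalBasis ℝ E' i)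
        + s • B (w.2.2 (stdOrthonormalBasis ℝ E' i))‖ ^ 2) := by
    funext s
    have e1 : (w + s • Rot E E' B w).1.1 = w.1.1 := by
      show w.1.1 + s • (0 : E) = w.1.1
      rw [smul_zero, add_zero]
    have e2 : (w + s • Rot E E' B w).2.1 = w.2.1 := by
      show w.2.1 + s • (0 : E') = w.2.1
      rw [smul_zero, add_zero]
    unfold rho
    rw [e1, e2]
    rfl
  rw [h1]
  have h2 : ∀ {F : Type} [NormedAddCommGroup F] [InnerProductSpace ℝ F]
      [FiniteDimensional ℝ F] (A : F →L[ℝ] X), HasDerivAt (fun s : ℝ =>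
        ∑ i, ‖A (stdOrthonormalBasis ℝ F i) + s • B (A (stdOrthonormalBasis ℝ F i))‖ ^ 2) 0 0 := by
    intro F _ _ _ A
    have := HasDerivAt.fun_sum (u := Finset.univ)
      (fun i _ => hasDerivAt_sq_rot hB (A (stdOrthonormalBasis ℝ F i)))
    rw [Finset.sum_const_zero] at this
    exact this
  have h3 := ((h2 w.1.2).const_add (‖w.1.1‖ ^ 2)).add ((h2 w.2.2).const_add (‖w.2.1‖ ^ 2))
  rw [add_zero] at h3
  exact h3

/-- Invariant cut-off functions. -/
structure Cut (χ : VV E E' X → ℝ) : Prop where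
  sm : ContDiff ℝ ∞ χ
  cpt : HasCompactSupport χ
  inv : ∀ B : X →L[ℝ] X, Skew B → ∀ w, HasDerivAt (fun s : ℝ => χ (w + s • Rot E E' B w)) 0 0

lemma exists_cut {K : Set (VV E E' X)} (hK : IsCompact K) :
    ∃ (χ : VV E E' X → ℝ) (O : Set (VV E E' X)), Cut χ ∧ IsOpen O ∧ K ⊆ O ∧ ∀ w ∈ O, χ w = 1 := by
  obtain ⟨R0, hR0⟩ := hK.exists_bound_of_continuousOn
    (f := fun w : VV E E' X => rho w) contDiff_rho.continuous.continuousOn
  set R := max R0 0 with hR
  have hR00 : 0 ≤ R := le_max_right _ _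
  set f : ContDiffBump (0 : ℝ) := ⟨R + 1, R + 2, by positivity, by linarith⟩ with hf
  refine ⟨fun w => f (rho w), {w | rho w < R + 1}, ⟨?_, ?_, ?_⟩, ?_, ?_, ?_⟩
  · exact f.contDiff.comp contDiff_rho
  · refine HasCompactSupport.intro (K := {w | rho w ≤ R + 2}) ?_ ?_
    · refine Metric.isCompact_of_isClosed_isBounded ?_ ?_
      · exact isClosed_le contDiff_rho.continuous continuous_const
      · rw [isBounded_iff_forall_norm_le]
        exact ⟨_, fun w hw => rho_bdd hw⟩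
    · intro w hw
      have hw' : R + 2 < rho w := not_le.1 hw
      apply f.zero_of_le_dist
      rw [Real.dist_eq, sub_zero]
      exact hw'.le.trans (le_abs_self _)
  · intro B hB w
    have h1 : HasDerivAt f (deriv f (rho (w + (0 : ℝ) • Rot E E' B w)))
        (rho (w + (0 : ℝ) • Rot E E' B w)) :=
      ((f.contDiff (n := 1)).differentiable (by simp) _).hasDerivAt
    have h2 := h1.comp (0 : ℝ) (hasDerivAt_rho_rot hB w)
    rw [mul_zero] at h2
    exact h2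
  · exact isOpen_lt contDiff_rho.continuous continuous_const
  · intro w hw
    have := hR0 w hw
    rw [Real.norm_eq_abs] at this
    have h2 := le_abs_self (rho w)
    have h3 := le_max_left R0 0
    show rho w < R + 1
    linarith
  · intro w hw
    have hw' : rho w < R + 1 := hw
    apply f.one_of_mem_closedBall
    rw [mem_closedBall_zero_iff, Real.norm_eq_abs]
    have : 0 ≤ rho w := by unfold rho; positivity
    rw [abs_of_nonneg this]
    exact hw'.le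

/-- The cut-off control field. -/
def GG (χ : VV E E' X → ℝ) (Q : E → E →L[ℝ] E) (Q' : E' → E' →L[ℝ] E') (w : VV E E' X) :
    X →L[ℝ] VV E E' X := χ w • GF Q Q' w

lemma contDiff_GG {χ : VV E E' X → ℝ} (hχ : Cut χ) {Q : E → E →L[ℝ] E} (hQ : ContDiff ℝ ∞ Q)
    {Q' : E' → E' →L[ℝ] E'} (hQ' : ContDiff ℝ ∞ Q') : ContDiff ℝ ∞ (GG χ Q Q') := by
  rw [contDiff_clm_apply_iff]
  intro ξ
  exact hχ.sm.smul ((contDiff_GF hQ hQ').clm_apply contDiff_const)

lemma cpt_GG {χ : VV E E' X → ℝ} (hχ : Cut χ) (Q : E → E →L[ℝ] E)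
    (Q' : E' → E' →L[ℝ] E') : HasCompactSupport (GG χ Q Q') := by
  refine hχ.cpt.mono ?_
  intro w hw hw0
  apply hw
  have hw1 : χ w = 0 := hw0
  refine ContinuousLinearMap.ext fun u => ?_
  show χ w • GF Q Q' w u = 0
  rw [hw1, zero_smul]

lemma fderiv_GG_eq {χ : VV E E' X → ℝ} (hχ : Cut χ) {Q : E → E →L[ℝ] E}
    (hQ : ContDiff ℝ ∞ Q) {Q' : E' → E' →L[ℝ] E'} (hQ' : ContDiff ℝ ∞ Q') (w v : VV E E' X)
    (u : X) : fderiv ℝ (GG χ Q Q') w v u = fderiv ℝ (fun w => GG χ Q Q' w u) w v := by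
  have h2 : HasFDerivAt (GG χ Q Q') (fderiv ℝ (GG χ Q Q') w) w :=
    ((contDiff_GG hχ hQ hQ').differentiable (by simp) _).hasFDerivAt
  have h3 := h2.clm_apply (hasFDerivAt_const u w)
  rw [h3.fderiv]
  simp

/-- Infinitesimal equivariance. -/
lemma fderiv_GG_rot {χ : VV E E' X → ℝ} (hχ : Cut χ) {Q : E → E →L[ℝ] E} (hQ : ContDiff ℝ ∞ Q)
    {Q' : E' → E' →L[ℝ] E'} (hQ' : ContDiff ℝ ∞ Q') {B : X →L[ℝ] X} (hB : Skew B)
    (w : VV E E' X) (u : X) :
    fderiv ℝ (GG χ Q Q') w (Rot E E' B w) u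
      = -(GG χ Q Q' w (B u)) + Rot E E' B (GG χ Q Q' w u) := by
  have hl : HasDerivAt (fun s : ℝ => w + s • Rot E E' B w) (Rot E E' B w) 0 := by
    have := ((hasDerivAt_id (0 : ℝ)).smul_const (Rot E E' B w)).const_add w
    simpa using this
  have h1 : HasDerivAt (fun s : ℝ => GG χ Q Q' (w + s • Rot E E' B w) u)
      (fderiv ℝ (GG χ Q Q') w (Rot E E' B w) u) 0 := by
    rw [fderiv_GG_eq hχ hQ hQ']
    have h2 : HasFDerivAt (fun w => GG χ Q Q' w u)
        (fderiv ℝ (fun w => GG χ Q Q' w u) (w + (0 : ℝ) • Rot E E' B w))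
        (w + (0 : ℝ) • Rot E E' B w) :=
      (((contDiff_GG hχ hQ hQ').clm_apply contDiff_const).differentiable (by simp) _).hasFDerivAt
    have h3 := h2.comp_hasDerivAt (0 : ℝ) hl
    simp only [zero_smul, add_zero] at h3
    exact h3
  have hu : HasDerivAt (fun s : ℝ => u - s • B u) (-(B u)) 0 := by
    have := ((hasDerivAt_id (0 : ℝ)).smul_const (B u)).const_sub u
    simpa using this
  have h5 : HasDerivAt (fun s : ℝ => GF Q Q' w (u - s • B u)) (-(GF Q Q' w (B u))) 0 := by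
    have := (GF Q Q' w).hasFDerivAt.comp_hasDerivAt (0 : ℝ) hu
    rw [map_neg] at this
    exact this
  have h6 : HasDerivAt (fun s : ℝ => s • Rot E E' B (GF Q Q' w (u - s • B u)))
      (Rot E E' B (GF Q Q' w u)) 0 := by
    have h7 := (Rot E E' B).hasFDerivAt.comp_hasDerivAt (0 : ℝ) h5
    have h8 := (hasDerivAt_id (0 : ℝ)).smul h7
    refine h8.congr_deriv ?_
    simp
  have h9 := (hχ.inv B hB w).smul (h5.add h6)
  have h10 : (fun s : ℝ => GG χ Q Q' (w + s • Rot E E' B w) u)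
      = fun s : ℝ => χ (w + s • Rot E E' B w) • (GF Q Q' w (u - s • B u)
        + s • Rot E E' B (GF Q Q' w (u - s • B u))) := by
    funext s
    rw [← GF_rot hB]
    rfl
  rw [h10] at h1
  have h11 := h1.unique h9
  rw [h11]
  simp only [zero_smul, add_zero]
  unfold GG
  rw [ContinuousLinearMap.smul_apply, ContinuousLinearMap.smul_apply, map_smul]
  module

/-- The set where the cut-off control field is the genuine one. -/
def Good (W : Set E) (W' : Set E') (O : Set (VV E E' X)) :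
    Set (VV E E' X) := {w | (w.1.1 ∈ W ∧ w.2.1 ∈ W') ∧ w ∈ O}

lemma isOpen_Good {W : Set E} {W' : Set E'} {O : Set (VV E E' X)} (hW : IsOpen W)
    (hW' : IsOpen W') (hO : IsOpen O) : IsOpen (Good W W' O) :=
  ((hW.preimage (continuous_fst.comp continuous_fst)).inter
    (hW'.preimage (continuous_fst.comp continuous_snd))).inter hO

lemma fderiv_GG_apply {χ : VV E E' X → ℝ} (hχ : Cut χ) {Q : E → E →L[ℝ] E}
    (hQ : ContDiff ℝ ∞ Q) {Q' : E' → E' →L[ℝ] E'} (hQ' : ContDiff ℝ ∞ Q')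
    {O : Set (VV E E' X)} (hO : IsOpen O) (h1 : ∀ w ∈ O, χ w = 1) {w : VV E E' X} (hw : w ∈ O)
    (v : VV E E' X) (u : X) : fderiv ℝ (GG χ Q Q') w v u
      = (fderiv ℝ (fun p => gf Q p u) w.1 v.1, fderiv ℝ (fun p => gf Q' p u) w.2 v.2) := by
  rw [fderiv_GG_eq hχ hQ hQ']
  have e2 : (fun w => GG χ Q Q' w u) =ᶠ[𝓝 w] fun w => (gf Q w.1 u, gf Q' w.2 u) := by
    filter_upwards [hO.mem_nhds hw] with y hy
    show (χ y • GF Q Q' y) u = _
    rw [h1 y hy, one_smul, GF_apply]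
  rw [e2.fderiv_eq]
  have d1 : HasFDerivAt (fun p => gf (X := X) Q p u) (fderiv ℝ (fun p => gf Q p u) w.1) w.1 :=
    (((contDiff_gf hQ).clm_apply contDiff_const).differentiable (by simp) _).hasFDerivAt
  have d2 : HasFDerivAt (fun p => gf (X := X) Q' p u) (fderiv ℝ (fun p => gf Q' p u) w.2) w.2 :=
    (((contDiff_gf hQ').clm_apply contDiff_const).differentiable (by simp) _).hasFDerivAt
  have d3 := (d1.comp w hasFDerivAt_fst).prodMk (d2.comp w hasFDerivAt_snd)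
  have d4 : fderiv ℝ (fun w : VV E E' X => (gf Q w.1 u, gf Q' w.2 u)) w = _ := d3.fderiv
  rw [d4]
  rfl

/-- The bracket of the control fields is the curvature rotation. -/
lemma bracket_GG (hM : SubMf M) (hN : SubMf N) {χ : VV E E' X → ℝ} (hχ : Cut χ)
    {W : Set E} {Q : E → E →L[ℝ] E} (hQ : ExtOn M W Q) {W' : Set E'} {Q' : E' → E' →L[ℝ] E'}
    (hQ' : ExtOn N W' Q') {O : Set (VV E E' X)} (hO : IsOpen O) (h1 : ∀ w ∈ O, χ w = 1)
    {w : VV E E' X} (hw : w ∈ Good W W' O) (hp : w.1.1 ∈ M) (hp' : w.2.1 ∈ N)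
    (hA : IsCofr M w.1.1 w.1.2) (hA' : IsCofr N w.2.1 w.2.2)
    (hΩ : ∀ a b, Om M w.1.1 w.1.2 a b = Om N w.2.1 w.2.2 a b) (a b : X) :
    fderiv ℝ (GG χ Q Q') w (GG χ Q Q' w a) b - fderiv ℝ (GG χ Q Q') w (GG χ Q Q' w b) a
      = Rot E E' (Om M w.1.1 w.1.2 a b) w := by
  have e : ∀ c, GG χ Q Q' w c = (gf Q w.1 c, gf Q' w.2 c) := by
    intro c
    show (χ w • GF Q Q' w) c = _
    rw [h1 w hw.2, one_smul, GF_apply]
  rw [fderiv_GG_apply hχ hQ.sm hQ'.sm hO h1 hw.2, fderiv_GG_apply hχ hQ.sm hQ'.sm hO h1 hw.2,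
    e, e]
  have b1 := bracket_gf hM hQ hp hw.1.1 hA a b
  have b2 := bracket_gf hN hQ' hp' hw.1.2 hA' a b
  rw [← hΩ] at b2
  exact Prod.ext b1 b2

end Pool.Agent.H782.Am
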