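import Mathlib
import Pool.Agent.H782.Am.Fld
import Pool.Agent.H782.Am.Al3

/-! Extremals issuing from a matching pair of frames are rays: abstract form. -/

set_option autoImplicit false
set_option linter.unusedSectionVars false
set_option linter.deprecated false

open Set Filter Topology
open scoped ContDiff RealInnerProductSpace

noncomputable section

namespace Pool.Agent.H782.Am

variable {V U : Type} [NormedAddCommGroup V] [NormedSpace ℝ V]
  [NormedAddCommGroup U] [InnerProductSpace ℝ U] [FiniteDimensional ℝ U]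

/-- Infinitesimal equivariance of a control field. -/
def Equi (G : V → U →L[ℝ] V) (R : (U →L[ℝ] U) →ₗ[ℝ] (V →L[ℝ] V)) : Prop :=
  ∀ B : U →L[ℝ] U, Skew B → ∀ x u,
    fderiv ℝ G x (R B x) u = -(G x (B u)) + R B (G x u)

variable {G : V → U →L[ℝ] V} {R : (U →L[ℝ] U) →ₗ[ℝ] (V →L[ℝ] V)}

/-- Conservation law. -/
lemma noether (hR : Equi G R) {w : ℝ → V × (V →L[ℝ] ℝ)}
    (hw : ∀ t ∈ Icc (0 : ℝ) 1, HasDerivAt w (Hm G (w t)) t) {B : U →L[ℝ] U}
    (hB : Skew B) : ∀ t ∈ Icc (0 : ℝ) 1, (w t).2 (R B (w t).1) = (w 0).2 (R B (w 0).1) := by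
  have hd : ∀ t ∈ Icc (0 : ℝ) 1, HasDerivAt (fun s => (w s).2 (R B (w s).1)) 0 t := by
    intro t ht
    have h1 : HasDerivAt (fun s => (w s).1) (G (w t).1 (uh G (w t))) t := (hw t ht).fst
    have h2 : HasDerivAt (fun s => (w s).2)
        (-((w t).2.comp ((fderiv ℝ G (w t).1).flip (uh G (w t))))) t :=
      (hw t ht).snd
    have h3 := (R B).hasFDerivAt.comp_hasDerivAt t h1
    have h4 := h2.clm_apply h3
    refine h4.congr_deriv ?_
    have e1 := hR B hB (w t).1 (uh G (w t))
    have e2 : (w t).2 (G (w t).1 (B (uh G (w t)))) = 0 := by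
      have := inner_uh G (w t) (B (uh G (w t)))
      rw [hB.self] at this
      linarith
    show -((w t).2 (fderiv ℝ G (w t).1 (R B (w t).1) (uh G (w t))))
      + (w t).2 (R B (G (w t).1 (uh G (w t)))) = 0
    rw [e1, map_add, map_neg, e2]
    ring
  intro t ht
  exact constant_of_has_deriv_right_zero (f := fun s => (w s).2 (R B (w s).1)) (a := 0)
    (b := 1) (fun s hs => (hd s hs).continuousAt.continuousWithinAt)
    (fun s hs => (hd s ⟨hs.1, hs.2.le⟩).hasDerivWithinAt) t ht

lemma hasDerivAt_dual {Y : Type} [NormedAddCommGroup Y] [NormedSpace ℝ Y] [FiniteDimensional ℝ Y]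
    {D : ℝ → Y →L[ℝ] ℝ} {D' : Y →L[ℝ] ℝ} {t : ℝ}
    (h : ∀ y, HasDerivAt (fun s => D s y) (D' y) t) : HasDerivAt D D' t := by
  set b := Module.finBasis ℝ Y with hb
  have key : ∀ L : Y →L[ℝ] ℝ, L = ∑ i, (L (b i)) • LinearMap.toContinuousLinearMap (b.coord i) := by
    intro L
    ext y
    rw [ContinuousLinearMap.sum_apply]
    conv_lhs => rw [← b.sum_repr y, map_sum]
    refine Finset.sum_congr rfl fun i _ => ?_
    rw [map_smul, ContinuousLinearMap.smul_apply, smul_eq_mul, smul_eq_mul, mul_comm]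
    rfl
  have h1 : D = fun s => ∑ i, (D s (b i)) • LinearMap.toContinuousLinearMap (b.coord i) := by
    funext s; exact key (D s)
  rw [h1, key D']
  refine HasDerivAt.fun_sum fun i _ => ?_
  have := HasDerivAt.smul_const (F := Y →L[ℝ] ℝ) (h (b i)) (LinearMap.toContinuousLinearMap (b.coord i))
  exact this

lemma skew_sub_adj (B : U →L[ℝ] U) : Skew (B - adjL U U B) := by
  intro u v
  rw [ContinuousLinearMap.sub_apply, ContinuousLinearMap.sub_apply, inner_sub_left,
    inner_sub_right, inner_adjL, inner_adjL']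
  ring

lemma Skew.adj {B : U →L[ℝ] U} (h : Skew B) : adjL U U B = -B := by
  ext u
  refine ext_inner_right ℝ fun v => ?_
  rw [inner_adjL, ContinuousLinearMap.neg_apply, inner_neg_left, h]
  ring

lemma ray_abs (hGs : ContDiff ℝ ∞ G) (hR : Equi G R) {w : ℝ → V × (V →L[ℝ] ℝ)}
    (hw : ∀ t ∈ Icc (0 : ℝ) 1, HasDerivAt w (Hm G (w t)) t)
    (hk : ∀ B : U →L[ℝ] U, Skew B → (w 0).2 (R B (w 0).1) = 0)
    {ξ : U} (hξ : ξ = uh G (w 0)) {y : ℝ → V} (hyc : Continuous y) (hy0 : y 0 = (w 0).1)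
    (hyd : ∀ t ∈ Icc (0 : ℝ) 1, HasDerivAt y (G (y t) ξ) t)
    {Ω : ℝ → U →ₗ[ℝ] (U →L[ℝ] U)} (hΩc : ∀ a, Continuous (fun t => Ω t a))
    (hΩs : ∀ t a, Skew (Ω t a))
    (hbr : ∀ t ∈ Icc (0 : ℝ) 1, ∀ a, fderiv ℝ G (y t) (G (y t) a) ξ
      - fderiv ℝ G (y t) (G (y t) ξ) a = R (Ω t a) (y t)) :
    (w 1).1 = y 1 := by
  set C : ℝ → V →L[ℝ] V := fun t => (fderiv ℝ G (y t)).flip ξ with hC
  have hCc : Continuous C := by
    have h1 : Continuous (fun t => fderiv ℝ G (y t)) := (hGs.continuous_fderiv (by simp)).comp hyc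
    exact ((ContinuousLinearMap.flipₗᵢ ℝ V U V).continuous.comp h1).clm_apply continuous_const
  obtain ⟨l, hl0, hld⟩ := Pool.Agent.W795.exists_linear
    (B := fun t => -((ContinuousLinearMap.compL ℝ V V ℝ).flip (C t)))
    (((ContinuousLinearMap.compL ℝ V V ℝ).flip.continuous.comp hCc).neg)
    (w 0).2
  have hld' : ∀ t, HasDerivAt l (-((l t).comp (C t))) t := hld
  have hlc : ∀ {v : ℝ → V} {v' : V} {t : ℝ}, HasDerivAt v v' t →
      HasDerivAt (fun s => l s (v s)) (-(l t (fderiv ℝ G (y t) (v t) ξ)) + l t v') t := by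
    intro v v' t hv
    exact (hld' t).clm_apply hv
  -- the deviation functional
  set D : ℝ → (U × (U →L[ℝ] U)) →L[ℝ] ℝ := fun t => LinearMap.toContinuousLinearMap
    { toFun := fun p => -(l t (G (y t) p.1)) - ⟪ξ, p.1⟫ + l t (R (p.2 - adjL U U p.2) (y t))
      map_add' := fun p p' => by
        have e : (p + p').2 - adjL U U (p + p').2
            = (p.2 - adjL U U p.2) + (p'.2 - adjL U U p'.2) := by
          rw [Prod.snd_add, map_add]; abel
        rw [e, Prod.fst_add, map_add, map_add, map_add, inner_add_right,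
          ContinuousLinearMap.add_apply, map_add]
        ring
      map_smul' := fun r p => by
        have e : (r • p).2 - adjL U U (r • p).2 = r • (p.2 - adjL U U p.2) := by
          rw [Prod.smul_snd, map_smul, smul_sub]
        rw [e, Prod.smul_fst, map_smul, map_smul, map_smul, real_inner_smul_right,
          ContinuousLinearMap.smul_apply, map_smul]
        simp only [smul_eq_mul, RingHom.id_apply]
        ring } with hD
  have hDa : ∀ t p, D t p = -(l t (G (y t) p.1)) - ⟪ξ, p.1⟫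
      + l t (R (p.2 - adjL U U p.2) (y t)) := fun t p => rfl
  set 𝓝₀ : ℝ → (U × (U →L[ℝ] U)) →L[ℝ] (U × (U →L[ℝ] U)) := fun t =>
    LinearMap.toContinuousLinearMap
    { toFun := fun p => (-((p.2 - adjL U U p.2) ξ), (1 / 2 : ℝ) • Ω t p.1)
      map_add' := fun p p' => by
        rw [Prod.fst_add, map_add, smul_add, Prod.snd_add, map_add]
        refine Prod.ext ?_ rfl
        simp only [ContinuousLinearMap.sub_apply, ContinuousLinearMap.add_apply, Prod.mk_add_mk]
        abel
      map_smul' := fun r p => by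
        rw [Prod.smul_fst, map_smul, Prod.smul_snd, map_smul]
        refine Prod.ext ?_ ?_
        · simp only [ContinuousLinearMap.sub_apply, ContinuousLinearMap.smul_apply,
            RingHom.id_apply, Prod.smul_mk, smul_neg, smul_sub]
        · simp only [RingHom.id_apply, Prod.smul_mk]
          rw [smul_comm] } with hN0
  have hN0a : ∀ t p, 𝓝₀ t p = (-((p.2 - adjL U U p.2) ξ), (1 / 2 : ℝ) • Ω t p.1) :=
    fun t p => rfl
  have hN0c : Continuous 𝓝₀ := by
    rw [continuous_clm_apply]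
    intro p
    exact continuous_const.prodMk ((hΩc p.1).const_smul (1 / 2 : ℝ))
  have hDd : ∀ t ∈ Icc (0 : ℝ) 1, HasDerivAt D ((D t).comp (𝓝₀ t)) t := by
    intro t ht
    refine hasDerivAt_dual fun p => ?_
    have hyt := hyd t ht
    have d1 : HasDerivAt (fun s => G (y s) p.1) (fderiv ℝ G (y t) (G (y t) ξ) p.1) t := by
      have h3 : HasDerivAt (fun s => G (y s)) (fderiv ℝ G (y t) (G (y t) ξ)) t :=
        ((hGs.differentiable (by simp) (y t)).hasFDerivAt).comp_hasDerivAt t hyt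
      have := h3.clm_apply (hasDerivAt_const t p.1)
      simpa using this
    have d2 := (hlc d1).neg
    have d3 : HasDerivAt (fun s => R (p.2 - adjL U U p.2) (y s))
        (R (p.2 - adjL U U p.2) (G (y t) ξ)) t :=
      (R (p.2 - adjL U U p.2)).hasFDerivAt.comp_hasDerivAt t hyt
    have d4 := hlc d3
    have d5 := (d2.sub_const ⟪ξ, p.1⟫).add d4
    refine d5.congr_deriv ?_
    have hB := skew_sub_adj p.2
    have e1 := hR _ hB (y t) ξ
    have e2 := hbr t ht p.1
    have hsk := hΩs t p.1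
    have e3 : (1 / 2 : ℝ) • Ω t p.1 - adjL U U ((1 / 2 : ℝ) • Ω t p.1) = Ω t p.1 := by
      rw [map_smul, hsk.adj]
      module
    rw [ContinuousLinearMap.comp_apply, hDa, hN0a]
    simp only
    rw [e3, ← e2, e1]
    have e4 : ⟪ξ, (p.2 - adjL U U p.2) ξ⟫ = 0 := hB.self ξ
    rw [inner_neg_right, e4, map_neg, map_neg, map_sub (l t)]
    simp only [map_add, map_neg]
    ring
  have hD0 : D 0 = 0 := by
    refine ContinuousLinearMap.ext fun p => ?_
    rw [hDa, ContinuousLinearMap.zero_apply, hl0, hy0, hk _ (skew_sub_adj p.2),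
      ← inner_uh G (w 0) p.1, hξ]
    ring
  obtain ⟨K, hK⟩ := (isCompact_Icc (a := (0 : ℝ)) (b := 1)).exists_bound_of_continuousOn
    (f := 𝓝₀) (by exact hN0c.continuousOn)
  have hDb : ∀ s ∈ Icc (0 : ℝ) 1, ‖(D s).comp (𝓝₀ s)‖ ≤ K * ‖D s‖ := by
    intro s hs
    refine (ContinuousLinearMap.opNorm_comp_le _ _).trans ?_
    rw [mul_comm]
    exact mul_le_mul_of_nonneg_right (hK s hs) (norm_nonneg _)
  have hDz := lin_zero (V := (U × (U →L[ℝ] U)) →L[ℝ] ℝ) (D := D)
    (D' := fun t => (D t).comp (𝓝₀ t)) (K := K) (T := 1) hDd hDb hD0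
  have huh : ∀ t ∈ Icc (0 : ℝ) 1, uh G (y t, l t) = ξ := by
    intro t ht
    refine ext_inner_right ℝ fun a => ?_
    have e1 : D t (a, 0) = 0 := by rw [hDz t ht]; rfl
    rw [hDa] at e1
    simp only at e1
    rw [map_zero, sub_zero, map_zero, ContinuousLinearMap.zero_apply, map_zero] at e1
    rw [inner_uh]
    show -(l t (G (y t) a)) = _
    linarith
  have hfin := uniq_open (F := Hm G) isOpen_univ
    (fun x _ => ((contDiff_Hm hGs).of_le (by simp)).contDiffAt) (a := fun t => (y t, l t)) (b := w)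
    (T := 1) (fun t _ => mem_univ _) (fun t ht => by
      have h2 := (hyd t ht).prodMk (hld' t)
      refine h2.congr_deriv ?_
      show _ = (G (y t) (uh G (y t, l t)), -((l t).comp ((fderiv ℝ G (y t)).flip (uh G (y t, l t)))))
      rw [huh t ht])
    (fun t ht => (hw t ht).continuousAt.continuousWithinAt)
    (fun t ht _ => hw t ht) (by
      refine Prod.ext ?_ hl0
      exact hy0) 1 ⟨zero_le_one, le_rfl⟩
  rw [← hfin]

end Pool.Agent.H782.Am
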