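import Mathlib
import Pool.Agent.H782.Am.Clo2

/-! Closure under two legs: abstract form. -/

set_option autoImplicit false
set_option linter.unusedSectionVars false
set_option linter.deprecated false

open Set Filter Topology
open scoped ContDiff RealInnerProductSpace NNReal

noncomputable section

namespace Pool.Agent.H782.Am

variable {V U : Type} [NormedAddCommGroup V] [NormedSpace ℝ V] [FiniteDimensional ℝ V]
  [NormedAddCommGroup U] [InnerProductSpace ℝ U] [FiniteDimensional ℝ U]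

variable {G : V → U →L[ℝ] V} {R : (U →L[ℝ] U) →ₗ[ℝ] (V →L[ℝ] V)}

lemma cpt_apply (hGc : HasCompactSupport G) (ξ : U) : HasCompactSupport (fun x => G x ξ) := by
  refine hGc.mono ?_
  intro x hx hx0
  apply hx
  have : G x = 0 := hx0
  show G x ξ = 0
  rw [this, ContinuousLinearMap.zero_apply]

lemma exists_sol (hGs : ContDiff ℝ ∞ G) (hGc : HasCompactSupport G) (ξ : U) (x0 : V) :
    ∃ W : ℝ → V, W 0 = x0 ∧ ∀ t, HasDerivAt W (G (W t) ξ) t := by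
  obtain ⟨φ, hφ1, hφ0, hφd, -⟩ := Pool.Agent.V11199.PL.exists_flow
    (hGs.clm_apply (contDiff_const (c := ξ))) (cpt_apply hGc ξ)
  exact ⟨fun t => φ t x0, hφ0 x0, fun t => hφd t x0⟩

lemma sol_eq (hGs : ContDiff ℝ ∞ G) {ξ : U} {W c : ℝ → V}
    (hW : ∀ t, HasDerivAt W (G (W t) ξ) t)
    (hc : ∀ t ∈ Icc (0 : ℝ) 1, HasDerivAt c (G (c t) ξ) t) (h0 : c 0 = W 0) : c 1 = W 1 :=
  uniq_open (F := fun x => G x ξ) isOpen_univ
    (fun x _ => ((hGs.clm_apply (contDiff_const (c := ξ))).of_le (by simp)).contDiffAt)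
    (fun t _ => mem_univ _) hc (fun t _ => (hW t).continuousAt.continuousWithinAt)
    (fun t _ _ => hW t) h0 1 ⟨zero_le_one, le_rfl⟩

/-- Two leg reference controls. -/
lemma exists_ref (hGs : ContDiff ℝ ∞ G) (hGc : HasCompactSupport G) {q : V → ℝ}
    (hq : Continuous q) {ξ1 ξ2 : U} {W1 W2 : ℝ → V}
    (h1 : ∀ t, HasDerivAt W1 (G (W1 t) ξ1) t) (h2 : ∀ t, HasDerivAt W2 (G (W2 t) ξ2) t)
    (h20 : W2 0 = W1 1) :
    ∃ e : ℕ → ℝ, Tendsto e atTop (𝓝 0) ∧ ∀ k, ∃ v : Fin (2 * (k + 1)) → U,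
      cost G (1 / (2 * (k + 1) : ℕ)) q (W1 0) (2 * (k + 1)) v
        ≤ (‖ξ1‖ ^ 2 + ‖ξ2‖ ^ 2 + q (W2 1)) + e k := by
  have hH : ∀ ξ : U, ContDiff ℝ ∞ (fun x => G x ξ) := fun ξ => hGs.clm_apply contDiff_const
  obtain ⟨K1, hK1⟩ := (hH ξ1).lipschitzWith_of_hasCompactSupport (cpt_apply hGc ξ1) (by simp)
  obtain ⟨K2, hK2⟩ := (hH ξ2).lipschitzWith_of_hasCompactSupport (cpt_apply hGc ξ2) (by simp)
  obtain ⟨B1, hB1⟩ := (cpt_apply hGc ξ1).exists_bound_of_continuous (hH ξ1).continuous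
  obtain ⟨B2, hB2⟩ := (cpt_apply hGc ξ2).exists_bound_of_continuous (hH ξ2).continuous
  set v : ∀ k : ℕ, Fin (2 * (k + 1)) → U := fun k i =>
    if (i : ℕ) < k + 1 then (2 : ℝ) • ξ1 else (2 : ℝ) • ξ2 with hv
  set Y : ℕ → ℕ → V := fun k => tr G (1 / (2 * (k + 1) : ℕ)) (ext (2 * (k + 1)) (v k)) (W1 0) with hY
  have hY0 : ∀ k, Y k 0 = W1 0 := fun k => rfl
  have hstep : ∀ (k : ℕ) (x : V) (ξ : U), (1 / (2 * (k + 1) : ℕ) : ℝ) • G x ((2 : ℝ) • ξ)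
      = (1 / (k + 1) : ℝ) • G x ξ := by
    intro k x ξ
    rw [map_smul, smul_smul]
    congr 1
    push_cast
    field_simp
  have hYs1 : ∀ k i, i < k + 1 → Y k (i + 1) = Y k i + (1 / (k + 1) : ℝ) • G (Y k i) ξ1 := by
    intro k i hi
    have hi2 : i < 2 * (k + 1) := by omega
    have e1 : ext (2 * (k + 1)) (v k) i = (2 : ℝ) • ξ1 := by
      unfold ext
      rw [dif_pos hi2]
      simp only [hv, hi, if_true]
    show Y k i + (1 / (2 * (k + 1) : ℕ) : ℝ) • G (Y k i) (ext (2 * (k + 1)) (v k) i) = _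
    rw [e1, hstep]
  have hYs2 : ∀ k i, k + 1 ≤ i → i < 2 * (k + 1) →
      Y k (i + 1) = Y k i + (1 / (k + 1) : ℝ) • G (Y k i) ξ2 := by
    intro k i hi hi2
    have e1 : ext (2 * (k + 1)) (v k) i = (2 : ℝ) • ξ2 := by
      unfold ext
      rw [dif_pos hi2]
      simp only [hv, not_lt.2 hi, if_false]
    show Y k i + (1 / (2 * (k + 1) : ℕ) : ℝ) • G (Y k i) (ext (2 * (k + 1)) (v k) i) = _
    rw [e1, hstep]
  have hk0 : ∀ k : ℕ, (0 : ℝ) ≤ 1 / (k + 1) := fun k => by positivity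
  have hk1 : ∀ k : ℕ, (1 / (k + 1) : ℝ) * ((k + 1 : ℕ) : ℝ) = 1 := fun k => by
    push_cast
    field_simp
  have hc1 : ∀ k, ‖Y k (k + 1) - W1 1‖ ≤ (K1 * B1 * (1 / (k + 1))) * Real.exp K1 := by
    intro k
    have h3 := euler_conv (H := fun x => G x ξ1) hK1 hB1 h1 (Y := Y k) (C := 0) (m := k + 1)
      (hk0 k) le_rfl (hk1 k).le (fun i hi => by
        rw [hYs1 k i hi]
        simp) (k + 1) le_rfl
    rw [hk1, hY0, sub_self, norm_zero, zero_add, zero_add] at h3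
    exact h3
  have hc2 : ∀ k, ‖Y k (2 * (k + 1)) - W2 1‖
      ≤ (K1 * B1 * (1 / (k + 1)) * Real.exp K1 + K2 * B2 * (1 / (k + 1))) * Real.exp K2 := by
    intro k
    have h3 := euler_conv (H := fun x => G x ξ2) hK2 hB2 h2 (Y := fun i => Y k (k + 1 + i))
      (C := 0) (m := k + 1) (hk0 k) le_rfl (hk1 k).le (fun i hi => by
        rw [show k + 1 + (i + 1) = (k + 1 + i) + 1 by ring, hYs2 k (k + 1 + i) (by omega) (by omega)]
        simp) (k + 1) le_rfl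
    rw [hk1, h20, add_zero, zero_add] at h3
    rw [show 2 * (k + 1) = k + 1 + (k + 1) by ring]
    refine h3.trans ?_
    have := hc1 k
    gcongr
  have hlim0 : Tendsto (fun k : ℕ => (1 / (k + 1) : ℝ)) atTop (𝓝 0) :=
    tendsto_one_div_add_atTop_nhds_zero_nat
  have hlim : Tendsto (fun k => Y k (2 * (k + 1))) atTop (𝓝 (W2 1)) := by
    rw [tendsto_iff_norm_sub_tendsto_zero]
    refine squeeze_zero (fun k => norm_nonneg _) hc2 ?_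
    have := (((hlim0.const_mul (K1 * B1)).mul_const (Real.exp K1)).add
      (hlim0.const_mul (K2 * B2))).mul_const (Real.exp K2)
    simpa using this
  refine ⟨fun k => q (Y k (2 * (k + 1))) - q (W2 1), ?_, fun k => ⟨v k, ?_⟩⟩
  · have := ((hq.tendsto (W2 1)).comp hlim).sub_const (q (W2 1))
    rw [sub_self] at this
    exact this
  · unfold cost
    have hsum : ∑ i, ‖v k i‖ ^ 2 = (k + 1) * (4 * ‖ξ1‖ ^ 2) + (k + 1) * (4 * ‖ξ2‖ ^ 2) := by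
      have e1 : ∑ i, ‖v k i‖ ^ 2 = ∑ i ∈ Finset.range (2 * (k + 1)),
          (if i < k + 1 then 4 * ‖ξ1‖ ^ 2 else 4 * ‖ξ2‖ ^ 2) := by
        rw [Finset.sum_range]
        refine Finset.sum_congr rfl fun i _ => ?_
        simp only [hv]
        split_ifs with hi
        · rw [norm_smul]; norm_num; ring
        · rw [norm_smul]; norm_num; ring
      rw [e1, two_mul, Finset.sum_range_add]
      have e2 : ∑ i ∈ Finset.range (k + 1), (if i < k + 1 then 4 * ‖ξ1‖ ^ 2 else 4 * ‖ξ2‖ ^ 2)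
          = ∑ i ∈ Finset.range (k + 1), 4 * ‖ξ1‖ ^ 2 :=
        Finset.sum_congr rfl fun i hi => if_pos (Finset.mem_range.1 hi)
      have e3 : ∑ i ∈ Finset.range (k + 1),
          (if k + 1 + i < k + 1 then 4 * ‖ξ1‖ ^ 2 else 4 * ‖ξ2‖ ^ 2)
          = ∑ i ∈ Finset.range (k + 1), 4 * ‖ξ2‖ ^ 2 :=
        Finset.sum_congr rfl fun i hi => if_neg (by omega)
      rw [e2, e3, Finset.sum_const, Finset.sum_const, Finset.card_range, nsmul_eq_mul, nsmul_eq_mul]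
      push_cast
      ring
    rw [hsum]
    have e4 : (1 / (2 * (k + 1) : ℕ) : ℝ) / 2 * ((k + 1) * (4 * ‖ξ1‖ ^ 2) + (k + 1) * (4 * ‖ξ2‖ ^ 2))
        = ‖ξ1‖ ^ 2 + ‖ξ2‖ ^ 2 := by
      push_cast
      field_simp
      ring
    rw [e4]
    show ‖ξ1‖ ^ 2 + ‖ξ2‖ ^ 2 + q (Y k (2 * (k + 1))) ≤ _
    linarith

lemma clo_abs (hGs : ContDiff ℝ ∞ G) (hGc : HasCompactSupport G) (hR : Equi G R) {q : V → ℝ}
    (hq : ContDiff ℝ 1 q) (hq0 : ∀ x, 0 ≤ q x)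
    (hqR : ∀ B : U →L[ℝ] U, Skew B → ∀ x, fderiv ℝ q x (R B x) = 0)
    {ξ1 ξ2 : U} {Λ : U → V} (hΛ : Continuous Λ) {c1 c2 : ℝ → V}
    (h1 : ∀ t ∈ Icc (0 : ℝ) 1, HasDerivAt c1 (G (c1 t) ξ1) t)
    (h2 : ∀ t ∈ Icc (0 : ℝ) 1, HasDerivAt c2 (G (c2 t) ξ2) t)
    (h10 : c1 0 = Λ 0) (h20 : c2 0 = c1 1) (hq2 : q (c2 1) = 0)
    {Ω : U → ℝ → U →ₗ[ℝ] (U →L[ℝ] U)} (hΩc : ∀ ξ a, Continuous (fun t => Ω ξ t a))
    (hΩs : ∀ ξ t a, Skew (Ω ξ t a))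
    (hray : ∀ ξ : U, ‖ξ‖ ^ 2 ≤ 2 * (‖ξ1‖ ^ 2 + ‖ξ2‖ ^ 2) → ∀ t ∈ Icc (0 : ℝ) 1,
      HasDerivAt (fun s : ℝ => Λ (s • ξ)) (G (Λ (t • ξ)) ξ) t)
    (hbr : ∀ ξ : U, ‖ξ‖ ^ 2 ≤ 2 * (‖ξ1‖ ^ 2 + ‖ξ2‖ ^ 2) → ∀ t ∈ Icc (0 : ℝ) 1, ∀ a,
      fderiv ℝ G (Λ (t • ξ)) (G (Λ (t • ξ)) a) ξ
      - fderiv ℝ G (Λ (t • ξ)) (G (Λ (t • ξ)) ξ) a = R (Ω ξ t a) (Λ (t • ξ))) :
    ∃ ξ3, q (Λ ξ3) = 0 := by
  obtain ⟨W1, hW10, hW1⟩ := exists_sol hGs hGc ξ1 (Λ 0)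
  have e1 : c1 1 = W1 1 := sol_eq hGs hW1 h1 (by rw [h10, hW10])
  obtain ⟨W2, hW20, hW2⟩ := exists_sol hGs hGc ξ2 (c2 0)
  have e2 : c2 1 = W2 1 := sol_eq hGs hW2 h2 hW20.symm
  set E0 : ℝ := ‖ξ1‖ ^ 2 + ‖ξ2‖ ^ 2 with hE0
  have key : ∀ n : ℕ, ∃ ξ : U, ‖ξ‖ ^ 2 ≤ 2 * E0 ∧ n * q (Λ ξ) ≤ E0 := by
    intro n
    set qn : V → ℝ := fun x => n * q x with hqn
    have hqn1 : ContDiff ℝ 1 qn := contDiff_const.mul hq
    have hqn0 : ∀ x, 0 ≤ qn x := fun x => mul_nonneg (Nat.cast_nonneg n) (hq0 x)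
    obtain ⟨e, he, href⟩ := exists_ref hGs hGc hqn1.continuous hW1 hW2 (by rw [hW20, h20, e1])
    have hqn2 : qn (W2 1) = 0 := by
      show (n : ℝ) * q (W2 1) = 0
      rw [← e2, hq2, mul_zero]
    rw [hqn2, add_zero, hW10] at href
    have hmk : Tendsto (fun k : ℕ => 2 * (k + 1)) atTop atTop :=
      tendsto_atTop_mono (fun k => by show k ≤ 2 * (k + 1); omega) tendsto_id
    obtain ⟨w, hw0, hw, hw1, hwE⟩ := al hGs hGc hqn1 hqn0 (Λ 0) E0 (fun k => 2 * (k + 1)) hmk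
      (fun k => by positivity) e he href
    have hξb : ‖uh G (w 0)‖ ^ 2 ≤ 2 * E0 := by
      have := hqn0 (w 1).1
      linarith
    have hk : ∀ B : U →L[ℝ] U, Skew B → (w 0).2 (R B (w 0).1) = 0 := by
      intro B hB
      rw [← noether hR hw hB 1 ⟨zero_le_one, le_rfl⟩, hw1]
      have h3 : HasFDerivAt qn ((n : ℝ) • fderiv ℝ q (w 1).1) (w 1).1 :=
        ((hq.differentiable (by simp) (w 1).1).hasFDerivAt).const_mul (n : ℝ)
      rw [h3.fderiv, ContinuousLinearMap.smul_apply, hqR B hB, smul_zero]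
    have h4 := ray_abs hGs hR hw hk (ξ := uh G (w 0)) rfl
      (y := fun t => Λ (t • uh G (w 0))) (hΛ.comp (continuous_id.smul continuous_const))
      (by simp only [zero_smul]; exact hw0.symm) (hray _ hξb) (hΩc _) (hΩs _) (hbr _ hξb)
    simp only [one_smul] at h4
    refine ⟨uh G (w 0), hξb, ?_⟩
    rw [h4] at hwE
    have h5 : qn (Λ (uh G (w 0))) = n * q (Λ (uh G (w 0))) := rfl
    rw [h5] at hwE
    have := sq_nonneg ‖uh G (w 0)‖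
    linarith
  have hcb : IsCompact {ξ : U | ‖ξ‖ ^ 2 ≤ 2 * E0} := by
    refine Metric.isCompact_of_isClosed_isBounded
      (isClosed_le (continuous_norm.pow 2) continuous_const) ?_
    rw [isBounded_iff_forall_norm_le]
    refine ⟨2 * E0 + 1, fun ξ hξ => ?_⟩
    have hξ' : ‖ξ‖ ^ 2 ≤ 2 * E0 := hξ
    nlinarith [sq_nonneg (‖ξ‖ - 1)]
  obtain ⟨ξa, hξa, -⟩ := key 0
  obtain ⟨ξ3, hξ3, hmin⟩ := hcb.exists_isMinOn ⟨ξa, hξa⟩ (f := fun ξ => q (Λ ξ))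
    (hq.continuous.comp hΛ).continuousOn
  refine ⟨ξ3, le_antisymm ?_ (hq0 _)⟩
  by_contra hpos
  push Not at hpos
  obtain ⟨n, hn⟩ := exists_nat_gt (E0 / q (Λ ξ3))
  obtain ⟨ξ, hξ1, hξ2⟩ := key n
  have h6 : q (Λ ξ3) ≤ q (Λ ξ) := hmin hξ1
  rw [div_lt_iff₀ hpos] at hn
  have h7 : (n : ℝ) * q (Λ ξ3) ≤ n * q (Λ ξ) := by gcongr
  linarith

end Pool.Agent.H782.Am
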