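import Mathlib
import Pool.Agent.H782.Am.Clo1
import Pool.Agent.H782.Am.Clo3

/-! Closure under two legs. -/

set_option autoImplicit false
set_option linter.unusedSectionVars false
set_option linter.deprecated false

open Set Filter Topology
open scoped ContDiff RealInnerProductSpace NNReal

noncomputable section

namespace Pool.Agent.H782.Am

variable {E E' X : Type} [NormedAddCommGroup E] [InnerProductSpace ℝ E] [FiniteDimensional ℝ E]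
  [NormedAddCommGroup E'] [InnerProductSpace ℝ E'] [FiniteDimensional ℝ E']
  [NormedAddCommGroup X] [InnerProductSpace ℝ X] [FiniteDimensional ℝ X]

variable {M : Set E} {N : Set E'}

variable (E E' X) in
/-- Rotations as a linear map. -/
def RotL : (X →L[ℝ] X) →ₗ[ℝ] (VV E E' X →L[ℝ] VV E E' X) where
  toFun B := Rot E E' B
  map_add' B B' := by
    refine ContinuousLinearMap.ext fun w => ?_
    refine Prod.ext (Prod.ext ?_ ?_) (Prod.ext ?_ ?_)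
    · show (0 : E) = 0 + 0
      rw [add_zero]
    · rfl
    · show (0 : E') = 0 + 0
      rw [add_zero]
    · rfl
  map_smul' r B := by
    refine ContinuousLinearMap.ext fun w => ?_
    refine Prod.ext (Prod.ext ?_ ?_) (Prod.ext ?_ ?_)
    · show (0 : E) = r • 0
      rw [smul_zero]
    · rfl
    · show (0 : E') = r • 0
      rw [smul_zero]
    · rfl

/-- The target function. -/
def tq (c : E) (c' : E') (L : E →L[ℝ] E') (w : VV E E' X) : ℝ :=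
  ‖w.1.1 - c‖ ^ 2 + ‖w.2.1 - c'‖ ^ 2 + ∑ i, ‖adjL E' X w.2.2 (w.1.2 (stdOrthonormalBasis ℝ E i))
    - L (stdOrthonormalBasis ℝ E i)‖ ^ 2

lemma contDiff_tq (c : E) (c' : E') (L : E →L[ℝ] E') :
    ContDiff ℝ ∞ (tq c c' L : VV E E' X → ℝ) := by
  unfold tq
  refine ContDiff.add (ContDiff.add ?_ ?_) ?_
  · exact ((contDiff_fst.comp contDiff_fst).sub contDiff_const).norm_sq ℝ
  · exact ((contDiff_fst.comp contDiff_snd).sub contDiff_const).norm_sq ℝ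
  · refine ContDiff.sum fun i _ => ?_
    have h1 : ContDiff ℝ ∞ (fun w : VV E E' X => adjL E' X w.2.2) :=
      (adjL E' X).contDiff.comp (contDiff_snd.comp contDiff_snd)
    have h2 : ContDiff ℝ ∞ (fun w : VV E E' X => w.1.2 (stdOrthonormalBasis ℝ E i)) :=
      (contDiff_snd.comp contDiff_fst).clm_apply contDiff_const
    exact ((h1.clm_apply h2).sub contDiff_const).norm_sq ℝ

lemma tq_nonneg (c : E) (c' : E') (L : E →L[ℝ] E') (w : VV E E' X) : 0 ≤ tq c c' L w := by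
  unfold tq
  positivity

lemma tq_zero {c : E} {c' : E'} {L : E →L[ℝ] E'} {w : VV E E' X} (h : tq c c' L w = 0) :
    w.1.1 = c ∧ w.2.1 = c' ∧ (adjL E' X w.2.2).comp w.1.2 = L := by
  unfold tq at h
  have a1 := sq_nonneg ‖w.1.1 - c‖
  have a2 := sq_nonneg ‖w.2.1 - c'‖
  have a3 : 0 ≤ ∑ i, ‖adjL E' X w.2.2 (w.1.2 (stdOrthonormalBasis ℝ E i))
    - L (stdOrthonormalBasis ℝ E i)‖ ^ 2 := Finset.sum_nonneg fun _ _ => sq_nonneg _
  have b1 : ‖w.1.1 - c‖ ^ 2 = 0 := by linarith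
  have b2 : ‖w.2.1 - c'‖ ^ 2 = 0 := by linarith
  have b3 : ∑ i, ‖adjL E' X w.2.2 (w.1.2 (stdOrthonormalBasis ℝ E i))
    - L (stdOrthonormalBasis ℝ E i)‖ ^ 2 = 0 := by linarith
  rw [Finset.sum_eq_zero_iff_of_nonneg (fun _ _ => sq_nonneg _)] at b3
  refine ⟨sub_eq_zero.1 (norm_eq_zero.1 (pow_eq_zero_iff (two_ne_zero) |>.1 b1)),
    sub_eq_zero.1 (norm_eq_zero.1 (pow_eq_zero_iff (two_ne_zero) |>.1 b2)), ?_⟩
  refine ContinuousLinearMap.ext fun v => ?_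
  rw [← (stdOrthonormalBasis ℝ E).sum_repr v, map_sum, map_sum]
  refine Finset.sum_congr rfl fun i hi => ?_
  rw [map_smul, map_smul]
  congr 1
  exact sub_eq_zero.1 (norm_eq_zero.1 (pow_eq_zero_iff (two_ne_zero) |>.1 (b3 i hi)))

lemma tq_self (w : VV E E' X) : tq w.1.1 w.2.1 ((adjL E' X w.2.2).comp w.1.2) w = 0 := by
  unfold tq
  simp

lemma hasDerivAt_tq_rot (c : E) (c' : E') (L : E →L[ℝ] E') {B : X →L[ℝ] X} (hB : Skew B)
    (w : VV E E' X) : HasDerivAt (fun s : ℝ => tq c c' L (w + s • Rot E E' B w)) 0 0 := by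
  have key : ∀ (v : E) (s : ℝ), adjL E' X (w.2.2 + s • B.comp w.2.2) ((w.1.2 + s • B.comp w.1.2) v)
      = adjL E' X w.2.2 (w.1.2 v) - s ^ 2 • adjL E' X w.2.2 (B (B (w.1.2 v))) := by
    intro v s
    refine ext_inner_right ℝ fun u => ?_
    rw [inner_adjL, inner_sub_left, real_inner_smul_left, inner_adjL, inner_adjL]
    simp only [ContinuousLinearMap.add_apply, ContinuousLinearMap.smul_apply,
      ContinuousLinearMap.comp_apply, inner_add_right, inner_add_left, real_inner_smul_right,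
      real_inner_smul_left]
    rw [hB (w.1.2 v) (B (w.2.2 u)), hB (w.1.2 v) (w.2.2 u), hB (B (w.1.2 v)) (w.2.2 u),
      hB (w.1.2 v) (B (w.2.2 u))]
    ring
  have h1 : (fun s : ℝ => tq c c' L (w + s • Rot E E' B w)) = fun s : ℝ =>
      ‖w.1.1 - c‖ ^ 2 + ‖w.2.1 - c'‖ ^ 2 + ∑ i, ‖(adjL E' X w.2.2
        (w.1.2 (stdOrthonormalBasis ℝ E i)) - L (stdOrthonormalBasis ℝ E i)) - s ^ 2 •
          adjL E' X w.2.2 (B (B (w.1.2 (stdOrthonormalBasis ℝ E i))))‖ ^ 2 := by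
    funext s
    have e1 : (w + s • Rot E E' B w).1.1 = w.1.1 := by
      show w.1.1 + s • (0 : E) = w.1.1
      rw [smul_zero, add_zero]
    have e2 : (w + s • Rot E E' B w).2.1 = w.2.1 := by
      show w.2.1 + s • (0 : E') = w.2.1
      rw [smul_zero, add_zero]
    have e3 : (w + s • Rot E E' B w).1.2 = w.1.2 + s • B.comp w.1.2 := rfl
    have e4 : (w + s • Rot E E' B w).2.2 = w.2.2 + s • B.comp w.2.2 := rfl
    unfold tq
    rw [e1, e2, e3, e4]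
    congr 1
    refine Finset.sum_congr rfl fun i _ => ?_
    rw [key, sub_right_comm]
  rw [h1]
  have h2 : ∀ a b : E', HasDerivAt (fun s : ℝ => ‖a - s ^ 2 • b‖ ^ 2) 0 0 := by
    intro a b
    have h3 : HasDerivAt (fun s : ℝ => a - s ^ 2 • b) 0 0 := by
      have := (((hasDerivAt_id (0 : ℝ)).pow 2).smul_const b).const_sub a
      simpa using this
    have h4 := h3.norm_sq
    simpa using h4
  have h5 := HasDerivAt.fun_sum (u := Finset.univ) (fun i _ => h2 (adjL E' X w.2.2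
        (w.1.2 (stdOrthonormalBasis ℝ E i)) - L (stdOrthonormalBasis ℝ E i))
          (adjL E' X w.2.2 (B (B (w.1.2 (stdOrthonormalBasis ℝ E i))))))
  rw [Finset.sum_const_zero] at h5
  exact h5.const_add _

lemma fderiv_tq_rot (c : E) (c' : E') (L : E →L[ℝ] E') {B : X →L[ℝ] X} (hB : Skew B)
    (w : VV E E' X) : fderiv ℝ (tq c c' L) w (Rot E E' B w) = 0 := by
  have hl : HasDerivAt (fun s : ℝ => w + s • Rot E E' B w) (Rot E E' B w) 0 := by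
    have := ((hasDerivAt_id (0 : ℝ)).smul_const (Rot E E' B w)).const_add w
    simpa using this
  have h2 : HasFDerivAt (tq c c' L)
      (fderiv ℝ (tq c c' L) (w + (0 : ℝ) • Rot E E' B w)) (w + (0 : ℝ) • Rot E E' B w) :=
    ((contDiff_tq c c' L).differentiable (by simp) _).hasFDerivAt
  have h3 := h2.comp_hasDerivAt (0 : ℝ) hl
  have h4 := h3.unique (hasDerivAt_tq_rot c c' L hB w)
  rw [zero_smul, add_zero] at h4
  exact h4

section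

variable {z : E} {A0 : E →L[ℝ] X} {Φ : X → E} {A : X → E →L[ℝ] X}
  {z' : E'} {A0' : E' →L[ℝ] X} {Φ' : X → E'} {A' : X → E' →L[ℝ] X}

/-- The pair of rays. -/
def LL (Φ : X → E) (A : X → E →L[ℝ] X) (Φ' : X → E') (A' : X → E' →L[ℝ] X) (ξ : X) :
    VV E E' X := ((Φ ξ, A ξ), (Φ' ξ, A' ξ))

lemma contDiff_LL (h : RayMap M z A0 Φ A) (h' : RayMap N z' A0' Φ' A') :
    ContDiff ℝ ∞ (LL Φ A Φ' A') :=
  (h.smΦ.prodMk h.smA).prodMk (h'.smΦ.prodMk h'.smA)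

lemma LL_hasDerivAt (hM : SubMf M) (hN : SubMf N) (h : RayMap M z A0 Φ A)
    (h' : RayMap N z' A0' Φ' A') {χ : VV E E' X → ℝ} {W : Set E}
    {Q : E → E →L[ℝ] E} (hQ : ExtOn M W Q) {W' : Set E'} {Q' : E' → E' →L[ℝ] E'}
    (hQ' : ExtOn N W' Q') {O : Set (VV E E' X)} (h1 : ∀ w ∈ O, χ w = 1) {ξ : X} {t : ℝ}
    (ht : LL Φ A Φ' A' (t • ξ) ∈ Good W W' O) :
    HasDerivAt (fun s : ℝ => LL Φ A Φ' A' (s • ξ)) (GG χ Q Q' (LL Φ A Φ' A' (t • ξ)) ξ) t := by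
  have e : GG χ Q Q' (LL Φ A Φ' A' (t • ξ)) ξ = (gf Q (Φ (t • ξ), A (t • ξ)) ξ,
      gf Q' (Φ' (t • ξ), A' (t • ξ)) ξ) := by
    show (χ _ • GF Q Q' _) ξ = _
    rw [h1 _ ht.2, one_smul]
    rfl
  rw [e]
  exact ((h.geo ξ).hasDerivAt_gf hM hQ ht.1.1).prodMk ((h'.geo ξ).hasDerivAt_gf hN hQ' ht.1.2)

theorem closure_legs (hM : SubMf M) (hN : SubMf N) (h : RayMap M z A0 Φ A)
    (h' : RayMap N z' A0' Φ' A') (hm : Match M N Φ A Φ' A') (ξ1 ξ2 : X)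
    {Φ2 : X → E} {A2 : X → E →L[ℝ] X} {Φ2' : X → E'} {A2' : X → E' →L[ℝ] X}
    (h2 : RayMap M (Φ ξ1) (A ξ1) Φ2 A2) (h2' : RayMap N (Φ' ξ1) (A' ξ1) Φ2' A2') :
    ∃ ξ3, Φ ξ3 = Φ2 ξ2 ∧ Φ' ξ3 = Φ2' ξ2 ∧
      (adjL E' X (A' ξ3)).comp (A ξ3) = (adjL E' X (A2' ξ2)).comp (A2 ξ2) := by
  set Λ := LL Φ A Φ' A' with hΛ
  set Λ2 := LL Φ2 A2 Φ2' A2' with hΛ2
  have hΛc : Continuous Λ := (contDiff_LL h h').continuous
  have hΛ2c : Continuous Λ2 := (contDiff_LL h2 h2').continuous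
  set E0 : ℝ := ‖ξ1‖ ^ 2 + ‖ξ2‖ ^ 2 with hE0
  have hcb : IsCompact {ξ : X | ‖ξ‖ ^ 2 ≤ 2 * E0} := by
    refine Metric.isCompact_of_isClosed_isBounded
      (isClosed_le (continuous_norm.pow 2) continuous_const) ?_
    rw [isBounded_iff_forall_norm_le]
    refine ⟨2 * E0 + 1, fun ξ hξ => ?_⟩
    have hξ' : ‖ξ‖ ^ 2 ≤ 2 * E0 := hξ
    nlinarith [sq_nonneg (‖ξ‖ - 1)]
  set K : Set (VV E E' X) := Λ '' {ξ : X | ‖ξ‖ ^ 2 ≤ 2 * E0}
    ∪ (fun t : ℝ => Λ2 (t • ξ2)) '' Icc (0 : ℝ) 1 with hK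
  have hKc : IsCompact K := (hcb.image hΛc).union
    (isCompact_Icc.image (hΛ2c.comp (continuous_id.smul continuous_const)))
  have hKM : ∀ w ∈ K, w.1.1 ∈ M ∧ w.2.1 ∈ N := by
    rintro w (⟨ξ, -, rfl⟩ | ⟨t, -, rfl⟩)
    · have e1 := (h.geo ξ).mem 1
      have e2 := (h'.geo ξ).mem 1
      simp only [one_smul] at e1 e2
      exact ⟨e1, e2⟩
    · exact ⟨(h2.geo ξ2).mem t, (h2'.geo ξ2).mem t⟩
  obtain ⟨Q, W, hQ1, hQ2, hQ3, hQ4⟩ := hM.exists_ext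
    (hKc.image (f := fun w : VV E E' X => w.1.1) (continuous_fst.comp continuous_fst))
    (by rintro _ ⟨w, hw, rfl⟩; exact (hKM w hw).1)
  have hQ : ExtOn M W Q := ⟨hQ1, hQ2, hQ4⟩
  obtain ⟨Q', W', hQ1', hQ2', hQ3', hQ4'⟩ := hN.exists_ext
    (hKc.image (f := fun w : VV E E' X => w.2.1) (continuous_fst.comp continuous_snd))
    (by rintro _ ⟨w, hw, rfl⟩; exact (hKM w hw).2)
  have hQ' : ExtOn N W' Q' := ⟨hQ1', hQ2', hQ4'⟩
  obtain ⟨χ, O, hχ, hO, hKO, hχ1⟩ := exists_cut hKc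
  have hKG : K ⊆ Good W W' O := fun w hw => ⟨⟨hQ3 ⟨w, hw, rfl⟩, hQ3' ⟨w, hw, rfl⟩⟩, hKO hw⟩
  have hmemK : ∀ ξ : X, ‖ξ‖ ^ 2 ≤ 2 * E0 → ∀ t ∈ Icc (0 : ℝ) 1, Λ (t • ξ) ∈ K := by
    intro ξ hξ t ht
    refine Or.inl ⟨t • ξ, ?_, rfl⟩
    show ‖t • ξ‖ ^ 2 ≤ 2 * E0
    rw [norm_smul, mul_pow, Real.norm_of_nonneg ht.1]
    have : t ^ 2 ≤ 1 := pow_le_one₀ ht.1 ht.2
    nlinarith [sq_nonneg ‖ξ‖]
  have hξ1 : ‖ξ1‖ ^ 2 ≤ 2 * E0 := by
    have e1 := sq_nonneg ‖ξ1‖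
    have e2 := sq_nonneg ‖ξ2‖
    rw [hE0]
    linarith
  set w2 : VV E E' X := Λ2 ξ2 with hw2
  set q : VV E E' X → ℝ := tq w2.1.1 w2.2.1 ((adjL E' X w2.2.2).comp w2.1.2) with hq
  have hray : ∀ ξ : X, ‖ξ‖ ^ 2 ≤ 2 * (‖ξ1‖ ^ 2 + ‖ξ2‖ ^ 2) → ∀ t ∈ Icc (0 : ℝ) 1,
      HasDerivAt (fun s : ℝ => Λ (s • ξ)) (GG χ Q Q' (Λ (t • ξ)) ξ) t := fun ξ hξ t ht =>
    LL_hasDerivAt hM hN h h' hQ hQ' hχ1 (hKG (hmemK ξ hξ t ht))
  obtain ⟨ξ3, hξ3⟩ := clo_abs (V := VV E E' X) (U := X) (G := GG χ Q Q') (R := RotL E E' X)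
    (contDiff_GG hχ hQ1 hQ1') (cpt_GG hχ Q Q')
    (fun B hB x u => fderiv_GG_rot hχ hQ1 hQ1' hB x u) (q := q)
    ((contDiff_tq _ _ _).of_le (by simp)) (fun x => tq_nonneg _ _ _ x)
    (fun B hB x => fderiv_tq_rot _ _ _ hB x) (ξ1 := ξ1) (ξ2 := ξ2) (Λ := Λ) hΛc
    (c1 := fun t => Λ (t • ξ1)) (c2 := fun t => Λ2 (t • ξ2))
    (fun t ht => hray ξ1 hξ1 t ht)
    (fun t ht => LL_hasDerivAt hM hN h2 h2' hQ hQ' hχ1 (hKG (Or.inr ⟨t, ht, rfl⟩)))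
    (by simp only [zero_smul])
    (by
      simp only [zero_smul, one_smul]
      show ((Φ2 0, A2 0), (Φ2' 0, A2' 0)) = ((Φ ξ1, A ξ1), (Φ' ξ1, A' ξ1))
      rw [h2.Φ0, h2.A0, h2'.Φ0, h2'.A0])
    (by
      simp only [one_smul]
      exact tq_self w2)
    (Ω := fun ξ t => { toFun := fun a => Om M (Φ (t • ξ)) (A (t • ξ)) a ξ
                       map_add' := fun a b => Om_add_left _ _ _ a b ξ
                       map_smul' := fun r a => Om_smul_left _ _ _ r a ξ })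
    (fun ξ a => ((contDiff_Om hM h.frMap a ξ).comp (contDiff_id.smul contDiff_const)).continuous)
    (fun ξ t a => Om_skew hM ((h.geo ξ).mem t) ((h.geo ξ).fr t) a ξ)
    hray
    (fun ξ hξ t ht a => bracket_GG hM hN hχ hQ hQ' hO hχ1 (hKG (hmemK ξ hξ t ht))
      ((h.geo ξ).mem t) ((h'.geo ξ).mem t) ((h.geo ξ).fr t) ((h'.geo ξ).fr t)
      (fun a b => hm.Om (t • ξ) a b) a ξ)
  exact ⟨ξ3, tq_zero hξ3⟩

end

end Pool.Agent.H782.Am
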