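import Mathlib

/-! A leaf topology and a covering map, from local sections. -/

set_option autoImplicit false

open Set Filter Topology

namespace Pool.Agent.H782.Am

/-- Data of local sections. -/
structure LeafData {B S : Type} [TopologicalSpace B] (π : S → B) (σ : S → B → S)
    (D : B → Set B) : Prop where
  op : ∀ z, IsOpen (D z)
  mem : ∀ z, z ∈ D z
  sec0 : ∀ s, σ s (π s) = s
  sec : ∀ s, ∀ x ∈ D (π s), π (σ s x) = x
  coc : ∀ s, ∀ x ∈ D (π s), ∀ᶠ y in 𝓝 x, σ (σ s x) y = σ s y
  ex : ∀ z s', π s' ∈ D z → ∃ s, π s = z ∧ σ s (π s') = s'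
  uniq : ∀ s1 s2, π s1 = π s2 → ∀ x ∈ D (π s1), σ s1 x = σ s2 x → s1 = s2

variable {B S : Type} [TopologicalSpace B] {π : S → B} {σ : S → B → S} {D : B → Set B}

/-- The leaf topology. -/
def leafTop (π : S → B) (σ : S → B → S) : TopologicalSpace S where
  IsOpen U := ∀ s ∈ U, ∀ᶠ y in 𝓝 (π s), σ s y ∈ U
  isOpen_univ := fun _ _ => Filter.Eventually.of_forall fun _ => mem_univ _
  isOpen_inter := fun U V hU hV s hs => (hU s hs.1).and (hV s hs.2)
  isOpen_sUnion := fun F hF s ⟨U, hU, hs⟩ => (hF U hU s hs).mono fun _ hy => ⟨U, hU, hy⟩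

theorem leaf_cover (h : LeafData π σ D) :
    ∃ t : TopologicalSpace S, @IsCoveringMap S B t _ π ∧
      ∀ s, Tendsto (σ s) (𝓝 (π s)) (@nhds S t s) := by
  letI t : TopologicalSpace S := leafTop π σ
  have hopen : ∀ U : Set S, IsOpen U ↔ ∀ s ∈ U, ∀ᶠ y in 𝓝 (π s), σ s y ∈ U := fun U => Iff.rfl
  have hπ : Continuous π := by
    refine continuous_def.2 fun O hO => ?_
    rw [hopen]
    intro s hs
    filter_upwards [hO.mem_nhds hs, (h.op (π s)).mem_nhds (h.mem _)] with y hy1 hy2
    show π (σ s y) ∈ O
    rw [h.sec s y hy2]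
    exact hy1
  refine ⟨t, ?_, ?_⟩
  · intro z
    -- the fibre with the discrete topology
    letI tI : TopologicalSpace {s : S // π s = z} := ⊥
    haveI : DiscreteTopology {s : S // π s = z} := ⟨rfl⟩
    have key : IsEvenlyCovered π z {s : S // π s = z} := by
      choose τ hτ1 hτ2 using h.ex z
      have hτ3 : ∀ (s : S) (x : B) (hs : π s = z) (hx : x ∈ D z) (hx' : π (σ s x) ∈ D z),
          τ (σ s x) hx' = s := by
        intro s x hs hx hx'
        have e1 : π (σ s x) = x := h.sec s x (by rw [hs]; exact hx)
        have e2 := hτ2 (σ s x) hx'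
        rw [e1] at e2
        exact h.uniq _ _ (by rw [hτ1, hs]) x (by rw [hτ1]; exact hx) e2
      let H : π ⁻¹' (D z) ≃ D z × {s : S // π s = z} :=
        { toFun := fun s => (⟨π s.1, s.2⟩, ⟨τ s.1 s.2, hτ1 _ _⟩)
          invFun := fun p => ⟨σ p.2.1 p.1.1, by
            show π (σ p.2.1 p.1.1) ∈ D z
            rw [h.sec p.2.1 p.1.1 (by rw [p.2.2]; exact p.1.2)]
            exact p.1.2⟩
          left_inv := fun s => Subtype.ext (hτ2 s.1 s.2)
          right_inv := fun p => by
            refine Prod.ext ?_ ?_
            · refine Subtype.ext ?_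
              exact h.sec p.2.1 p.1.1 (by rw [p.2.2]; exact p.1.2)
            · refine Subtype.ext ?_
              exact hτ3 p.2.1 p.1.1 p.2.2 p.1.2 _ }
      have hH1 : Continuous H := by
        refine Continuous.prodMk ?_ ?_
        · exact (hπ.comp continuous_subtype_val).subtype_mk _
        · rw [continuous_discrete_rng]
          rintro ⟨s0, hs0⟩
          have hW : IsOpen {s' : S | ∃ hs' : π s' ∈ D z, τ s' hs' = s0} := by
            rw [hopen]
            rintro s' ⟨hs', hs'0⟩
            have e1 : s' = σ s0 (π s') := by rw [← hs'0, hτ2]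
            have hc := h.coc s0 (π s') (by rw [hs0]; exact hs')
            rw [← e1] at hc
            filter_upwards [hc, (h.op z).mem_nhds hs'] with y hy1 hy2
            have e2 : π (σ s' y) ∈ D z := by
              rw [hy1, h.sec s0 y (by rw [hs0]; exact hy2)]
              exact hy2
            refine ⟨e2, ?_⟩
            simp only [hy1] at e2 ⊢
            exact hτ3 s0 y hs0 hy2 e2
          have : (fun s : π ⁻¹' (D z) => (⟨τ s.1 s.2, hτ1 _ _⟩ : {s : S // π s = z})) ⁻¹' {⟨s0, hs0⟩}
              = Subtype.val ⁻¹' {s' : S | ∃ hs' : π s' ∈ D z, τ s' hs' = s0} := by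
            ext s
            simp only [mem_preimage, mem_singleton_iff, Subtype.mk.injEq]
            constructor
            · intro hs
              exact ⟨s.2, hs⟩
            · rintro ⟨hs', hs⟩
              exact hs
          rw [this]
          exact hW.preimage continuous_subtype_val
      have hH2 : Continuous H.symm := by
        rw [continuous_prod_of_discrete_right]
        rintro ⟨s, hs⟩
        refine Continuous.subtype_mk (f := fun x : D z => σ s x.1) ?_ _
        rw [continuous_iff_continuousAt]
        rintro ⟨x, hx⟩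
        have hc := h.coc s x (by rw [hs]; exact hx)
        have e1 : π (σ s x) = x := h.sec s x (by rw [hs]; exact hx)
        have h2 : ContinuousAt (σ s) x := by
          rw [ContinuousAt, tendsto_nhds]
          intro A hA hxA
          have h3 := (hopen A).1 hA (σ s x) hxA
          rw [e1] at h3
          filter_upwards [h3, hc] with y hy1 hy2
          show σ s y ∈ A
          rw [← hy2]
          exact hy1
        exact ContinuousAt.comp (f := Subtype.val) (x := (⟨x, hx⟩ : D z)) h2
          continuous_subtype_val.continuousAt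
      exact ⟨inferInstance, D z, h.mem z, h.op z, (h.op z).preimage hπ,
        { H with continuous_toFun := hH1, continuous_invFun := hH2 }, fun s => rfl⟩
    exact key.to_isEvenlyCovered_preimage
  · intro s
    rw [tendsto_nhds]
    intro A hA hsA
    exact (hopen A).1 hA s hsA

end Pool.Agent.H782.Am
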