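import Mathlib
import Pool.Agent.H782.Am.Defs

/-!
# Definitions for the Ambrose conjecture

A Riemannian manifold is modelled by an isometric immersion in a Euclidean space: a topological
space `S` with a map `ι : S → E` which near every point is an embedding onto a smooth submanifold
of `E`; the metric is the induced one. An embedded submanifold `M` of `E` is the case of the
inclusion `inc M : M → E`. By Nash's theorem every Riemannian manifold is isometric to one of the
second kind.
-/

set_option autoImplicit false

open Set Filter Topology
open scoped ContDiff RealInnerProductSpace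

noncomputable section

namespace Pool.Agent.H782.Am

variable {E E' : Type} [NormedAddCommGroup E] [InnerProductSpace ℝ E]
  [NormedAddCommGroup E'] [InnerProductSpace ℝ E']

/-- The inclusion of a subset of `E`. -/
def inc (M : Set E) (x : M) : E := x

section

variable {S T : Type} [TopologicalSpace S] [TopologicalSpace T]

/-- The tangent space at `s` of the manifold immersed by `ι` in `E`, as a subspace of `E`: the
span of the velocities at `s` of its smooth curves. -/
def tan (ι : S → E) (s : S) : Submodule ℝ E :=
  Submodule.span ℝ {v | ∃ c : ℝ → S, Continuous c ∧ ContDiff ℝ ∞ (ι ∘ c) ∧ c 0 = s ∧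
    deriv (ι ∘ c) 0 = v}

/-- A geodesic defined on the real line: a smooth curve whose acceleration is orthogonal to the
manifold. -/
def IsGeo (ι : S → E) (c : ℝ → S) : Prop :=
  Continuous c ∧ ContDiff ℝ ∞ (ι ∘ c) ∧ ∀ t, ∀ v ∈ tan ι (c t), ⟪deriv (deriv (ι ∘ c)) t, v⟫ = 0

/-- `ι : S → E` presents `S` as a complete connected Riemannian manifold of dimension `n`: `S` is
Hausdorff, second countable and connected, near every point `ι` is an embedding onto a smooth
submanifold of dimension `n`, and every initial condition is that of a geodesic defined for all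
times. -/
structure CRM (n : ℕ) (ι : S → E) : Prop where
  t2 : T2Space S
  countable : SecondCountableTopology S
  connected : ConnectedSpace S
  immersed : ∀ s, ∃ U : Set S, IsOpen U ∧ s ∈ U ∧ IsEmbedding (fun x : U => ι x) ∧
    IsSubmanifold n (ι '' U)
  complete : ∀ s, ∀ v ∈ tan ι s, ∃ c, IsGeo ι c ∧ c 0 = s ∧ deriv (ι ∘ c) 0 = v

open Classical in
/-- The exponential map at `s`: `v` is sent to `c 1`, where `c` is the geodesic with `c 0 = s` and
velocity `v` at time `0`. -/
def rexp (ι : S → E) (s : S) (v : tan ι s) : S :=
  if h : ∃ c, IsGeo ι c ∧ c 0 = s ∧ deriv (ι ∘ c) 0 = v then Classical.choose h 1 else s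

/-- `L` is a linear isometry of the tangent space at `s` onto that at `t`. -/
def IsIsoTan (ι : S → E) (κ : T → E') (s : S) (t : T) (L : tan ι s → tan κ t) : Prop :=
  IsLinearMap ℝ L ∧ (∀ v, ‖L v‖ = ‖v‖) ∧ Function.Surjective L

/-- The map `F`, restricted to `W`, is smooth with isometric differentials (an isometric
immersion, if `W` is open): it is continuous, and near every point `x` of `W` it is given by a map
`G` of the ambient spaces which is smooth at `x` and whose derivative at `x` maps the tangent
space at `x` to the tangent space at `F x`, preserving norms. -/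
def IsometricOn (ι : S → E) (κ : T → E') (F : S → T) (W : Set S) : Prop :=
  ContinuousOn F W ∧
  ∀ x ∈ W, ∃ G : E → E', ContDiffAt ℝ ∞ G (ι x) ∧ (∀ᶠ y in 𝓝[W] x, G (ι y) = κ (F y)) ∧
    ∀ v ∈ tan ι x, fderiv ℝ G (ι x) v ∈ tan κ (F x) ∧ ‖fderiv ℝ G (ι x) v‖ = ‖v‖

/-- A Riemannian covering: a surjective covering map which is smooth with isometric
differentials. -/
structure IsRiemCover (ι : S → E) (κ : T → E') (π : S → T) : Prop where
  cover : IsCoveringMap π
  surjective : Function.Surjective π
  isometric : IsometricOn ι κ π univ

/-- Two pointed manifolds are `L`-related: for every open connected subset `O` of the tangent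
space on which the exponential map is injective, the map `exp ∘ L ∘ (exp|O)⁻¹` is an isometric
immersion. -/
def LRelated (ι : S → E) (κ : T → E') (s : S) (t : T) (L : tan ι s → tan κ t) : Prop :=
  ∀ O : Set (tan ι s), IsOpen O → IsConnected O → InjOn (rexp ι s) O →
    ∃ F : S → T, (∀ y ∈ O, F (rexp ι s y) = rexp κ t (L y)) ∧ IsometricOn ι κ F (rexp ι s '' O)

end

end Pool.Agent.H782.Am
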