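import Mathlib
import Pool.Agent.H782.Am.Rad

/-! Local inverse of the exponential map; local path connectedness. -/

set_option autoImplicit false
set_option linter.unusedSectionVars false
set_option linter.deprecated false

open Set Filter Topology
open scoped ContDiff RealInnerProductSpace

noncomputable section

namespace Pool.Agent.H782.Am

variable {E X : Type} [NormedAddCommGroup E] [InnerProductSpace ℝ E] [FiniteDimensional ℝ E]
  [NormedAddCommGroup X] [InnerProductSpace ℝ X] [FiniteDimensional ℝ X]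

variable {M : Set E}

/-- Inverse function theorem for an endomap whose derivative is the identity at the origin. -/
lemma exists_inv_id {g : X → X} (hg : ContDiff ℝ ∞ g) (h0 : g 0 = 0)
    (hd : fderiv ℝ g 0 = ContinuousLinearMap.id ℝ X) :
    ∃ k : X → X, k 0 = 0 ∧ (∀ᶠ a in 𝓝 0, ContDiffAt ℝ ∞ k a) ∧ (∀ᶠ a in 𝓝 0, g (k a) = a) := by
  have hgd : ∀ x, HasFDerivAt g (fderiv ℝ g x) x := fun x =>
    (hg.differentiable (by simp) x).hasFDerivAt
  have hd0 : HasFDerivAt g ((ContinuousLinearEquiv.refl ℝ X : X ≃L[ℝ] X) : X →L[ℝ] X) 0 := by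
    have := hgd 0
    rw [hd] at this
    exact this
  set e := (hg.contDiffAt (x := 0)).toOpenPartialHomeomorph g hd0 (by simp) with he
  have hecoe : (e : X → X) = g := rfl
  have hzs : (0 : X) ∈ e.source := (hg.contDiffAt (x := 0)).mem_toOpenPartialHomeomorph_source hd0 (by simp)
  have h0t : (0 : X) ∈ e.target := by
    have := e.map_source hzs
    rwa [hecoe, h0] at this
  have hs0 : e.symm 0 = 0 := by
    have := e.left_inv hzs
    rwa [hecoe, h0] at this
  have hsc : ContinuousAt e.symm 0 := e.symm.continuousAt h0t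
  have hinv : ∀ᶠ x in 𝓝 (0 : X), ∃ L' : X ≃L[ℝ] X, fderiv ℝ g x = (L' : X →L[ℝ] X) := by
    have h1 : ContinuousAt (fun x => fderiv ℝ g x) 0 :=
      (hg.continuous_fderiv (by simp)).continuousAt
    have h2 := ContinuousLinearEquiv.nhds (ContinuousLinearEquiv.refl ℝ X)
    have h4 : fderiv ℝ g 0 = ((ContinuousLinearEquiv.refl ℝ X : X ≃L[ℝ] X) : X →L[ℝ] X) := hd
    rw [← h4] at h2
    filter_upwards [h1.preimage_mem_nhds h2] with x hx
    obtain ⟨L', hL'⟩ := hx
    exact ⟨L', hL'.symm⟩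
  refine ⟨e.symm, hs0, ?_, ?_⟩
  · have h1 : ∀ᶠ a in 𝓝 (0 : X), ∃ L' : X ≃L[ℝ] X, fderiv ℝ g (e.symm a) = (L' : X →L[ℝ] X) := by
      have : Tendsto e.symm (𝓝 0) (𝓝 0) := by
        have := hsc.tendsto
        rwa [hs0] at this
      exact this.eventually hinv
    filter_upwards [h1, e.open_target.mem_nhds h0t] with a ⟨L', hL'⟩ h3
    refine e.contDiffAt_symm h3 (f₀' := L') ?_ ?_
    · rw [← hL', hecoe]; exact hgd _
    · rw [hecoe]; exact hg.contDiffAt
  · filter_upwards [e.open_target.mem_nhds h0t] with a ha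
    have := e.right_inv ha
    exact this

lemma starProj_congr {T T' : Submodule ℝ E} (h : T = T') (v : E) :
    T.starProjection v = T'.starProjection v := by
  subst h; rfl

/-- Points of `M` near `z` are determined by their orthogonal projection on the tangent space. -/
lemma SubMf.inj_proj (hM : SubMf M) {z : E} (hz : z ∈ M) :
    ∃ D : Set E, IsOpen D ∧ z ∈ D ∧ ∀ x ∈ M, x ∈ D → ∀ y ∈ M, y ∈ D →
      PP M z (x - z) = PP M z (y - z) → x = y := by
  obtain ⟨U, k, f, h, hzU⟩ := hM.exists_def hz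
  obtain ⟨φ, -, -, -, -, h5⟩ := h.param hz hzU
  obtain ⟨D, hD1, hD2, hD3⟩ := eventually_nhds_iff.1 h5
  refine ⟨D, hD2, hD3, fun x hxM hxD y hyM hyD hxy => ?_⟩
  have e1 := hD1 x hxD hxM
  have e2 := hD1 y hyD hyM
  have e3 : (LinearMap.ker (fderiv ℝ f z).toLinearMap).orthogonalProjectionOnto (x - z)
      = (LinearMap.ker (fderiv ℝ f z).toLinearMap).orthogonalProjectionOnto (y - z) := by
    apply Subtype.ext
    have h6 := starProj_congr (h.tangent_eq hz hzU) (x - z)
    have h7 := starProj_congr (h.tangent_eq hz hzU) (y - z)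
    unfold PP at hxy
    rw [h6, h7] at hxy
    exact hxy
  rw [← e1, ← e2, e3]

/-- Local inverse of the exponential map. -/
lemma RayMap.exists_inv (hM : SubMf M) {z : E} {A0 : E →L[ℝ] X} {Φ : X → E}
    {A : X → E →L[ℝ] X} (h : RayMap M z A0 Φ A) :
    ∃ lg : E → X, lg z = 0 ∧ ∃ D : Set E, IsOpen D ∧ z ∈ D ∧ (∀ x ∈ D, ContDiffAt ℝ ∞ lg x) ∧
      ∀ x ∈ D, x ∈ M → Φ (lg x) = x := by
  have hz : z ∈ M := by
    have := (h.geo 0).mem 0
    simp only [smul_zero] at this
    rwa [h.Φ0] at this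
  have hA0 : IsCofr M z A0 := by
    have := (h.geo 0).fr 0
    simp only [smul_zero] at this
    rwa [h.Φ0, h.A0] at this
  set g : X → X := fun ξ => A0 (Φ ξ - z) with hg
  have hgs : ContDiff ℝ ∞ g := A0.contDiff.comp (h.smΦ.sub contDiff_const)
  have hg0 : g 0 = 0 := by
    simp only [hg, h.Φ0, sub_self, map_zero]
  have hgd : fderiv ℝ g 0 = ContinuousLinearMap.id ℝ X := by
    have h1 : HasFDerivAt g (A0.comp (fderiv ℝ Φ 0)) 0 :=
      A0.hasFDerivAt.comp (0 : X) ((h.frMap.dΦ 0).sub_const z)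
    rw [h1.fderiv]
    ext ξ
    have h2 := h.th_rad 0 ξ
    rw [zero_smul] at h2
    unfold th at h2
    rw [h.A0] at h2
    exact h2
  obtain ⟨k, hk0, hk1, hk2⟩ := exists_inv_id hgs hg0 hgd
  set ρ : E → X := fun x => A0 (x - z) with hρ
  have hρs : ContDiff ℝ ∞ ρ := A0.contDiff.comp (contDiff_id.sub contDiff_const)
  have hρz : ρ z = 0 := by simp only [hρ, sub_self, map_zero]
  have hρt : Tendsto ρ (𝓝 z) (𝓝 0) := by
    have := hρs.continuous.tendsto z
    rwa [hρz] at this
  set lg : E → X := fun x => k (ρ x) with hlg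
  have hlgz : lg z = 0 := by simp only [hlg, hρz, hk0]
  have hlgs : ∀ᶠ x in 𝓝 z, ContDiffAt ℝ ∞ lg x := by
    filter_upwards [hρt.eventually hk1] with x hx
    exact hx.comp x hρs.contDiffAt
  obtain ⟨D, hD1, hD2, hD3⟩ := hM.inj_proj hz
  have hlgc : ContinuousAt lg z := (hlgs.self_of_nhds).continuousAt
  have hΦlg : Tendsto (fun x => Φ (lg x)) (𝓝 z) (𝓝 z) := by
    have h1 : ContinuousAt (fun x => Φ (lg x)) z := ContinuousAt.comp h.smΦ.continuous.continuousAt hlgc
    have h2 := h1.tendsto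
    rw [hlgz, h.Φ0] at h2
    exact h2
  have hfin : ∀ᶠ x in 𝓝 z, x ∈ M → Φ (lg x) = x := by
    filter_upwards [hρt.eventually hk2, hΦlg.eventually (hD1.mem_nhds hD2), hD1.mem_nhds hD2]
      with x h1 h2 h3 hxM
    refine hD3 _ (h.frMap.mem _) h2 _ hxM h3 ?_
    rw [← hA0.left, ← hA0.left]
    congr 1
  obtain ⟨D', hD'1, hD'2, hD'3⟩ := eventually_nhds_iff.1 (hlgs.and hfin)
  exact ⟨lg, hlgz, D', hD'2, hD'3, fun x hx => (hD'1 x hx).1, fun x hx => (hD'1 x hx).2⟩

/-- A complete submanifold is locally path connected. -/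
lemma locPath (hM : SubMf M) (hC : GeodComplete M)
    (hcof : ∀ z ∈ M, ∃ A0 : E →L[ℝ] X, IsCofr M z A0) : LocallyPathConnectedSpace M := by
  choose A0 hA0 using hcof
  choose Φ A hR using fun z : M => exists_rayMap hM hC z.2 (hA0 z.1 z.2)
  set F : M → X → M := fun z ξ => ⟨Φ z ξ, (hR z).frMap.mem ξ⟩ with hF
  have hFc : ∀ z, Continuous (F z) := fun z => (hR z).smΦ.continuous.subtype_mk _
  refine LocallyPathConnectedSpace.of_bases (p := fun _ (r : ℝ) => 0 < r)
    (s := fun z r => F z '' Metric.ball 0 r) ?_ ?_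
  · intro z
    refine ⟨fun t => ?_⟩
    constructor
    · intro ht
      have h1 : (F z) ⁻¹' t ∈ 𝓝 (0 : X) := by
        refine (hFc z).continuousAt.preimage_mem_nhds ?_
        have : F z 0 = z := Subtype.ext (hR z).Φ0
        rw [this]; exact ht
      obtain ⟨r, hr, hrt⟩ := Metric.mem_nhds_iff.1 h1
      exact ⟨r, hr, image_subset_iff.2 hrt⟩
    · rintro ⟨r, hr, hrt⟩
      refine mem_of_superset ?_ hrt
      obtain ⟨lg, hlg0, D, hD1, hD2, hD3, hD4⟩ := (hR z).exists_inv hM
      have h0 : ∀ᶠ x in 𝓝 (z : E), lg x ∈ Metric.ball (0 : X) r := by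
        refine (hD3 z hD2).continuousAt.preimage_mem_nhds ?_
        rw [hlg0]
        exact Metric.ball_mem_nhds _ hr
      have h1 : ∀ᶠ x in 𝓝 (z : E), lg x ∈ Metric.ball (0 : X) r ∧ x ∈ D :=
        h0.and (hD1.mem_nhds hD2)
      have h2 : Tendsto (Subtype.val : M → E) (𝓝 z) (𝓝 (z : E)) := continuous_subtype_val.tendsto z
      filter_upwards [h2.eventually h1] with x hx
      exact ⟨lg x, hx.1, Subtype.ext (hD4 x hx.2 x.2)⟩
  · intro z r hr
    exact ((convex_ball (0 : X) r).isPathConnected (Metric.nonempty_ball.2 hr)).image (hFc z)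

end Pool.Agent.H782.Am
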