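import Mathlib
import Pool.Agent.H782.Am.Clo4
import Pool.Agent.H782.Am.Loc

/-! Change of coframes, lifts of geodesics. -/

set_option autoImplicit false
set_option linter.unusedSectionVars false
set_option linter.deprecated false

open Set Filter Topology
open scoped ContDiff RealInnerProductSpace

noncomputable section

namespace Pool.Agent.H782.Am

variable {E E' X : Type} [NormedAddCommGroup E] [InnerProductSpace ℝ E] [FiniteDimensional ℝ E]
  [NormedAddCommGroup E'] [InnerProductSpace ℝ E'] [FiniteDimensional ℝ E']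
  [NormedAddCommGroup X] [InnerProductSpace ℝ X] [FiniteDimensional ℝ X]

variable {M : Set E} {N : Set E'}

/-- The isometry between tangent spaces determined by two coframes. -/
def glue (A : E →L[ℝ] X) (A' : E' →L[ℝ] X) : E →L[ℝ] E' := (adjL E' X A').comp A

lemma glue_apply (A : E →L[ℝ] X) (A' : E' →L[ℝ] X) (v : E) : glue A A' v = adjL E' X A' (A v) := rfl

lemma glue_adj (A : E →L[ℝ] X) (A' : E' →L[ℝ] X) : adjL E E' (glue A A') = glue A' A := by
  ext v
  refine ext_inner_right ℝ fun w => ?_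
  rw [inner_adjL, glue_apply, glue_apply, inner_adjL', inner_adjL]

/-- Orthogonal operators. -/
structure Orth (O : X →L[ℝ] X) : Prop where
  l : ∀ u, adjL X X O (O u) = u
  r : ∀ u, O (adjL X X O u) = u

lemma adjL_rot (A : E →L[ℝ] X) (O : X →L[ℝ] X) (y : X) :
    adjL E X (O.comp A) y = adjL E X A (adjL X X O y) := by
  refine ext_inner_right ℝ fun v => ?_
  rw [inner_adjL, inner_adjL, inner_adjL]
  rfl

lemma IsCofr.rotate {O : X →L[ℝ] X} (hO : Orth O) {x : E} {A : E →L[ℝ] X} (hA : IsCofr M x A) :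
    IsCofr M x (O.comp A) := by
  refine ⟨fun v => ?_, fun y => ?_⟩
  · rw [adjL_rot, ContinuousLinearMap.comp_apply, hO.l, hA.left]
  · rw [adjL_rot, ContinuousLinearMap.comp_apply, hA.right, hO.r]

lemma FrGeo.rotate {O : X →L[ℝ] X} (hO : Orth O) {ξ : X} {c : ℝ → E} {A : ℝ → E →L[ℝ] X}
    (h : FrGeo M ξ c A) : FrGeo M (O ξ) c (fun t => O.comp (A t)) := by
  refine ⟨h.mem, fun t => (h.fr t).rotate hO, fun t => ?_, fun t => ?_⟩
  · rw [adjL_rot, hO.l]
    exact h.dc t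
  · rw [adjL_rot, hO.l]
    exact (hasDerivAt_const t O).clm_comp (h.dA t) |>.congr_deriv (by
      rw [ContinuousLinearMap.zero_comp, zero_add]
      rfl)

lemma glue_rot {O : X →L[ℝ] X} (hO : Orth O) (A : E →L[ℝ] X) (A' : E' →L[ℝ] X) :
    glue (O.comp A) (O.comp A') = glue A A' := by
  ext v
  rw [glue_apply, glue_apply, adjL_rot, ContinuousLinearMap.comp_apply, hO.l]

lemma frame_change {x : E} {x' : E'} {A B : E →L[ℝ] X} {A' B' : E' →L[ℝ] X} (hA : IsCofr M x A)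
    (hB : IsCofr M x B) (hA' : IsCofr N x' A') (hB' : IsCofr N x' B')
    (hL : glue A A' = glue B B') : ∃ O : X →L[ℝ] X, Orth O ∧ B = O.comp A ∧ B' = O.comp A' := by
  have hL' : ∀ v, adjL E' X A' (A v) = adjL E' X B' (B v) := fun v =>
    congrArg (fun T : E →L[ℝ] E' => T v) hL
  set O : X →L[ℝ] X := B.comp (adjL E X A) with hO
  have hOadj : ∀ u, adjL X X O u = A (adjL E X B u) := by
    intro u
    refine ext_inner_right ℝ fun v => ?_
    rw [inner_adjL, hO, ContinuousLinearMap.comp_apply, ← inner_adjL, inner_adjL']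
  refine ⟨O, ⟨fun u => ?_, fun u => ?_⟩, ?_, ?_⟩
  · rw [hOadj, hO, ContinuousLinearMap.comp_apply, hB.left, hA.PP_adj, hA.right]
  · rw [hOadj, hO, ContinuousLinearMap.comp_apply, hA.left, hB.PP_adj, hB.right]
  · ext v
    rw [hO, ContinuousLinearMap.comp_apply, ContinuousLinearMap.comp_apply, hA.left, hB.A_PP]
  · ext v
    refine ext_inner_right ℝ fun u => ?_
    have e1 : adjL E' X B' u = adjL E' X A' (A (adjL E X B u)) := by
      rw [hL', hB.right]
    rw [← inner_adjL' B' u v, e1, inner_adjL', hO, ContinuousLinearMap.comp_apply,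
      ContinuousLinearMap.comp_apply, ← inner_adjL' B u (adjL E X A (A' v)), inner_adjL]

/-- A coframe transported by the isometry of two coframes. -/
lemma IsCofr.transport {x : E} {x' : E'} {A C : E →L[ℝ] X} {A' : E' →L[ℝ] X} (hA : IsCofr M x A)
    (hC : IsCofr M x C) (hA' : IsCofr N x' A') :
    IsCofr N x' (C.comp (glue A' A)) ∧ glue C (C.comp (glue A' A)) = glue A A' := by
  set O : X →L[ℝ] X := C.comp (adjL E X A) with hO
  have hOadj : ∀ u, adjL X X O u = A (adjL E X C u) := by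
    intro u
    refine ext_inner_right ℝ fun v => ?_
    rw [inner_adjL, hO, ContinuousLinearMap.comp_apply, ← inner_adjL, inner_adjL']
  have hOo : Orth O := by
    refine ⟨fun u => ?_, fun u => ?_⟩
    · rw [hOadj, hO, ContinuousLinearMap.comp_apply, hC.left, hA.PP_adj, hA.right]
    · rw [hOadj, hO, ContinuousLinearMap.comp_apply, hA.left, hC.PP_adj, hC.right]
  have e1 : C.comp (glue A' A) = O.comp A' := rfl
  have e2 : C = O.comp A := by
    ext v
    rw [hO, ContinuousLinearMap.comp_apply, ContinuousLinearMap.comp_apply, hA.left, hC.A_PP]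
  refine ⟨by rw [e1]; exact hA'.rotate hOo, ?_⟩
  rw [e1]
  nth_rewrite 1 [e2]
  exact glue_rot hOo A A'

lemma Om_rot {O : X →L[ℝ] X} (x : E) (A : E →L[ℝ] X) (a b : X) :
    Om M x (O.comp A) a b
      = (O.comp (Om M x A (adjL X X O a) (adjL X X O b))).comp (adjL X X O) := by
  ext u
  rw [Om_apply, adjL_rot, adjL_rot, adjL_rot, ContinuousLinearMap.comp_apply,
    ContinuousLinearMap.comp_apply, ContinuousLinearMap.comp_apply, Om_apply]

/-- Transfer of equality of curvature forms. -/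
lemma Om_change {x : E} {x' : E'} {A B : E →L[ℝ] X} {A' B' : E' →L[ℝ] X} (hA : IsCofr M x A)
    (hB : IsCofr M x B) (hA' : IsCofr N x' A') (hB' : IsCofr N x' B')
    (hL : glue A A' = glue B B') (hΩ : ∀ a b, Om M x A a b = Om N x' A' a b) (a b : X) :
    Om M x B a b = Om N x' B' a b := by
  obtain ⟨O, hO, rfl, rfl⟩ := frame_change hA hB hA' hB' hL
  rw [Om_rot, Om_rot, hΩ]

/-- Uniqueness against curves defined on the unit interval. -/
lemma FrGeo.uniq_on (hM : SubMf M) {ξ : X} {c c' : ℝ → E} {A A' : ℝ → E →L[ℝ] X}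
    (h : FrGeo M ξ c A) (hmem : ∀ t ∈ Icc (0 : ℝ) 1, c' t ∈ M)
    (hfr : ∀ t ∈ Icc (0 : ℝ) 1, IsCofr M (c' t) (A' t))
    (hdc : ∀ t ∈ Icc (0 : ℝ) 1, HasDerivAt c' (adjL E X (A' t) ξ) t)
    (hdA : ∀ t ∈ Icc (0 : ℝ) 1, HasDerivAt A' ((A' t).comp (SS M (c' t) (adjL E X (A' t) ξ))) t)
    (e1 : c 0 = c' 0) (e2 : A 0 = A' 0) : ∀ t ∈ Icc (0 : ℝ) 1, c t = c' t ∧ A t = A' t := by
  obtain ⟨Q, W, hQ1, hQ2, hQ3, hQ4⟩ := hM.exists_ext ((isCompact_Icc (a := (0 : ℝ)) (b := 1)).image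
    h.continuous.1) (by rintro _ ⟨t, -, rfl⟩; exact h.mem t)
  have hQ : ExtOn M W Q := ⟨hQ1, hQ2, hQ4⟩
  have hO : IsOpen ((fun v : E × (E →L[ℝ] X) × X => v.1) ⁻¹' W) := hQ2.preimage continuous_fst
  have hd' : ∀ t ∈ Icc (0 : ℝ) 1, c' t ∈ W →
      HasDerivAt (fun s => (c' s, A' s, ξ)) (frF X Q (c' t, A' t, ξ)) t := by
    intro t ht htW
    have h1 : SS M (c' t) (adjL E X (A' t) ξ) = fderiv ℝ Q (c' t) (adjL E X (A' t) ξ) :=
      hM.SS_eq (hmem t ht) (hQ.extAt htW) ((hfr t ht).adj_mem ξ)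
    have h2 := hdA t ht
    rw [h1] at h2
    exact (hdc t ht).prodMk (h2.prodMk (hasDerivAt_const t ξ))
  have hcont : ContinuousOn (fun s => (c' s, A' s, ξ)) (Icc (0 : ℝ) 1) := fun t ht =>
    ((hdc t ht).continuousAt.prodMk ((hdA t ht).continuousAt.prodMk
      continuousAt_const)).continuousWithinAt
  have key := uniq_open (F := frF X Q) hO (fun x _ => ((contDiff_frF hQ1).of_le (by simp)).contDiffAt)
    (a := fun s => (c s, A s, ξ)) (b := fun s => (c' s, A' s, ξ)) (T := 1)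
    (fun t ht => hQ3 ⟨t, ht, rfl⟩)
    (fun t ht => h.hasDerivAt hM hQ (hQ3 ⟨t, ht, rfl⟩))
    hcont (fun t ht htO => hd' t ht htO) (by simp only [e1, e2])
  intro t ht
  exact ⟨congrArg Prod.fst (key t ht), congrArg (fun v => v.2.1) (key t ht)⟩

lemma FrMap.dA_eq (hM : SubMf M) {Φ : X → E} {A : X → E →L[ℝ] X} (h : FrMap M Φ A) (y w : X)
    (v : E) : fderiv ℝ A y w v = om A y w (A y v) + A y (SS M (Φ y) (fderiv ℝ Φ y w) v) := by
  rw [h.dA_PP hM y w v]
  congr 1
  unfold om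
  rw [ContinuousLinearMap.comp_apply, (h.fr y).left]

section

variable {z : E} {A0 : E →L[ℝ] X} {Φ : X → E} {A : X → E →L[ℝ] X}
  {z' : E'} {A0' : E' →L[ℝ] X} {Φ' : X → E'} {A' : X → E' →L[ℝ] X}

lemma Match.dΦ (hM : SubMf M) (hN : SubMf N) (h : FrMap M Φ A) (h' : FrMap N Φ' A')
    (hm : Match M N Φ A Φ' A') (y w : X) :
    fderiv ℝ Φ' y w = glue (A y) (A' y) (fderiv ℝ Φ y w) := by
  rw [← h'.adj_th hN y w, ← hm.th y]
  rfl

lemma glue_adj_vel (a : E →L[ℝ] X) (a' : E' →L[ℝ] X) (C : E →L[ℝ] X) (ζ : X) :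
    glue a a' (adjL E X C ζ) = adjL E' X (C.comp (glue a' a)) ζ := by
  refine ext_inner_right ℝ fun v => ?_
  rw [glue_apply, inner_adjL, inner_adjL, ContinuousLinearMap.comp_apply, glue_apply,
    ← inner_adjL C ζ _, inner_adjL' a (a' v) (adjL E X C ζ)]

/-- Lifts of geodesics. -/
lemma lift_geo (hM : SubMf M) (hN : SubMf N) (h : RayMap M z A0 Φ A) (h' : RayMap N z' A0' Φ' A')
    (hm : Match M N Φ A Φ' A') {lg : E → X} {D : Set E} (hD : IsOpen D)
    (hlg : ∀ x ∈ D, ContDiffAt ℝ ∞ lg x) (hinv : ∀ x ∈ D, x ∈ M → Φ (lg x) = x)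
    {ζ : X} {c : ℝ → E} {C : ℝ → E →L[ℝ] X} (hc : FrGeo M ζ c C)
    (hcD : ∀ t ∈ Icc (0 : ℝ) 1, c t ∈ D)
    {c' : ℝ → E'} {C' : ℝ → E' →L[ℝ] X} (hc' : FrGeo N ζ c' C') (h0 : c' 0 = Φ' (lg (c 0)))
    (h0' : C' 0 = (C 0).comp (glue (A' (lg (c 0))) (A (lg (c 0))))) :
    ∀ t ∈ Icc (0 : ℝ) 1, c' t = Φ' (lg (c t)) ∧
      C' t = (C t).comp (glue (A' (lg (c t))) (A (lg (c t)))) := by
  have hcη : ∀ t ∈ Icc (0 : ℝ) 1, Φ (lg (c t)) = c t := fun t ht => hinv _ (hcD t ht) (hc.mem t)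
  have hCt : ∀ t ∈ Icc (0 : ℝ) 1, IsCofr M (c t) (A (lg (c t))) := by
    intro t ht
    have := h.frMap.fr (lg (c t))
    rw [hcη t ht] at this
    exact this
  -- velocity
  have hvel : ∀ t ∈ Icc (0 : ℝ) 1, ∃ η' : X, HasDerivAt (fun s => lg (c s)) η' t ∧
      fderiv ℝ Φ (lg (c t)) η' = adjL E X (C t) ζ := by
    intro t ht
    have h1 : HasFDerivAt lg (fderiv ℝ lg (c t)) (c t) :=
      ((hlg _ (hcD t ht)).differentiableAt (by simp)).hasFDerivAt
    have h2 := h1.comp_hasDerivAt t (hc.dc t)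
    refine ⟨_, h2, ?_⟩
    have h3 : HasDerivAt (fun s => Φ (lg (c s)))
        (fderiv ℝ Φ (lg (c t)) (fderiv ℝ lg (c t) (adjL E X (C t) ζ))) t :=
      (h.frMap.dΦ (lg (c t))).comp_hasDerivAt t h2
    have h4 : (fun s => Φ (lg (c s))) =ᶠ[𝓝 t] c := by
      have h5 : ∀ᶠ s in 𝓝 t, c s ∈ D :=
        hc.continuous.1.continuousAt.preimage_mem_nhds (hD.mem_nhds (hcD t ht))
      filter_upwards [h5] with s hs
      exact hinv _ hs (hc.mem s)
    exact (h3.congr_of_eventuallyEq h4.symm).unique (hc.dc t)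
  refine hc'.uniq_on hN (c' := fun t => Φ' (lg (c t)))
    (A' := fun t => (C t).comp (glue (A' (lg (c t))) (A (lg (c t)))))
    (fun t _ => h'.frMap.mem _)
    (fun t ht => ((hCt t ht).transport (hc.fr t) (h'.frMap.fr _)).1) ?_ ?_ h0 h0'
  · intro t ht
    obtain ⟨η', hη1, hη2⟩ := hvel t ht
    have h1 := (h'.frMap.dΦ (lg (c t))).comp_hasDerivAt t hη1
    refine h1.congr_deriv ?_
    rw [hm.dΦ hM hN h.frMap h'.frMap, hη2]
    exact glue_adj_vel _ _ _ _
  · intro t ht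
    obtain ⟨η', hη1, hη2⟩ := hvel t ht
    have h1 : HasDerivAt (fun s => A (lg (c s))) (fderiv ℝ A (lg (c t)) η') t :=
      (h.frMap.dA (lg (c t))).comp_hasDerivAt t hη1
    have h1a := hasDerivAt_adjL h1
    have h2 : HasDerivAt (fun s => A' (lg (c s))) (fderiv ℝ A' (lg (c t)) η') t :=
      (h'.frMap.dA (lg (c t))).comp_hasDerivAt t hη1
    have h3 := h1a.clm_comp h2
    have h4 := (hc.dA t).clm_comp h3
    refine h4.congr_deriv ?_
    have hτ : adjL E' X ((C t).comp (glue (A' (lg (c t))) (A (lg (c t))))) ζ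
        = fderiv ℝ Φ' (lg (c t)) η' := by
      rw [hm.dΦ hM hN h.frMap h'.frMap, hη2]
      exact (glue_adj_vel _ _ _ _).symm
    rw [hτ]
    have hmem : c t ∈ M := hc.mem t
    have htan : adjL E X (C t) ζ ∈ tangent M (c t) := (hc.fr t).adj_mem ζ
    have k1 : ∀ u, C t (SS M (c t) (adjL E X (C t) ζ) (adjL E X (A (lg (c t))) u)) = 0 := by
      intro u
      rw [← (hc.fr t).A_PP, hM.PP_SS hmem htan ((hCt t ht).adj_mem u), map_zero]
    have k2 : ∀ u, adjL E X (fderiv ℝ A (lg (c t)) η') u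
        = -(adjL E X (A (lg (c t))) (om A (lg (c t)) η' u))
          + SS M (c t) (adjL E X (C t) ζ) (adjL E X (A (lg (c t))) u) := by
      intro u
      refine ext_inner_right ℝ fun v => ?_
      rw [inner_adjL, h.frMap.dA_eq hM, hcη t ht, hη2, inner_add_left, inner_add_right,
        inner_neg_left, inner_adjL, hM.SS_adj hmem htan, inner_adjL, h.frMap.om_skew]
      ring
    refine ContinuousLinearMap.ext fun v => ?_
    show C t (SS M (c t) (adjL E X (C t) ζ) (adjL E X (A (lg (c t))) (A' (lg (c t)) v)))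
      + C t (adjL E X (fderiv ℝ A (lg (c t)) η') (A' (lg (c t)) v)
        + adjL E X (A (lg (c t))) (fderiv ℝ A' (lg (c t)) η' v))
      = C t (adjL E X (A (lg (c t))) (A' (lg (c t)) (SS N (Φ' (lg (c t)))
        (fderiv ℝ Φ' (lg (c t)) η') v)))
    rw [k1, zero_add, k2, h'.frMap.dA_eq hN, ← hm.om]
    simp only [map_add, map_neg]
    rw [k1]
    abel

end

end Pool.Agent.H782.Am
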