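import Mathlib
import Pool.Agent.H782.Am.Leaf1
import Pool.Agent.H782.Am.Cov

/-! The leaf covers the manifold. -/

set_option autoImplicit false
set_option linter.unusedSectionVars false
set_option linter.deprecated false
set_option linter.unusedVariables false

open Set Filter Topology
open scoped ContDiff RealInnerProductSpace

noncomputable section

namespace Pool.Agent.H782.Am

variable {E E' X : Type} [NormedAddCommGroup E] [InnerProductSpace ℝ E] [FiniteDimensional ℝ E]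
  [NormedAddCommGroup E'] [InnerProductSpace ℝ E'] [FiniteDimensional ℝ E']
  [NormedAddCommGroup X] [InnerProductSpace ℝ X] [FiniteDimensional ℝ X]

variable {M : Set E} {N : Set E'}

/-- Standing data. -/
structure Setup (M : Set E) (N : Set E') (z : E) (A0 : E →L[ℝ] X) (Φ : X → E)
    (A : X → E →L[ℝ] X) (z' : E') (A0' : E' →L[ℝ] X) (Φ' : X → E') (A' : X → E' →L[ℝ] X) :
    Prop where
  hM : SubMf M
  hN : SubMf N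
  hCM : GeodComplete M
  hCN : GeodComplete N
  h : RayMap M z A0 Φ A
  h' : RayMap N z' A0' Φ' A'
  hm : Match M N Φ A Φ' A'

/-- The triple attached to a vector. -/
def LT (Φ : X → E) (A : X → E →L[ℝ] X) (Φ' : X → E') (A' : X → E' →L[ℝ] X) (ξ : X) :
    E × E' × (E →L[ℝ] E') := (Φ ξ, Φ' ξ, glue (A ξ) (A' ξ))

section

variable {z : E} {A0 : E →L[ℝ] X} {Φ : X → E} {A : X → E →L[ℝ] X}
  {z' : E'} {A0' : E' →L[ℝ] X} {Φ' : X → E'} {A' : X → E' →L[ℝ] X}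

lemma LT_eq {Φ2 : X → E} {A2 : X → E →L[ℝ] X} {Φ2' : X → E'} {A2' : X → E' →L[ℝ] X} {ξ η : X}
    (h : LT Φ A Φ' A' ξ = LT Φ2 A2 Φ2' A2' η) :
    Φ ξ = Φ2 η ∧ Φ' ξ = Φ2' η ∧ glue (A ξ) (A' ξ) = glue (A2 η) (A2' η) :=
  ⟨congrArg Prod.fst h, congrArg (fun T => T.2.1) h, congrArg (fun T => T.2.2) h⟩

lemma Setup.leg (s : Setup M N z A0 Φ A z' A0' Φ' A') (ξ1 : X) {B : E →L[ℝ] X}
    {B' : E' →L[ℝ] X} {Φ2 : X → E} {A2 : X → E →L[ℝ] X} {Φ2' : X → E'} {A2' : X → E' →L[ℝ] X}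
    (h2 : RayMap M (Φ ξ1) B Φ2 A2) (h2' : RayMap N (Φ' ξ1) B' Φ2' A2')
    (hB : glue B B' = glue (A ξ1) (A' ξ1)) (ξ2 : X) :
    ∃ ξ3, LT Φ A Φ' A' ξ3 = LT Φ2 A2 Φ2' A2' ξ2 := by
  have hBc : IsCofr M (Φ ξ1) B := by
    have := h2.frMap.fr 0
    rwa [h2.Φ0, h2.A0] at this
  have hBc' : IsCofr N (Φ' ξ1) B' := by
    have := h2'.frMap.fr 0
    rwa [h2'.Φ0, h2'.A0] at this
  obtain ⟨O, hO, e1, e2⟩ := frame_change hBc (s.h.frMap.fr ξ1) hBc' (s.h'.frMap.fr ξ1) hB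
  obtain ⟨Φ3, A3, h3⟩ := exists_rayMap s.hM s.hCM (s.h.frMap.mem ξ1) (s.h.frMap.fr ξ1)
  obtain ⟨Φ3', A3', h3'⟩ := exists_rayMap s.hN s.hCN (s.h'.frMap.mem ξ1) (s.h'.frMap.fr ξ1)
  obtain ⟨ξ3, g1, g2, g3⟩ := closure_legs s.hM s.hN s.h s.h' s.hm ξ1 (O ξ2) h3 h3'
  have u1 := (h3.geo (O ξ2)).uniq s.hM ((h2.geo ξ2).rotate hO)
    (by simp only [zero_smul, h3.Φ0, h2.Φ0]) (by simp only [zero_smul, h3.A0, h2.A0, e1]) 1
  have u2 := (h3'.geo (O ξ2)).uniq s.hN ((h2'.geo ξ2).rotate hO)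
    (by simp only [zero_smul, h3'.Φ0, h2'.Φ0]) (by simp only [zero_smul, h3'.A0, h2'.A0, e2]) 1
  simp only [one_smul] at u1 u2
  refine ⟨ξ3, ?_⟩
  unfold LT
  have g3' : glue (A ξ3) (A' ξ3) = glue (A3 (O ξ2)) (A3' (O ξ2)) := g3
  rw [g1, g2, g3', u1.1, u1.2, u2.1, u2.2, glue_rot hO]

lemma Setup.match2 (s : Setup M N z A0 Φ A z' A0' Φ' A') (ξ1 : X) {B : E →L[ℝ] X}
    {B' : E' →L[ℝ] X} {Φ2 : X → E} {A2 : X → E →L[ℝ] X} {Φ2' : X → E'} {A2' : X → E' →L[ℝ] X}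
    (h2 : RayMap M (Φ ξ1) B Φ2 A2) (h2' : RayMap N (Φ' ξ1) B' Φ2' A2')
    (hB : glue B B' = glue (A ξ1) (A' ξ1)) : Match M N Φ2 A2 Φ2' A2' := by
  refine match_of_Om s.hM s.hN h2 h2' fun y a b => ?_
  obtain ⟨ξ3, h3⟩ := s.leg ξ1 h2 h2' hB y
  obtain ⟨g1, g2, g3⟩ := LT_eq h3
  have c1 := s.h.frMap.fr ξ3
  have c2 := s.h'.frMap.fr ξ3
  have hΩ := s.hm.Om ξ3
  rw [g1] at c1 hΩ
  rw [g2] at c2 hΩ
  exact Om_change c1 (h2.frMap.fr y) c2 (h2'.frMap.fr y) g3 hΩ a b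

/-- The leaf. -/
def Lf (Φ : X → E) (A : X → E →L[ℝ] X) (Φ' : X → E') (A' : X → E' →L[ℝ] X) : Type :=
  {T : E × E' × (E →L[ℝ] E') // ∃ ξ, LT Φ A Φ' A' ξ = T}

/-- Projection of the leaf. -/
def Lf.pr (h : RayMap M z A0 Φ A) (s : Lf Φ A Φ' A') : M :=
  ⟨s.1.1, by obtain ⟨ξ, hξ⟩ := s.2; rw [← hξ]; exact h.frMap.mem ξ⟩

/-- The coframe on the other side. -/
def Lf.co (s : Lf Φ A Φ' A') (B : E →L[ℝ] X) : E' →L[ℝ] X := B.comp (adjL E E' s.1.2.2)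

lemma Lf.co_spec (h : RayMap M z A0 Φ A) (h' : RayMap N z' A0' Φ' A') (s : Lf Φ A Φ' A')
    {B : E →L[ℝ] X} (hB : IsCofr M s.1.1 B) :
    IsCofr N s.1.2.1 (s.co B) ∧ glue B (s.co B) = s.1.2.2 := by
  obtain ⟨⟨x, x', L⟩, ξ, hξ⟩ := s
  obtain ⟨rfl, rfl, rfl⟩ : Φ ξ = x ∧ Φ' ξ = x' ∧ glue (A ξ) (A' ξ) = L :=
    ⟨congrArg Prod.fst hξ, congrArg (fun T => T.2.1) hξ, congrArg (fun T => T.2.2) hξ⟩
  unfold Lf.co
  simp only [glue_adj]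
  exact (h.frMap.fr ξ).transport hB (h'.frMap.fr ξ)

lemma co_of_glue {x : E} {B : E →L[ℝ] X} (hB : IsCofr M x B) (B' : E' →L[ℝ] X) :
    B.comp (adjL E E' (glue B B')) = B' := by
  rw [glue_adj]
  ext v
  rw [ContinuousLinearMap.comp_apply, glue_apply, hB.right]

/-- Choices at each point. -/
structure Chc (M : Set E) (N : Set E') {z : E} {A0 : E →L[ℝ] X} {Φ : X → E}
    {A : X → E →L[ℝ] X} {Φ' : X → E'} {A' : X → E' →L[ℝ] X} (h : RayMap M z A0 Φ A) where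
  B : M → E →L[ℝ] X
  Ψ : M → X → E
  C : M → X → E →L[ℝ] X
  hR : ∀ x : M, RayMap M x (B x) (Ψ x) (C x)
  lg : M → E → X
  lg0 : ∀ x : M, lg x x = 0
  D : M → Set E
  op : ∀ x, IsOpen (D x)
  mem : ∀ x : M, (x : E) ∈ D x
  sm : ∀ x, ∀ y ∈ D x, ContDiffAt ℝ ∞ (lg x) y
  inv : ∀ x, ∀ y ∈ D x, y ∈ M → Ψ x (lg x y) = y
  Ψ' : Lf Φ A Φ' A' → X → E'
  C' : Lf Φ A Φ' A' → X → E' →L[ℝ] X
  hR' : ∀ s : Lf Φ A Φ' A', RayMap N s.1.2.1 (s.co (B (s.pr h))) (Ψ' s) (C' s)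

lemma Setup.exists_chc (s : Setup M N z A0 Φ A z' A0' Φ' A')
    (hcof : ∀ x ∈ M, ∃ B : E →L[ℝ] X, IsCofr M x B) :
    Nonempty (Chc (Φ' := Φ') (A' := A') M N s.h) := by
  choose B hB using fun x : M => hcof x.1 x.2
  choose Ψ C hR using fun x : M => exists_rayMap s.hM s.hCM x.2 (hB x)
  choose lg lg0 D op mem sm inv using fun x : M => (hR x).exists_inv s.hM
  have hN : ∀ t : Lf Φ A Φ' A', t.1.2.1 ∈ N := by
    rintro ⟨T, ξ, hξ⟩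
    subst hξ
    exact s.h'.frMap.mem ξ
  choose Ψ' C' hR' using fun t : Lf Φ A Φ' A' => exists_rayMap s.hN s.hCN (hN t)
    ((t.co_spec s.h s.h' (B := B (t.pr s.h)) (hB (t.pr s.h))).1)
  exact ⟨⟨B, Ψ, C, hR, lg, lg0, D, op, mem, sm, inv, Ψ', C', hR'⟩⟩

namespace Chc

variable {h : RayMap M z A0 Φ A}

lemma hB (κ : Chc (Φ' := Φ') (A' := A') M N h) (x : M) : IsCofr M x (κ.B x) := by
  have := (κ.hR x).frMap.fr 0
  rwa [(κ.hR x).Φ0, (κ.hR x).A0] at this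

/-- Development. -/
def dev (κ : Chc (Φ' := Φ') (A' := A') M N h) (t : Lf Φ A Φ' A') (ξ : X) :
    E × E' × (E →L[ℝ] E') := LT (κ.Ψ (t.pr h)) (κ.C (t.pr h)) (κ.Ψ' t) (κ.C' t) ξ

end Chc

lemma Setup.dev_mem (s : Setup M N z A0 Φ A z' A0' Φ' A')
    (κ : Chc (Φ' := Φ') (A' := A') M N s.h) (t : Lf Φ A Φ' A') (ξ : X) :
    ∃ ξ3, LT Φ A Φ' A' ξ3 = κ.dev t ξ := by
  have h1 := κ.hR (t.pr s.h)
  have h2 := κ.hR' t
  have h3 := (t.co_spec s.h s.h' (B := κ.B (t.pr s.h)) (κ.hB (t.pr s.h))).2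
  unfold Chc.dev
  obtain ⟨T, ξ1, hξ1⟩ := t
  subst hξ1
  exact s.leg ξ1 h1 h2 h3 ξ

lemma Setup.dev_match (s : Setup M N z A0 Φ A z' A0' Φ' A')
    (κ : Chc (Φ' := Φ') (A' := A') M N s.h) (t : Lf Φ A Φ' A') :
    Match M N (κ.Ψ (t.pr s.h)) (κ.C (t.pr s.h)) (κ.Ψ' t) (κ.C' t) := by
  have h1 := κ.hR (t.pr s.h)
  have h2 := κ.hR' t
  have h3 := (t.co_spec s.h s.h' (B := κ.B (t.pr s.h)) (κ.hB (t.pr s.h))).2
  obtain ⟨T, ξ1, hξ1⟩ := t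
  subst hξ1
  exact s.match2 ξ1 h1 h2 h3

/-- The local section. -/
def Setup.sec (s : Setup M N z A0 Φ A z' A0' Φ' A') (κ : Chc (Φ' := Φ') (A' := A') M N s.h)
    (t : Lf Φ A Φ' A') (y : M) : Lf Φ A Φ' A' :=
  ⟨κ.dev t (κ.lg (t.pr s.h) y), s.dev_mem κ t _⟩

lemma Setup.sec_val (s : Setup M N z A0 Φ A z' A0' Φ' A')
    (κ : Chc (Φ' := Φ') (A' := A') M N s.h) (t : Lf Φ A Φ' A') (y : M) :
    (s.sec κ t y).1 = (κ.Ψ (t.pr s.h) (κ.lg (t.pr s.h) y), κ.Ψ' t (κ.lg (t.pr s.h) y),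
      glue (κ.C (t.pr s.h) (κ.lg (t.pr s.h) y)) (κ.C' t (κ.lg (t.pr s.h) y))) := rfl

/-- The master uniqueness statement: a geodesic near the base point of `t`, with a lift that
starts on the section through `t`, has its lift on the section. -/
lemma Setup.master (s : Setup M N z A0 Φ A z' A0' Φ' A')
    (κ : Chc (Φ' := Φ') (A' := A') M N s.h) (t : Lf Φ A Φ' A') {ζ : X} {c : ℝ → E}
    {C : ℝ → E →L[ℝ] X} (hc : FrGeo M ζ c C)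
    (hcD : ∀ r ∈ Icc (0 : ℝ) 1, c r ∈ κ.D (t.pr s.h))
    {c' : ℝ → E'} {C' : ℝ → E' →L[ℝ] X} (hc' : FrGeo N ζ c' C') (hc0 : c 0 ∈ M)
    (h0 : (s.sec κ t ⟨c 0, hc0⟩).1 = (c 0, c' 0, glue (C 0) (C' 0))) :
    ∀ hc1 : c 1 ∈ M, (s.sec κ t ⟨c 1, hc1⟩).1 = (c 1, c' 1, glue (C 1) (C' 1)) := by
  intro hc1
  rw [s.sec_val] at h0 ⊢
  simp only [Prod.mk.injEq] at h0
  obtain ⟨k1, k2, k3⟩ := h0
  have key := lift_geo s.hM s.hN (κ.hR (t.pr s.h)) (κ.hR' t) (s.dev_match κ t)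
    (κ.op (t.pr s.h)) (κ.sm (t.pr s.h)) (κ.inv (t.pr s.h)) hc hcD hc' k2.symm (by
      have e1 := co_of_glue (hc.fr 0) (C' 0)
      rw [← k3, glue_adj] at e1
      exact e1.symm) 1 ⟨zero_le_one, le_rfl⟩
  have e0 := κ.inv (t.pr s.h) (c 1) (hcD 1 ⟨zero_le_one, le_rfl⟩) hc1
  have e1 : glue (C 1) (C' 1) = glue (κ.C (t.pr s.h) (κ.lg (t.pr s.h) (c 1)))
      (κ.C' t (κ.lg (t.pr s.h) (c 1))) := by
    rw [key.2]
    have c1 := (κ.hR (t.pr s.h)).frMap.fr (κ.lg (t.pr s.h) (c 1))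
    rw [e0] at c1
    exact (c1.transport (hc.fr 1) ((κ.hR' t).frMap.fr _)).2
  simp only [Prod.mk.injEq]
  exact ⟨e0, key.1.symm, e1.symm⟩

end

end Pool.Agent.H782.Am
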