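import Mathlib
import Pool.Agent.H782.Am.Leaf2

/-! The one-sided theorem. -/

set_option autoImplicit false
set_option linter.unusedSectionVars false
set_option linter.deprecated false
set_option linter.unusedVariables false

open Set Filter Topology
open scoped ContDiff RealInnerProductSpace

noncomputable section

namespace Pool.Agent.H782.Am

variable {E E' X : Type} [NormedAddCommGroup E] [InnerProductSpace ℝ E] [FiniteDimensional ℝ E]
  [NormedAddCommGroup E'] [InnerProductSpace ℝ E'] [FiniteDimensional ℝ E']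
  [NormedAddCommGroup X] [InnerProductSpace ℝ X] [FiniteDimensional ℝ X]

variable {M : Set E} {N : Set E'}

section

variable {z : E} {A0 : E →L[ℝ] X} {Φ : X → E} {A : X → E →L[ℝ] X}
  {z' : E'} {A0' : E' →L[ℝ] X} {Φ' : X → E'} {A' : X → E' →L[ℝ] X}

lemma FrGeo.reverse {ξ : X} {c : ℝ → E} {A : ℝ → E →L[ℝ] X}
    (h : FrGeo M ξ c A) : FrGeo M (-ξ) (fun t => c (1 - t)) (fun t => A (1 - t)) := by
  have h1 := (h.shift 1).scale (-1)
  rw [neg_one_smul] at h1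
  have e : ∀ t : ℝ, 1 + -1 * t = 1 - t := fun t => by ring
  simp only [e] at h1
  exact h1

lemma RayMap.reverse (hM : SubMf M) {z : E} {A0 : E →L[ℝ] X} {Φ : X → E} {A : X → E →L[ℝ] X}
    (h : RayMap M z A0 Φ A) (η : X) {Φ4 : X → E} {A4 : X → E →L[ℝ] X}
    (h4 : RayMap M (Φ η) (A η) Φ4 A4) (t : ℝ) :
    Φ4 (t • -η) = Φ ((1 - t) • η) ∧ A4 (t • -η) = A ((1 - t) • η) :=
  (h4.geo (-η)).uniq hM (h.geo η).reverse (by simp only [zero_smul, sub_zero, one_smul, h4.Φ0])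
    (by simp only [zero_smul, sub_zero, one_smul, h4.A0]) t

lemma Setup.sec_base (s : Setup M N z A0 Φ A z' A0' Φ' A')
    (κ : Chc (Φ' := Φ') (A' := A') M N s.h) (t : Lf Φ A Φ' A') :
    s.sec κ t (t.pr s.h) = t := by
  apply Subtype.ext
  rw [s.sec_val, κ.lg0, (κ.hR (t.pr s.h)).Φ0, (κ.hR (t.pr s.h)).A0, (κ.hR' t).Φ0, (κ.hR' t).A0,
    (t.co_spec s.h s.h' (B := κ.B (t.pr s.h)) (κ.hB (t.pr s.h))).2]
  rfl

lemma Setup.sec_pr (s : Setup M N z A0 Φ A z' A0' Φ' A')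
    (κ : Chc (Φ' := Φ') (A' := A') M N s.h) (t : Lf Φ A Φ' A') (y : M)
    (hy : (y : E) ∈ κ.D (t.pr s.h)) : (s.sec κ t y).pr s.h = y :=
  Subtype.ext (κ.inv _ y hy y.2)

lemma Setup.coc_aux (s : Setup M N z A0 Φ A z' A0' Φ' A')
    (κ : Chc (Φ' := Φ') (A' := A') M N s.h) (t t' : Lf Φ A Φ' A')
    (hD : (t'.pr s.h : E) ∈ κ.D (t.pr s.h)) (ht' : s.sec κ t (t'.pr s.h) = t') :
    ∀ᶠ y : M in 𝓝 (t'.pr s.h), s.sec κ t' y = s.sec κ t y := by
  set x := t'.pr s.h with hx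
  have hRx := κ.hR x
  have h1 : (κ.Ψ x) ⁻¹' (κ.D (t.pr s.h)) ∈ 𝓝 (0 : X) := by
    refine hRx.smΦ.continuous.continuousAt.preimage_mem_nhds ?_
    rw [hRx.Φ0]
    exact (κ.op _).mem_nhds hD
  obtain ⟨δ, hδ, hδD⟩ := Metric.mem_nhds_iff.1 h1
  have h2 : ∀ᶠ y in 𝓝 (x : E), κ.lg x y ∈ Metric.ball (0 : X) δ := by
    refine (κ.sm x x (κ.mem x)).continuousAt.preimage_mem_nhds ?_
    rw [κ.lg0]
    exact Metric.ball_mem_nhds _ hδ
  have h3 : Tendsto (Subtype.val : M → E) (𝓝 x) (𝓝 (x : E)) := continuous_subtype_val.tendsto x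
  filter_upwards [h3.eventually h2, h3.eventually ((κ.op x).mem_nhds (κ.mem x))] with y hy1 hy2
  set ζ := κ.lg x y with hζ
  have hc1 : κ.Ψ x ζ = y := κ.inv x y hy2 y.2
  have hR' := κ.hR' t'
  have hst : (s.sec κ t ⟨κ.Ψ x ((0 : ℝ) • ζ), (hRx.geo ζ).mem 0⟩).1
      = (κ.Ψ x ((0 : ℝ) • ζ), κ.Ψ' t' ((0 : ℝ) • ζ),
        glue (κ.C x ((0 : ℝ) • ζ)) (κ.C' t' ((0 : ℝ) • ζ))) := by
    have e1 : (⟨κ.Ψ x ((0 : ℝ) • ζ), (hRx.geo ζ).mem 0⟩ : M) = x := by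
      apply Subtype.ext
      show κ.Ψ x ((0 : ℝ) • ζ) = x
      rw [zero_smul, hRx.Φ0]
    rw [e1, ht', zero_smul, hRx.Φ0, hRx.A0, hR'.Φ0, hR'.A0,
      (t'.co_spec s.h s.h' (B := κ.B x) (κ.hB x)).2]
    rfl
  have key := s.master κ t (hRx.geo ζ) (fun r hr => by
    show r • ζ ∈ (κ.Ψ x) ⁻¹' (κ.D (t.pr s.h))
    apply hδD
    rw [mem_ball_zero_iff] at hy1 ⊢
    rw [norm_smul, Real.norm_of_nonneg hr.1]
    exact lt_of_le_of_lt (mul_le_of_le_one_left (norm_nonneg _) hr.2) hy1)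
    (hR'.geo ζ) ((hRx.geo ζ).mem 0) hst ((hRx.geo ζ).mem 1)
  simp only [one_smul] at key
  apply Subtype.ext
  rw [s.sec_val]
  have e2 : (⟨κ.Ψ x ζ, by rw [hc1]; exact y.2⟩ : M) = y := Subtype.ext hc1
  rw [e2] at key
  rw [key]

lemma Setup.ex_aux (s : Setup M N z A0 Φ A z' A0' Φ' A')
    (κ : Chc (Φ' := Φ') (A' := A') M N s.h) (z0 : M) (t' : Lf Φ A Φ' A')
    (hD : (t'.pr s.h : E) ∈ κ.D z0) :
    ∃ t : Lf Φ A Φ' A', t.pr s.h = z0 ∧ s.sec κ t (t'.pr s.h) = t' := by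
  set y := t'.pr s.h with hy
  set η := κ.lg z0 y with hη
  have hyη : κ.Ψ z0 η = y := κ.inv z0 y hD y.2
  have hB1 : IsCofr M y (κ.C z0 η) := by
    have := (κ.hR z0).frMap.fr η
    rwa [hyη] at this
  obtain ⟨hB1', hglue⟩ := t'.co_spec s.h s.h' (B := κ.C z0 η) hB1
  have hN : t'.1.2.1 ∈ N := by
    obtain ⟨T, ξ, hξ⟩ := t'
    subst hξ
    exact s.h'.frMap.mem ξ
  obtain ⟨Φ4, A4, h4⟩ := exists_rayMap s.hM s.hCM y.2 hB1
  obtain ⟨Φ4', A4', h4'⟩ := exists_rayMap s.hN s.hCN hN hB1'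
  have hleg : ∀ ξ2, ∃ ξ3, LT Φ A Φ' A' ξ3 = LT Φ4 A4 Φ4' A4' ξ2 := by
    clear_value y
    obtain ⟨T, ξ, hξ⟩ := t'
    subst hξ
    have hy' : (y : E) = Φ ξ := by rw [hy]; rfl
    rw [hy'] at h4
    intro ξ2
    exact s.leg ξ h4 h4' hglue ξ2
  -- reversal on the first factor
  have h4r : RayMap M (κ.Ψ z0 η) (κ.C z0 η) Φ4 A4 := by rw [hyη]; exact h4
  have u1 := (κ.hR z0).reverse s.hM η h4r 1
  rw [sub_self, zero_smul, one_smul, (κ.hR z0).Φ0, (κ.hR z0).A0] at u1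
  obtain ⟨e1, e2⟩ := u1
  set t : Lf Φ A Φ' A' := ⟨LT Φ4 A4 Φ4' A4' (-η), hleg (-η)⟩ with ht
  have hpr : t.pr s.h = z0 := Subtype.ext e1
  refine ⟨t, hpr, ?_⟩
  have hR' := κ.hR' t
  rw [hpr] at hR'
  have e3 : t.co (κ.B z0) = A4' (-η) := by
    show (κ.B z0).comp (adjL E E' (glue (A4 (-η)) (A4' (-η)))) = _
    rw [e2]
    exact co_of_glue (κ.hB z0) _
  have e4 : t.1.2.1 = Φ4' (-η) := rfl
  rw [e3, e4] at hR'
  have hrev := (h4'.geo (-η)).reverse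
  rw [neg_neg] at hrev
  have u2 := (hR'.geo η).uniq s.hN hrev (by simp only [zero_smul, sub_zero, one_smul, hR'.Φ0])
    (by simp only [zero_smul, sub_zero, one_smul, hR'.A0]) 1
  simp only [one_smul, sub_self, zero_smul, h4'.Φ0, h4'.A0] at u2
  apply Subtype.ext
  rw [s.sec_val, hpr, ← hη, hyη, u2.1, u2.2, hglue]
  rfl

lemma Setup.uniq_aux (s : Setup M N z A0 Φ A z' A0' Φ' A')
    (κ : Chc (Φ' := Φ') (A' := A') M N s.h) (t1 t2 : Lf Φ A Φ' A')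
    (hpr : t1.pr s.h = t2.pr s.h) (y : M) (hy : (y : E) ∈ κ.D (t1.pr s.h))
    (h12 : s.sec κ t1 y = s.sec κ t2 y) : t1 = t2 := by
  have h13 := congrArg Subtype.val h12
  rw [s.sec_val, s.sec_val, ← hpr] at h13
  simp only [Prod.mk.injEq] at h13
  obtain ⟨-, k2, k3⟩ := h13
  set η := κ.lg (t1.pr s.h) y with hη
  have hc := (κ.hR (t1.pr s.h)).frMap.fr η
  have k4 : κ.C' t1 η = κ.C' t2 η := by
    rw [← co_of_glue hc (κ.C' t1 η), k3, co_of_glue hc]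
  have u := ((κ.hR' t1).geo η).uniq_at s.hN ((κ.hR' t2).geo η) 1 (by simp only [one_smul, k2])
    (by simp only [one_smul, k4]) 0
  simp only [zero_smul, (κ.hR' t1).Φ0, (κ.hR' t1).A0, (κ.hR' t2).Φ0, (κ.hR' t2).A0] at u
  obtain ⟨u1, u2⟩ := u
  have g1 := (t1.co_spec s.h s.h' (B := κ.B (t1.pr s.h)) (κ.hB (t1.pr s.h))).2
  have g2 := (t2.co_spec s.h s.h' (B := κ.B (t2.pr s.h)) (κ.hB (t2.pr s.h))).2
  rw [u2] at g1
  rw [← hpr] at g1 g2 u2
  have g3 : t1.1.2.2 = t2.1.2.2 := by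
    rw [← g1, ← g2, hpr]
  apply Subtype.ext
  refine Prod.ext ?_ (Prod.ext u1 g3)
  exact congrArg Subtype.val hpr

theorem Setup.leafData (s : Setup M N z A0 Φ A z' A0' Φ' A')
    (κ : Chc (Φ' := Φ') (A' := A') M N s.h) :
    LeafData (fun t : Lf Φ A Φ' A' => t.pr s.h) (s.sec κ) (fun x : M => {y : M | (y : E) ∈ κ.D x})
    where
  op := fun x => (κ.op x).preimage continuous_subtype_val
  mem := fun x => κ.mem x
  sec0 := fun t => s.sec_base κ t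
  sec := fun t y hy => s.sec_pr κ t y hy
  coc := by
    intro t x hx
    have e1 : (s.sec κ t x).pr s.h = x := s.sec_pr κ t x hx
    have h1 := s.coc_aux κ t (s.sec κ t x) (by rw [e1]; exact hx) (by rw [e1])
    rw [e1] at h1
    exact h1
  ex := fun x t' ht' => s.ex_aux κ x t' ht'
  uniq := fun t1 t2 hpr y hy h12 => s.uniq_aux κ t1 t2 hpr y hy h12

theorem Setup.one_sided [SimplyConnectedSpace M] (s : Setup M N z A0 Φ A z' A0' Φ' A')
    (hcof : ∀ x ∈ M, ∃ B : E →L[ℝ] X, IsCofr M x B) :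
    (∀ ξ ξ', Φ ξ = Φ ξ' → LT Φ A Φ' A' ξ = LT Φ A Φ' A' ξ') ∧ ∀ x ∈ M, ∃ ξ, Φ ξ = x := by
  obtain ⟨κ⟩ := s.exists_chc hcof
  obtain ⟨τ, hcov, hcont⟩ := leaf_cover (s.leafData κ)
  letI := τ
  haveI : LocallyPathConnectedSpace M := locPath s.hM s.hCM hcof
  set pr : Lf Φ A Φ' A' → M := fun t => t.pr s.h with hpr
  set e0 : Lf Φ A Φ' A' := ⟨LT Φ A Φ' A' 0, 0, rfl⟩ with he0
  obtain ⟨F, ⟨hF0, hF⟩, -⟩ := hcov.existsUnique_continuousMap_lifts (ContinuousMap.id M)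
    (pr e0) e0 rfl
  have hFpr : ∀ x, pr (F x) = x := fun x => congrFun hF x
  have key : ∀ ξ, F ⟨Φ ξ, s.h.frMap.mem ξ⟩ = ⟨LT Φ A Φ' A' ξ, ξ, rfl⟩ := by
    intro ξ
    set g1 : ℝ → Lf Φ A Φ' A' := fun r => ⟨LT Φ A Φ' A' (r • ξ), r • ξ, rfl⟩ with hg1
    set b : ℝ → M := fun r => ⟨Φ (r • ξ), s.h.frMap.mem _⟩ with hb
    have hbc : Continuous b := by
      have : Continuous (fun r : ℝ => Φ (r • ξ)) :=
        s.h.smΦ.continuous.comp (continuous_id.smul continuous_const)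
      exact this.subtype_mk _
    have hg1c : Continuous g1 := by
      rw [continuous_iff_continuousAt]
      intro r0
      have hpr0 : pr (g1 r0) = b r0 := rfl
      have h1 : Tendsto (fun r => s.sec κ (g1 r0) (b r)) (𝓝 r0) (𝓝 (g1 r0)) := by
        have h2 := hcont (g1 r0)
        have h3 : Tendsto b (𝓝 r0) (𝓝 (pr (g1 r0))) := hbc.tendsto r0
        exact h2.comp h3
      refine h1.congr' ?_
      -- eventual equality
      have h4 : (fun r : ℝ => Φ (r • ξ)) ⁻¹' (κ.D (pr (g1 r0))) ∈ 𝓝 r0 := by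
        have h5 : Continuous (fun r : ℝ => Φ (r • ξ)) :=
          s.h.smΦ.continuous.comp (continuous_id.smul continuous_const)
        refine h5.continuousAt.preimage_mem_nhds ?_
        exact (κ.op _).mem_nhds (κ.mem (pr (g1 r0)))
      obtain ⟨δ, hδ, hδD⟩ := Metric.mem_nhds_iff.1 h4
      filter_upwards [Metric.ball_mem_nhds r0 hδ] with r hr
      have hc := ((s.h.geo ξ).shift r0).scale (r - r0)
      have hc' := ((s.h'.geo ξ).shift r0).scale (r - r0)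
      have hst : (s.sec κ (g1 r0) ⟨Φ ((r0 + (r - r0) * 0) • ξ), hc.mem 0⟩).1
          = (Φ ((r0 + (r - r0) * 0) • ξ), Φ' ((r0 + (r - r0) * 0) • ξ),
            glue (A ((r0 + (r - r0) * 0) • ξ)) (A' ((r0 + (r - r0) * 0) • ξ))) := by
        have e1 : (⟨Φ ((r0 + (r - r0) * 0) • ξ), hc.mem 0⟩ : M) = pr (g1 r0) := by
          apply Subtype.ext
          show Φ ((r0 + (r - r0) * 0) • ξ) = Φ (r0 • ξ)
          rw [mul_zero, add_zero]
        rw [e1, s.sec_base, mul_zero, add_zero]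
        rfl
      have k := s.master κ (g1 r0) hc (fun ρ hρ => by
        show r0 + (r - r0) * ρ ∈ (fun r : ℝ => Φ (r • ξ)) ⁻¹' (κ.D (pr (g1 r0)))
        apply hδD
        rw [Metric.mem_ball, Real.dist_eq] at hr ⊢
        rw [add_sub_cancel_left, abs_mul, abs_of_nonneg hρ.1]
        exact lt_of_le_of_lt (mul_le_of_le_one_right (abs_nonneg _) hρ.2) hr) hc' (hc.mem 0) hst
        (hc.mem 1)
      have e2 : r0 + (r - r0) * 1 = r := by ring
      apply Subtype.ext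
      simp only [e2] at k
      exact k
    have h5 := hcov.eq_of_comp_eq (g₁ := g1) (g₂ := fun r => F (b r)) hg1c
      (F.continuous.comp hbc) (by
        funext r
        show pr (g1 r) = pr (F (b r))
        rw [hFpr]
        rfl) 0 (by
        have e1 : b 0 = pr e0 := by
          apply Subtype.ext
          show Φ ((0 : ℝ) • ξ) = Φ 0
          rw [zero_smul]
        rw [e1, hF0]
        apply Subtype.ext
        show LT Φ A Φ' A' ((0 : ℝ) • ξ) = LT Φ A Φ' A' 0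
        rw [zero_smul])
    have h6 := congrFun h5 1
    have e3 : b 1 = ⟨Φ ξ, s.h.frMap.mem ξ⟩ := by
      apply Subtype.ext
      show Φ ((1 : ℝ) • ξ) = Φ ξ
      rw [one_smul]
    simp only [e3] at h6
    rw [← h6]
    apply Subtype.ext
    show LT Φ A Φ' A' ((1 : ℝ) • ξ) = LT Φ A Φ' A' ξ
    rw [one_smul]
  refine ⟨fun ξ ξ' hξ => ?_, fun x hx => ?_⟩
  · have h1 := key ξ
    have h2 := key ξ'
    have h3 : (⟨Φ ξ, s.h.frMap.mem ξ⟩ : M) = ⟨Φ ξ', s.h.frMap.mem ξ'⟩ := Subtype.ext hξ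
    rw [h3, h2] at h1
    exact (congrArg Subtype.val h1).symm
  · rcases hFx : F ⟨x, hx⟩ with ⟨T, ξ, hξ⟩
    have h1 := hFpr ⟨x, hx⟩
    rw [hFx] at h1
    subst hξ
    exact ⟨ξ, congrArg Subtype.val h1⟩

end

end Pool.Agent.H782.Am
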