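import Mathlib
import Pool.Agent.H782.Am.Leaf3

/-! The isometry. -/

set_option autoImplicit false
set_option linter.unusedSectionVars false
set_option linter.deprecated false
set_option linter.unusedVariables false

open Set Filter Topology
open scoped ContDiff RealInnerProductSpace

noncomputable section

namespace Pool.Agent.H782.Am

variable {E E' X : Type} [NormedAddCommGroup E] [InnerProductSpace ℝ E] [FiniteDimensional ℝ E]
  [NormedAddCommGroup E'] [InnerProductSpace ℝ E'] [FiniteDimensional ℝ E']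
  [NormedAddCommGroup X] [InnerProductSpace ℝ X] [FiniteDimensional ℝ X]

variable {M : Set E} {N : Set E'}

/-- Coframe from an isometry of the tangent space. -/
def cof (x : E) (J : tangent M x ≃ₗᵢ[ℝ] X) : E →L[ℝ] X :=
  (J.toContinuousLinearEquiv : tangent M x →L[ℝ] X).comp (tangent M x).orthogonalProjectionOnto

lemma adjL_cof (x : E) (J : tangent M x ≃ₗᵢ[ℝ] X) (y : X) :
    adjL E X (cof x J) y = (J.symm y : E) := by
  refine ext_inner_right ℝ fun v => ?_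
  rw [inner_adjL]
  show ⟪y, J ((tangent M x).orthogonalProjectionOnto v)⟫ = _
  have h1 : ⟪y, J ((tangent M x).orthogonalProjectionOnto v)⟫
      = ⟪J (J.symm y), J ((tangent M x).orthogonalProjectionOnto v)⟫ := by
    rw [J.apply_symm_apply]
  rw [h1, J.inner_map_map, Submodule.coe_inner]
  have h2 : (((tangent M x).orthogonalProjectionOnto v : tangent M x) : E) = PP M x v := rfl
  rw [h2, ← PP_symm, PP_of_mem M x (J.symm y).2]

lemma isCofr_cof (x : E) (J : tangent M x ≃ₗᵢ[ℝ] X) : IsCofr M x (cof x J) := by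
  refine ⟨fun v => ?_, fun y => ?_⟩
  · rw [adjL_cof]
    show ((J.symm (J ((tangent M x).orthogonalProjectionOnto v)) : tangent M x) : E) = _
    rw [J.symm_apply_apply]
    rfl
  · rw [adjL_cof]
    show J ((tangent M x).orthogonalProjectionOnto (J.symm y : E)) = y
    rw [Submodule.orthogonalProjectionOnto_mem_subspace_eq_self, J.apply_symm_apply]

section

variable {z : E} {A0 : E →L[ℝ] X} {Φ : X → E} {A : X → E →L[ℝ] X}
  {z' : E'} {A0' : E' →L[ℝ] X} {Φ' : X → E'} {A' : X → E' →L[ℝ] X}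

/-- The exponential map is the ray map. -/
lemma expMap_eq (hM : SubMf M) (hC : GeodComplete M) (hz : z ∈ M) (J : tangent M z ≃ₗᵢ[ℝ] X)
    (h : RayMap M z (cof z J) Φ A) (v : tangent M z) : expMap M z v = Φ (J v) := by
  have hex : ∃ γ, IsGeodesic M γ ∧ γ 0 = z ∧ deriv γ 0 = v := hC z hz v v.2
  unfold expMap
  rw [dif_pos hex]
  obtain ⟨h1, h2, h3⟩ := Classical.choose_spec hex
  set γ := Classical.choose hex with hγ
  have h4 : deriv γ 0 = adjL E X (cof z J) (J v) := by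
    rw [adjL_cof, J.symm_apply_apply, h3]
  obtain ⟨B, hB, hB0⟩ := exists_frGeo_of_geodesic hM h1 (A0 := cof z J)
    (by rw [h2]; exact isCofr_cof z J) h4
  have h5 := (hB.uniq hM (h.geo (J v)) (by rw [h2, zero_smul, h.Φ0])
    (by rw [hB0, zero_smul, h.A0]) 1).1
  rw [h5, one_smul]

lemma Match.symm (hm : Match M N Φ A Φ' A') : Match N M Φ' A' Φ A :=
  ⟨fun y => (hm.th y).symm, fun y w => (hm.om y w).symm, fun y a b => (hm.Om y a b).symm⟩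

lemma Setup.symm (s : Setup M N z A0 Φ A z' A0' Φ' A') : Setup N M z' A0' Φ' A' z A0 Φ A :=
  ⟨s.hN, s.hM, s.hCN, s.hCM, s.h', s.h, s.hm.symm⟩

/-- Smoothness and isometry. -/
lemma Setup.locIso (s : Setup M N z A0 Φ A z' A0' Φ' A') {F : M → N}
    (hF : ∀ ξ, F ⟨Φ ξ, s.h.frMap.mem ξ⟩ = ⟨Φ' ξ, s.h'.frMap.mem ξ⟩)
    (hsurj : ∀ x ∈ M, ∃ ξ, Φ ξ = x) : IsoMap F := by
  rintro ⟨x, hx⟩
  obtain ⟨ξ1, rfl⟩ := hsurj x hx
  obtain ⟨Φ2, A2, h2⟩ := exists_rayMap s.hM s.hCM (s.h.frMap.mem ξ1) (s.h.frMap.fr ξ1)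
  obtain ⟨Φ2', A2', h2'⟩ := exists_rayMap s.hN s.hCN (s.h'.frMap.mem ξ1) (s.h'.frMap.fr ξ1)
  obtain ⟨lg, lg0, D, hD1, hD2, hD3, hD4⟩ := h2.exists_inv s.hM
  have hm2 := s.match2 ξ1 h2 h2' rfl
  have hG : ContDiffAt ℝ ∞ (fun y => Φ2' (lg y)) (Φ ξ1) :=
    h2'.smΦ.contDiffAt.comp (Φ ξ1) (hD3 _ hD2)
  refine ⟨fun y => Φ2' (lg y), hG, ?_, ?_⟩
  · filter_upwards [hD1.mem_nhds hD2] with y hy hyM
    obtain ⟨ξ3, h3⟩ := s.leg ξ1 h2 h2' rfl (lg y)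
    obtain ⟨g1, g2, -⟩ := LT_eq h3
    rw [hD4 y hy hyM] at g1
    have h4 := hF ξ3
    have h5 : (⟨Φ ξ3, s.h.frMap.mem ξ3⟩ : M) = ⟨y, hyM⟩ := Subtype.ext g1
    rw [h5] at h4
    rw [h4]
    exact g2.symm
  · intro v hv
    obtain ⟨c, hc1, hc2, hc3, hc4⟩ := s.hM.exists_curve (s.h.frMap.mem ξ1) hv
    have hlg : HasFDerivAt lg (fderiv ℝ lg (Φ ξ1)) (Φ ξ1) :=
      ((hD3 _ hD2).differentiableAt (by simp)).hasFDerivAt
    have e1 : fderiv ℝ (fun y => Φ2' (lg y)) (Φ ξ1) v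
        = fderiv ℝ Φ2' 0 (fderiv ℝ lg (Φ ξ1) v) := by
      have h3 := (h2'.frMap.dΦ (lg (Φ ξ1))).comp (Φ ξ1) hlg
      have h4 : fderiv ℝ (fun y => Φ2' (lg y)) (Φ ξ1) = _ := h3.fderiv
      rw [h4, lg0]
      rfl
    have e2 : fderiv ℝ Φ2 0 (fderiv ℝ lg (Φ ξ1) v) = v := by
      have h3 := (h2.frMap.dΦ (lg (Φ ξ1))).comp (Φ ξ1) hlg
      rw [← hc3] at h3
      have h4 := h3.comp_hasDerivAt (0 : ℝ) hc4
      have h5 : (Φ2 ∘ lg) ∘ c =ᶠ[𝓝 0] c := by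
        have h6 : ∀ᶠ t in 𝓝 (0 : ℝ), c t ∈ D := by
          refine hc1.continuous.continuousAt.preimage_mem_nhds ?_
          rw [hc3]
          exact hD1.mem_nhds hD2
        filter_upwards [h6] with t ht
        exact hD4 _ ht (hc2 t)
      have h7 := (h4.congr_of_eventuallyEq h5.symm).unique hc4
      rw [hc3, lg0] at h7
      exact h7
    have e3 : fderiv ℝ (fun y => Φ2' (lg y)) (Φ ξ1) v = glue (A2 0) (A2' 0) v := by
      rw [e1, hm2.dΦ s.hM s.hN h2.frMap h2'.frMap, e2]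
    have f1 := h2.frMap.fr 0
    have f2 := h2'.frMap.fr 0
    rw [h2.Φ0] at f1
    rw [h2'.Φ0] at f2
    show fderiv ℝ (fun y => Φ2' (lg y)) (Φ ξ1) v ∈ tangent N (F ⟨Φ ξ1, hx⟩ : E') ∧
      ‖fderiv ℝ (fun y => Φ2' (lg y)) (Φ ξ1) v‖ = ‖v‖
    rw [e3, hF ξ1, glue_apply]
    refine ⟨f2.adj_mem _, ?_⟩
    rw [f2.norm_adj]
    have h8 := f1.inner_A hv (w := v)
    rw [real_inner_self_eq_norm_sq, real_inner_self_eq_norm_sq] at h8
    exact (sq_eq_sq₀ (norm_nonneg _) (norm_nonneg _)).1 h8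

/-- The isometry. -/
theorem Setup.exists_iso [SimplyConnectedSpace M] [SimplyConnectedSpace N]
    (s : Setup M N z A0 Φ A z' A0' Φ' A')
    (hcof : ∀ x ∈ M, ∃ B : E →L[ℝ] X, IsCofr M x B)
    (hcof' : ∀ x ∈ N, ∃ B : E' →L[ℝ] X, IsCofr N x B) :
    ∃ F : M ≃ N, IsoMap F ∧ IsoMap F.symm ∧
      ∀ ξ, F ⟨Φ ξ, s.h.frMap.mem ξ⟩ = ⟨Φ' ξ, s.h'.frMap.mem ξ⟩ := by
  obtain ⟨h1, h2⟩ := s.one_sided hcof
  obtain ⟨h1', h2'⟩ := s.symm.one_sided hcof'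
  choose η hη using fun x : M => h2 x.1 x.2
  choose η' hη' using fun x : N => h2' x.1 x.2
  have k1 : ∀ ξ ξ', Φ ξ = Φ ξ' → Φ' ξ = Φ' ξ' := fun ξ ξ' h => (LT_eq (h1 ξ ξ' h)).2.1
  have k2 : ∀ ξ ξ', Φ' ξ = Φ' ξ' → Φ ξ = Φ ξ' := fun ξ ξ' h => (LT_eq (h1' ξ ξ' h)).2.1
  let F : M ≃ N :=
    { toFun := fun x => ⟨Φ' (η x), s.h'.frMap.mem _⟩
      invFun := fun y => ⟨Φ (η' y), s.h.frMap.mem _⟩
      left_inv := fun x => by
        apply Subtype.ext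
        show Φ (η' ⟨Φ' (η x), s.h'.frMap.mem _⟩) = x
        rw [← hη x]
        exact k2 _ _ (hη' _)
      right_inv := fun y => by
        apply Subtype.ext
        show Φ' (η ⟨Φ (η' y), s.h.frMap.mem _⟩) = y
        rw [← hη' y]
        exact k1 _ _ (hη _) }
  have hF : ∀ ξ, F ⟨Φ ξ, s.h.frMap.mem ξ⟩ = ⟨Φ' ξ, s.h'.frMap.mem ξ⟩ := fun ξ =>
    Subtype.ext (k1 _ _ (hη _))
  have hF' : ∀ ξ, F.symm ⟨Φ' ξ, s.h'.frMap.mem ξ⟩ = ⟨Φ ξ, s.h.frMap.mem ξ⟩ := fun ξ =>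
    Subtype.ext (k2 _ _ (hη' _))
  exact ⟨F, s.locIso hF h2, s.symm.locIso hF' h2', hF⟩

end

end Pool.Agent.H782.Am
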