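import Mathlib
import Pool.Agent.H782.Am.Fin1

/-! Assembly. -/

set_option autoImplicit false
set_option linter.unusedSectionVars false
set_option linter.deprecated false
set_option linter.unusedVariables false

open Set Filter Topology
open scoped ContDiff RealInnerProductSpace

noncomputable section

namespace Pool.Agent.H782.Am

section

variable {E : Type} [NormedAddCommGroup E] [InnerProductSpace ℝ E] [FiniteDimensional ℝ E]

lemma IsSubmanifold.subMf {n : ℕ} {M : Set E} (h : IsSubmanifold n M) : SubMf M := by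
  intro z hz
  obtain ⟨U, h1, h2, k, f, -, h3, h4, h5⟩ := h z hz
  exact ⟨U, h1, h2, k, f, h3, h4, h5⟩

lemma IsSubmanifold.finrank {n : ℕ} {M : Set E} (h : IsSubmanifold n M) {z : E} (hz : z ∈ M) :
    Module.finrank ℝ (tangent M z) = n := by
  obtain ⟨U, h1, h2, k, f, hk, h3, h4, h5⟩ := h z hz
  have hd : DefAt M U f := ⟨h1, h3, h4, h5⟩
  have e1 := hd.tangent_eq hz h2
  have e2 := LinearMap.finrank_range_add_finrank_ker (fderiv ℝ f z).toLinearMap
  have e3 : LinearMap.range (fderiv ℝ f z).toLinearMap = ⊤ := LinearMap.range_eq_top.2 (h4 z h2)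
  rw [e3, finrank_top, finrank_euclideanSpace_fin] at e2
  rw [e1]
  omega

end

section

variable {E E' X : Type} [NormedAddCommGroup E] [InnerProductSpace ℝ E] [FiniteDimensional ℝ E]
  [NormedAddCommGroup E'] [InnerProductSpace ℝ E'] [FiniteDimensional ℝ E']
  [NormedAddCommGroup X] [InnerProductSpace ℝ X] [FiniteDimensional ℝ X]

lemma exists_cofr {M : Set E} {n : ℕ} (hn : Module.finrank ℝ X = n) {z : E}
    (h : Module.finrank ℝ (tangent M z) = n) : ∃ B : E →L[ℝ] X, IsCofr M z B := by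
  have e : Module.finrank ℝ (tangent M z) = Module.finrank ℝ X := by rw [h, hn]
  exact ⟨cof z ((stdOrthonormalBasis ℝ (tangent M z)).equiv (stdOrthonormalBasis ℝ X)
    (finCongr e)), isCofr_cof _ _⟩

variable {M : Set E} {N : Set E'}

theorem ambrose_gen (hM : SubMf M) (hN : SubMf N) (hMc : GeodComplete M) (hNc : GeodComplete N)
    [SimplyConnectedSpace M] [SimplyConnectedSpace N] {n : ℕ}
    (hMn : ∀ x ∈ M, Module.finrank ℝ (tangent M x) = n)
    (hNn : ∀ x ∈ N, Module.finrank ℝ (tangent N x) = n)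
    (p : M) (q : N) (I : tangent M (p : E) ≃ₗᵢ[ℝ] tangent N (q : E'))
    (hI : ∀ y v w : tangent M (p : E),
      expPullback N (q : E') (I y) (I v) (I w) = expPullback M (p : E) y v w) :
    ∃ F : M ≃ N, IsoMap F ∧ IsoMap F.symm ∧ F p = q ∧
      ∀ y : tangent M (p : E), ∃ hy : expMap M (p : E) y ∈ M,
        (F ⟨expMap M (p : E) y, hy⟩ : E') = expMap N (q : E') (I y) := by
  set J : tangent M (p : E) ≃ₗᵢ[ℝ] tangent M (p : E) := LinearIsometryEquiv.refl ℝ _ with hJ
  set J' : tangent N (q : E') ≃ₗᵢ[ℝ] tangent M (p : E) := I.symm with hJ'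
  obtain ⟨Φ, A, h⟩ := exists_rayMap hM hMc p.2 (isCofr_cof (p : E) J)
  obtain ⟨Φ', A', h'⟩ := exists_rayMap hN hNc q.2 (isCofr_cof (q : E') J')
  have e1 : expMap M (p : E) = Φ := by
    funext v
    exact expMap_eq hM hMc p.2 J h v
  have e2 : expMap N (q : E') = Φ' ∘ I.symm := by
    funext v
    exact expMap_eq hN hNc q.2 J' h' v
  have e3 : ∀ y v : tangent M (p : E), fderiv ℝ (expMap N (q : E')) (I y) (I v) = fderiv ℝ Φ' y v := by
    intro y v
    have h1 : HasFDerivAt (Φ' ∘ I.symm) ((fderiv ℝ Φ' (I.symm (I y))).comp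
        (I.symm.toContinuousLinearEquiv : tangent N (q : E') →L[ℝ] tangent M (p : E))) (I y) :=
      (h'.frMap.dΦ _).comp (I y) I.symm.toContinuousLinearEquiv.hasFDerivAt
    rw [e2, h1.fderiv, ContinuousLinearMap.comp_apply, I.symm_apply_apply]
    show fderiv ℝ Φ' y (I.symm (I v)) = _
    rw [I.symm_apply_apply]
  have hG : ∀ y v w, ⟪fderiv ℝ Φ y v, fderiv ℝ Φ y w⟫ = ⟪fderiv ℝ Φ' y v, fderiv ℝ Φ' y w⟫ := by
    intro y v w
    have h1 := hI y v w
    unfold expPullback at h1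
    unfold dExp at h1
    rw [e3, e3, e1] at h1
    exact h1.symm
  have hm := match_of_gram hM hN h h' hG
  have s : Setup M N (p : E) (cof (p : E) J) Φ A (q : E') (cof (q : E') J') Φ' A' :=
    ⟨hM, hN, hMc, hNc, h, h', hm⟩
  have hpn := hMn p p.2
  obtain ⟨F, hF1, hF2, hF3⟩ := s.exists_iso (fun x hx => exists_cofr hpn (hMn x hx))
    (fun x hx => exists_cofr hpn (hNn x hx))
  refine ⟨F, hF1, hF2, ?_, fun y => ?_⟩
  · have h1 := hF3 0
    have h2 : (⟨Φ 0, s.h.frMap.mem 0⟩ : M) = p := Subtype.ext h.Φ0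
    have h3 : (⟨Φ' 0, s.h'.frMap.mem 0⟩ : N) = q := Subtype.ext h'.Φ0
    rw [h2, h3] at h1
    exact h1
  · have hy : expMap M (p : E) y ∈ M := by rw [e1]; exact h.frMap.mem y
    refine ⟨hy, ?_⟩
    have h1 := hF3 y
    have h2 : (⟨expMap M (p : E) y, hy⟩ : M) = ⟨Φ y, s.h.frMap.mem y⟩ := by
      apply Subtype.ext
      show expMap M (p : E) y = Φ y
      rw [e1]
    rw [h2, h1, e2]
    show Φ' y = Φ' (I.symm (I y))
    rw [I.symm_apply_apply]

/-- Linear isometries given as functions. -/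
lemma IsLinIso.exists_equiv {p : E} {q : E'} {I : tangent M p → tangent N q} (h : IsLinIso I) :
    ∃ J : tangent M p ≃ₗᵢ[ℝ] tangent N q, ∀ v, J v = I v := by
  obtain ⟨h1, h2, h3⟩ := h
  let L : tangent M p →ₗᵢ[ℝ] tangent N q :=
    { toLinearMap := h1.mk' I
      norm_map' := h2 }
  exact ⟨LinearIsometryEquiv.ofSurjective L h3, fun v => rfl⟩

theorem ambrose_fun {n : ℕ} (hM : CompleteSC n M) (hN : CompleteSC n N) (p : M) (q : N)
    (I : tangent M (p : E) → tangent N (q : E')) (hI : IsLinIso I)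
    (hh : ∀ y v w, expPullback N (q : E') (I y) (I v) (I w) = expPullback M (p : E) y v w) :
    ∃ F : M ≃ N, IsIsometry F ∧ F p = q ∧
      ∀ y, ∃ hy : expMap M (p : E) y ∈ M,
        (F ⟨expMap M (p : E) y, hy⟩ : E') = expMap N (q : E') (I y) := by
  obtain ⟨J, hJ⟩ := hI.exists_equiv
  haveI := hM.simplyConnected
  haveI := hN.simplyConnected
  obtain ⟨F, h1, h2, h3, h4⟩ := ambrose_gen hM.submanifold.subMf hN.submanifold.subMf hM.complete
    hN.complete (fun _ hx => hM.submanifold.finrank hx) (fun _ hx => hN.submanifold.finrank hx)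
    p q J (fun y v w => by rw [hJ, hJ, hJ]; exact hh y v w)
  refine ⟨F, ⟨h1, h2⟩, h3, fun y => ?_⟩
  obtain ⟨hy, h5⟩ := h4 y
  exact ⟨hy, by rw [h5, hJ]⟩

end

end Pool.Agent.H782.Am
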