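import Mathlib
import Pool.Agent.H782.Am.Fin1

/-! The leaf topology seen from both sides. -/

set_option autoImplicit false
set_option linter.unusedSectionVars false
set_option linter.deprecated false
set_option linter.unusedVariables false

open Set Filter Topology
open scoped ContDiff RealInnerProductSpace

noncomputable section

namespace Pool.Agent.H782.Am

section

variable {B S : Type} [TopologicalSpace B] {π : S → B} {σ : S → B → S} {D : B → Set B}

theorem leaf_cover' (h : LeafData π σ D) : @IsCoveringMap S B (leafTop π σ) _ π := by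
  letI t : TopologicalSpace S := leafTop π σ
  have hopen : ∀ U : Set S, IsOpen U ↔ ∀ s ∈ U, ∀ᶠ y in 𝓝 (π s), σ s y ∈ U := fun U => Iff.rfl
  have hπ : Continuous π := by
    refine continuous_def.2 fun O hO => ?_
    rw [hopen]
    intro s hs
    filter_upwards [hO.mem_nhds hs, (h.op (π s)).mem_nhds (h.mem _)] with y hy1 hy2
    show π (σ s y) ∈ O
    rw [h.sec s y hy2]
    exact hy1
  intro z
  -- the fibre with the discrete topology
  letI tI : TopologicalSpace {s : S // π s = z} := ⊥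
  haveI : DiscreteTopology {s : S // π s = z} := ⟨rfl⟩
  have key : IsEvenlyCovered π z {s : S // π s = z} := by
    choose τ hτ1 hτ2 using h.ex z
    have hτ3 : ∀ (s : S) (x : B) (hs : π s = z) (hx : x ∈ D z) (hx' : π (σ s x) ∈ D z),
        τ (σ s x) hx' = s := by
      intro s x hs hx hx'
      have e1 : π (σ s x) = x := h.sec s x (by rw [hs]; exact hx)
      have e2 := hτ2 (σ s x) hx'
      rw [e1] at e2
      exact h.uniq _ _ (by rw [hτ1, hs]) x (by rw [hτ1]; exact hx) e2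
    let H : π ⁻¹' (D z) ≃ D z × {s : S // π s = z} :=
      { toFun := fun s => (⟨π s.1, s.2⟩, ⟨τ s.1 s.2, hτ1 _ _⟩)
        invFun := fun p => ⟨σ p.2.1 p.1.1, by
          show π (σ p.2.1 p.1.1) ∈ D z
          rw [h.sec p.2.1 p.1.1 (by rw [p.2.2]; exact p.1.2)]
          exact p.1.2⟩
        left_inv := fun s => Subtype.ext (hτ2 s.1 s.2)
        right_inv := fun p => by
          refine Prod.ext ?_ ?_
          · refine Subtype.ext ?_
            exact h.sec p.2.1 p.1.1 (by rw [p.2.2]; exact p.1.2)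
          · refine Subtype.ext ?_
            exact hτ3 p.2.1 p.1.1 p.2.2 p.1.2 _ }
    have hH1 : Continuous H := by
      refine Continuous.prodMk ?_ ?_
      · exact (hπ.comp continuous_subtype_val).subtype_mk _
      · rw [continuous_discrete_rng]
        rintro ⟨s0, hs0⟩
        have hW : IsOpen {s' : S | ∃ hs' : π s' ∈ D z, τ s' hs' = s0} := by
          rw [hopen]
          rintro s' ⟨hs', hs'0⟩
          have e1 : s' = σ s0 (π s') := by rw [← hs'0, hτ2]
          have hc := h.coc s0 (π s') (by rw [hs0]; exact hs')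
          rw [← e1] at hc
          filter_upwards [hc, (h.op z).mem_nhds hs'] with y hy1 hy2
          have e2 : π (σ s' y) ∈ D z := by
            rw [hy1, h.sec s0 y (by rw [hs0]; exact hy2)]
            exact hy2
          refine ⟨e2, ?_⟩
          simp only [hy1] at e2 ⊢
          exact hτ3 s0 y hs0 hy2 e2
        have : (fun s : π ⁻¹' (D z) => (⟨τ s.1 s.2, hτ1 _ _⟩ : {s : S // π s = z})) ⁻¹' {⟨s0, hs0⟩}
            = Subtype.val ⁻¹' {s' : S | ∃ hs' : π s' ∈ D z, τ s' hs' = s0} := by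
          ext s
          simp only [mem_preimage, mem_singleton_iff, Subtype.mk.injEq]
          constructor
          · intro hs
            exact ⟨s.2, hs⟩
          · rintro ⟨hs', hs⟩
            exact hs
        rw [this]
        exact hW.preimage continuous_subtype_val
    have hH2 : Continuous H.symm := by
      rw [continuous_prod_of_discrete_right]
      rintro ⟨s, hs⟩
      refine Continuous.subtype_mk (f := fun x : D z => σ s x.1) ?_ _
      rw [continuous_iff_continuousAt]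
      rintro ⟨x, hx⟩
      have hc := h.coc s x (by rw [hs]; exact hx)
      have e1 : π (σ s x) = x := h.sec s x (by rw [hs]; exact hx)
      have h2 : ContinuousAt (σ s) x := by
        rw [ContinuousAt, tendsto_nhds]
        intro A hA hxA
        have h3 := (hopen A).1 hA (σ s x) hxA
        rw [e1] at h3
        filter_upwards [h3, hc] with y hy1 hy2
        show σ s y ∈ A
        rw [← hy2]
        exact hy1
      exact ContinuousAt.comp (f := Subtype.val) (x := (⟨x, hx⟩ : D z)) h2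
        continuous_subtype_val.continuousAt
    exact ⟨inferInstance, D z, h.mem z, h.op z, (h.op z).preimage hπ,
      { H with continuous_toFun := hH1, continuous_invFun := hH2 }, fun s => rfl⟩
  exact key.to_isEvenlyCovered_preimage

/-- Near `s`, every point of the total space is on the section through `s`. -/
lemma leafTop_nhds (h : LeafData π σ D) (s : S) :
    ∀ᶠ s' in @nhds S (leafTop π σ) s, σ s (π s') = s' := by
  letI t : TopologicalSpace S := leafTop π σ
  have hopen : ∀ U : Set S, IsOpen U ↔ ∀ s ∈ U, ∀ᶠ y in 𝓝 (π s), σ s y ∈ U := fun U => Iff.rfl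
  have hU : IsOpen {s' : S | π s' ∈ D (π s) ∧ σ s (π s') = s'} := by
    rw [hopen]
    rintro s' ⟨h1, h2⟩
    have hc := h.coc s (π s') h1
    rw [h2] at hc
    filter_upwards [hc, (h.op (π s)).mem_nhds h1] with y hy1 hy2
    have e1 : π (σ s' y) = y := by rw [hy1, h.sec s y hy2]
    show π (σ s' y) ∈ D (π s) ∧ σ s (π (σ s' y)) = σ s' y
    rw [e1]
    exact ⟨hy2, hy1.symm⟩
  have hs : s ∈ {s' : S | π s' ∈ D (π s) ∧ σ s (π s') = s'} := ⟨h.mem _, h.sec0 s⟩
  filter_upwards [hU.mem_nhds hs] with s' hs' using hs'.2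

lemma leafTop_tendsto (s : S) : Tendsto (σ s) (𝓝 (π s)) (@nhds S (leafTop π σ) (s)) := by
  letI t : TopologicalSpace S := leafTop π σ
  rw [tendsto_nhds]
  intro A hA hsA
  exact hA s hsA

end

variable {E E' X : Type} [NormedAddCommGroup E] [InnerProductSpace ℝ E] [FiniteDimensional ℝ E]
  [NormedAddCommGroup E'] [InnerProductSpace ℝ E'] [FiniteDimensional ℝ E']
  [NormedAddCommGroup X] [InnerProductSpace ℝ X] [FiniteDimensional ℝ X]

variable {M : Set E} {N : Set E'}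

section

variable {z : E} {A0 : E →L[ℝ] X} {Φ : X → E} {A : X → E →L[ℝ] X}
  {z' : E'} {A0' : E' →L[ℝ] X} {Φ' : X → E'} {A' : X → E' →L[ℝ] X}

/-- Swap of the two factors. -/
def Lf.swp (t : Lf Φ A Φ' A') : Lf Φ' A' Φ A :=
  ⟨(t.1.2.1, t.1.1, adjL E E' t.1.2.2), by
    obtain ⟨T, ξ, hξ⟩ := t
    subst hξ
    refine ⟨ξ, ?_⟩
    show LT Φ' A' Φ A ξ = (Φ' ξ, Φ ξ, adjL E E' (glue (A ξ) (A' ξ)))
    rw [glue_adj]
    rfl⟩

lemma Lf.swp_swp (t : Lf Φ A Φ' A') : t.swp.swp = t := by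
  obtain ⟨T, ξ, hξ⟩ := t
  subst hξ
  apply Subtype.ext
  show (Φ ξ, Φ' ξ, adjL E' E (adjL E E' (glue (A ξ) (A' ξ)))) = LT Φ A Φ' A' ξ
  rw [glue_adj, glue_adj]
  rfl

/-- The leaf topology. -/
def Setup.top (s : Setup M N z A0 Φ A z' A0' Φ' A') (κ : Chc (Φ' := Φ') (A' := A') M N s.h) :
    TopologicalSpace (Lf Φ A Φ' A') := leafTop (fun t => t.pr s.h) (s.sec κ)

lemma Setup.coinc (s : Setup M N z A0 Φ A z' A0' Φ' A')
    (κ : Chc (Φ' := Φ') (A' := A') M N s.h) (κs : Chc (Φ' := Φ) (A' := A) N M s.symm.h)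
    (t : Lf Φ A Φ' A') :
    ∀ᶠ y : M in 𝓝 (t.pr s.h),
      s.symm.sec κs t.swp ((s.sec κ t y).swp.pr s.h') = (s.sec κ t y).swp := by
  set x := t.pr s.h with hx
  have hRx := κ.hR x
  have hR' := κ.hR' t
  have h1 : (κ.Ψ' t) ⁻¹' (κs.D (t.swp.pr s.h')) ∈ 𝓝 (0 : X) := by
    refine hR'.smΦ.continuous.continuousAt.preimage_mem_nhds ?_
    rw [hR'.Φ0]
    exact (κs.op _).mem_nhds (κs.mem _)
  obtain ⟨δ, hδ, hδD⟩ := Metric.mem_nhds_iff.1 h1
  have h2 : ∀ᶠ y in 𝓝 (x : E), κ.lg x y ∈ Metric.ball (0 : X) δ := by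
    refine (κ.sm x x (κ.mem x)).continuousAt.preimage_mem_nhds ?_
    rw [κ.lg0]
    exact Metric.ball_mem_nhds _ hδ
  have h3 : Tendsto (Subtype.val : M → E) (𝓝 x) (𝓝 (x : E)) := continuous_subtype_val.tendsto x
  filter_upwards [h3.eventually h2, h3.eventually ((κ.op x).mem_nhds (κ.mem x))] with y hy1 hy2
  set ζ := κ.lg x y with hζ
  have hc1 : κ.Ψ x ζ = y := κ.inv x y hy2 y.2
  have hmem : ∀ η, κ.Ψ' t η ∈ N := hR'.frMap.mem
  have hst : (s.symm.sec κs t.swp ⟨κ.Ψ' t ((0 : ℝ) • ζ), (hR'.geo ζ).mem 0⟩).1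
      = (κ.Ψ' t ((0 : ℝ) • ζ), κ.Ψ x ((0 : ℝ) • ζ),
        glue (κ.C' t ((0 : ℝ) • ζ)) (κ.C x ((0 : ℝ) • ζ))) := by
    have e1 : (⟨κ.Ψ' t ((0 : ℝ) • ζ), (hR'.geo ζ).mem 0⟩ : N) = t.swp.pr s.h' := by
      apply Subtype.ext
      show κ.Ψ' t ((0 : ℝ) • ζ) = t.1.2.1
      rw [zero_smul, hR'.Φ0]
    have e2 := s.symm.sec_base κs t.swp
    rw [e1]
    have e3 : s.symm.sec κs t.swp (t.swp.pr s.h') = t.swp := e2
    rw [e3, zero_smul, hRx.Φ0, hRx.A0, hR'.Φ0, hR'.A0]
    show (t.1.2.1, t.1.1, adjL E E' t.1.2.2) = _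
    have e4 := (t.co_spec s.h s.h' (B := κ.B x) (κ.hB x)).2
    rw [← glue_adj, e4]
    rfl
  have key := s.symm.master κs t.swp (hR'.geo ζ) (fun r hr => by
    show r • ζ ∈ (κ.Ψ' t) ⁻¹' (κs.D (t.swp.pr s.h'))
    apply hδD
    rw [mem_ball_zero_iff] at hy1 ⊢
    rw [norm_smul, Real.norm_of_nonneg hr.1]
    exact lt_of_le_of_lt (mul_le_of_le_one_left (norm_nonneg _) hr.2) hy1)
    (hRx.geo ζ) ((hR'.geo ζ).mem 0) hst ((hR'.geo ζ).mem 1)
  simp only [one_smul] at key
  apply Subtype.ext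
  have e5 : (s.sec κ t y).1 = (κ.Ψ x ζ, κ.Ψ' t ζ, glue (κ.C x ζ) (κ.C' t ζ)) := s.sec_val κ t y
  have e6 : ((s.sec κ t y).swp).1 = (κ.Ψ' t ζ, κ.Ψ x ζ, glue (κ.C' t ζ) (κ.C x ζ)) := by
    show ((s.sec κ t y).1.2.1, (s.sec κ t y).1.1, adjL E E' (s.sec κ t y).1.2.2) = _
    rw [e5, glue_adj]
  have e7 : (s.sec κ t y).swp.pr s.h' = ⟨κ.Ψ' t ζ, hmem ζ⟩ := Subtype.ext (by
    show ((s.sec κ t y).swp).1.1 = _
    rw [e6])
  rw [e7, e6]
  exact key

lemma Setup.pr'_tendsto (s : Setup M N z A0 Φ A z' A0' Φ' A')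
    (κ : Chc (Φ' := Φ') (A' := A') M N s.h) (t : Lf Φ A Φ' A') :
    Tendsto (fun y : M => (s.sec κ t y).swp.pr s.h') (𝓝 (t.pr s.h)) (𝓝 (t.swp.pr s.h')) := by
  set x := t.pr s.h with hx
  have hR' := κ.hR' t
  rw [tendsto_subtype_rng]
  have h3 : Tendsto (Subtype.val : M → E) (𝓝 x) (𝓝 (x : E)) := continuous_subtype_val.tendsto x
  have h4 : ContinuousAt (κ.lg x) (x : E) := (κ.sm x x (κ.mem x)).continuousAt
  have h5 : Tendsto (fun y : E => κ.Ψ' t (κ.lg x y)) (𝓝 (x : E)) (𝓝 (κ.Ψ' t 0)) := by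
    have h6 := (hR'.smΦ.continuous.tendsto (κ.lg x x)).comp h4
    rw [κ.lg0] at h6
    exact h6
  rw [hR'.Φ0] at h5
  exact h5.comp h3

lemma Setup.swp_cont (s : Setup M N z A0 Φ A z' A0' Φ' A')
    (κ : Chc (Φ' := Φ') (A' := A') M N s.h) (κs : Chc (Φ' := Φ) (A' := A) N M s.symm.h) :
    @Continuous _ _ (s.top κ) (s.symm.top κs) (Lf.swp : Lf Φ A Φ' A' → Lf Φ' A' Φ A) := by
  letI τ := s.top κ
  letI τ' := s.symm.top κs
  refine continuous_def.2 fun U hU => ?_
  intro t ht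
  have h1 : ∀ᶠ y' in 𝓝 (t.swp.pr s.h'), s.symm.sec κs t.swp y' ∈ U := hU t.swp ht
  filter_upwards [(s.pr'_tendsto κ t).eventually h1, s.coinc κ κs t] with y h2 h3
  rw [h3] at h2
  exact h2

/-- The two topologies agree. -/
def Setup.swpHomeo (s : Setup M N z A0 Φ A z' A0' Φ' A')
    (κ : Chc (Φ' := Φ') (A' := A') M N s.h) (κs : Chc (Φ' := Φ) (A' := A) N M s.symm.h) :
    @Homeomorph (Lf Φ A Φ' A') (Lf Φ' A' Φ A) (s.top κ) (s.symm.top κs) :=
  letI τ := s.top κ
  letI τ' := s.symm.top κs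
  { toFun := Lf.swp
    invFun := Lf.swp
    left_inv := Lf.swp_swp
    right_inv := Lf.swp_swp
    continuous_toFun := s.swp_cont κ κs
    continuous_invFun := s.symm.swp_cont κs κ }

theorem Setup.cov1 (s : Setup M N z A0 Φ A z' A0' Φ' A')
    (κ : Chc (Φ' := Φ') (A' := A') M N s.h) :
    @IsCoveringMap _ _ (s.top κ) _ (fun t : Lf Φ A Φ' A' => t.pr s.h) :=
  leaf_cover' (s.leafData κ)

theorem Setup.cov2 (s : Setup M N z A0 Φ A z' A0' Φ' A')
    (κ : Chc (Φ' := Φ') (A' := A') M N s.h) (κs : Chc (Φ' := Φ) (A' := A) N M s.symm.h) :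
    @IsCoveringMap _ _ (s.top κ) _ (fun t : Lf Φ A Φ' A' => t.swp.pr s.h') := by
  letI τ := s.top κ
  letI τ' := s.symm.top κs
  exact (s.symm.cov1 κs).comp_homeomorph (s.swpHomeo κ κs)

end

end Pool.Agent.H782.Am
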