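import Mathlib
import Pool.Agent.H782.Am.Gen1
import Pool.Agent.H782.Am.Defs2

/-! Topology of the leaf, local isometries. -/

set_option autoImplicit false
set_option linter.unusedSectionVars false
set_option linter.deprecated false
set_option linter.unusedVariables false
set_option linter.style.haveILetI false

open Set Filter Topology
open scoped ContDiff RealInnerProductSpace

noncomputable section

namespace Pool.Agent.H782.Am

section topo

lemma cover_t2 {S B : Type} [TopologicalSpace S] [TopologicalSpace B] [T2Space B] {π : S → B}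
    (h : IsCoveringMap π) : T2Space S := by
  refine ⟨fun x y hxy => ?_⟩
  by_cases hπ : π x = π y
  · exact h.isSeparatedMap x y hπ hxy
  · obtain ⟨u, v, hu, hv, hxu, hyv, huv⟩ := t2_separation hπ
    exact ⟨π ⁻¹' u, π ⁻¹' v, hu.preimage h.continuous, hv.preimage h.continuous, hxu, hyv,
      huv.preimage π⟩

lemma cover_surj {S B : Type} [TopologicalSpace S] [TopologicalSpace B] [ConnectedSpace B]
    [Nonempty S] {π : S → B} (h : IsCoveringMap π) : Function.Surjective π := by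
  have h1 : IsClopen (range π) := by
    refine ⟨?_, h.isOpenMap.isOpen_range⟩
    rw [← isOpen_compl_iff, isOpen_iff_mem_nhds]
    intro x hx
    obtain ⟨-, U, hxU, hU, hπU, H, hH⟩ := h x
    refine mem_of_superset (hU.mem_nhds hxU) ?_
    rintro _ hy ⟨s, rfl⟩
    apply hx
    set a := (H ⟨s, hy⟩).2 with ha
    exact ⟨a.1, a.2⟩
  have h2 := IsClopen.eq_univ h1 (range_nonempty π)
  exact range_eq_univ.1 h2

lemma cover_sc {S B X : Type} [TopologicalSpace S] [TopologicalSpace B] [TopologicalSpace X]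
    [SecondCountableTopology B] [SecondCountableTopology X] {π : S → B} (h : IsCoveringMap π)
    {f : X → S} (hf : Continuous f) (hfs : Function.Surjective f) : SecondCountableTopology S := by
  have hL : IsLindelof (univ : Set S) := by
    rw [← hfs.range_eq, ← image_univ]
    exact isLindelof_univ.image hf
  choose e he1 he2 using h.isLocalHomeomorph
  obtain ⟨t, ht, hcov⟩ := hL.elim_nhds_subcover (fun s => (e s).source)
    (fun s _ => (e s).open_source.mem_nhds (he1 s))
  haveI : Countable t := ht.to_subtype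
  haveI : ∀ s : t, SecondCountableTopology (e s).source := by
    intro s
    haveI : SecondCountableTopology (e s).target := inferInstance
    exact (e s).toHomeomorphSourceTarget.secondCountableTopology
  refine TopologicalSpace.secondCountableTopology_of_countable_cover
    (U := fun s : t => (e s).source) ?_ ?_
  · intro s
    exact (e s).open_source
  · rw [eq_univ_iff_forall]
    intro x
    have := hcov.2 (mem_univ x)
    simp only [mem_iUnion] at this ⊢
    obtain ⟨s, hs, hx⟩ := this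
    exact ⟨⟨s, hs⟩, hx⟩

end topo

variable {E E' X : Type} [NormedAddCommGroup E] [InnerProductSpace ℝ E] [FiniteDimensional ℝ E]
  [NormedAddCommGroup E'] [InnerProductSpace ℝ E'] [FiniteDimensional ℝ E']
  [NormedAddCommGroup X] [InnerProductSpace ℝ X] [FiniteDimensional ℝ X]

variable {M : Set E} {N : Set E'}

section

variable {z : E} {A0 : E →L[ℝ] X} {Φ : X → E} {A : X → E →L[ℝ] X}
  {z' : E'} {A0' : E' →L[ℝ] X} {Φ' : X → E'} {A' : X → E' →L[ℝ] X}

/-- The point of the leaf attached to a vector. -/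
def LTm (Φ : X → E) (A : X → E →L[ℝ] X) (Φ' : X → E') (A' : X → E' →L[ℝ] X) (ξ : X) :
    Lf Φ A Φ' A' := ⟨LT Φ A Φ' A' ξ, ξ, rfl⟩

lemma LTm_surj : Function.Surjective (LTm Φ A Φ' A') := by
  rintro ⟨T, ξ, hξ⟩
  exact ⟨ξ, Subtype.ext hξ⟩

lemma LTm_pr (h : RayMap M z A0 Φ A) (ξ : X) :
    (LTm Φ A Φ' A' ξ).pr h = ⟨Φ ξ, h.frMap.mem ξ⟩ := rfl

lemma LTm_pr' (h' : RayMap N z' A0' Φ' A') (ξ : X) :
    (LTm Φ A Φ' A' ξ).swp.pr h' = ⟨Φ' ξ, h'.frMap.mem ξ⟩ := rfl

lemma Setup.ray_cont (s : Setup M N z A0 Φ A z' A0' Φ' A')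
    (κ : Chc (Φ' := Φ') (A' := A') M N s.h) (ξ : X) :
    @Continuous _ _ _ (s.top κ) (fun r : ℝ => LTm Φ A Φ' A' (r • ξ)) := by
  letI := s.top κ
  set g1 : ℝ → Lf Φ A Φ' A' := fun r => LTm Φ A Φ' A' (r • ξ) with hg1
  set pr : Lf Φ A Φ' A' → M := fun t => t.pr s.h with hpr
  set b : ℝ → M := fun r => ⟨Φ (r • ξ), s.h.frMap.mem _⟩ with hb
  have hbc : Continuous b := by
    have : Continuous (fun r : ℝ => Φ (r • ξ)) :=
      s.h.smΦ.continuous.comp (continuous_id.smul continuous_const)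
    exact this.subtype_mk _
  rw [continuous_iff_continuousAt]
  intro r0
  have hpr0 : pr (g1 r0) = b r0 := rfl
  have h1 : Tendsto (fun r => s.sec κ (g1 r0) (b r)) (𝓝 r0) (𝓝 (g1 r0)) := by
    have h2 : Tendsto (s.sec κ (g1 r0)) (𝓝 (pr (g1 r0))) (𝓝 (g1 r0)) :=
      leafTop_tendsto (π := pr) (σ := s.sec κ) (g1 r0)
    have h3 : Tendsto b (𝓝 r0) (𝓝 (pr (g1 r0))) := hbc.tendsto r0
    exact h2.comp h3
  refine h1.congr' ?_
  have h4 : (fun r : ℝ => Φ (r • ξ)) ⁻¹' (κ.D (pr (g1 r0))) ∈ 𝓝 r0 := by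
    have h5 : Continuous (fun r : ℝ => Φ (r • ξ)) :=
      s.h.smΦ.continuous.comp (continuous_id.smul continuous_const)
    refine h5.continuousAt.preimage_mem_nhds ?_
    exact (κ.op _).mem_nhds (κ.mem (pr (g1 r0)))
  obtain ⟨δ, hδ, hδD⟩ := Metric.mem_nhds_iff.1 h4
  filter_upwards [Metric.ball_mem_nhds r0 hδ] with r hr
  have hc := ((s.h.geo ξ).shift r0).scale (r - r0)
  have hc' := ((s.h'.geo ξ).shift r0).scale (r - r0)
  have hst : (s.sec κ (g1 r0) ⟨Φ ((r0 + (r - r0) * 0) • ξ), hc.mem 0⟩).1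
      = (Φ ((r0 + (r - r0) * 0) • ξ), Φ' ((r0 + (r - r0) * 0) • ξ),
        glue (A ((r0 + (r - r0) * 0) • ξ)) (A' ((r0 + (r - r0) * 0) • ξ))) := by
    have e1 : (⟨Φ ((r0 + (r - r0) * 0) • ξ), hc.mem 0⟩ : M) = pr (g1 r0) := by
      apply Subtype.ext
      show Φ ((r0 + (r - r0) * 0) • ξ) = Φ (r0 • ξ)
      rw [mul_zero, add_zero]
    rw [e1, s.sec_base, mul_zero, add_zero]
    rfl
  have k := s.master κ (g1 r0) hc (fun ρ hρ => by
    show r0 + (r - r0) * ρ ∈ (fun r : ℝ => Φ (r • ξ)) ⁻¹' (κ.D (pr (g1 r0)))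
    apply hδD
    rw [Metric.mem_ball, Real.dist_eq] at hr ⊢
    rw [add_sub_cancel_left, abs_mul, abs_of_nonneg hρ.1]
    exact lt_of_le_of_lt (mul_le_of_le_one_right (abs_nonneg _) hρ.2) hr) hc' (hc.mem 0) hst
    (hc.mem 1)
  have e2 : r0 + (r - r0) * 1 = r := by ring
  apply Subtype.ext
  simp only [e2] at k
  exact k

lemma Setup.LTm_cont (s : Setup M N z A0 Φ A z' A0' Φ' A')
    (κ : Chc (Φ' := Φ') (A' := A') M N s.h) :
    @Continuous _ _ _ (s.top κ) (LTm Φ A Φ' A') := by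
  letI := s.top κ
  have hcov : IsCoveringMap (fun t : Lf Φ A Φ' A' => t.pr s.h) := s.cov1 κ
  let f : C(X, M) := ⟨fun ξ => ⟨Φ ξ, s.h.frMap.mem ξ⟩, s.h.smΦ.continuous.subtype_mk _⟩
  obtain ⟨F, ⟨hF0, hF⟩, -⟩ := hcov.existsUnique_continuousMap_lifts f (a₀ := 0)
    (LTm Φ A Φ' A' 0) rfl
  have key : ∀ ξ, F ξ = LTm Φ A Φ' A' ξ := by
    intro ξ
    have h5 := hcov.eq_of_comp_eq (g₁ := fun r : ℝ => LTm Φ A Φ' A' (r • ξ))
      (g₂ := fun r : ℝ => F (r • ξ)) (s.ray_cont κ ξ)
      (F.continuous.comp (continuous_id.smul continuous_const)) (by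
        funext r
        exact (congrFun hF (r • ξ)).symm) 0 (by
        simp only [zero_smul]
        exact hF0.symm)
    have h6 := congrFun h5 1
    simp only [one_smul] at h6
    exact h6.symm
  have : LTm Φ A Φ' A' = F := funext fun ξ => (key ξ).symm
  rw [this]
  exact F.continuous

end

end Pool.Agent.H782.Am
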