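import Mathlib
import Pool.Agent.H782.Am.Gen2
import Pool.Agent.H782.Am.Fin2

/-! Coverings of embedded submanifolds. -/

set_option autoImplicit false
set_option linter.unusedSectionVars false
set_option linter.deprecated false
set_option linter.unusedVariables false
set_option linter.style.haveILetI false

open Set Filter Topology
open scoped ContDiff RealInnerProductSpace

noncomputable section

namespace Pool.Agent.H782.Am

variable {E E' X : Type} [NormedAddCommGroup E] [InnerProductSpace ℝ E] [FiniteDimensional ℝ E]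
  [NormedAddCommGroup E'] [InnerProductSpace ℝ E'] [FiniteDimensional ℝ E']
  [NormedAddCommGroup X] [InnerProductSpace ℝ X] [FiniteDimensional ℝ X]

variable {M : Set E} {N : Set E'}

section cover

variable {S : Type} [TopologicalSpace S]

lemma lift_curve {π : S → M} (hπ : IsCoveringMap π) {c : ℝ → E} (hc : Continuous c)
    (hm : ∀ r, c r ∈ M) (s : S) (h0 : c 0 = π s) :
    ∃ C : ℝ → S, Continuous C ∧ C 0 = s ∧ ∀ r, (π (C r) : E) = c r := by
  let f : C(ℝ, M) := ⟨fun r => ⟨c r, hm r⟩, hc.subtype_mk _⟩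
  obtain ⟨F, ⟨hF0, hF⟩, -⟩ := hπ.existsUnique_continuousMap_lifts f (a₀ := 0) s
    (Subtype.ext h0.symm)
  exact ⟨F, F.continuous, hF0, fun r => congrArg Subtype.val (congrFun hF r)⟩

lemma cover_tan {π : S → M} (hπ : IsCoveringMap π) (s : S) :
    tan (inc M ∘ π) s = tangent M (π s : E) := by
  unfold tan tangent
  congr 1
  ext v
  constructor
  · rintro ⟨c, hc, hcs, hc0, hcd⟩
    exact ⟨(inc M ∘ π) ∘ c, hcs, fun r => (π (c r)).2, by rw [← hc0]; rfl, hcd⟩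
  · rintro ⟨c, hc, hcm, hc0, hcd⟩
    obtain ⟨C, hC, hC0, hCπ⟩ := lift_curve hπ hc.continuous hcm s hc0
    have e : (inc M ∘ π) ∘ C = c := funext hCπ
    exact ⟨C, hC, by rw [e]; exact hc, hC0, by rw [e]; exact hcd⟩

lemma tan_inc (x : M) : tan (inc M) x = tangent M (x : E) := by
  unfold tan tangent
  congr 1
  ext v
  constructor
  · rintro ⟨c, hc, hcs, hc0, hcd⟩
    exact ⟨inc M ∘ c, hcs, fun r => (c r).2, by rw [← hc0]; rfl, hcd⟩
  · rintro ⟨c, hc, hcm, hc0, hcd⟩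
    exact ⟨fun r => ⟨c r, hcm r⟩, hc.continuous.subtype_mk _, hc, Subtype.ext hc0, hcd⟩

lemma cover_geo {π : S → M} (hπ : IsCoveringMap π) {c : ℝ → S} :
    IsGeo (inc M ∘ π) c ↔ Continuous c ∧ IsGeodesic M ((inc M ∘ π) ∘ c) := by
  constructor
  · rintro ⟨h1, h2, h3⟩
    refine ⟨h1, h2, fun t => (π (c t)).2, fun t v hv => ?_⟩
    exact h3 t v (by rw [cover_tan hπ]; exact hv)
  · rintro ⟨h1, h2, h3, h4⟩
    refine ⟨h1, h2, fun t v hv => ?_⟩
    exact h4 t v (by rw [cover_tan hπ] at hv; exact hv)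

lemma inc_geo {c : ℝ → M} :
    IsGeo (inc M) c ↔ IsGeodesic M (inc M ∘ c) := by
  constructor
  · rintro ⟨h1, h2, h3⟩
    refine ⟨h2, fun t => (c t).2, fun t v hv => ?_⟩
    exact h3 t v (by rw [tan_inc]; exact hv)
  · rintro ⟨h2, h3, h4⟩
    refine ⟨?_, h2, fun t v hv => ?_⟩
    · exact continuous_induced_rng.2 h2.continuous
    · exact h4 t v (by rw [tan_inc] at hv; exact hv)

lemma IsSubmanifold.inter {n : ℕ} (h : IsSubmanifold n M) {W : Set E} (hW : IsOpen W) :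
    IsSubmanifold n (M ∩ W) := by
  rintro z ⟨hz, hzW⟩
  obtain ⟨U, h1, h2, k, f, h3, h4, h5, h6⟩ := h z hz
  refine ⟨U ∩ W, h1.inter hW, ⟨h2, hzW⟩, k, f, h3, h4.mono inter_subset_left,
    fun x hx => h5 x hx.1, ?_⟩
  ext x
  have := Set.ext_iff.1 h6 x
  simp only [mem_inter_iff] at this ⊢
  tauto

lemma isSubmanifold_of_local {n : ℕ}
    (h : ∀ z : M, ∃ U : Set M, IsOpen U ∧ z ∈ U ∧ IsSubmanifold n (inc M '' U)) :
    IsSubmanifold n M := by
  intro z hz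
  obtain ⟨U, hU, hzU, hs⟩ := h ⟨z, hz⟩
  obtain ⟨W, hW, rfl⟩ := isOpen_induced_iff.1 hU
  have e1 : inc M '' (Subtype.val ⁻¹' W) = M ∩ W := Subtype.image_preimage_coe M W
  rw [e1] at hs
  obtain ⟨V, h1, h2, k, f, h3, h4, h5, h6⟩ := hs z ⟨hz, hzU⟩
  refine ⟨V ∩ W, h1.inter hW, ⟨h2, hzU⟩, k, f, h3, h4.mono inter_subset_left,
    fun x hx => h5 x hx.1, ?_⟩
  ext x
  have := Set.ext_iff.1 h6 x
  simp only [mem_inter_iff] at this ⊢
  tauto

lemma CRM.sub {n : ℕ} (h : CRM n (inc M)) : IsSubmanifold n M :=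
  isSubmanifold_of_local fun z => by
    obtain ⟨U, h1, h2, h3, h4⟩ := h.immersed z
    exact ⟨U, h1, h2, h4⟩

lemma CRM.geod {n : ℕ} (h : CRM n (inc M)) : GeodComplete M := by
  intro z hz v hv
  obtain ⟨c, hc, hc0, hcd⟩ := h.complete ⟨z, hz⟩ v (by rw [tan_inc]; exact hv)
  refine ⟨inc M ∘ c, inc_geo.1 hc, ?_, hcd⟩
  show inc M (c 0) = z
  rw [hc0]
  rfl

/-- A covering space of a complete manifold. -/
lemma CRM.cover {n : ℕ} (h : CRM n (inc M)) {π : S → M} (hπ : IsCoveringMap π)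
    (hsc : SecondCountableTopology S) (hc : ConnectedSpace S) : CRM n (inc M ∘ π) := by
  haveI := h.t2
  refine ⟨cover_t2 hπ, hsc, hc, fun s => ?_, fun s v hv => ?_⟩
  · obtain ⟨e, he, hee⟩ := hπ.isLocalHomeomorph s
    have hop : IsOpen e.source := e.open_source
    refine ⟨e.source, hop, he, ?_, ?_⟩
    · have h1 : IsOpenEmbedding (fun x : e.source => π x) := by
        have h2 := e.isOpenEmbedding_restrict
        rw [← hee] at h2
        exact h2
      exact IsEmbedding.subtypeVal.comp h1.isEmbedding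
    · have h1 : (inc M ∘ π) '' e.source = inc M '' (π '' e.source) := image_comp _ _ _
      have h2 : IsOpen (π '' e.source) := hπ.isOpenMap _ hop
      obtain ⟨W, hW, hWe⟩ := isOpen_induced_iff.1 h2
      rw [h1, ← hWe]
      have e1 : inc M '' (Subtype.val ⁻¹' W) = M ∩ W := Subtype.image_preimage_coe M W
      rw [e1]
      exact h.sub.inter hW
  · rw [cover_tan hπ] at hv
    obtain ⟨γ, h1, h2, h3⟩ := h.geod _ (π s).2 v hv
    obtain ⟨C, hC, hC0, hCπ⟩ := lift_curve hπ h1.1.continuous h1.2.1 s h2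
    have e : (inc M ∘ π) ∘ C = γ := funext hCπ
    refine ⟨C, (cover_geo hπ).2 ⟨hC, ?_⟩, hC0, ?_⟩
    · rw [e]; exact h1
    · rw [e]; exact h3

/-- The exponential map of a covering space. -/
lemma rexp_cover {π : S → M} (hπ : IsCoveringMap π) (hM : SubMf M) (hC : GeodComplete M)
    {s : S} {A0 : E →L[ℝ] X} {Φ : X → E} {A : X → E →L[ℝ] X} (h : RayMap M (π s) A0 Φ A)
    {v : tan (inc M ∘ π) s} {ξ : X} (hv : adjL E X A0 ξ = v) {C : ℝ → S} (hCc : Continuous C)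
    (hC0 : C 0 = s) (hCπ : ∀ r, (π (C r) : E) = Φ (r • ξ)) : rexp (inc M ∘ π) s v = C 1 := by
  have hA0 : IsCofr M (π s : E) A0 := by
    have := h.frMap.fr 0
    rwa [h.Φ0, h.A0] at this
  have hex : ∃ c, IsGeo (inc M ∘ π) c ∧ c 0 = s ∧ deriv ((inc M ∘ π) ∘ c) 0 = v := by
    obtain ⟨γ, h1, h2, h3⟩ := hC _ (π s).2 v ((cover_tan hπ s) ▸ v.2)
    obtain ⟨C', hC', hC0', hCπ'⟩ := lift_curve hπ h1.1.continuous h1.2.1 s h2
    have e : (inc M ∘ π) ∘ C' = γ := funext hCπ'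
    exact ⟨C', (cover_geo hπ).2 ⟨hC', by rw [e]; exact h1⟩, hC0', by rw [e]; exact h3⟩
  unfold rexp
  rw [dif_pos hex]
  obtain ⟨h1, h2, h3⟩ := Classical.choose_spec hex
  set c := Classical.choose hex with hc
  obtain ⟨h1c, h1g⟩ := (cover_geo hπ).1 h1
  obtain ⟨B, hB, hB0⟩ := exists_frGeo_of_geodesic hM h1g (A0 := A0) (ξ := ξ)
    (by
      show IsCofr M (inc M (π (c 0))) A0
      rw [h2]; exact hA0) (by rw [h3, hv])
  have h5 : ∀ r, (π (c r) : E) = Φ (r • ξ) := fun r => (hB.uniq hM (h.geo ξ) (by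
      show inc M (π (c 0)) = _
      rw [h2, zero_smul, h.Φ0]; rfl)
    (by rw [hB0, zero_smul, h.A0]) r).1
  have h6 := hπ.eq_of_comp_eq (g₁ := c) (g₂ := C) h1c hCc (by
    funext r
    apply Subtype.ext
    show (π (c r) : E) = π (C r)
    rw [h5, hCπ]) 0 (by rw [h2, hC0])
  exact congrFun h6 1

lemma rexp_inc (hM : SubMf M) (hC : GeodComplete M) {p : M} {A0 : E →L[ℝ] X} {Φ : X → E}
    {A : X → E →L[ℝ] X} (h : RayMap M (p : E) A0 Φ A) {v : tan (inc M) p} {ξ : X}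
    (hv : adjL E X A0 ξ = v) : rexp (inc M) p v = ⟨Φ ξ, h.frMap.mem ξ⟩ := by
  have hA0 : IsCofr M (p : E) A0 := by
    have := h.frMap.fr 0
    rwa [h.Φ0, h.A0] at this
  have hex : ∃ c, IsGeo (inc M) c ∧ c 0 = p ∧ deriv (inc M ∘ c) 0 = v := by
    obtain ⟨γ, h1, h2, h3⟩ := hC _ p.2 v ((tan_inc p) ▸ v.2)
    exact ⟨fun r => ⟨γ r, h1.2.1 r⟩, inc_geo.2 h1, Subtype.ext h2, h3⟩
  unfold rexp
  rw [dif_pos hex]
  obtain ⟨h1, h2, h3⟩ := Classical.choose_spec hex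
  set c := Classical.choose hex with hc
  have h1g := inc_geo.1 h1
  obtain ⟨B, hB, hB0⟩ := exists_frGeo_of_geodesic hM h1g (A0 := A0) (ξ := ξ)
    (by
      show IsCofr M (inc M (c 0)) A0
      rw [h2]; exact hA0) (by rw [h3, hv])
  have h5 : ∀ r, (c r : E) = Φ (r • ξ) := fun r => (hB.uniq hM (h.geo ξ) (by
      show inc M (c 0) = _
      rw [h2, zero_smul, h.Φ0]; rfl)
    (by rw [hB0, zero_smul, h.A0]) r).1
  apply Subtype.ext
  rw [h5 1, one_smul]

end cover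

/-- The differential of a transition map. -/
lemma trans_diff (hM : SubMf M) (hN : SubMf N) {z : E} {z' : E'} {B : E →L[ℝ] X}
    {B' : E' →L[ℝ] X} {Φ2 : X → E} {A2 : X → E →L[ℝ] X} {Φ2' : X → E'} {A2' : X → E' →L[ℝ] X}
    (h2 : RayMap M z B Φ2 A2) (h2' : RayMap N z' B' Φ2' A2') (hm2 : Match M N Φ2 A2 Φ2' A2')
    {lg : E → X} (lg0 : lg z = 0) {D : Set E} (hD1 : IsOpen D) (hD2 : z ∈ D)
    (hD3 : ContDiffAt ℝ ∞ lg z) (hD4 : ∀ x ∈ D, x ∈ M → Φ2 (lg x) = x) {v : E}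
    (hv : v ∈ tangent M z) :
    fderiv ℝ (fun y => Φ2' (lg y)) z v ∈ tangent N z' ∧
      ‖fderiv ℝ (fun y => Φ2' (lg y)) z v‖ = ‖v‖ := by
  have hz : z ∈ M := by
    have := h2.frMap.mem 0
    rwa [h2.Φ0] at this
  obtain ⟨c, hc1, hc2, hc3, hc4⟩ := hM.exists_curve hz hv
  have hlg : HasFDerivAt lg (fderiv ℝ lg z) z := (hD3.differentiableAt (by simp)).hasFDerivAt
  have e1 : fderiv ℝ (fun y => Φ2' (lg y)) z v = fderiv ℝ Φ2' 0 (fderiv ℝ lg z v) := by
    have h3 := (h2'.frMap.dΦ (lg z)).comp z hlg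
    have h4 : fderiv ℝ (fun y => Φ2' (lg y)) z = _ := h3.fderiv
    rw [h4, lg0]
    rfl
  have e2 : fderiv ℝ Φ2 0 (fderiv ℝ lg z v) = v := by
    have h3 := (h2.frMap.dΦ (lg z)).comp z hlg
    rw [← hc3] at h3
    have h4 := h3.comp_hasDerivAt (0 : ℝ) hc4
    have h5 : (Φ2 ∘ lg) ∘ c =ᶠ[𝓝 0] c := by
      have h6 : ∀ᶠ t in 𝓝 (0 : ℝ), c t ∈ D := by
        refine hc1.continuous.continuousAt.preimage_mem_nhds ?_
        rw [hc3]
        exact hD1.mem_nhds hD2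
      filter_upwards [h6] with t ht
      exact hD4 _ ht (hc2 t)
    have h7 := (h4.congr_of_eventuallyEq h5.symm).unique hc4
    rw [hc3, lg0] at h7
    exact h7
  have e3 : fderiv ℝ (fun y => Φ2' (lg y)) z v = glue (A2 0) (A2' 0) v := by
    rw [e1, hm2.dΦ hM hN h2.frMap h2'.frMap, e2]
  have f1 := h2.frMap.fr 0
  have f2 := h2'.frMap.fr 0
  rw [h2.Φ0] at f1
  rw [h2'.Φ0] at f2
  rw [e3, glue_apply]
  refine ⟨f2.adj_mem _, ?_⟩
  rw [f2.norm_adj]
  have h8 := f1.inner_A hv (w := v)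
  rw [real_inner_self_eq_norm_sq, real_inner_self_eq_norm_sq] at h8
  exact (sq_eq_sq₀ (norm_nonneg _) (norm_nonneg _)).1 h8

end Pool.Agent.H782.Am
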