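import Mathlib
import Pool.Agent.H782.Am.Gen3

/-! The common Riemannian covering. -/

set_option autoImplicit false
set_option linter.unusedSectionVars false
set_option linter.deprecated false
set_option linter.unusedVariables false
set_option linter.style.haveILetI false

open Set Filter Topology
open scoped ContDiff RealInnerProductSpace

noncomputable section

namespace Pool.Agent.H782.Am

variable {E E' X : Type} [NormedAddCommGroup E] [InnerProductSpace ℝ E] [FiniteDimensional ℝ E]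
  [NormedAddCommGroup E'] [InnerProductSpace ℝ E'] [FiniteDimensional ℝ E']
  [NormedAddCommGroup X] [InnerProductSpace ℝ X] [FiniteDimensional ℝ X]

variable {M : Set E} {N : Set E'}

section

variable {z : E} {A0 : E →L[ℝ] X} {Φ : X → E} {A : X → E →L[ℝ] X}
  {z' : E'} {A0' : E' →L[ℝ] X} {Φ' : X → E'} {A' : X → E' →L[ℝ] X}

lemma Setup.iso1 (s : Setup M N z A0 Φ A z' A0' Φ' A')
    (κ : Chc (Φ' := Φ') (A' := A') M N s.h) :
    @IsometricOn E E _ _ _ _ (Lf Φ A Φ' A') M (s.top κ) _ (inc M ∘ fun t => t.pr s.h) (inc M)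
      (fun t => t.pr s.h) univ := by
  letI := s.top κ
  have hcov : IsCoveringMap (fun t : Lf Φ A Φ' A' => t.pr s.h) := s.cov1 κ
  refine ⟨hcov.continuous.continuousOn, fun t _ => ⟨id, contDiffAt_id, Eventually.of_forall
    fun _ => rfl, fun v hv => ?_⟩⟩
  rw [cover_tan hcov] at hv
  rw [fderiv_id, tan_inc]
  exact ⟨hv, rfl⟩

lemma Setup.iso2 (s : Setup M N z A0 Φ A z' A0' Φ' A')
    (κ : Chc (Φ' := Φ') (A' := A') M N s.h) (κs : Chc (Φ' := Φ) (A' := A) N M s.symm.h) :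
    @IsometricOn E E' _ _ _ _ (Lf Φ A Φ' A') N (s.top κ) _ (inc M ∘ fun t => t.pr s.h) (inc N)
      (fun t => t.swp.pr s.h') univ := by
  letI := s.top κ
  have hcov : IsCoveringMap (fun t : Lf Φ A Φ' A' => t.pr s.h) := s.cov1 κ
  have hcov2 : IsCoveringMap (fun t : Lf Φ A Φ' A' => t.swp.pr s.h') := s.cov2 κ κs
  refine ⟨hcov2.continuous.continuousOn, fun t _ => ?_⟩
  set x := t.pr s.h with hx
  have hR := κ.hR x
  have hR' := κ.hR' t
  have hsm : ContDiffAt ℝ ∞ (κ.lg x) (x : E) := κ.sm x x (κ.mem x)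
  refine ⟨fun y => κ.Ψ' t (κ.lg x y), hR'.smΦ.contDiffAt.comp (x : E) hsm, ?_, fun v hv => ?_⟩
  · rw [nhdsWithin_univ]
    have h1 : ∀ᶠ s' in 𝓝 t, s.sec κ t (s'.pr s.h) = s' := leafTop_nhds (s.leafData κ) t
    filter_upwards [h1] with s' hs'
    have h2 := congrArg (fun T => T.1.2.1) hs'
    have h3 : (s.sec κ t (s'.pr s.h)).1.2.1 = κ.Ψ' t (κ.lg x (s'.pr s.h)) := by
      rw [s.sec_val]
    exact h3.symm.trans h2
  · rw [cover_tan hcov] at hv
    have h1 := trans_diff s.hM s.hN hR hR' (s.dev_match κ t) (κ.lg0 x) (κ.op x) (κ.mem x) hsm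
      (fun y hy hyM => κ.inv x y hy hyM) hv
    have h2 : tan (inc N) (t.swp.pr s.h') = tangent N t.1.2.1 := tan_inc _
    rw [h2]
    exact h1

end

/-- Common Riemannian covering, from the equality of the Gram matrices. -/
theorem common_cover {n : ℕ} (hM : CRM n (inc M)) (hN : CRM n (inc N)) (p : M) (q : N)
    (L : tan (inc M) p → tan (inc N) q) (hL : IsIsoTan (inc M) (inc N) p q L)
    (J : tangent M (p : E) ≃ₗᵢ[ℝ] tan (inc M) p) (hJ : ∀ v, (J.symm v : E) = v)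
    (J' : tangent N (q : E') ≃ₗᵢ[ℝ] tan (inc M) p) (hJ' : ∀ v, (J'.symm v : E') = L v)
    {Φ : tan (inc M) p → E} {A : tan (inc M) p → E →L[ℝ] tan (inc M) p}
    (h : RayMap M (p : E) (cof (p : E) J) Φ A)
    {Φ' : tan (inc M) p → E'} {A' : tan (inc M) p → E' →L[ℝ] tan (inc M) p}
    (h' : RayMap N (q : E') (cof (q : E') J') Φ' A') (hm : Match M N Φ A Φ' A') :
    ∃ (S : Type) (_ : TopologicalSpace S) (ι : S → E) (e : S) (L₁ : tan ι e → tan (inc M) p)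
      (L₂ : tan ι e → tan (inc N) q) (π₁ : S → M) (π₂ : S → N),
      CRM n ι ∧ IsIsoTan ι (inc M) e p L₁ ∧ IsIsoTan ι (inc N) e q L₂ ∧
      IsRiemCover ι (inc M) π₁ ∧ IsRiemCover ι (inc N) π₂ ∧
      (∀ v, π₁ (rexp ι e v) = rexp (inc M) p (L₁ v)) ∧
      (∀ v, π₂ (rexp ι e v) = rexp (inc N) q (L₂ v)) ∧ ∀ v, L (L₁ v) = L₂ v := by
  have hMs := hM.sub.subMf
  have hNs := hN.sub.subMf
  set s : Setup M N (p : E) (cof (p : E) J) Φ A (q : E') (cof (q : E') J') Φ' A' :=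
    ⟨hMs, hNs, hM.geod, hN.geod, h, h', hm⟩ with hs
  have hpn := hM.sub.finrank p.2
  have hXn : Module.finrank ℝ (tan (inc M) p) = n := by rw [tan_inc]; exact hpn
  have hcofM : ∀ x ∈ M, ∃ B : E →L[ℝ] tan (inc M) p, IsCofr M x B :=
    fun x hx => exists_cofr hXn (hM.sub.finrank hx)
  have hcofN : ∀ x ∈ N, ∃ B : E' →L[ℝ] tan (inc M) p, IsCofr N x B :=
    fun x hx => exists_cofr hXn (hN.sub.finrank hx)
  obtain ⟨κ⟩ := s.exists_chc hcofM
  obtain ⟨κs⟩ := s.symm.exists_chc hcofN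
  letI τ : TopologicalSpace (Lf Φ A Φ' A') := s.top κ
  set π₁ : Lf Φ A Φ' A' → M := fun t => t.pr s.h with hπ₁
  set π₂ : Lf Φ A Φ' A' → N := fun t => t.swp.pr s.h' with hπ₂
  have hc1 : IsCoveringMap π₁ := s.cov1 κ
  have hc2 : IsCoveringMap π₂ := s.cov2 κ κs
  have hLc : Continuous (LTm Φ A Φ' A') := s.LTm_cont κ
  set e : Lf Φ A Φ' A' := LTm Φ A Φ' A' 0 with he
  haveI := hM.connected
  haveI := hN.connected
  haveI := hM.countable
  haveI : Nonempty (Lf Φ A Φ' A') := ⟨e⟩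
  have hconn : ConnectedSpace (Lf Φ A Φ' A') := LTm_surj.connectedSpace hLc
  have hsc : SecondCountableTopology (Lf Φ A Φ' A') := cover_sc hc1 hLc LTm_surj
  have hp : π₁ e = p := Subtype.ext h.Φ0
  have hE : tan (inc M ∘ π₁) e = tan (inc M) p := by
    rw [cover_tan hc1, tan_inc, hp]
  have hrM : ∀ ξ : tan (inc M) p, rexp (inc M) p ξ = ⟨Φ ξ, h.frMap.mem ξ⟩ := fun ξ =>
    rexp_inc hMs hM.geod h (by rw [adjL_cof]; exact hJ ξ)
  have hrN : ∀ ξ : tan (inc M) p, rexp (inc N) q (L ξ) = ⟨Φ' ξ, h'.frMap.mem ξ⟩ := fun ξ =>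
    rexp_inc hNs hN.geod h' (by rw [adjL_cof]; exact hJ' ξ)
  have hE1 : ∀ v : E, v ∈ tan (inc M ∘ π₁) e → v ∈ tan (inc M) p := fun v hv => by
    rw [← hE]; exact hv
  have hE2 : ∀ v : E, v ∈ tan (inc M) p → v ∈ tan (inc M ∘ π₁) e := fun v hv => by
    rw [hE]; exact hv
  set L₁ : tan (inc M ∘ π₁) e → tan (inc M) p := fun v => ⟨v.1, hE1 v.1 v.2⟩ with hL₁
  have hL₁i : IsIsoTan (inc M ∘ π₁) (inc M) e p L₁ := by
    exact ⟨⟨fun v w => rfl, fun r v => rfl⟩, fun v => rfl, fun w => ⟨⟨w.1, hE2 w.1 w.2⟩, rfl⟩⟩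
  have hrS : ∀ v, rexp (inc M ∘ π₁) e v = LTm Φ A Φ' A' (L₁ v) := by
    intro v
    have h1 : RayMap M (π₁ e : E) (cof (p : E) J) Φ A := by rw [hp]; exact h
    have h2 := rexp_cover hc1 hMs hM.geod h1 (v := v) (ξ := L₁ v)
      (by rw [adjL_cof]; exact hJ _) (s.ray_cont κ (L₁ v))
      (by simp only [zero_smul]; rfl) (fun r => rfl)
    rw [h2, one_smul]
  refine ⟨Lf Φ A Φ' A', τ, inc M ∘ π₁, e, L₁, fun v => L (L₁ v), π₁, π₂,
    hM.cover hc1 hsc hconn, hL₁i, ?_, ⟨hc1, cover_surj hc1, s.iso1 κ⟩,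
    ⟨hc2, cover_surj hc2, s.iso2 κ κs⟩, ?_, ?_, fun v => rfl⟩
  · obtain ⟨⟨a1, a2⟩, a3, a4⟩ := hL
    refine ⟨⟨fun v w => ?_, fun r v => ?_⟩, fun v => ?_, ?_⟩
    · exact a1 (L₁ v) (L₁ w)
    · exact a2 r (L₁ v)
    · rw [a3]; rfl
    · exact a4.comp hL₁i.2.2
  · intro v
    rw [hrS, hrM]
    rfl
  · intro v
    rw [hrS, hrN]
    rfl

end Pool.Agent.H782.Am
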