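import Mathlib
import Pool.Agent.H782.Am.Gen4

/-! The Ambrose conjecture. -/

set_option autoImplicit false
set_option linter.unusedSectionVars false
set_option linter.deprecated false
set_option linter.unusedVariables false
set_option linter.style.haveILetI false

open Set Filter Topology
open scoped ContDiff RealInnerProductSpace

noncomputable section

namespace Pool.Agent.H782.Am

variable {E E' X : Type} [NormedAddCommGroup E] [InnerProductSpace ℝ E] [FiniteDimensional ℝ E]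
  [NormedAddCommGroup E'] [InnerProductSpace ℝ E'] [FiniteDimensional ℝ E']
  [NormedAddCommGroup X] [InnerProductSpace ℝ X] [FiniteDimensional ℝ X]

variable {M : Set E} {N : Set E'}

lemma loc_inj {Φ : X → E} {A : X → E →L[ℝ] X} (h : FrMap M Φ A) {y0 : X}
    (hy : Function.Injective (th Φ A y0)) : ∃ δ > 0, InjOn Φ (Metric.ball y0 δ) := by
  set g : X → X := fun y => A y0 (Φ y) with hg
  have hgs : ContDiff ℝ ∞ g := (A y0).contDiff.comp h.smΦ
  have hgd : HasFDerivAt g (th Φ A y0) y0 := (A y0).hasFDerivAt.comp y0 (h.dΦ y0)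
  have hbij : Function.Bijective (th Φ A y0) := by
    have h1 : Function.Injective (th Φ A y0).toLinearMap := hy
    exact ⟨hy, LinearMap.injective_iff_surjective.1 h1⟩
  set Le : X ≃L[ℝ] X := (LinearEquiv.ofBijective (th Φ A y0).toLinearMap hbij).toContinuousLinearEquiv
    with hLe
  have hgd' : HasFDerivAt g (Le : X →L[ℝ] X) y0 := by
    have : (Le : X →L[ℝ] X) = th Φ A y0 := by
      ext v
      rfl
    rw [this]
    exact hgd
  set e := (hgs.contDiffAt (x := y0)).toOpenPartialHomeomorph g hgd' (by simp) with he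
  have hecoe : (e : X → X) = g := rfl
  have hzs : y0 ∈ e.source :=
    (hgs.contDiffAt (x := y0)).mem_toOpenPartialHomeomorph_source hgd' (by simp)
  obtain ⟨δ, hδ, hδs⟩ := Metric.mem_nhds_iff.1 (e.open_source.mem_nhds hzs)
  refine ⟨δ, hδ, fun a ha b hb hab => ?_⟩
  refine e.injOn (hδs ha) (hδs hb) ?_
  show A y0 (Φ a) = A y0 (Φ b)
  rw [hab]

lemma gram_of_related {p : M} {q : N} {L : tan (inc M) p → tan (inc N) q}
    (hrel : LRelated (inc M) (inc N) p q L) (hM : SubMf M) (hN : SubMf N)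
    {A0 : E →L[ℝ] tan (inc M) p} {A0' : E' →L[ℝ] tan (inc M) p}
    {Φ : tan (inc M) p → E} {A : tan (inc M) p → E →L[ℝ] tan (inc M) p}
    (h : RayMap M (p : E) A0 Φ A)
    {Φ' : tan (inc M) p → E'} {A' : tan (inc M) p → E' →L[ℝ] tan (inc M) p}
    (h' : RayMap N (q : E') A0' Φ' A')
    (hrM : ∀ ξ : tan (inc M) p, rexp (inc M) p ξ = ⟨Φ ξ, h.frMap.mem ξ⟩)
    (hrN : ∀ ξ : tan (inc M) p, rexp (inc N) q (L ξ) = ⟨Φ' ξ, h'.frMap.mem ξ⟩)
    (y v w : tan (inc M) p) :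
    ⟪fderiv ℝ Φ y v, fderiv ℝ Φ y w⟫ = ⟪fderiv ℝ Φ' y v, fderiv ℝ Φ' y w⟫ := by
  have key : ∀ y0 ∈ {y | Function.Injective (th Φ A y)}, ∀ v,
      ‖fderiv ℝ Φ' y0 v‖ = ‖fderiv ℝ Φ y0 v‖ := by
    intro y0 hy0 v
    obtain ⟨δ, hδ, hinj⟩ := loc_inj h.frMap hy0
    have hinj' : InjOn (rexp (inc M) p) (Metric.ball y0 δ) := by
      intro a ha b hb hab
      rw [hrM, hrM] at hab
      exact hinj ha hb (congrArg Subtype.val hab)
    obtain ⟨F, hF, -, hiso⟩ := hrel (Metric.ball y0 δ) Metric.isOpen_ball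
      ((convex_ball y0 δ).isPathConnected (Metric.nonempty_ball.2 hδ)).isConnected hinj'
    have hy0b : y0 ∈ Metric.ball y0 δ := Metric.mem_ball_self hδ
    obtain ⟨G, hG1, hG2, hG3⟩ := hiso (rexp (inc M) p y0) ⟨y0, hy0b, rfl⟩
    have hx : inc M (rexp (inc M) p y0) = Φ y0 := by rw [hrM]; rfl
    have hcont : Continuous (rexp (inc M) p) := by
      have : rexp (inc M) p = fun ξ => ⟨Φ ξ, h.frMap.mem ξ⟩ := funext hrM
      rw [this]
      exact h.smΦ.continuous.subtype_mk _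
    have hten : Tendsto (rexp (inc M) p) (𝓝 y0)
        (𝓝[rexp (inc M) p '' Metric.ball y0 δ] (rexp (inc M) p y0)) := by
      refine tendsto_nhdsWithin_iff.2 ⟨hcont.tendsto y0, ?_⟩
      filter_upwards [Metric.ball_mem_nhds y0 hδ] with y hy using ⟨y, hy, rfl⟩
    have hev : ∀ᶠ y in 𝓝 y0, G (Φ y) = Φ' y := by
      filter_upwards [hten.eventually hG2, Metric.ball_mem_nhds y0 hδ] with y h1 h2
      rw [hF y h2, hrN, hrM] at h1
      exact h1
    rw [hx] at hG1 hG3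
    have h1 : HasFDerivAt (fun y => G (Φ y)) ((fderiv ℝ G (Φ y0)).comp (fderiv ℝ Φ y0)) y0 :=
      (hG1.differentiableAt (by simp)).hasFDerivAt.comp y0 (h.frMap.dΦ y0)
    have h2 : HasFDerivAt Φ' ((fderiv ℝ G (Φ y0)).comp (fderiv ℝ Φ y0)) y0 :=
      h1.congr_of_eventuallyEq (hev.mono fun y hy => hy.symm)
    rw [h2.fderiv, ContinuousLinearMap.comp_apply]
    refine (hG3 _ ?_).2
    rw [tan_inc]
    have h3 := h.frMap.tan hM y0 v
    rw [hrM]
    exact h3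
  have hpol : ∀ {V : Type} [NormedAddCommGroup V] [InnerProductSpace ℝ V] (a b : V),
      ⟪a, b⟫ = (‖a + b‖ ^ 2 - ‖a‖ ^ 2 - ‖b‖ ^ 2) / 2 := by
    intro V _ _ a b
    rw [norm_add_sq_real]
    ring
  have hcl : IsClosed {y | ⟪fderiv ℝ Φ y v, fderiv ℝ Φ y w⟫ = ⟪fderiv ℝ Φ' y v, fderiv ℝ Φ' y w⟫} := by
    have c1 := h.smΦ.continuous_fderiv (by simp)
    have c2 := h'.smΦ.continuous_fderiv (by simp)
    exact isClosed_eq ((c1.clm_apply continuous_const).inner (c1.clm_apply continuous_const))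
      ((c2.clm_apply continuous_const).inner (c2.clm_apply continuous_const))
  have hsub : {y | Function.Injective (th Φ A y)}
      ⊆ {y | ⟪fderiv ℝ Φ y v, fderiv ℝ Φ y w⟫ = ⟪fderiv ℝ Φ' y v, fderiv ℝ Φ' y w⟫} := by
    intro y0 hy0
    show ⟪fderiv ℝ Φ y0 v, fderiv ℝ Φ y0 w⟫ = ⟪fderiv ℝ Φ' y0 v, fderiv ℝ Φ' y0 w⟫
    rw [hpol, hpol, ← map_add, ← map_add, key y0 hy0, key y0 hy0, key y0 hy0]
  exact (closure_minimal hsub hcl) (dense_inj hM h y)

/-- The Ambrose conjecture. -/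
theorem ambrose_conj {n : ℕ} (hM : CRM n (inc M)) (hN : CRM n (inc N)) (p : M) (q : N)
    (L : tan (inc M) p → tan (inc N) q) (hL : IsIsoTan (inc M) (inc N) p q L)
    (hrel : LRelated (inc M) (inc N) p q L) :
    ∃ (S : Type) (_ : TopologicalSpace S) (ι : S → E) (e : S) (L₁ : tan ι e → tan (inc M) p)
      (L₂ : tan ι e → tan (inc N) q) (π₁ : S → M) (π₂ : S → N),
      CRM n ι ∧ IsIsoTan ι (inc M) e p L₁ ∧ IsIsoTan ι (inc N) e q L₂ ∧
      IsRiemCover ι (inc M) π₁ ∧ IsRiemCover ι (inc N) π₂ ∧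
      (∀ v, π₁ (rexp ι e v) = rexp (inc M) p (L₁ v)) ∧
      (∀ v, π₂ (rexp ι e v) = rexp (inc N) q (L₂ v)) ∧ ∀ v, L (L₁ v) = L₂ v := by
  have hMs := hM.sub.subMf
  have hNs := hN.sub.subMf
  let J : tangent M (p : E) ≃ₗᵢ[ℝ] tan (inc M) p := LinearIsometryEquiv.ofEq _ _ (tan_inc p).symm
  have hJ : ∀ v, (J.symm v : E) = v := fun v => rfl
  let Ll : tan (inc M) p →ₗᵢ[ℝ] tan (inc N) q :=
    { toLinearMap := hL.1.mk' L
      norm_map' := hL.2.1 }
  let Le : tan (inc M) p ≃ₗᵢ[ℝ] tan (inc N) q := LinearIsometryEquiv.ofSurjective Ll hL.2.2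
  have hLe : ∀ v, Le v = L v := fun v => rfl
  let J' : tangent N (q : E') ≃ₗᵢ[ℝ] tan (inc M) p :=
    (LinearIsometryEquiv.ofEq _ _ (tan_inc q).symm).trans Le.symm
  have hJ' : ∀ v, (J'.symm v : E') = L v := fun v => rfl
  obtain ⟨Φ, A, h⟩ := exists_rayMap hMs hM.geod p.2 (isCofr_cof (p : E) J)
  obtain ⟨Φ', A', h'⟩ := exists_rayMap hNs hN.geod q.2 (isCofr_cof (q : E') J')
  have hrM : ∀ ξ : tan (inc M) p, rexp (inc M) p ξ = ⟨Φ ξ, h.frMap.mem ξ⟩ := fun ξ =>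
    rexp_inc hMs hM.geod h (by rw [adjL_cof]; exact hJ ξ)
  have hrN : ∀ ξ : tan (inc M) p, rexp (inc N) q (L ξ) = ⟨Φ' ξ, h'.frMap.mem ξ⟩ := fun ξ =>
    rexp_inc hNs hN.geod h' (by rw [adjL_cof]; exact hJ' ξ)
  have hm := match_of_gram hMs hNs h h' (gram_of_related hrel hMs hNs h h' hrM hrN)
  exact common_cover hM hN p q L hL J hJ J' hJ' h h' hm

end Pool.Agent.H782.Am
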